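import Mathlib

set_option autoImplicit false

open Complex MeasureTheory Set Filter Asymptotics Topology

namespace Pool.Agent.Lib.MP_155064_nt

/-- The fractional part on `(1, ∞)`, extended by zero. -/
noncomputable def fr (x : ℝ) : ℂ := if 1 < x then ((Int.fract x : ℝ) : ℂ) else 0

lemma norm_fr_le (x : ℝ) : ‖fr x‖ ≤ 1 := by
  unfold fr
  split_ifs
  · rw [Complex.norm_real, Real.norm_eq_abs, abs_of_nonneg (Int.fract_nonneg x)]
    exact (Int.fract_lt_one x).le
  · simp

lemma measurable_fr : Measurable fr := by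
  unfold fr
  apply Measurable.ite measurableSet_Ioi
  · exact Complex.measurable_ofReal.comp measurable_fract
  · exact measurable_const

lemma locallyIntegrableOn_fr : LocallyIntegrableOn fr (Ioi 0) := by
  intro x hx
  refine ⟨Ioi 0 ∩ Ioo (x - 1) (x + 1), ?_, ?_⟩
  · exact inter_mem self_mem_nhdsWithin (mem_nhdsWithin_of_mem_nhds (Ioo_mem_nhds (by linarith) (by linarith)))
  · apply Measure.integrableOn_of_bounded (M := 1)
    · exact (lt_of_le_of_lt (measure_mono inter_subset_right) (by simp)).ne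
    · exact measurable_fr.aestronglyMeasurable
    · exact Eventually.of_forall norm_fr_le

lemma differentiableAt_mellin_fr {s : ℂ} (hs : s.re < 0) : DifferentiableAt ℂ (mellin fr) s := by
  apply mellin_differentiableAt_of_isBigO_rpow (a := 0) (b := s.re - 1) locallyIntegrableOn_fr
    _ hs _ (by linarith)
  · simp only [neg_zero, Real.rpow_zero]
    apply IsBigO.of_bound 1
    filter_upwards with x
    simpa using norm_fr_le x
  · apply IsBigO.of_bound 1
    have : Ioo (0:ℝ) 1 ∈ 𝓝[>] (0:ℝ) := Ioo_mem_nhdsGT one_pos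
    filter_upwards [this] with x hx
    have : fr x = 0 := by
      unfold fr; rw [if_neg (not_lt.mpr hx.2.le)]
    rw [this]; simp

lemma mellin_fr_eq (s : ℂ) : mellin fr (-s) =
    ∫ t in Ioi (1:ℝ), ((Int.fract t : ℝ) : ℂ) * (t:ℂ) ^ (-(s + 1)) := by
  unfold mellin
  have h1 : ∀ t : ℝ, t ∈ Ioi (0:ℝ) → (t : ℂ) ^ (-s - 1) • fr t =
      (Ioi (1:ℝ)).indicator (fun t => ((Int.fract t : ℝ) : ℂ) * (t:ℂ) ^ (-(s + 1))) t := by
    intro t _
    unfold fr
    by_cases h : 1 < t
    · rw [if_pos h, indicator_of_mem (by exact h)]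
      rw [smul_eq_mul, mul_comm]; congr 2; ring
    · rw [if_neg h, indicator_of_notMem (by exact h)]; simp
  rw [setIntegral_congr_fun measurableSet_Ioi h1]
  rw [setIntegral_indicator measurableSet_Ioi]
  congr 2
  exact inter_eq_right.mpr (Ioi_subset_Ioi zero_le_one)

lemma norm_mellin_fr_le {s : ℂ} (hs : 0 < s.re) : ‖mellin fr (-s)‖ ≤ 1 / s.re := by
  rw [mellin_fr_eq]
  have h2 : ∫ t in Ioi (1:ℝ), t ^ (-(s.re + 1)) = 1 / s.re := by
    rw [integral_Ioi_rpow_of_lt (by linarith) one_pos]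
    simp
  rw [← h2]
  apply norm_integral_le_of_norm_le
  · exact integrableOn_Ioi_rpow_of_lt (by linarith) one_pos
  · filter_upwards [ae_restrict_mem measurableSet_Ioi] with t ht
    have ht' : (0:ℝ) < t := lt_trans one_pos ht
    rw [norm_mul, Complex.norm_real, Real.norm_eq_abs, abs_of_nonneg (Int.fract_nonneg t),
      Complex.norm_cpow_eq_rpow_re_of_pos ht']
    have : (-(s + 1)).re = -(s.re + 1) := by simp
    rw [this]
    have h3 : Int.fract t ≤ 1 := (Int.fract_lt_one t).le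
    have h4 : 0 ≤ t ^ (-(s.re + 1)) := by positivity
    nlinarith

/-- The classical representation for `Re s > 1`. -/
lemma zeta_eq_of_one_lt_re {s : ℂ} (hs : 1 < s.re) :
    riemannZeta s = s / (s - 1) - s * mellin fr (-s) := by
  have h1 : LSeries 1 s = riemannZeta s := by
    exact LSeries_one_eq_riemannZeta hs
  have h2 : LSeries (fun _ => (1:ℂ)) s = s * ∫ t in Ioi (1 : ℝ),
      (∑ k ∈ Finset.Icc 1 ⌊t⌋₊, (1:ℂ)) * t ^ (-(s + 1)) := by
    apply LSeries_eq_mul_integral' (fun _ => (1:ℂ)) (r := 1) zero_le_one hs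
    apply IsBigO.of_bound 1
    filter_upwards with n
    simp
  have h3 : ∫ t in Ioi (1 : ℝ), (∑ k ∈ Finset.Icc 1 ⌊t⌋₊, (1:ℂ)) * t ^ (-(s + 1)) =
      ∫ t in Ioi (1 : ℝ), ((t:ℂ) ^ (-s) - ((Int.fract t : ℝ) : ℂ) * (t:ℂ) ^ (-(s + 1))) := by
    apply setIntegral_congr_fun measurableSet_Ioi
    intro t ht
    have ht1 : (1:ℝ) < t := ht
    have ht' : (0:ℝ) < t := lt_trans one_pos ht1
    have hne : (t:ℂ) ≠ 0 := by exact_mod_cast ht'.ne'
    have e1 : (∑ k ∈ Finset.Icc 1 ⌊t⌋₊, (1:ℂ)) = (t : ℂ) - ((Int.fract t : ℝ) : ℂ) := by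
      rw [Finset.sum_const, Nat.card_Icc]
      simp only [add_tsub_cancel_right, nsmul_eq_mul, mul_one]
      rw [← Complex.ofReal_sub, Int.self_sub_fract]
      have : ((⌊t⌋₊ : ℕ) : ℤ) = ⌊t⌋ := Int.natCast_floor_eq_floor ht'.le
      rw [← this]; simp
    have e2 : (t:ℂ) ^ (-s) = (t : ℂ) * (t:ℂ) ^ (-(s + 1)) := by
      have := Complex.cpow_add (-(s+1)) 1 hne
      rw [Complex.cpow_one] at this
      rw [mul_comm, ← this]; congr 1; ring
    simp only
    rw [e1, e2]; ring
  have h4 : IntegrableOn (fun t : ℝ => (t:ℂ) ^ (-s)) (Ioi 1) := by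
    apply integrableOn_Ioi_cpow_of_lt _ one_pos
    simp; exact hs
  have h5 : IntegrableOn (fun t : ℝ => ((Int.fract t : ℝ) : ℂ) * (t:ℂ) ^ (-(s + 1))) (Ioi 1) := by
    have hb : IntegrableOn (fun t : ℝ => t ^ (-(s.re + 1))) (Ioi 1) :=
      integrableOn_Ioi_rpow_of_lt (by linarith) one_pos
    apply Integrable.mono' hb
    · apply AEStronglyMeasurable.mul
      · exact (Complex.measurable_ofReal.comp measurable_fract).aestronglyMeasurable
      · have : ContinuousOn (fun t : ℝ => (t:ℂ) ^ (-(s + 1))) (Ioi 1) := by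
          intro t ht
          have ht' : (0:ℝ) < t := lt_trans one_pos ht
          exact (continuousAt_ofReal_cpow_const t _ (Or.inr ht'.ne')).continuousWithinAt
        exact this.aestronglyMeasurable measurableSet_Ioi
    · filter_upwards [ae_restrict_mem measurableSet_Ioi] with t ht
      have ht' : (0:ℝ) < t := lt_trans one_pos ht
      rw [norm_mul, Complex.norm_real, Real.norm_eq_abs, abs_of_nonneg (Int.fract_nonneg t),
        Complex.norm_cpow_eq_rpow_re_of_pos ht']
      have : (-(s + 1)).re = -(s.re + 1) := by simp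
      rw [this]
      have h3 : Int.fract t ≤ 1 := (Int.fract_lt_one t).le
      have h4 : 0 ≤ t ^ (-(s.re + 1)) := by positivity
      nlinarith
  have h6 : ∫ t in Ioi (1 : ℝ), ((t:ℂ) ^ (-s)) = 1 / (s - 1) := by
    have h := integral_Ioi_cpow_of_lt (a := -s) (by simp; exact hs) one_pos
    rw [h]
    have hne : s - 1 ≠ 0 := by
      intro h0
      have := congrArg Complex.re h0
      simp at this; linarith
    have hne' : -s + 1 ≠ 0 := by
      intro h0; apply hne; linear_combination -h0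
    simp only [ofReal_one, one_cpow]
    rw [div_eq_div_iff hne' hne]; ring
  have h7 : (fun _ : ℕ => (1:ℂ)) = 1 := rfl
  rw [← h1, ← h7, h2, h3, integral_sub h4 h5, h6, mellin_fr_eq]
  ring

/-- `(s-1)ζ(s)` in terms of the Mellin transform, for `Re s > 0`. -/
lemma riemannZeta₁_eq {s : ℂ} (hs : 0 < s.re) :
    riemannZeta₁ s = s - s * (s - 1) * mellin fr (-s) := by
  have hopen : IsOpen {z : ℂ | 0 < z.re} := isOpen_lt continuous_const Complex.continuous_re
  have hconv : Convex ℝ {z : ℂ | 0 < z.re} := convex_halfSpace_re_gt 0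
  have h1 : AnalyticOnNhd ℂ riemannZeta₁ {z : ℂ | 0 < z.re} :=
    fun z _ => differentiable_riemannZeta₁.analyticAt z
  have hdiff : DifferentiableOn ℂ (fun s => s - s * (s - 1) * mellin fr (-s)) {z : ℂ | 0 < z.re} := by
    intro z hz
    have hz' : (-z).re < 0 := by simpa using hz
    have hm : DifferentiableAt ℂ (fun s => mellin fr (-s)) z :=
      (differentiableAt_mellin_fr hz').comp z differentiableAt_id.neg
    apply DifferentiableAt.differentiableWithinAt
    fun_prop
  have h2 : AnalyticOnNhd ℂ (fun s => s - s * (s - 1) * mellin fr (-s)) {z : ℂ | 0 < z.re} :=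
    hdiff.analyticOnNhd hopen
  have h3 := h1.eqOn_of_preconnected_of_eventuallyEq h2 hconv.isPreconnected
    (z₀ := 2) (by simp) ?_
  · exact h3 hs
  · have hopen1 : IsOpen {z : ℂ | 1 < z.re} := isOpen_lt continuous_const Complex.continuous_re
    filter_upwards [hopen1.mem_nhds (by norm_num : (1:ℝ) < (2:ℂ).re)] with z hz
    have hz' : 1 < z.re := hz
    have hne : z ≠ 1 := by
      rintro rfl; simp at hz'
    have hne' : z - 1 ≠ 0 := sub_ne_zero.mpr hne
    have e1 := riemannZeta_eq_inv_sub_mul hne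
    have e2 := zeta_eq_of_one_lt_re hz'
    have e3 : riemannZeta₁ z = (z - 1) * riemannZeta z := by
      rw [e1]; field_simp
    rw [e3, e2]; field_simp

/-- Polynomial growth of `(s-1)ζ(s)` to the right of the imaginary axis. -/
theorem norm_riemannZeta₁_le {s : ℂ} (hs : 0 < s.re) :
    ‖riemannZeta₁ s‖ ≤ ‖s‖ * (1 + ‖s - 1‖ / s.re) := by
  rw [riemannZeta₁_eq hs]
  have h1 := norm_mellin_fr_le hs
  calc ‖s - s * (s - 1) * mellin fr (-s)‖ ≤ ‖s‖ + ‖s * (s - 1) * mellin fr (-s)‖ := norm_sub_le _ _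
    _ = ‖s‖ + ‖s‖ * ‖s - 1‖ * ‖mellin fr (-s)‖ := by rw [norm_mul, norm_mul]
    _ ≤ ‖s‖ + ‖s‖ * ‖s - 1‖ * (1 / s.re) := by gcongr
    _ = ‖s‖ * (1 + ‖s - 1‖ / s.re) := by ring

end Pool.Agent.Lib.MP_155064_nt
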