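import Mathlib

set_option autoImplicit false

open Set Filter Topology MeasureTheory
open scoped Nat

namespace Pool.Agent.Lib.MP_155064_nt

/-- Maximum of the Bernoulli polynomial on `[0,1]`. -/
noncomputable def Bmax (k : ℕ) : ℝ := sSup (bernoulliFun k '' Icc 0 1)

/-- Minimum of the Bernoulli polynomial on `[0,1]`. -/
noncomputable def Bmin (k : ℕ) : ℝ := sInf (bernoulliFun k '' Icc 0 1)

/-- The comparison function `-B_{k+1}({x})/(k+1)!`. -/
noncomputable def bet (k : ℕ) (x : ℝ) : ℝ := -(bernoulliFun (k + 1) (Int.fract x) / ((k + 1)! : ℝ))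

noncomputable def top' (k : ℕ) : ℝ := -(Bmin (k + 1)) / ((k + 1)! : ℝ)
noncomputable def bot' (k : ℕ) : ℝ := -(Bmax (k + 1)) / ((k + 1)! : ℝ)

lemma isCompact_image_bern (k : ℕ) : IsCompact (bernoulliFun k '' Icc 0 1) :=
  isCompact_Icc.image (continuous_bernoulliFun k)

lemma bern_le_Bmax (k : ℕ) {x : ℝ} (hx : x ∈ Icc (0:ℝ) 1) : bernoulliFun k x ≤ Bmax k :=
  le_csSup (isCompact_image_bern k).bddAbove ⟨x, hx, rfl⟩

lemma Bmin_le_bern (k : ℕ) {x : ℝ} (hx : x ∈ Icc (0:ℝ) 1) : Bmin k ≤ bernoulliFun k x :=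
  csInf_le (isCompact_image_bern k).bddBelow ⟨x, hx, rfl⟩

lemma exists_eq_Bmax (k : ℕ) : ∃ x ∈ Icc (0:ℝ) 1, bernoulliFun k x = Bmax k := by
  have := (isCompact_image_bern k).sSup_mem ⟨_, ⟨0, by simp, rfl⟩⟩
  exact this

lemma exists_eq_Bmin (k : ℕ) : ∃ x ∈ Icc (0:ℝ) 1, bernoulliFun k x = Bmin k := by
  have := (isCompact_image_bern k).sInf_mem ⟨_, ⟨0, by simp, rfl⟩⟩
  exact this

lemma fract_mem (x : ℝ) : Int.fract x ∈ Icc (0:ℝ) 1 :=
  ⟨Int.fract_nonneg x, (Int.fract_lt_one x).le⟩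

lemma bet_le_top (k : ℕ) (x : ℝ) : bet k x ≤ top' k := by
  unfold bet top'
  rw [neg_div]
  have := Bmin_le_bern (k + 1) (fract_mem x)
  have hf : (0:ℝ) < ((k + 1)! : ℝ) := by positivity
  gcongr

lemma bot_le_bet (k : ℕ) (x : ℝ) : bot' k ≤ bet k x := by
  unfold bet bot'
  rw [neg_div]
  have := bern_le_Bmax (k + 1) (fract_mem x)
  have hf : (0:ℝ) < ((k + 1)! : ℝ) := by positivity
  gcongr

lemma bet_add_int (k : ℕ) (x : ℝ) (n : ℤ) : bet k (x + n) = bet k x := by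
  unfold bet; rw [Int.fract_add_intCast]

lemma bet_add_nat (k : ℕ) (x : ℝ) (n : ℕ) : bet k (x + n) = bet k x := by
  unfold bet; rw [Int.fract_add_natCast]

lemma bet_sub_int (k : ℕ) (x : ℝ) (n : ℤ) : bet k (x - n) = bet k x := by
  unfold bet; rw [Int.fract_sub_intCast]

lemma bern_endpoints (k : ℕ) : bernoulliFun (k + 2) 0 = bernoulliFun (k + 2) 1 := by
  rw [bernoulliFun_eval_one]; simp

lemma continuous_bet (k : ℕ) : Continuous (bet (k + 1)) := by
  have h1 : ContinuousOn (bernoulliFun (k + 2)) (Icc 0 1) := (continuous_bernoulliFun _).continuousOn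
  have h2 : Continuous (bernoulliFun (k + 2) ∘ Int.fract) :=
    h1.comp_fract'' (bern_endpoints k)
  unfold bet
  exact (h2.div_const _).neg

/-- Right derivative of the comparison functions. -/
lemma hasDerivWithinAt_bet (k : ℕ) (x : ℝ) :
    HasDerivWithinAt (bet (k + 1)) (bet k x) (Ici x) x := by
  have hf1 : (((k + 1)! : ℕ) : ℝ) ≠ 0 := by positivity
  have h1 : HasDerivAt (fun y : ℝ => -(bernoulliFun (k + 1 + 1) (y - ⌊x⌋) / ((k + 1 + 1)! : ℝ)))
      (-(((k + 1 + 1 : ℕ) : ℝ) * bernoulliFun (k + 1 + 1 - 1) (x - ⌊x⌋) / ((k + 1 + 1)! : ℝ))) x := by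
    have h2 := hasDerivAt_bernoulliFun (k + 1 + 1) (x - ⌊x⌋)
    have h3 : HasDerivAt (fun y : ℝ => bernoulliFun (k + 1 + 1) (y - ⌊x⌋))
        (((k + 1 + 1 : ℕ) : ℝ) * bernoulliFun (k + 1 + 1 - 1) (x - ⌊x⌋)) x := by
      exact h2.comp_sub_const x _
    exact (h3.div_const _).neg
  have e1 : -(((k + 1 + 1 : ℕ) : ℝ) * bernoulliFun (k + 1 + 1 - 1) (x - ⌊x⌋) / ((k + 1 + 1)! : ℝ)) =
      bet k x := by
    unfold bet
    rw [Nat.add_sub_cancel, Int.self_sub_floor, Nat.factorial_succ (k + 1)]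
    push_cast
    have : ((k:ℝ) + 1 + 1) ≠ 0 := by positivity
    field_simp
  rw [e1] at h1
  apply h1.hasDerivWithinAt.congr_of_eventuallyEq
  · have hmem : Ico x (⌊x⌋ + 1 : ℝ) ∈ 𝓝[Ici x] x := Ico_mem_nhdsGE (Int.lt_floor_add_one x)
    filter_upwards [hmem] with y hy
    unfold bet
    have : ⌊y⌋ = ⌊x⌋ := by
      rw [Int.floor_eq_iff]
      exact ⟨le_trans (Int.floor_le x) hy.1, hy.2⟩
    rw [← Int.self_sub_floor, this]
  · unfold bet
    rw [← Int.self_sub_floor]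

lemma bet_zero_eq (x : ℝ) : bet 0 x = 1 / 2 - Int.fract x := by
  unfold bet; simp [bernoulliFun_one]

/-- Slope `-1` of the sawtooth inside a cell. -/
lemma bet_zero_sub {x y : ℝ} (h : ⌊x⌋ = ⌊y⌋) : bet 0 y - bet 0 x = -(y - x) := by
  rw [bet_zero_eq, bet_zero_eq, ← Int.self_sub_floor, ← Int.self_sub_floor, h]; ring

/-- The Bernoulli polynomials do not vanish identically on `(0,1)`. -/
lemma bern_not_zero (k : ℕ) : ¬ ∀ x ∈ Ioo (0:ℝ) 1, bernoulliFun k x = 0 := by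
  induction k with
  | zero =>
    intro h
    have := h (1 / 2) (by norm_num)
    simp at this
  | succ k ih =>
    intro h
    apply ih
    intro x hx
    have h1 := hasDerivAt_bernoulliFun (k + 1) x
    have h2 : bernoulliFun (k + 1) =ᶠ[𝓝 x] fun _ => 0 := by
      filter_upwards [isOpen_Ioo.mem_nhds hx] with y hy using h y hy
    have h3 := h1.unique ((hasDerivAt_const x (0:ℝ)).congr_of_eventuallyEq h2)
    simp only [Nat.add_sub_cancel] at h3
    have : ((k + 1 : ℕ) : ℝ) ≠ 0 := by positivity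
    rcases mul_eq_zero.mp h3 with h4 | h4
    · exact absurd h4 this
    · exact h4

lemma eq_zero_of_nonneg_of_integral {f : ℝ → ℝ} (hf : Continuous f)
    (h0 : ∀ x ∈ Icc (0:ℝ) 1, 0 ≤ f x) (hint : ∫ x in (0:ℝ)..1, f x = 0) :
    ∀ x ∈ Ioo (0:ℝ) 1, f x = 0 := by
  intro x hx
  by_contra hne
  have hpos : 0 < f x := lt_of_le_of_ne (h0 x ⟨hx.1.le, hx.2.le⟩) (Ne.symm hne)
  have := intervalIntegral.integral_pos (a := 0) (b := 1) (by norm_num) hf.continuousOn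
    (fun y hy => h0 y ⟨hy.1.le, hy.2⟩) ⟨x, ⟨hx.1.le, hx.2.le⟩, hpos⟩
  linarith

lemma Bmin_neg (k : ℕ) : Bmin (k + 1) < 0 := by
  by_contra hcon
  push Not at hcon
  apply bern_not_zero (k + 1)
  apply eq_zero_of_nonneg_of_integral (continuous_bernoulliFun _)
  · intro x hx
    exact le_trans hcon (Bmin_le_bern _ hx)
  · exact integral_bernoulliFun_eq_zero (by omega)

lemma Bmax_pos (k : ℕ) : 0 < Bmax (k + 1) := by
  by_contra hcon
  push Not at hcon
  apply bern_not_zero (k + 1)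
  have := eq_zero_of_nonneg_of_integral (f := fun x => -bernoulliFun (k + 1) x)
    (continuous_bernoulliFun _).neg ?_ ?_
  · intro x hx
    have := this x hx
    simpa using this
  · intro x hx
    have := le_trans (bern_le_Bmax (k + 1) hx) hcon
    simpa using this
  · rw [intervalIntegral.integral_neg, integral_bernoulliFun_eq_zero (by omega)]; simp

lemma top_pos (k : ℕ) : 0 < top' k := by
  unfold top'
  have := Bmin_neg k
  have h : 0 < -Bmin (k + 1) := by linarith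
  positivity

lemma bot_neg (k : ℕ) : bot' k < 0 := by
  unfold bot'
  have := Bmax_pos k
  rw [neg_div]
  have : 0 < Bmax (k + 1) / ((k + 1)! : ℝ) := by positivity
  linarith

/-- For `k ≥ 1` the extreme values are attained. -/
lemma exists_bet_eq_top (k : ℕ) : ∃ x : ℝ, bet (k + 1) x = top' (k + 1) := by
  obtain ⟨x, hx, he⟩ := exists_eq_Bmin (k + 2)
  rcases eq_or_lt_of_le hx.2 with h | h
  · refine ⟨0, ?_⟩
    unfold bet top'
    have : bernoulliFun (k + 1 + 1) (Int.fract 0) = Bmin (k + 1 + 1) := by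
      rw [Int.fract_zero, ← he, h]; exact bern_endpoints k
    rw [this, neg_div]
  · refine ⟨x, ?_⟩
    unfold bet top'
    rw [Int.fract_eq_self.mpr ⟨hx.1, h⟩, neg_div, ← he]

lemma exists_bet_eq_bot (k : ℕ) : ∃ x : ℝ, bet (k + 1) x = bot' (k + 1) := by
  obtain ⟨x, hx, he⟩ := exists_eq_Bmax (k + 2)
  rcases eq_or_lt_of_le hx.2 with h | h
  · refine ⟨0, ?_⟩
    unfold bet bot'
    have : bernoulliFun (k + 1 + 1) (Int.fract 0) = Bmax (k + 1 + 1) := by
      rw [Int.fract_zero, ← he, h]; exact bern_endpoints k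
    rw [this, neg_div]
  · refine ⟨x, ?_⟩
    unfold bet bot'
    rw [Int.fract_eq_self.mpr ⟨hx.1, h⟩, neg_div, ← he]

/-- Quantitative size of the extreme values for odd `k` (even Bernoulli index). -/
lemma top_bot_lower (j : ℕ) (hj : j ≠ 0) :
    1 / (2 * Real.pi) ^ (2 * j) ≤ top' (2 * j - 1) ∧ bot' (2 * j - 1) ≤ -(1 / (2 * Real.pi) ^ (2 * j)) := by
  have hidx : 2 * j - 1 + 1 = 2 * j := by omega
  have hpi := Real.pi_pos
  have hz := hasSum_zeta_nat hj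
  set Z : ℝ := ((-1) ^ (j + 1) * 2 ^ (2 * j - 1) * Real.pi ^ (2 * j) * bernoulli (2 * j) / (2 * j)!) with hZ
  have hZ1 : 1 ≤ Z := by
    have := sum_le_hasSum {1} (fun n _ => by positivity) hz
    simpa using this
  -- value at 0 : B_{2j}/(2j)! = (-1)^(j+1) * 2 * Z/(2π)^(2j)
  have hB : (bernoulli (2 * j) : ℝ) / (2 * j)! = (-1) ^ (j + 1) * (2 * Z / (2 * Real.pi) ^ (2 * j)) := by
    rw [hZ]
    have h1 : ((-1:ℝ) ^ (j + 1)) * ((-1:ℝ) ^ (j + 1)) = 1 := by
      rw [← pow_add, ← two_mul, pow_mul]; simp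
    have h2 : (2:ℝ) * 2 ^ (2 * j - 1) = 2 ^ (2 * j) := by
      rw [← pow_succ']; congr 1
    have h3 : (2 * Real.pi) ^ (2 * j) ≠ 0 := by positivity
    rw [mul_div_assoc', eq_div_iff h3]
    rw [mul_pow]
    calc (bernoulli (2 * j) : ℝ) / (2 * j)! * (2 ^ (2 * j) * Real.pi ^ (2 * j))
        = ((-1:ℝ) ^ (j + 1) * (-1:ℝ) ^ (j + 1)) * ((bernoulli (2 * j) : ℝ) / (2 * j)! *
          ((2 * 2 ^ (2 * j - 1)) * Real.pi ^ (2 * j))) := by rw [h1, h2]; ring
      _ = _ := by ring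
  have h0 : bernoulliFun (2 * j) 0 / (2 * j)! = (-1) ^ (j + 1) * (2 * Z / (2 * Real.pi) ^ (2 * j)) := by
    rw [bernoulliFun_eval_zero, hB]
  have hhalf : bernoulliFun (2 * j) 2⁻¹ / (2 * j)! =
      -((-1) ^ (j + 1) * ((1 - 2 / 2 ^ (2 * j)) * (2 * Z / (2 * Real.pi) ^ (2 * j)))) := by
    rw [bernoulliFun_eval_half, mul_div_assoc, hB]; ring
  have hfac : 1 / 2 ≤ 1 - 2 / (2:ℝ) ^ (2 * j) := by
    have : (4:ℝ) ≤ 2 ^ (2 * j) := by
      calc (4:ℝ) = 2 ^ 2 := by norm_num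
        _ ≤ 2 ^ (2 * j) := pow_le_pow_right₀ (by norm_num) (by omega)
    have : 2 / (2:ℝ) ^ (2 * j) ≤ 2 / 4 := by gcongr
    linarith
  set q : ℝ := 1 / (2 * Real.pi) ^ (2 * j) with hq
  have hq0 : 0 < q := by positivity
  have hv1 : q ≤ 2 * Z / (2 * Real.pi) ^ (2 * j) := by
    rw [hq]; gcongr; linarith
  have hv2 : q ≤ (1 - 2 / (2:ℝ) ^ (2 * j)) * (2 * Z / (2 * Real.pi) ^ (2 * j)) := by
    have h1 : 2 * q ≤ 2 * Z / (2 * Real.pi) ^ (2 * j) := by
      rw [hq, mul_one_div]; gcongr; linarith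
    nlinarith
  have hf : (0:ℝ) < ((2 * j)! : ℝ) := by positivity
  have m0 : (0:ℝ) ∈ Icc (0:ℝ) 1 := by simp
  have mh : (2⁻¹:ℝ) ∈ Icc (0:ℝ) 1 := by constructor <;> norm_num
  have g1 : ∀ x ∈ Icc (0:ℝ) 1, -(bernoulliFun (2 * j) x / (2 * j)!) ≤ top' (2 * j - 1) := by
    intro x hx
    unfold top'
    rw [hidx, neg_div]
    have := Bmin_le_bern (2 * j) hx
    gcongr
  have g2 : ∀ x ∈ Icc (0:ℝ) 1, bot' (2 * j - 1) ≤ -(bernoulliFun (2 * j) x / (2 * j)!) := by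
    intro x hx
    unfold bot'
    rw [hidx, neg_div]
    have := bern_le_Bmax (2 * j) hx
    gcongr
  have a1 := g1 0 m0
  have a2 := g1 2⁻¹ mh
  have a3 := g2 0 m0
  have a4 := g2 2⁻¹ mh
  rw [h0] at a1 a3
  rw [hhalf] at a2 a4
  rcases neg_one_pow_eq_or ℝ (j + 1) with h | h
  · rw [h] at a1 a2 a3 a4
    constructor <;> linarith
  · rw [h] at a1 a2 a3 a4
    constructor <;> linarith

end Pool.Agent.Lib.MP_155064_nt
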