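import Pool.Agent.Lib.MP_155064_nt.Kolmogorov
import Mathlib

set_option autoImplicit false

open Filter Topology MeasureTheory Finset
open scoped Nat

namespace Pool.Agent.Lib.MP_155064_nt

/-- Leibniz sum for two families of functions. -/
noncomputable def leib (a g : ℕ → ℝ → ℝ) (m : ℕ) (x : ℝ) : ℝ :=
  ∑ p ∈ antidiagonal m, (m.choose p.1 : ℝ) * (a p.1 x * g p.2 x)

lemma hasDerivAt_leib {a g : ℕ → ℝ → ℝ} {m : ℕ} {x : ℝ}
    (ha : ∀ j ≤ m, HasDerivAt (a j) (a (j + 1) x) x)
    (hg : ∀ j ≤ m, HasDerivAt (g j) (g (j + 1) x) x) :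
    HasDerivAt (leib a g m) (leib a g (m + 1) x) x := by
  have h1 : HasDerivAt (fun y => ∑ p ∈ antidiagonal m, (m.choose p.1 : ℝ) * (a p.1 y * g p.2 y))
      (∑ p ∈ antidiagonal m, (m.choose p.1 : ℝ) * (a (p.1 + 1) x * g p.2 x +
        a p.1 x * g (p.2 + 1) x)) x := by
    apply HasDerivAt.fun_sum
    intro p hp
    have hp' := mem_antidiagonal.mp hp
    exact ((ha p.1 (by omega)).mul (hg p.2 (by omega))).const_mul _
  have h2 : leib a g (m + 1) x = ∑ p ∈ antidiagonal m, (m.choose p.1 : ℝ) * (a (p.1 + 1) x * g p.2 x +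
        a p.1 x * g (p.2 + 1) x) := by
    unfold leib
    rw [sum_antidiagonal_choose_succ_mul (fun i j => a i x * g j x) m, ← sum_add_distrib]
    apply sum_congr rfl
    intro p hp
    have hp' := mem_antidiagonal.mp hp
    have : m.choose p.2 = m.choose p.1 := by
      rw [← hp', Nat.choose_symm_add]
    rw [this]
    ring
  rw [h2]
  exact h1

/-- The fixed bump function. -/
noncomputable def bump : ContDiffBump (0:ℝ) := ⟨1 / 2, 1, by norm_num, by norm_num⟩

noncomputable def rr (R : ℝ) (i : ℕ) (x : ℝ) : ℝ := (1 / R) ^ i * iteratedDeriv i bump (x / R)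

lemma bump_smooth : ContDiff ℝ ((⊤ : ℕ∞) : WithTop ℕ∞) bump := bump.contDiff

lemma hasDerivAt_rr (R : ℝ) (i : ℕ) (x : ℝ) : HasDerivAt (rr R i) (rr R (i + 1) x) x := by
  have hd : Differentiable ℝ (iteratedDeriv i bump) := by
    apply ContDiff.differentiable_iteratedDeriv i (bump_smooth)
    exact_mod_cast ENat.natCast_lt_top i
  have h1 : HasDerivAt (iteratedDeriv i bump) (iteratedDeriv (i + 1) bump (x / R)) (x / R) := by
    rw [iteratedDeriv_succ]
    exact (hd (x / R)).hasDerivAt
  have h2 : HasDerivAt (fun y : ℝ => y / R) (1 / R) x := (hasDerivAt_id x).div_const R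
  have h3 := (h1.comp x h2).const_mul ((1 / R) ^ i)
  have e : rr R (i + 1) x = (1 / R) ^ i * (iteratedDeriv (i + 1) bump (x / R) * (1 / R)) := by
    unfold rr; rw [pow_succ]; ring
  rw [e]
  exact h3

lemma hasCompactSupport_iteratedDeriv (i : ℕ) : HasCompactSupport (iteratedDeriv i bump) := by
  induction i with
  | zero => rw [iteratedDeriv_zero]; exact bump.hasCompactSupport
  | succ n ih => rw [iteratedDeriv_succ]; exact ih.deriv

lemma exists_rr_bound (m : ℕ) : ∃ M : ℝ, 0 < M ∧ ∀ i ≤ m, ∀ y : ℝ, |iteratedDeriv i bump y| ≤ M := by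
  have h : ∀ i : ℕ, ∃ C : ℝ, ∀ y, |iteratedDeriv i bump y| ≤ C := by
    intro i
    have hc : Continuous (iteratedDeriv i bump) := by
      apply ContDiff.continuous_iteratedDeriv i (bump_smooth)
      exact_mod_cast le_top
    obtain ⟨C, hC⟩ := hc.bounded_above_of_compact_support (hasCompactSupport_iteratedDeriv i)
    exact ⟨C, hC⟩
  choose C hC using h
  refine ⟨1 + ∑ i ∈ range (m + 1), |C i|, ?_, ?_⟩
  · have : 0 ≤ ∑ i ∈ range (m + 1), |C i| := sum_nonneg (fun _ _ => abs_nonneg _)
    linarith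
  · intro i hi y
    have h1 : |C i| ≤ ∑ i ∈ range (m + 1), |C i| :=
      single_le_sum (f := fun i => |C i|) (fun _ _ => abs_nonneg _) (mem_range.mpr (by omega))
    have h2 := hC i y
    have h3 := le_abs_self (C i)
    linarith

lemma iteratedDeriv_bump_zero (i : ℕ) {y : ℝ} (hy : 1 < |y|) : iteratedDeriv i bump y = 0 := by
  have h : (bump : ℝ → ℝ) =ᶠ[𝓝 y] fun _ => 0 := by
    have : ∀ᶠ z in 𝓝 y, 1 < |z| := (continuous_abs.tendsto y).eventually (lt_mem_nhds hy)
    filter_upwards [this] with z hz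
    apply bump.zero_of_le_dist
    rw [Real.dist_eq, sub_zero]
    exact hz.le
  have h2 := h.iteratedDeriv_eq i
  rw [h2]
  simp

lemma rr_zero (R : ℝ) (hR : 0 < R) (i : ℕ) {x : ℝ} (hx : R < |x|) : rr R i x = 0 := by
  unfold rr
  rw [iteratedDeriv_bump_zero, mul_zero]
  rw [abs_div, abs_of_pos hR, lt_div_iff₀ hR]; linarith

lemma rr_zero_zero (R : ℝ) : rr R 0 0 = 1 := by
  unfold rr
  rw [iteratedDeriv_zero, pow_zero, one_mul, zero_div]
  exact bump.eventuallyEq_one.eq_of_nhds

lemma rr_one_zero (R : ℝ) : rr R 1 0 = 0 := by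
  unfold rr
  rw [iteratedDeriv_one, zero_div, bump.eventuallyEq_one.deriv_eq]
  simp

lemma round_shift {f : ℝ → ℝ} {R : ℝ} {N : ℕ} (hN : 2 * R < N) (hN0 : 0 < N)
    (hf : ∀ x, R < |x| → f x = 0) (n₀ : ℤ) {y : ℝ} (hy : |y - N * n₀| < N - R) :
    f (y - N * round (y / N)) = f (y - N * n₀) := by
  have hN' : (0:ℝ) < N := by exact_mod_cast hN0
  by_cases h : round (y / N) = n₀
  · rw [h]
  · have h1 : (1:ℝ) ≤ |((round (y / N) : ℤ) : ℝ) - n₀| := by
      have : (1:ℤ) ≤ |round (y / N) - n₀| := Int.one_le_abs (sub_ne_zero.mpr h)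
      exact_mod_cast this
    have h2 : |y - N * round (y / N)| ≤ N / 2 := by
      have := abs_sub_round (y / (N:ℝ))
      have e : y - N * round (y / N) = N * (y / N - round (y / N)) := by field_simp
      rw [e, abs_mul, abs_of_pos hN']
      nlinarith
    have h3 : (N:ℝ) ≤ |y - N * round (y / N)| + |y - N * n₀| := by
      have e : (N:ℝ) * (((round (y / N) : ℤ) : ℝ) - n₀) = (y - N * n₀) - (y - N * round (y / N)) := by
        ring
      have h4 : (N:ℝ) ≤ |(N:ℝ) * (((round (y / N) : ℤ) : ℝ) - n₀)| := by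
        rw [abs_mul, abs_of_pos hN']; nlinarith
      rw [e] at h4
      have := abs_sub (y - N * n₀) (y - N * round (y / N))
      linarith
    rw [hf _ (by linarith), hf _ (by linarith)]

theorem exists_local_comparison (k : ℕ) : ∃ M : ℝ, 0 < M ∧ ∀ (g : ℕ → ℝ → ℝ) (R b η : ℝ),
    1 ≤ R → 0 ≤ b → 0 < η → η ≤ 1 → M * b < η * R →
    (∀ j ≤ k + 1, ∀ x, |x| ≤ 2 * R → HasDerivAt (g j) (g (j + 1) x) x) →
    (∀ j ≤ k + 1, ∀ x, |x| ≤ 2 * R → |g j x| ≤ b) →
    (∀ x, |x| ≤ 2 * R → -1 + η ≤ g (k + 2) x) →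
    (∀ x, |x| ≤ 2 * R → bot' (k + 1) < g 0 x ∧ g 0 x < top' (k + 1)) →
    bot' k ≤ g 1 0 ∧ g 1 0 ≤ top' k := by
  obtain ⟨M₀, hM₀, hM⟩ := exists_rr_bound (k + 2)
  refine ⟨2 ^ (k + 2) * M₀, by positivity, ?_⟩
  intro g R b η hR hb hη hη1 hRb hder hbd hbot hcomp
  have hR0 : 0 < R := by linarith
  set D : ℕ → ℝ → ℝ := leib (rr R) g with hD
  -- vanishing
  have hD0 : ∀ m x, R < |x| → D m x = 0 := by
    intro m x hx
    simp only [hD, leib]
    apply sum_eq_zero
    intro p _
    rw [rr_zero R hR0 p.1 hx]; ring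
  have hDder : ∀ m ≤ k + 1, ∀ x, HasDerivAt (D m) (D (m + 1) x) x := by
    intro m hm x
    rcases le_or_gt (|x|) (2 * R) with h | h
    · exact hasDerivAt_leib (fun j _ => hasDerivAt_rr R j x) (fun j hj => hder j (by omega) x h)
    · rw [hD0 (m + 1) x (by linarith)]
      have h1 : D m =ᶠ[𝓝 x] fun _ => 0 := by
        have : ∀ᶠ z in 𝓝 x, 2 * R < |z| := (continuous_abs.tendsto x).eventually (lt_mem_nhds h)
        filter_upwards [this] with z hz
        exact hD0 m z (by linarith)
      exact (hasDerivAt_const x (0:ℝ)).congr_of_eventuallyEq h1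
  have hrr0 : ∀ x, 0 ≤ rr R 0 x ∧ rr R 0 x ≤ 1 := by
    intro x
    unfold rr
    rw [iteratedDeriv_zero, pow_zero, one_mul]
    exact ⟨bump.nonneg, bump.le_one⟩
  -- lower bound for D (k+2)
  have hDlow : ∀ x, -1 < D (k + 2) x := by
    intro x
    rcases le_or_gt (|x|) (2 * R) with h | h
    · have e : D (k + 2) x = rr R 0 x * g (k + 2) x +
          ∑ p ∈ antidiagonal (k + 1), ((k + 2).choose (p.1 + 1) : ℝ) * (rr R (p.1 + 1) x * g p.2 x) := by
        simp only [hD, leib]
        rw [Finset.Nat.sum_antidiagonal_succ]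
        simp
      have h1 : |∑ p ∈ antidiagonal (k + 1), ((k + 2).choose (p.1 + 1) : ℝ) *
          (rr R (p.1 + 1) x * g p.2 x)| ≤ 2 ^ (k + 2) * (M₀ / R * b) := by
        refine le_trans (abs_sum_le_sum_abs _ _) ?_
        have h2 : ∀ p ∈ antidiagonal (k + 1), |((k + 2).choose (p.1 + 1) : ℝ) *
          (rr R (p.1 + 1) x * g p.2 x)| ≤ ((k + 2).choose (p.1 + 1) : ℝ) * (M₀ / R * b) := by
          intro p hp
          have hp' := mem_antidiagonal.mp hp
          rw [abs_mul, abs_mul, abs_of_nonneg (by positivity : (0:ℝ) ≤ ((k + 2).choose (p.1 + 1) : ℝ))]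
          have h3 : |rr R (p.1 + 1) x| ≤ M₀ / R := by
            unfold rr
            rw [abs_mul, abs_of_nonneg (by positivity)]
            have h4 := hM (p.1 + 1) (by omega) (x / R)
            have h5 : (1 / R) ^ (p.1 + 1) ≤ 1 / R := by
              rw [pow_succ]
              have : (1 / R) ^ p.1 ≤ 1 := by
                apply pow_le_one₀ (by positivity)
                rw [div_le_one hR0]; exact hR
              have h6 : (0:ℝ) < 1 / R := by positivity
              nlinarith
            calc (1 / R) ^ (p.1 + 1) * |iteratedDeriv (p.1 + 1) bump (x / R)|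
                ≤ 1 / R * M₀ := by gcongr
              _ = M₀ / R := by ring
          have h7 := hbd p.2 (by omega) x h
          gcongr
        refine le_trans (sum_le_sum h2) ?_
        rw [← sum_mul]
        gcongr
        have h8 : ∑ p ∈ antidiagonal (k + 2), ((k + 2).choose p.1 : ℝ) = 2 ^ (k + 2) := by
          rw [Finset.Nat.sum_antidiagonal_eq_sum_range_succ_mk]
          have := Nat.sum_range_choose (k + 2)
          exact_mod_cast this
        rw [Finset.Nat.sum_antidiagonal_succ] at h8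
        simp only [Nat.choose_zero_right, Nat.cast_one] at h8
        linarith
      have h9 : 2 ^ (k + 2) * (M₀ / R * b) < η := by
        have : 2 ^ (k + 2) * (M₀ / R * b) = (2 ^ (k + 2) * M₀ * b) / R := by ring
        rw [this, div_lt_iff₀ hR0]
        linarith
      have h10 := (abs_le.mp h1).1
      have h11 : -1 + η ≤ rr R 0 x * g (k + 2) x := by
        have h12 := hbot x h
        obtain ⟨h13, h14⟩ := hrr0 x
        nlinarith
      rw [e]
      linarith
    · rw [hD0 (k + 2) x (by linarith)]; norm_num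
  have hDzero : ∀ x, bot' (k + 1) < D 0 x ∧ D 0 x < top' (k + 1) := by
    intro x
    have hb1 := bot_neg (k + 1)
    have ht1 := top_pos (k + 1)
    rcases le_or_gt (|x|) (2 * R) with h | h
    · have e : D 0 x = rr R 0 x * g 0 x := by
        simp [hD, leib]
      obtain ⟨h1, h2⟩ := hcomp x h
      obtain ⟨h13, h14⟩ := hrr0 x
      rw [e]
      constructor
      · rcases le_or_gt 0 (g 0 x) with h5 | h5
        · have := mul_nonneg h13 h5; linarith
        · nlinarith
      · rcases le_or_gt 0 (g 0 x) with h5 | h5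
        · nlinarith
        · have := mul_nonpos_of_nonneg_of_nonpos h13 h5.le; linarith
    · rw [hD0 0 x (by linarith)]; exact ⟨hb1, ht1⟩
  -- periodization
  obtain ⟨N, hN⟩ := exists_nat_gt (2 * R)
  have hN0 : 0 < N := by
    have : (0:ℝ) < N := by linarith
    exact_mod_cast this
  have hN' : (0:ℝ) < N := by exact_mod_cast hN0
  set F : ℕ → ℝ → ℝ := fun j x => D (k + 1 - j) (x - N * round (x / N)) with hF
  have hper0 : ∀ x : ℝ, x + N - N * round ((x + N) / N) = x - N * round (x / N) := by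
    intro x
    have : (x + N) / N = x / N + 1 := by field_simp
    rw [this, round_add_one]
    push_cast; ring
  have hgen : ∀ m ≤ k + 1, ∀ x : ℝ, HasDerivAt (fun y : ℝ => D m (y - N * round (y / N)))
      (D (m + 1) (x - N * round (x / N))) x := by
    intro m hm x
    set n₀ := round (x / N) with hn₀
    have h1 : HasDerivAt (fun y : ℝ => D m (y - N * n₀)) (D (m + 1) (x - N * n₀)) x := by
      have := (hDder m hm (x - N * n₀))
      exact this.comp_sub_const x (N * n₀)
    apply h1.congr_of_eventuallyEq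
    have h2 : |x - N * n₀| ≤ N / 2 := by
      have := abs_sub_round (x / (N:ℝ))
      have e : x - N * n₀ = N * (x / N - round (x / N)) := by rw [hn₀]; field_simp
      rw [e, abs_mul, abs_of_pos hN']
      nlinarith
    have h4 : |x - N * n₀| < (N:ℝ) - R := by linarith
    have h3 : ∀ᶠ y : ℝ in 𝓝 x, |y - (N:ℝ) * (n₀:ℝ)| < (N:ℝ) - R := by
      have hc : Continuous (fun y : ℝ => |y - (N:ℝ) * (n₀:ℝ)|) := by fun_prop
      exact (hc.tendsto x).eventually (gt_mem_nhds h4)
    filter_upwards [h3] with y hy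
    exact round_shift hN hN0 (hD0 m) n₀ hy
  have hmain := comparison_periodic (k := k) (N := N) hN0 F
    (fun x => D (k + 2) (x - N * round (x / N)))
    (by
      intro j _ x
      simp only [hF]
      rw [hper0])
    (by
      intro j hj x
      simp only [hF]
      have := hgen (k + 1 - (j + 1)) (by omega) x
      have e : k + 1 - (j + 1) + 1 = k + 1 - j := by omega
      rw [e] at this
      exact this)
    (by
      intro x
      simp only [hF, Nat.sub_zero]
      exact hgen (k + 1) le_rfl x)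
    (by intro x; exact hDlow _)
    (by
      intro x
      simp only [hF, Nat.sub_self]
      exact (hDzero _).1)
    (by
      intro x
      simp only [hF, Nat.sub_self]
      exact (hDzero _).2)
    0
  have e1 : F k 0 = g 1 0 := by
    simp only [hF]
    have : k + 1 - k = 1 := by omega
    rw [this, zero_div, round_zero]
    simp only [Int.cast_zero, mul_zero, sub_zero, hD, leib]
    rw [Finset.Nat.sum_antidiagonal_succ]
    simp [rr_zero_zero, rr_one_zero]
  rw [e1] at hmain
  exact hmain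

end Pool.Agent.Lib.MP_155064_nt
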