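import Pool.Agent.Lib.MP_155064_nt.NearLine

set_option autoImplicit false

open Complex MeasureTheory Set Filter Asymptotics Topology ComplexConjugate

namespace Pool.Agent.Lib.MP_155064_nt

/-- Claim 2: decay of `ζ'/ζ` to the right of the critical line on the natural scale
`1/loglog T`, with rate `1/(1/2+ε)`. -/
theorem exists_decay_bound (hRH : RiemannHypothesis) {ε : ℝ} (hε : 0 < ε) (hε1 : ε ≤ 1 / 2) :
    ∃ K : ℝ, 0 < K ∧ ∀ H : ℝ, 10 ≤ H → ∀ y : ℝ, 0 < y → y ≤ 1 / 2 + ε →
      ‖fZ ((1 / 2 + y : ℝ) + (Real.exp (Real.exp H) : ℝ) * I)‖ ≤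
        K * Real.exp H * Real.exp (-(1 / (1 / 2 + ε) * y * H)) * (1 + 1 / (y * H)) := by
  obtain ⟨C, hC, hnear⟩ := exists_near_line_bound hRH
  obtain ⟨C₁, hC₁, hb1⟩ := exists_norm_fZ_line_le hε
  set lam : ℝ := 1 / (1 / 2 + ε) with hlam
  have hlam0 : 0 < lam := by positivity
  have hlam2 : lam ≤ 2 := by
    rw [hlam, div_le_iff₀ (by positivity)]; linarith
  have hlamε : lam * (1 / 2 + ε) = 1 := by rw [hlam]; field_simp
  refine ⟨Real.exp 1 * (C * Real.exp (1 / 4) * Real.exp (5 * lam) + C₁) +
    Real.exp 10 * (10 * (C + 4) + 4), by positivity, ?_⟩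
  intro H hH y hy hyε
  have hH0 : 0 < H := by linarith
  set y₀ : ℝ := 5 / H with hy₀
  have hy₀0 : 0 < y₀ := by positivity
  have hy₀1 : y₀ ≤ 1 / 2 := by rw [hy₀, div_le_iff₀ hH0]; linarith
  have hHy₀ : H * y₀ = 5 := by rw [hy₀]; field_simp
  set T : ℝ := Real.exp (Real.exp H) with hT
  set l : ℝ := Real.exp H with hl
  have hl10 : 10 < l := by
    have := Real.add_one_le_exp H; rw [hl]; linarith
  have hT0 : 0 < T := Real.exp_pos _
  have hT1 : 1 ≤ T := by rw [hT]; apply Real.one_le_exp; linarith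
  have hlogT : Real.log T = l := by rw [hT, Real.log_exp]
  have hfac : 1 ≤ 1 + 1 / (y * H) := by
    have : 0 < 1 / (y * H) := by positivity
    linarith
  rcases le_or_gt y₀ y with h | h
  · -- three lines
    have hTL := three_lines (F := fZ) (a := 1 / 2 + y₀) (b := 1 + ε) (σ := 1 / 2 + y) (u := T)
      (N := Real.exp (lam * H)) (A := (exists_fZ_growth hRH hy₀0).choose)
      (Ma := C * Real.exp (1 / 4) * l) (Mb := C₁)
      (by linarith) (by linarith)
      (fun s h1 h2 => ((differentiableOn_fZ hRH).differentiableAt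
        ((isOpen_re_gt _).mem_nhds (show 1 / 2 < s.re by linarith))))
      (fun s h1 h2 => (exists_fZ_growth hRH hy₀0).choose_spec.2 s h1 (by linarith))
      (Real.exp_pos _) (by linarith) (by linarith)
      ?_ ?_
    · have e1 : Real.exp (lam * H) ^ (1 / 2 + y₀ - (1 / 2 + y)) =
          Real.exp (5 * lam) * Real.exp (-(lam * y * H)) := by
        rw [← Real.exp_mul, ← Real.exp_add]
        congr 1
        have : lam * H * (1 / 2 + y₀ - (1 / 2 + y)) = lam * (H * y₀) - lam * y * H := by ring
        rw [this, hHy₀]; ring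
      have e2 : Real.exp (lam * H) ^ (1 + ε - (1 / 2 + y)) = l * Real.exp (-(lam * y * H)) := by
        rw [← Real.exp_mul, hl, ← Real.exp_add]
        congr 1
        have : lam * H * (1 + ε - (1 / 2 + y)) = (lam * (1 / 2 + ε)) * H - lam * y * H := by ring
        rw [this, hlamε]; ring
      rw [e1, e2] at hTL
      have hE : 0 < Real.exp (-(lam * y * H)) := Real.exp_pos _
      have hl0 : 0 < l := by linarith
      calc ‖fZ ((1 / 2 + y : ℝ) + (T : ℝ) * I)‖
          ≤ Real.exp 1 * max (Real.exp (5 * lam) * Real.exp (-(lam * y * H)) *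
              (C * Real.exp (1 / 4) * l)) (l * Real.exp (-(lam * y * H)) * C₁) := hTL
        _ ≤ Real.exp 1 * (Real.exp (5 * lam) * Real.exp (-(lam * y * H)) *
              (C * Real.exp (1 / 4) * l) + l * Real.exp (-(lam * y * H)) * C₁) := by
            gcongr
            exact max_le_add_of_nonneg (by positivity) (by positivity)
        _ = (Real.exp 1 * (C * Real.exp (1 / 4) * Real.exp (5 * lam) + C₁)) * l *
              Real.exp (-(lam * y * H)) * 1 := by ring
        _ ≤ (Real.exp 1 * (C * Real.exp (1 / 4) * Real.exp (5 * lam) + C₁) +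
              Real.exp 10 * (10 * (C + 4) + 4)) * l *
              Real.exp (-(lam * y * H)) * (1 + 1 / (y * H)) := by
            gcongr
            have : 0 ≤ Real.exp 10 * (10 * (C + 4) + 4) := by positivity
            linarith
    · intro v
      have h1 := hnear H hH v
      have h3 : Real.exp |v - T| * Real.exp (-(v - T) ^ 2) ≤ Real.exp (1 / 4) := by
        rw [← Real.exp_add]
        apply Real.exp_le_exp.mpr
        have a1 := abs_sub_sq_le (v - T)
        linarith
      calc ‖fZ ((1 / 2 + y₀ : ℝ) + v * I)‖ * Real.exp (-(v - T) ^ 2)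
          ≤ (C * l * Real.exp |v - T|) * Real.exp (-(v - T) ^ 2) := by gcongr
        _ = C * l * (Real.exp |v - T| * Real.exp (-(v - T) ^ 2)) := by ring
        _ ≤ C * l * Real.exp (1 / 4) := by gcongr
        _ = _ := by ring
    · intro v
      have h1 := hb1 ((1 + ε : ℝ) + v * I) (by simp)
      have h2 : Real.exp (-(v - T) ^ 2) ≤ 1 := by
        rw [Real.exp_le_one_iff]; nlinarith [sq_nonneg (v - T)]
      calc ‖fZ ((1 + ε : ℝ) + v * I)‖ * Real.exp (-(v - T) ^ 2) ≤ C₁ * 1 := by gcongr
        _ = C₁ := mul_one _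
  · -- Harnack
    have h1 := harnack_local hRH (R := y₀) (δ := y) (u := T) (by linarith) hy h.le
    have h2 := hnear H hH T
    have e0 : |T - Real.exp (Real.exp H)| = 0 := by rw [← hl, ← hT]; simp
    rw [e0, Real.exp_zero, mul_one] at h2
    have hM : (1 / 2) * Real.log (|T| + 5) + 2 ≤ 4 * l := by
      rw [abs_of_pos hT0]
      have a1 : T + 5 ≤ 6 * T := by linarith
      have a3 : Real.log (T + 5) ≤ Real.log (6 * T) := Real.log_le_log (by positivity) a1
      rw [Real.log_mul (by norm_num) hT0.ne', hlogT] at a3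
      have a4 : Real.log 6 ≤ 2 := by
        rw [Real.log_le_iff_le_exp (by norm_num)]
        have h9 := Real.exp_one_gt_d9
        have : Real.exp 2 = Real.exp 1 * Real.exp 1 := by rw [← Real.exp_add]; norm_num
        rw [this]; nlinarith
      linarith
    have hM0 : 0 ≤ (1 / 2) * Real.log (|T| + 5) + 2 := by
      have : 0 ≤ Real.log (|T| + 5) := Real.log_nonneg (by have := abs_nonneg T; linarith)
      positivity
    have hE : Real.exp (-10) ≤ Real.exp (-(lam * y * H)) := by
      apply Real.exp_le_exp.mpr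
      have : y * H ≤ 5 := by rw [← hHy₀, mul_comm]; gcongr
      have h0 : 0 ≤ y * H := by positivity
      nlinarith
    have hl0 : 0 < l := by linarith
    have e1 : 2 * y₀ / y = 10 * (1 / (y * H)) := by rw [hy₀]; field_simp; norm_num
    have hmain : ‖fZ ((1 / 2 + y : ℝ) + (T : ℝ) * I)‖ ≤
        (10 * (C + 4) + 4) * l * (1 + 1 / (y * H)) := by
      calc ‖fZ ((1 / 2 + y : ℝ) + (T : ℝ) * I)‖ ≤ _ := h1
        _ ≤ 2 * y₀ / y * (C * l + 4 * l) + 4 * l := by gcongr
        _ = (10 * (C + 4)) * l * (1 / (y * H)) + 4 * l * 1 := by rw [e1]; ring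
        _ ≤ (10 * (C + 4) + 4) * l * (1 + 1 / (y * H)) := by
          have hz : 0 < 1 / (y * H) := by positivity
          nlinarith [mul_pos hl0 hz, mul_pos hC hl0, mul_pos (mul_pos hC hl0) hz]
    have hexp10 : Real.exp 10 * Real.exp (-(lam * y * H)) ≥ 1 := by
      calc Real.exp 10 * Real.exp (-(lam * y * H)) ≥ Real.exp 10 * Real.exp (-10) := by gcongr
        _ = 1 := by rw [← Real.exp_add]; norm_num
    calc ‖fZ ((1 / 2 + y : ℝ) + (T : ℝ) * I)‖ ≤ (10 * (C + 4) + 4) * l * (1 + 1 / (y * H)) * 1 := by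
          rw [mul_one]; exact hmain
      _ ≤ (10 * (C + 4) + 4) * l * (1 + 1 / (y * H)) *
          (Real.exp 10 * Real.exp (-(lam * y * H))) := by
          gcongr
      _ = (Real.exp 10 * (10 * (C + 4) + 4)) * l *
              Real.exp (-(lam * y * H)) * (1 + 1 / (y * H)) := by ring
      _ ≤ (Real.exp 1 * (C * Real.exp (1 / 4) * Real.exp (5 * lam) + C₁) +
              Real.exp 10 * (10 * (C + 4) + 4)) * l *
              Real.exp (-(lam * y * H)) * (1 + 1 / (y * H)) := by
            gcongr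
            have : 0 ≤ Real.exp 1 * (C * Real.exp (1 / 4) * Real.exp (5 * lam) + C₁) := by positivity
            linarith

end Pool.Agent.Lib.MP_155064_nt
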