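import Mathlib

/-!
# Definitions for MP_155064_nt

`S(t)`, its iterated antiderivatives `S_n(t)`, and the constants `A_n^±`, `Λ_n(t)`.
-/

set_option autoImplicit false

open Complex Set Filter MeasureTheory Topology
open scoped Nat

namespace Pool.Agent.Lib.MP_155064_nt

/-- The path of the definition of `S(t)`: the segment from `2` to `2 + it` (for `0 ≤ u ≤ 1`)
followed by the segment from `2 + it` to `1/2 + it` (for `1 ≤ u ≤ 2`). -/
noncomputable def argPath (t u : ℝ) : ℂ :=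
  if u ≤ 1 then 2 + ((u * t : ℝ) : ℂ) * I else ((2 - 3 / 2 * (u - 1) : ℝ) : ℂ) + (t : ℂ) * I

/-- `a` is the value at `1/2 + it` of the argument of `ζ`, obtained by continuous variation along
the path `argPath t` starting from `arg ζ(2) = 0`. -/
def IsContinuousArg (t a : ℝ) : Prop :=
  ∃ θ : ℝ → ℝ, ContinuousOn θ (Icc 0 2) ∧ θ 0 = 0 ∧ θ 2 = a ∧
    ∀ u ∈ Icc (0 : ℝ) 2,
      riemannZeta (argPath t u) = (‖riemannZeta (argPath t u)‖ : ℂ) * exp ((θ u : ℂ) * I)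

/-- `(1/π) arg ζ(1/2 + it)`, the argument being obtained by continuous variation
(see `existsUnique_continuousArg` for the existence and uniqueness of that argument when `t > 0`
is not the ordinate of a zero). -/
noncomputable def zetaArg (t : ℝ) : ℝ := (1 / Real.pi) * Classical.epsilon (IsContinuousArg t)

/-- `t` is the ordinate of a zero of `ζ`. -/
def IsOrdinate (t : ℝ) : Prop := ∃ s : ℂ, riemannZeta s = 0 ∧ s.im = t

open Classical in
/-- The function `S(t)`, `t > 0`: `(1/π) arg ζ(1/2 + it)` if `t` is not the ordinate of a zero,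
and the average of the left and right limits at ordinates of zeros. -/
noncomputable def zetaS (t : ℝ) : ℝ :=
  if IsOrdinate t then (limUnder (𝓝[<] t) zetaArg + limUnder (𝓝[>] t) zetaArg) / 2
  else zetaArg t

/-- Iterated tail integrals of `log |ζ|` on the real axis:
`tailLogZeta m σ = ∫_σ^∞ ∫_{σ_{m-1}}^∞ ⋯ ∫_{σ_1}^∞ log|ζ(σ_0)| dσ_0 ⋯ dσ_{m-1}` (`m` integrals). -/
noncomputable def tailLogZeta : ℕ → ℝ → ℝ
  | 0 => fun σ => Real.log ‖riemannZeta (σ : ℂ)‖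
  | (m + 1) => fun σ => ∫ x in Ioi σ, tailLogZeta m x

/-- The constants `δ_n`, `n ≥ 1`: `δ_{2k} = (-1)^(k-1) / ((2k)! 2^(2k))` and
`δ_{2k-1} = ((-1)^(k-1)/π) ∫_{1/2}^∞ ∫_{σ_{2k-2}}^∞ ⋯ ∫_{σ_1}^∞ log|ζ(σ_0)| dσ_0 ⋯ dσ_{2k-2}`. -/
noncomputable def deltaConst (n : ℕ) : ℝ :=
  if Even n then (-1) ^ (n / 2 - 1) / ((n ! : ℝ) * 2 ^ n)
  else (-1) ^ ((n + 1) / 2 - 1) / Real.pi * tailLogZeta n (1 / 2)

/-- The iterated antiderivatives `S_0 = S`, `S_n(t) = ∫_0^t S_{n-1}(τ) dτ + δ_n`. -/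
noncomputable def zetaSn : ℕ → ℝ → ℝ
  | 0 => zetaS
  | (n + 1) => fun t => (∫ τ in (0 : ℝ)..t, zetaSn n τ) + deltaConst (n + 1)

/-- `A_n^- = π^n M_{n+1} / (2 (n+1)!)`, `M_k` the maximum of the Bernoulli polynomial `B_k` on
`[0, 1]`. -/
noncomputable def Aminus (n : ℕ) : ℝ :=
  Real.pi ^ n * sSup (bernoulliFun (n + 1) '' Icc 0 1) / (2 * ((n + 1)! : ℝ))

/-- `A_n^+ = -π^n m_{n+1} / (2 (n+1)!)`, `m_k` the minimum of the Bernoulli polynomial `B_k` on
`[0, 1]`. -/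
noncomputable def Aplus (n : ℕ) : ℝ :=
  -(Real.pi ^ n * sInf (bernoulliFun (n + 1) '' Icc 0 1)) / (2 * ((n + 1)! : ℝ))

/-- `Λ_n(t) = log t / (log log t)^(n+1)`. -/
noncomputable def Lambda (n : ℕ) (t : ℝ) : ℝ := Real.log t / Real.log (Real.log t) ^ (n + 1)

end Pool.Agent.Lib.MP_155064_nt
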