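import Pool.Agent.Lib.MP_155064_nt.Primitives

set_option autoImplicit false

open Complex MeasureTheory Set Filter Asymptotics Topology ComplexConjugate

namespace Pool.Agent.Lib.MP_155064_nt

lemma U_subset : U ⊆ {s : ℂ | 1 / 2 < s.re ∧ s ≠ 1} :=
  fun _ hs => ⟨hs.1, ne_one_of_mem_U hs⟩

lemma good_fz (hRH : RiemannHypothesis) : Good fz := by
  refine ⟨(differentiableOn_fz hRH).mono U_subset, ?_⟩
  obtain ⟨C, hC, hb⟩ := exists_norm_fz_le (σ₀ := 3 / 2) (by norm_num)
  refine ⟨C, Real.log 2, 3 / 2, hC, Real.log_pos (by norm_num), by norm_num, ?_⟩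
  intro s hs
  refine le_trans (hb s hs) (le_of_eq ?_)
  rw [Real.rpow_def_of_pos (by norm_num)]
  congr 2; ring

lemma Good.neg {g : ℂ → ℂ} (hg : Good g) : Good (fun s => -(g s)) := by
  refine ⟨hg.diff.neg, ?_⟩
  obtain ⟨C, κ, a, hC, hκ, ha, hb⟩ := hg.decay
  exact ⟨C, κ, a, hC, hκ, ha, fun s hs => by rw [norm_neg]; exact hb s hs⟩

/-- `J 0 = log ζ`, `J (n+1) (s) = ∫₀^∞ J n (s+x) dx`. -/
noncomputable def J : ℕ → ℂ → ℂ
  | 0 => fun s => -(P fz s)
  | (n + 1) => P (J n)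

lemma good_J (hRH : RiemannHypothesis) (n : ℕ) : Good (J n) := by
  induction n with
  | zero => exact (good_fz hRH).P.neg
  | succ n ih => exact ih.P

lemma hasDerivAt_J_zero (hRH : RiemannHypothesis) {s : ℂ} (hs : s ∈ U) :
    HasDerivAt (J 0) (fz s) s := by
  have := ((good_fz hRH).hasDerivAt_P hs).neg
  rw [neg_neg] at this
  exact this

lemma hasDerivAt_J_succ (hRH : RiemannHypothesis) (n : ℕ) {s : ℂ} (hs : s ∈ U) :
    HasDerivAt (J (n + 1)) (-(J n s)) s := (good_J hRH n).hasDerivAt_P hs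

lemma J_one_eq (hRH : RiemannHypothesis) {s : ℂ} (hs : s ∈ U) :
    J 1 s = -∫ x in Ioi (0:ℝ), (x:ℂ) * fz (s + x) := by
  have h1 := (good_fz hRH).P_P hs
  rw [← h1]
  show P (J 0) s = -(P (P fz) s)
  unfold P
  rw [← integral_neg]
  rfl

/-- The shifted iterated antiderivatives `S_n^σ(t) = (1/π) Im(i^n J_n(σ+it))`. -/
noncomputable def Ss (n : ℕ) (σ t : ℝ) : ℝ := (1 / Real.pi) * (I ^ n * J n (σ + t * I)).im

lemma mem_U_line {σ t : ℝ} (hσ : 1 / 2 < σ) (ht : 0 < t) : ((σ:ℂ) + t * I) ∈ U :=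
  ⟨by simpa using hσ, Or.inl (by simpa using ht)⟩

lemma hasDerivAt_line {g : ℂ → ℂ} {g' : ℂ} {σ t : ℝ} (h : HasDerivAt g g' (σ + t * I)) :
    HasDerivAt (fun t : ℝ => g (σ + t * I)) (g' * I) t := by
  have h2 : HasDerivAt (fun w : ℂ => (σ:ℂ) + w * I) I ((t:ℝ) : ℂ) := by
    simpa using ((hasDerivAt_id ((t:ℝ):ℂ)).mul_const I).const_add (σ:ℂ)
  have h3 := HasDerivAt.comp ((t:ℝ):ℂ) (h₂ := g) (h := fun w : ℂ => (σ:ℂ) + w * I) h h2
  exact h3.comp_ofReal

lemma hasDerivAt_Ss_succ (hRH : RiemannHypothesis) (n : ℕ) {σ t : ℝ} (hσ : 1 / 2 < σ) (ht : 0 < t) :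
    HasDerivAt (Ss (n + 1) σ) (Ss n σ t) t := by
  have h1 := hasDerivAt_line (hasDerivAt_J_succ hRH n (mem_U_line hσ ht))
  have h2 := (h1.const_mul (I ^ (n + 1)))
  have h3 : HasDerivAt (fun t : ℝ => (I ^ (n + 1) * J (n + 1) (σ + t * I)).im)
      (I ^ (n + 1) * (-(J n (σ + t * I)) * I)).im t :=
    (Complex.imCLM.hasFDerivAt.comp_hasDerivAt t h2)
  have h4 := h3.const_mul (1 / Real.pi)
  have e : (1 / Real.pi) * (I ^ (n + 1) * (-(J n (σ + t * I)) * I)).im = Ss n σ t := by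
    unfold Ss
    congr 2
    rw [pow_succ]
    linear_combination (- I ^ n * J n (σ + t * I)) * I_mul_I
  rw [← e]
  exact h4

lemma hasDerivAt_Ss_zero (hRH : RiemannHypothesis) {σ t : ℝ} (hσ : 1 / 2 < σ) (ht : 0 < t) :
    HasDerivAt (Ss 0 σ) ((1 / Real.pi) * (fz (σ + t * I)).re) t := by
  have h1 := hasDerivAt_line (hasDerivAt_J_zero hRH (mem_U_line hσ ht))
  have h2 := (h1.const_mul (I ^ 0))
  have h3 : HasDerivAt (fun t : ℝ => (I ^ 0 * J 0 (σ + t * I)).im)
      (I ^ 0 * (fz (σ + t * I) * I)).im t :=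
    (Complex.imCLM.hasFDerivAt.comp_hasDerivAt t h2)
  have h4 := h3.const_mul (1 / Real.pi)
  have e : (I ^ 0 * (fz (σ + t * I) * I)).im = (fz (σ + t * I)).re := by
    rw [pow_zero, one_mul, Complex.mul_I_im]
  rw [e] at h4
  exact h4

/-- One-sided bound for the derivative of `S_0^σ`. -/
lemma re_fz_ge (hRH : RiemannHypothesis) {σ t : ℝ} (hσ : 1 / 2 < σ) (hσ2 : σ ≤ 2) (ht : 1 ≤ t) :
    -(1 / 2) * (Real.log (t + 2) + 6) ≤ (fz (σ + t * I)).re := by
  have hs : (1:ℝ) / 2 < ((σ:ℂ) + t * I).re := by simpa using hσ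
  have h1 := re_fZ_ge hRH hs
  have hU := mem_U_line hσ (by linarith : 0 < t)
  have hne := ne_one_of_mem_U hU
  have he := congrArg Complex.re (fZ_eq hne (riemannZeta_ne_zero hRH hs hne))
  rw [Complex.add_re (fz _)] at he
  rw [he] at h1
  have h2 : (1 / ((σ:ℂ) + t * I - 1)).re ≤ 1 := by
    have h4 := Complex.re_le_norm (1 / ((σ:ℂ) + t * I - 1))
    have h5 : ‖1 / ((σ:ℂ) + t * I - 1)‖ ≤ 1 := by
      have h6 : 1 ≤ ‖(σ:ℂ) + t * I - 1‖ := by
        have := abs_im_le_norm ((σ:ℂ) + t * I - 1)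
        simp only [Complex.sub_im, Complex.add_im, Complex.ofReal_im, Complex.mul_im,
          Complex.ofReal_re, Complex.I_im, Complex.I_re, Complex.one_im] at this
        simp only [mul_one, mul_zero, add_zero, zero_add, sub_zero] at this
        rw [abs_of_pos (by linarith)] at this
        linarith
      rw [norm_div, norm_one, div_le_iff₀ (by linarith)]; linarith
    linarith
  have h3 : Real.log (((σ:ℂ) + t * I).re / 2 + |((σ:ℂ) + t * I).im| + 1) ≤ Real.log (t + 2) := by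
    apply Real.log_le_log
    · simp; positivity
    · simp
      rw [abs_of_pos (by linarith)]; linarith
  linarith

/-- Combined bound for `ζ'/ζ` on horizontal lines at height `T = exp(exp H)`. -/
lemma exists_fz_bound (hRH : RiemannHypothesis) {ε : ℝ} (hε : 0 < ε) (hε1 : ε ≤ 1 / 2) :
    ∃ K C : ℝ, 0 < K ∧ 0 < C ∧ ∀ H : ℝ, 10 ≤ H → ∀ x : ℝ, 0 < x →
      ‖fz ((1 / 2 + x : ℝ) + (Real.exp (Real.exp H) : ℝ) * I)‖ ≤
        K * Real.exp H * Real.exp (-(1 / (1 / 2 + ε) * x * H)) * (1 + 1 / (x * H)) +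
          C * Real.exp (-(Real.log 2 * x)) := by
  obtain ⟨K, hK, hdec⟩ := exists_decay_bound hRH hε hε1
  obtain ⟨C, hC, hb⟩ := exists_norm_fz_le (σ₀ := 1 + ε) (by linarith)
  refine ⟨K + 1, C, by positivity, hC, ?_⟩
  intro H hH x hx
  have hH0 : 0 < H := by linarith
  set T : ℝ := Real.exp (Real.exp H) with hT
  have hT0 : 0 < T := Real.exp_pos _
  have hT1 : 1 ≤ T := by rw [hT]; apply Real.one_le_exp; positivity
  have hlog2 : 0 < Real.log 2 := Real.log_pos (by norm_num)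
  rcases le_or_gt x (1 / 2 + ε) with h | h
  · have hU := mem_U_line (σ := 1 / 2 + x) (t := T) (by linarith) hT0
    have hne := ne_one_of_mem_U hU
    have hz := riemannZeta_ne_zero hRH hU.1 hne
    have e := fZ_eq hne hz
    have h1 := hdec H hH x hx h
    have h2 : ‖1 / (((1 / 2 + x : ℝ) : ℂ) + T * I - 1)‖ ≤ 1 := by
      have h6 : 1 ≤ ‖((1 / 2 + x : ℝ) : ℂ) + T * I - 1‖ := by
        have := abs_im_le_norm (((1 / 2 + x : ℝ) : ℂ) + T * I - 1)
        simp only [Complex.sub_im, Complex.add_im, Complex.ofReal_im, Complex.mul_im,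
          Complex.ofReal_re, Complex.I_im, Complex.I_re, Complex.one_im] at this
        simp only [mul_one, mul_zero, add_zero, zero_add, sub_zero] at this
        rw [abs_of_pos (by linarith)] at this
        linarith
      rw [norm_div, norm_one, div_le_iff₀ (by linarith)]; linarith
    have h3 : ‖fz (((1 / 2 + x : ℝ) : ℂ) + T * I)‖ ≤ ‖fZ (((1 / 2 + x : ℝ) : ℂ) + T * I)‖ + 1 := by
      have : fz (((1 / 2 + x : ℝ) : ℂ) + T * I) = fZ (((1 / 2 + x : ℝ) : ℂ) + T * I) -
          1 / (((1 / 2 + x : ℝ) : ℂ) + T * I - 1) := by rw [e]; ring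
      rw [this]
      refine le_trans (norm_sub_le _ _) ?_
      linarith
    have h4 : 1 ≤ Real.exp H * Real.exp (-(1 / (1 / 2 + ε) * x * H)) := by
      rw [← Real.exp_add]
      apply Real.one_le_exp
      have : 1 / (1 / 2 + ε) * x ≤ 1 := by
        rw [div_mul_eq_mul_div, one_mul, div_le_one (by positivity)]; exact h
      nlinarith
    have h5 : 1 ≤ 1 + 1 / (x * H) := by
      have : 0 < 1 / (x * H) := by positivity
      linarith
    have h6 : 1 ≤ Real.exp H * Real.exp (-(1 / (1 / 2 + ε) * x * H)) * (1 + 1 / (x * H)) := by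
      nlinarith
    have h7 : 0 ≤ C * Real.exp (-(Real.log 2 * x)) := by positivity
    calc ‖fz (((1 / 2 + x : ℝ) : ℂ) + T * I)‖ ≤ _ := h3
      _ ≤ K * Real.exp H * Real.exp (-(1 / (1 / 2 + ε) * x * H)) * (1 + 1 / (x * H)) +
          Real.exp H * Real.exp (-(1 / (1 / 2 + ε) * x * H)) * (1 + 1 / (x * H)) := by linarith
      _ = (K + 1) * Real.exp H * Real.exp (-(1 / (1 / 2 + ε) * x * H)) * (1 + 1 / (x * H)) := by ring
      _ ≤ _ := by linarith
  · have h1 := hb (((1 / 2 + x : ℝ) : ℂ) + T * I) (by simp; linarith)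
    have h2 : (2:ℝ) ^ (-(((1 / 2 + x : ℝ) : ℂ) + T * I).re) ≤ Real.exp (-(Real.log 2 * x)) := by
      rw [Real.rpow_def_of_pos (by norm_num)]
      apply Real.exp_le_exp.mpr
      simp
      nlinarith
    have h3 : 0 ≤ (K + 1) * Real.exp H * Real.exp (-(1 / (1 / 2 + ε) * x * H)) * (1 + 1 / (x * H)) := by
      positivity
    calc ‖fz (((1 / 2 + x : ℝ) : ℂ) + T * I)‖ ≤ _ := h1
      _ ≤ C * Real.exp (-(Real.log 2 * x)) := by gcongr
      _ ≤ _ := by linarith

lemma integral_x_exp {a : ℝ} (ha : 0 < a) : ∫ x in Ioi (0:ℝ), x * Real.exp (-(a * x)) = 1 / a ^ 2 := by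
  have h := Real.integral_rpow_mul_exp_neg_mul_Ioi (a := 2) (r := a) (by norm_num) ha
  have e1 : Real.Gamma 2 = 1 := Real.Gamma_two
  rw [e1, mul_one] at h
  have e2 : ((1:ℝ) / a) ^ (2:ℝ) = 1 / a ^ 2 := by
    rw [show (2:ℝ) = ((2:ℕ):ℝ) by norm_num, Real.rpow_natCast]; simp
  rw [e2] at h
  rw [← h]
  apply setIntegral_congr_fun measurableSet_Ioi
  intro x _
  have : x ^ ((2:ℝ) - 1) = x := by norm_num
  simp only [this]

lemma integrableOn_x_exp {a : ℝ} (ha : 0 < a) :
    IntegrableOn (fun x : ℝ => x * Real.exp (-(a * x))) (Ioi 0) := by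
  have := integrableOn_rpow_mul_exp_neg_mul_rpow (s := 1) (p := 1) (b := a) (by norm_num) one_pos ha
  simpa using this

lemma integrableOn_exp' {a : ℝ} (ha : 0 < a) :
    IntegrableOn (fun x : ℝ => Real.exp (-(a * x))) (Ioi 0) := by
  simpa using exp_neg_integrableOn_Ioi 0 ha

lemma integral_exp' {a : ℝ} (ha : 0 < a) : ∫ x in Ioi (0:ℝ), Real.exp (-(a * x)) = 1 / a := by
  have := integral_exp_mul_Ioi (a := -a) (by linarith) 0
  simp only [neg_mul, mul_zero, Real.exp_zero] at this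
  rw [this]
  rw [div_neg, neg_div, neg_neg]

/-- Bound for `J 1` at height `T = exp(exp H)`. -/
lemma exists_J_one_bound (hRH : RiemannHypothesis) {ε : ℝ} (hε : 0 < ε) (hε1 : ε ≤ 1 / 2) :
    ∃ K C : ℝ, 0 < K ∧ 0 < C ∧ ∀ H : ℝ, 10 ≤ H → ∀ y : ℝ, 0 < y →
      ‖J 1 ((1 / 2 + y : ℝ) + (Real.exp (Real.exp H) : ℝ) * I)‖ ≤
        K * (Real.exp H / H ^ 2) * Real.exp (-(1 / (1 / 2 + ε) * H * y)) +
          C * Real.exp (-(Real.log 2 * y)) := by
  obtain ⟨K, C, hK, hC, hb⟩ := exists_fz_bound hRH hε hε1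
  set lam : ℝ := 1 / (1 / 2 + ε) with hlam
  have hlam0 : 0 < lam := by positivity
  have hlam1 : 1 ≤ lam := by
    rw [hlam, le_div_iff₀ (by positivity)]; linarith
  have hlog2 : 0 < Real.log 2 := Real.log_pos (by norm_num)
  refine ⟨2 * K, C * (1 / Real.log 2 ^ 2), by positivity, by positivity, ?_⟩
  intro H hH y hy
  have hH0 : 0 < H := by linarith
  set T : ℝ := Real.exp (Real.exp H) with hT
  have hT0 : 0 < T := Real.exp_pos _
  have hU := mem_U_line (σ := 1 / 2 + y) (t := T) (by linarith) hT0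
  rw [J_one_eq hRH hU, norm_neg]
  have ha : 0 < lam * H := by positivity
  set E1 := Real.exp (-(lam * H * y)) with hE1
  set E2 := Real.exp (-(Real.log 2 * y)) with hE2
  have hbnd : ∀ x : ℝ, 0 < x → ‖(x:ℂ) * fz (((1 / 2 + y : ℝ) : ℂ) + T * I + x)‖ ≤
      K * Real.exp H * E1 * (x * Real.exp (-(lam * H * x))) +
      K * Real.exp H * E1 * (1 / H) * Real.exp (-(lam * H * x)) +
      C * E2 * (x * Real.exp (-(Real.log 2 * x))) := by
    intro x hx
    have h1 := hb H hH (y + x) (by positivity)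
    have e1 : (((1 / 2 + (y + x) : ℝ) : ℂ)) + T * I = ((1 / 2 + y : ℝ) : ℂ) + T * I + x := by
      push_cast; ring
    rw [e1] at h1
    rw [norm_mul, Complex.norm_real, Real.norm_eq_abs, abs_of_pos hx]
    have e2 : Real.exp (-(lam * (y + x) * H)) = E1 * Real.exp (-(lam * H * x)) := by
      rw [hE1, ← Real.exp_add]; congr 1; ring
    have e3 : Real.exp (-(Real.log 2 * (y + x))) = E2 * Real.exp (-(Real.log 2 * x)) := by
      rw [hE2, ← Real.exp_add]; congr 1; ring
    rw [e2, e3] at h1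
    have h2 : x * (1 + 1 / ((y + x) * H)) ≤ x + 1 / H := by
      have : x * (1 / ((y + x) * H)) ≤ 1 / H := by
        rw [mul_one_div, div_le_div_iff₀ (by positivity) hH0]
        nlinarith
      linarith
    have hEx : 0 < Real.exp (-(lam * H * x)) := Real.exp_pos _
    have hE1' : 0 < E1 := Real.exp_pos _
    calc x * ‖fz (((1 / 2 + y : ℝ) : ℂ) + T * I + x)‖
        ≤ x * (K * Real.exp H * (E1 * Real.exp (-(lam * H * x))) * (1 + 1 / ((y + x) * H)) +
          C * (E2 * Real.exp (-(Real.log 2 * x)))) := by gcongr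
      _ = K * Real.exp H * (E1 * Real.exp (-(lam * H * x))) * (x * (1 + 1 / ((y + x) * H))) +
          C * E2 * (x * Real.exp (-(Real.log 2 * x))) := by ring
      _ ≤ K * Real.exp H * (E1 * Real.exp (-(lam * H * x))) * (x + 1 / H) +
          C * E2 * (x * Real.exp (-(Real.log 2 * x))) := by gcongr
      _ = _ := by ring
  have hI1 := (integrableOn_x_exp ha).const_mul (K * Real.exp H * E1)
  have hI2 := (integrableOn_exp' ha).const_mul (K * Real.exp H * E1 * (1 / H))
  have hI3 := (integrableOn_x_exp hlog2).const_mul (C * E2)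
  have h1 : ‖∫ x in Ioi (0:ℝ), (x:ℂ) * fz (((1 / 2 + y : ℝ) : ℂ) + T * I + x)‖ ≤
      ∫ x in Ioi (0:ℝ), (K * Real.exp H * E1 * (x * Real.exp (-(lam * H * x))) +
      K * Real.exp H * E1 * (1 / H) * Real.exp (-(lam * H * x)) +
      C * E2 * (x * Real.exp (-(Real.log 2 * x)))) := by
    apply norm_integral_le_of_norm_le
    · exact (hI1.add hI2).add hI3
    · filter_upwards [ae_restrict_mem measurableSet_Ioi] with x hx
      exact hbnd x hx
  refine le_trans h1 ?_
  have hI12 : IntegrableOn (fun x : ℝ => K * Real.exp H * E1 * (x * Real.exp (-(lam * H * x))) +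
      K * Real.exp H * E1 * (1 / H) * Real.exp (-(lam * H * x))) (Ioi 0) := hI1.add hI2
  rw [integral_add hI12 hI3, integral_add hI1 hI2, integral_const_mul, integral_const_mul,
    integral_const_mul, integral_x_exp ha, integral_exp' ha, integral_x_exp hlog2]
  have h3 : 1 / (lam * H) ^ 2 ≤ 1 / H ^ 2 := by
    apply one_div_le_one_div_of_le (by positivity)
    apply pow_le_pow_left₀ hH0.le
    nlinarith
  have h4 : 1 / H * (1 / (lam * H)) ≤ 1 / H ^ 2 := by
    rw [div_mul_div_comm, one_mul]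
    apply one_div_le_one_div_of_le (by positivity)
    nlinarith [mul_pos hH0 hH0]
  have hE1' : 0 < E1 := Real.exp_pos _
  calc K * Real.exp H * E1 * (1 / (lam * H) ^ 2) + K * Real.exp H * E1 * (1 / H) * (1 / (lam * H)) +
        C * E2 * (1 / Real.log 2 ^ 2)
      = K * Real.exp H * E1 * (1 / (lam * H) ^ 2) + K * Real.exp H * E1 * (1 / H * (1 / (lam * H))) +
        C * E2 * (1 / Real.log 2 ^ 2) := by ring
    _ ≤ K * Real.exp H * E1 * (1 / H ^ 2) + K * Real.exp H * E1 * (1 / H ^ 2) +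
        C * E2 * (1 / Real.log 2 ^ 2) := by gcongr
    _ = 2 * K * (Real.exp H / H ^ 2) * E1 + C * (1 / Real.log 2 ^ 2) * E2 := by ring

/-- Bound for `J (n+1)` at height `T = exp(exp H)`. -/
lemma exists_J_bound (hRH : RiemannHypothesis) {ε : ℝ} (hε : 0 < ε) (hε1 : ε ≤ 1 / 2) :
    ∃ K C : ℝ, 0 < K ∧ 0 < C ∧ ∀ n : ℕ, ∀ H : ℝ, 10 ≤ H → ∀ y : ℝ, 0 < y →
      ‖J (n + 1) ((1 / 2 + y : ℝ) + (Real.exp (Real.exp H) : ℝ) * I)‖ ≤
        K * (Real.exp H / H ^ 2) * (1 / (1 / (1 / 2 + ε) * H)) ^ n *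
          Real.exp (-(1 / (1 / 2 + ε) * H * y)) +
          C * (1 / Real.log 2) ^ n * Real.exp (-(Real.log 2 * y)) := by
  obtain ⟨K, C, hK, hC, hb⟩ := exists_J_one_bound hRH hε hε1
  refine ⟨K, C, hK, hC, ?_⟩
  set lam : ℝ := 1 / (1 / 2 + ε) with hlam
  have hlam0 : 0 < lam := by positivity
  have hlog2 : 0 < Real.log 2 := Real.log_pos (by norm_num)
  intro n
  induction n with
  | zero =>
    intro H hH y hy
    simpa using hb H hH y hy
  | succ n ih =>
    intro H hH y hy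
    have hH0 : 0 < H := by linarith
    have ha : 0 < lam * H := by positivity
    set T : ℝ := Real.exp (Real.exp H) with hT
    set E1 := Real.exp (-(lam * H * y)) with hE1
    set E2 := Real.exp (-(Real.log 2 * y)) with hE2
    have hI1 := (integrableOn_exp' ha).const_mul (K * (Real.exp H / H ^ 2) * (1 / (lam * H)) ^ n * E1)
    have hI2 := (integrableOn_exp' hlog2).const_mul (C * (1 / Real.log 2) ^ n * E2)
    have h1 : ‖J (n + 1 + 1) (((1 / 2 + y : ℝ) : ℂ) + T * I)‖ ≤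
        ∫ x in Ioi (0:ℝ), (K * (Real.exp H / H ^ 2) * (1 / (lam * H)) ^ n * E1 *
          Real.exp (-(lam * H * x)) +
          C * (1 / Real.log 2) ^ n * E2 * Real.exp (-(Real.log 2 * x))) := by
      show ‖P (J (n + 1)) (((1 / 2 + y : ℝ) : ℂ) + T * I)‖ ≤ _
      unfold P
      apply norm_integral_le_of_norm_le
      · exact hI1.add hI2
      · filter_upwards [ae_restrict_mem measurableSet_Ioi] with x hx
        have hx0 : (0:ℝ) < x := hx
        have h2 := ih H hH (y + x) (by positivity)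
        have e1 : (((1 / 2 + (y + x) : ℝ) : ℂ)) + T * I = ((1 / 2 + y : ℝ) : ℂ) + T * I + x := by
          push_cast; ring
        rw [← hT, e1] at h2
        have e2 : Real.exp (-(lam * H * (y + x))) = E1 * Real.exp (-(lam * H * x)) := by
          rw [hE1, ← Real.exp_add]; congr 1; ring
        have e3 : Real.exp (-(Real.log 2 * (y + x))) = E2 * Real.exp (-(Real.log 2 * x)) := by
          rw [hE2, ← Real.exp_add]; congr 1; ring
        rw [e2, e3] at h2
        refine le_trans h2 (le_of_eq ?_)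
        ring
    refine le_trans h1 (le_of_eq ?_)
    rw [integral_add hI1 hI2, integral_const_mul, integral_const_mul, integral_exp' ha,
      integral_exp' hlog2]
    ring

end Pool.Agent.Lib.MP_155064_nt
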