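import Pool.Agent.Lib.MP_155064_nt.Cutoff
import Pool.Agent.Lib.MP_155064_nt.JBounds

set_option autoImplicit false

open Complex MeasureTheory Set Filter Asymptotics Topology ComplexConjugate

namespace Pool.Agent.Lib.MP_155064_nt

/-- `Λ_m(t) = log t / (log log t)^(m+1)`. -/
noncomputable def Lam (m : ℕ) (t : ℝ) : ℝ := Real.log t / (Real.log (Real.log t)) ^ (m + 1)

/-- Two-sided bound with constants inflated by `κ^(m+1)`, uniform in `σ ∈ (1/2, 1]`. -/
def PBound (m : ℕ) (κ : ℝ) : Prop :=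
  ∃ T₀ : ℝ, ∀ t : ℝ, T₀ ≤ t → ∀ σ : ℝ, 1 / 2 < σ → σ ≤ 1 →
    κ ^ (m + 1) * (Real.pi ^ m / 2 * bot' m) * Lam m t ≤ Ss m σ t ∧
    Ss m σ t ≤ κ ^ (m + 1) * (Real.pi ^ m / 2 * top' m) * Lam m t

lemma exp_exp_loglog {t : ℝ} (ht : 1 < t) : Real.exp (Real.exp (Real.log (Real.log t))) = t := by
  rw [Real.exp_log (Real.log_pos ht), Real.exp_log (by linarith)]

lemma eventually_loglog_ge (A : ℝ) : ∀ᶠ t : ℝ in atTop, A ≤ Real.log (Real.log t) :=
  (Real.tendsto_log_atTop.comp Real.tendsto_log_atTop).eventually_ge_atTop A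

lemma eventually_log_ge (A : ℝ) : ∀ᶠ t : ℝ in atTop, A ≤ Real.log t :=
  Real.tendsto_log_atTop.eventually_ge_atTop A

lemma exists_Ss_bound (hRH : RiemannHypothesis) {ε : ℝ} (hε : 0 < ε) (hε1 : ε ≤ 1 / 2) :
    ∃ K C : ℝ, 0 < K ∧ 0 < C ∧ ∀ n : ℕ, ∀ t : ℝ, 1 < t → 10 ≤ Real.log (Real.log t) →
      ∀ σ : ℝ, 1 / 2 < σ →
      |Ss (n + 1) σ t| ≤ (1 / Real.pi) *
        (K * Lam 1 t * (1 / (1 / (1 / 2 + ε) * Real.log (Real.log t))) ^ n +
          C * (1 / Real.log 2) ^ n) := by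
  obtain ⟨K, C, hK, hC, hb⟩ := exists_J_bound hRH hε hε1
  refine ⟨K, C, hK, hC, ?_⟩
  intro n t ht hH σ hσ
  set H := Real.log (Real.log t) with hHdef
  have e1 : Real.exp (Real.exp H) = t := exp_exp_loglog ht
  have e2 : Real.exp H = Real.log t := Real.exp_log (Real.log_pos ht)
  have h1 := hb n H hH (σ - 1 / 2) (by linarith)
  rw [e1, e2] at h1
  have e3 : ((1 / 2 + (σ - 1 / 2) : ℝ) : ℂ) = σ := by
    congr 1; ring
  rw [e3] at h1
  have h2 : |(I ^ (n + 1) * J (n + 1) (σ + t * I)).im| ≤ ‖J (n + 1) (σ + t * I)‖ := by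
    refine le_trans (abs_im_le_norm _) ?_
    rw [norm_mul, norm_pow, norm_I, one_pow, one_mul]
  have hpi := Real.pi_pos
  have hH0 : 0 < H := by linarith
  have hlog2 : 0 < Real.log 2 := Real.log_pos (by norm_num)
  have hlam0 : 0 < 1 / (1 / 2 + ε) := by positivity
  have hlt : 0 < Real.log t := Real.log_pos ht
  have hE1 : Real.exp (-(1 / (1 / 2 + ε) * H * (σ - 1 / 2))) ≤ 1 := by
    rw [Real.exp_le_one_iff]
    have : 0 < 1 / (1 / 2 + ε) * H * (σ - 1 / 2) := by
      apply mul_pos (by positivity); linarith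
    linarith
  have hE2 : Real.exp (-(Real.log 2 * (σ - 1 / 2))) ≤ 1 := by
    rw [Real.exp_le_one_iff]
    have : 0 < Real.log 2 * (σ - 1 / 2) := by
      apply mul_pos (by positivity); linarith
    linarith
  unfold Ss
  rw [abs_mul, abs_of_pos (by positivity : (0:ℝ) < 1 / Real.pi)]
  apply mul_le_mul_of_nonneg_left _ (by positivity)
  refine le_trans h2 (le_trans h1 ?_)
  have e4 : Lam 1 t = Real.log t / H ^ 2 := rfl
  rw [e4]
  have h3 : K * (Real.log t / H ^ 2) * (1 / (1 / (1 / 2 + ε) * H)) ^ n *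
      Real.exp (-(1 / (1 / 2 + ε) * H * (σ - 1 / 2))) ≤
      K * (Real.log t / H ^ 2) * (1 / (1 / (1 / 2 + ε) * H)) ^ n := by
    apply mul_le_of_le_one_right (by positivity) hE1
  have h4 : C * (1 / Real.log 2) ^ n * Real.exp (-(Real.log 2 * (σ - 1 / 2))) ≤
      C * (1 / Real.log 2) ^ n := by
    apply mul_le_of_le_one_right (by positivity) hE2
  linarith

lemma tendsto_Lam (m : ℕ) : Tendsto (Lam m) atTop atTop := by
  have h1 : Tendsto (fun x : ℝ => Real.exp x / x ^ (m + 1)) atTop atTop :=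
    Real.tendsto_exp_div_pow_atTop (m + 1)
  have h2 := h1.comp (Real.tendsto_log_atTop.comp Real.tendsto_log_atTop)
  apply h2.congr'
  filter_upwards [eventually_gt_atTop 1] with t ht
  simp only [Function.comp]
  rw [Real.exp_log (Real.log_pos ht)]
  rfl

lemma eventually_Lam_le (k : ℕ) {η : ℝ} (hη : 0 < η) :
    ∀ᶠ t : ℝ in atTop, ∀ t' : ℝ, |t' - t| ≤ 1 → Lam k t' ≤ (1 + η) * Lam k t := by
  have h1 : Tendsto (fun t : ℝ => Real.log (2 * t) / Real.log t) atTop (𝓝 1) := by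
    have : Tendsto (fun t : ℝ => Real.log 2 / Real.log t + 1) atTop (𝓝 (0 + 1)) :=
      (tendsto_const_nhds.div_atTop Real.tendsto_log_atTop).add_const 1
    rw [zero_add] at this
    apply this.congr'
    filter_upwards [eventually_gt_atTop 1] with t ht
    have hl := Real.log_pos ht
    rw [Real.log_mul (by norm_num) (by linarith)]
    field_simp
  have h2 : Tendsto (fun t : ℝ => Real.log (Real.log t) / Real.log (Real.log (t / 2))) atTop (𝓝 1) := by
    have h3 : Tendsto (fun u : ℝ => Real.log (1 - Real.log 2 / u) / Real.log u + 1) atTop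
        (𝓝 (0 + 1)) := by
      apply Tendsto.add_const
      apply Tendsto.div_atTop (a := 0)
      · have h4 : Tendsto (fun u : ℝ => 1 - Real.log 2 / u) atTop (𝓝 (1 - 0)) :=
          (tendsto_const_nhds.div_atTop tendsto_id).const_sub 1
        rw [sub_zero] at h4
        have h5 := (Real.continuousAt_log (x := 1) (by norm_num)).tendsto.comp h4
        rw [Real.log_one] at h5
        exact h5
      · exact Real.tendsto_log_atTop
    rw [zero_add] at h3
    have h6 : Tendsto (fun u : ℝ => Real.log (u - Real.log 2) / Real.log u) atTop (𝓝 1) := by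
      apply h3.congr'
      filter_upwards [eventually_gt_atTop 1, eventually_gt_atTop (Real.log 2)] with u hu hu2
      have hu0 : 0 < u := by linarith
      have e : u - Real.log 2 = u * (1 - Real.log 2 / u) := by field_simp
      have hpos : 0 < 1 - Real.log 2 / u := by
        have : Real.log 2 / u < 1 := by rw [div_lt_one hu0]; exact hu2
        linarith
      have hlu := Real.log_pos hu
      rw [e, Real.log_mul hu0.ne' hpos.ne']
      field_simp
      ring
    have h7 := (h6.inv₀ (by norm_num)).comp Real.tendsto_log_atTop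
    rw [inv_one] at h7
    apply h7.congr'
    filter_upwards [eventually_gt_atTop 1] with t ht
    simp only [Function.comp]
    rw [inv_div, Real.log_div (by linarith) (by norm_num)]
  have h3 : Tendsto (fun t : ℝ => (Real.log (2 * t) / Real.log t) *
      (Real.log (Real.log t) / Real.log (Real.log (t / 2))) ^ (k + 1)) atTop (𝓝 1) := by
    have := h1.mul (h2.pow (k + 1))
    simpa using this
  have h4 : ∀ᶠ t : ℝ in atTop, (Real.log (2 * t) / Real.log t) *
      (Real.log (Real.log t) / Real.log (Real.log (t / 2))) ^ (k + 1) < 1 + η :=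
    h3.eventually_lt_const (by linarith)
  have h5 : ∀ᶠ t : ℝ in atTop, 1 ≤ Real.log (Real.log (t / 2)) :=
    ((Real.tendsto_log_atTop.comp Real.tendsto_log_atTop).comp
      (tendsto_id.atTop_div_const (by norm_num : (0:ℝ) < 2))).eventually_ge_atTop 1
  have h6 : ∀ᶠ t : ℝ in atTop, 2 ≤ Real.log (t / 2) :=
    (Real.tendsto_log_atTop.comp
      (tendsto_id.atTop_div_const (by norm_num : (0:ℝ) < 2))).eventually_ge_atTop 2
  filter_upwards [h4, h5, h6, eventually_ge_atTop 4, eventually_loglog_ge 1] with t h4 h5 h6 ht h7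
  intro t' ht'
  obtain ⟨ha, hb⟩ := abs_le.mp ht'
  have h8 : Real.log (t / 2) ≤ Real.log t' := Real.log_le_log (by linarith) (by linarith)
  have h9 : Real.log t' ≤ Real.log (2 * t) := Real.log_le_log (by linarith) (by linarith)
  have h10 : Real.log (Real.log (t / 2)) ≤ Real.log (Real.log t') :=
    Real.log_le_log (by linarith) h8
  have hlt : 0 < Real.log t := Real.log_pos (by linarith)
  have h11 : Lam k t' ≤ Real.log (2 * t) / (Real.log (Real.log (t / 2))) ^ (k + 1) := by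
    unfold Lam
    apply div_le_div₀ (by linarith) h9 (by positivity)
    exact pow_le_pow_left₀ (by linarith) h10 _
  refine le_trans h11 ?_
  have e : Real.log (2 * t) / (Real.log (Real.log (t / 2))) ^ (k + 1) =
      (Real.log (2 * t) / Real.log t) *
      (Real.log (Real.log t) / Real.log (Real.log (t / 2))) ^ (k + 1) * Lam k t := by
    unfold Lam
    have a1 : Real.log (Real.log t) ≠ 0 := by linarith
    have a2 : Real.log (Real.log (t / 2)) ≠ 0 := by linarith
    rw [div_pow]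
    field_simp
  rw [e]
  have hL : 0 ≤ Lam k t := by unfold Lam; positivity
  nlinarith

lemma PBound_mono {m : ℕ} {κ κ' : ℝ} (h0 : 0 < κ) (h : κ ≤ κ') (hP : PBound m κ) : PBound m κ' := by
  obtain ⟨T₀, hT⟩ := hP
  obtain ⟨T₁, hT1⟩ := eventually_atTop.mp (eventually_loglog_ge 1)
  refine ⟨max (max T₀ T₁) 2, ?_⟩
  intro t ht σ hσ hσ1
  have ht0 : T₀ ≤ t := le_trans (le_trans (le_max_left _ _) (le_max_left _ _)) ht
  have ht1 : T₁ ≤ t := le_trans (le_trans (le_max_right _ _) (le_max_left _ _)) ht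
  have ht2 : 2 ≤ t := le_trans (le_max_right _ _) ht
  have hll := hT1 t ht1
  have hlt : 0 < Real.log t := Real.log_pos (by linarith)
  have hL : 0 ≤ Lam m t := by unfold Lam; positivity
  obtain ⟨h1, h2⟩ := hT t ht0 σ hσ hσ1
  have hpow : κ ^ (m + 1) ≤ κ' ^ (m + 1) := pow_le_pow_left₀ h0.le h _
  have htop := top_pos m
  have hbot := bot_neg m
  have hpi := Real.pi_pos
  have hA : 0 ≤ (Real.pi ^ m / 2 * top' m) * Lam m t := by positivity
  have hB : (Real.pi ^ m / 2 * bot' m) * Lam m t ≤ 0 := by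
    apply mul_nonpos_of_nonpos_of_nonneg _ hL
    apply mul_nonpos_of_nonneg_of_nonpos (by positivity) hbot.le
  constructor
  · nlinarith
  · nlinarith

/-- Base case: for `κ > 1`, the bound holds for some large odd indices. -/
lemma exists_base (hRH : RiemannHypothesis) {κ : ℝ} (hκ : 1 < κ) (k : ℕ) :
    ∃ m : ℕ, k ≤ m ∧ PBound m κ := by
  set ε : ℝ := min (1 / 2) ((κ - 1) / 4) with hεdef
  have hε : 0 < ε := lt_min (by norm_num) (by linarith)
  have hε1 : ε ≤ 1 / 2 := min_le_left _ _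
  have hε2 : ε ≤ (κ - 1) / 4 := min_le_right _ _
  obtain ⟨K, C, hK, hC, hb⟩ := exists_Ss_bound hRH hε hε1
  set lam : ℝ := 1 / (1 / 2 + ε) with hlam
  have hlam0 : 0 < lam := by positivity
  have hq : 1 < lam * κ / 2 := by
    rw [hlam]
    rw [lt_div_iff₀ (by norm_num), div_mul_eq_mul_div, one_mul, one_mul, lt_div_iff₀ (by positivity)]
    linarith
  obtain ⟨m₀, hm₀⟩ := pow_unbounded_of_one_lt (16 * K) hq
  -- choose j with 2j - 1 ≥ max k (m₀+1)
  set j : ℕ := k + m₀ + 2 with hj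
  have hj0 : j ≠ 0 := by omega
  refine ⟨2 * j - 1, by omega, ?_⟩
  obtain ⟨n, hn⟩ : ∃ n, 2 * j - 1 = n + 1 := ⟨2 * j - 2, by omega⟩
  have hn2 : 2 * j = n + 2 := by omega
  obtain ⟨hl1, hl2⟩ := top_bot_lower j hj0
  rw [hn] at hl1 hl2 ⊢
  rw [hn2] at hl1 hl2
  have hpi := Real.pi_pos
  have hlog2 : 0 < Real.log 2 := Real.log_pos (by norm_num)
  have hκ0 : 0 < κ := by linarith
  -- K / lam^n ≤ κ^(n+2) / (2 * 2^(n+3))
  have hKey : K * (1 / lam) ^ n ≤ κ ^ (n + 2) / 2 ^ (n + 4) := by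
    have h1 : (lam * κ / 2) ^ m₀ ≤ (lam * κ / 2) ^ n := pow_le_pow_right₀ hq.le (by omega)
    have h2 : 16 * K ≤ (lam * κ / 2) ^ n := by linarith
    have h3 : (lam * κ / 2) ^ n = lam ^ n * κ ^ n / 2 ^ n := by rw [div_pow, mul_pow]
    rw [h3] at h2
    have h4 : (1:ℝ) ≤ κ ^ 2 := by nlinarith
    rw [le_div_iff₀ (by positivity)] at h2
    rw [one_div, inv_pow, ← div_eq_mul_inv, div_le_div_iff₀ (by positivity) (by positivity)]
    have e1 : K * 2 ^ (n + 4) = 16 * K * 2 ^ n := by ring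
    have e2 : κ ^ (n + 2) * lam ^ n = (lam ^ n * κ ^ n) * κ ^ 2 := by ring
    rw [e1, e2]
    have h5 : 0 < lam ^ n * κ ^ n := by positivity
    nlinarith
  -- eventually the constant term is small
  have hev : ∀ᶠ t : ℝ in atTop, C * (1 / Real.log 2) ^ n ≤ κ ^ (n + 2) / 2 ^ (n + 4) * Lam (n + 1) t := by
    have := (tendsto_Lam (n + 1)).const_mul_atTop (show 0 < κ ^ (n + 2) / 2 ^ (n + 4) by positivity)
    exact this.eventually_ge_atTop _
  obtain ⟨T₀, hT₀⟩ := eventually_atTop.mp ((hev.and (eventually_loglog_ge 10)).and (eventually_gt_atTop 1))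
  refine ⟨T₀, ?_⟩
  intro t ht σ hσ hσ1
  obtain ⟨⟨h1, h2⟩, h3⟩ := hT₀ t ht
  have h4 := hb n t h3 h2 σ hσ
  set H := Real.log (Real.log t) with hH
  have hH0 : 0 < H := by linarith
  have hlt : 0 < Real.log t := Real.log_pos h3
  have hL : 0 ≤ Lam (n + 1) t := by unfold Lam; positivity
  have e1 : Lam 1 t * (1 / (lam * H)) ^ n = (1 / lam) ^ n * Lam (n + 1) t := by
    have : Lam 1 t = Real.log t / H ^ 2 := rfl
    rw [this]
    have : Lam (n + 1) t = Real.log t / H ^ (n + 2) := rfl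
    rw [this]
    have : H ^ (n + 2) = H ^ n * H ^ 2 := by ring
    rw [this]
    rw [one_div, one_div, inv_pow, inv_pow, mul_pow]
    field_simp
  have h5 : |Ss (n + 1) σ t| ≤ 1 / (Real.pi * 2 ^ (n + 3)) * (κ ^ (n + 2) * Lam (n + 1) t) := by
    refine le_trans h4 ?_
    calc (1 / Real.pi) * (K * Lam 1 t * (1 / (lam * H)) ^ n + C * (1 / Real.log 2) ^ n)
        = (1 / Real.pi) * (K * (1 / lam) ^ n * Lam (n + 1) t + C * (1 / Real.log 2) ^ n) := by
          rw [mul_assoc K, e1]; ring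
      _ ≤ (1 / Real.pi) * (κ ^ (n + 2) / 2 ^ (n + 4) * Lam (n + 1) t +
          κ ^ (n + 2) / 2 ^ (n + 4) * Lam (n + 1) t) := by gcongr
      _ = 1 / (Real.pi * 2 ^ (n + 3)) * (κ ^ (n + 2) * Lam (n + 1) t) := by
          field_simp; ring
  have h6 : 1 / (Real.pi * 2 ^ (n + 3)) = Real.pi ^ (n + 1) / 2 * (1 / (2 * Real.pi) ^ (n + 2)) := by
    rw [mul_pow]; field_simp; ring
  rw [h6] at h5
  obtain ⟨h7, h8⟩ := abs_le.mp h5
  have hX : 0 ≤ κ ^ (n + 2) * Lam (n + 1) t := by positivity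
  constructor
  · refine le_trans ?_ h7
    have h9 : Real.pi ^ (n + 1) / 2 * bot' (n + 1) ≤ -(Real.pi ^ (n + 1) / 2 * (1 / (2 * Real.pi) ^ (n + 2))) := by
      rw [← mul_neg]
      apply mul_le_mul_of_nonneg_left hl2 (by positivity)
    have h10 := mul_le_mul_of_nonneg_right h9 hX
    have e3 : κ ^ (n + 1 + 1) * (Real.pi ^ (n + 1) / 2 * bot' (n + 1)) * Lam (n + 1) t =
      Real.pi ^ (n + 1) / 2 * bot' (n + 1) * (κ ^ (n + 2) * Lam (n + 1) t) := by ring
    rw [e3]
    linarith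
  · refine le_trans h8 ?_
    have h9 : Real.pi ^ (n + 1) / 2 * (1 / (2 * Real.pi) ^ (n + 2)) ≤ Real.pi ^ (n + 1) / 2 * top' (n + 1) := by
      apply mul_le_mul_of_nonneg_left hl1 (by positivity)
    have h10 := mul_le_mul_of_nonneg_right h9 hX
    have e3 : κ ^ (n + 1 + 1) * (Real.pi ^ (n + 1) / 2 * top' (n + 1)) * Lam (n + 1) t =
      Real.pi ^ (n + 1) / 2 * top' (n + 1) * (κ ^ (n + 2) * Lam (n + 1) t) := by ring
    rw [e3]
    linarith

/-- The rescaled functions. -/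
noncomputable def GG (σ t h ℓ : ℝ) (j : ℕ) (x : ℝ) : ℝ := Ss j σ (t + x * h) / (ℓ * h ^ (j + 1))

lemma hasDerivAt_GG_succ (hRH : RiemannHypothesis) {σ t h ℓ : ℝ} (hσ : 1 / 2 < σ) (hh : 0 < h)
    (hℓ : 0 < ℓ) (j : ℕ) {x : ℝ} (hx : 0 < t + x * h) :
    HasDerivAt (GG σ t h ℓ (j + 1)) (GG σ t h ℓ j x) x := by
  have h1 := hasDerivAt_Ss_succ hRH j hσ hx
  have h2 : HasDerivAt (fun y : ℝ => t + y * h) h x := by
    simpa using ((hasDerivAt_id x).mul_const h).const_add t
  have h3 := (h1.comp x h2).div_const (ℓ * h ^ (j + 1 + 1))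
  have e : GG σ t h ℓ j x = Ss j σ (t + x * h) * h / (ℓ * h ^ (j + 1 + 1)) := by
    unfold GG
    rw [pow_succ h (j + 1)]
    field_simp
  rw [e]
  exact h3

lemma hasDerivAt_GG_zero (hRH : RiemannHypothesis) {σ t h ℓ : ℝ} (hσ : 1 / 2 < σ) (hh : 0 < h)
    (hℓ : 0 < ℓ) {x : ℝ} (hx : 0 < t + x * h) :
    HasDerivAt (GG σ t h ℓ 0) ((1 / (Real.pi * ℓ)) * (fz (σ + (t + x * h : ℝ) * I)).re) x := by
  have h1 := hasDerivAt_Ss_zero hRH hσ hx
  have h2 : HasDerivAt (fun y : ℝ => t + y * h) h x := by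
    simpa using ((hasDerivAt_id x).mul_const h).const_add t
  have h3 := (h1.comp x h2).div_const (ℓ * h ^ (0 + 1))
  have e : (1 / (Real.pi * ℓ)) * (fz (σ + (t + x * h : ℝ) * I)).re =
      (1 / Real.pi) * (fz (σ + (t + x * h : ℝ) * I)).re * h / (ℓ * h ^ (0 + 1)) := by
    have := Real.pi_pos
    rw [zero_add, pow_one]
    field_simp
  rw [e]
  exact h3

/-- Landau's trick: a one-sided bound for `g''` and a bound for `g` bound `g'`. -/
lemma landau_trick {g g1 g2 : ℝ → ℝ} {a b B : ℝ}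
    (h1 : ∀ x ∈ Icc a b, HasDerivAt g (g1 x) x) (h2 : ∀ x ∈ Icc a b, HasDerivAt g1 (g2 x) x)
    (hB : ∀ x ∈ Icc a b, |g x| ≤ B) (hg2 : ∀ x ∈ Icc a b, -1 ≤ g2 x) {x : ℝ}
    (hx1 : a + 1 ≤ x) (hx2 : x ≤ b - 1) : |g1 x| ≤ 2 * B + 1 := by
  have hmono : ∀ u v, a ≤ u → u ≤ v → v ≤ b → g1 u - (v - u) ≤ g1 v := by
    intro u v hu huv hv
    have := mvt_ge (f := g1) (f' := g2) (a := u) (b := v) (η := -1) huv
      (fun y hy => (h2 y ⟨by linarith [hy.1], by linarith [hy.2]⟩).continuousAt.continuousWithinAt)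
      (fun y hy => (h2 y ⟨by linarith [hy.1], by linarith [hy.2]⟩).hasDerivWithinAt)
      (fun y hy => hg2 y ⟨by linarith [hy.1], by linarith [hy.2]⟩)
    linarith
  rw [abs_le]
  constructor
  · -- g x - g (x-1) = g1 ξ ≤ g1 x + 1
    obtain ⟨ξ, hξ, hξ2⟩ := exists_hasDerivAt_eq_slope g g1 (a := x - 1) (b := x) (by linarith)
      (fun y hy => (h1 y ⟨by linarith [hy.1], by linarith [hy.2]⟩).continuousAt.continuousWithinAt)
      (fun y hy => h1 y ⟨by linarith [hy.1], by linarith [hy.2]⟩)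
    have e : x - (x - 1) = 1 := by ring
    rw [e, div_one] at hξ2
    have h3 := hmono ξ x (by linarith [hξ.1]) hξ.2.le (by linarith)
    have h4 := abs_le.mp (hB x ⟨by linarith, by linarith⟩)
    have h5 := abs_le.mp (hB (x - 1) ⟨by linarith, by linarith⟩)
    linarith [hξ.1, h4.1, h4.2, h5.1, h5.2]
  · obtain ⟨ξ, hξ, hξ2⟩ := exists_hasDerivAt_eq_slope g g1 (a := x) (b := x + 1) (by linarith)
      (fun y hy => (h1 y ⟨by linarith [hy.1], by linarith [hy.2]⟩).continuousAt.continuousWithinAt)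
      (fun y hy => h1 y ⟨by linarith [hy.1], by linarith [hy.2]⟩)
    have e : x + 1 - x = 1 := by ring
    rw [e, div_one] at hξ2
    have h3 := hmono x ξ (by linarith) hξ.1.le (by linarith [hξ.2])
    have h4 := abs_le.mp (hB x ⟨by linarith, by linarith⟩)
    have h5 := abs_le.mp (hB (x + 1) ⟨by linarith, by linarith⟩)
    linarith [hξ.2, h4.1, h4.2, h5.1, h5.2]

theorem descent (hRH : RiemannHypothesis) {k : ℕ} {κ κ' : ℝ} (hκ : 1 ≤ κ) (hκ' : κ < κ')
    (hP : PBound (k + 1) κ) : PBound k κ' := by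
  obtain ⟨T₀, hT₀⟩ := hP
  obtain ⟨M, hM0, hM⟩ := exists_local_comparison k
  obtain ⟨K, C, hK, hC, hb⟩ := exists_Ss_bound hRH (ε := 1 / 2) (by norm_num) le_rfl
  have hpi := Real.pi_pos
  have hlog2 : 0 < Real.log 2 := Real.log_pos (by norm_num)
  set κ₂ : ℝ := (κ + κ') / 2 with hκ₂
  have hκ₂1 : κ < κ₂ := by rw [hκ₂]; linarith
  have hκ₂2 : κ₂ < κ' := by rw [hκ₂]; linarith
  have hκ₂0 : 0 < κ₂ := by linarith
  set η : ℝ := min 1 (κ' / κ₂ - 1) with hη
  have hη0 : 0 < η := by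
    apply lt_min one_pos
    have : 1 < κ' / κ₂ := by rw [lt_div_iff₀ hκ₂0]; linarith
    linarith
  have hη1 : η ≤ 1 := min_le_left _ _
  have hη2 : 1 + η ≤ κ' / κ₂ := by
    have := min_le_right 1 (κ' / κ₂ - 1)
    rw [← hη] at this; linarith
  set b₁ : ℝ := 2 * K + 1 with hb₁
  have hb₁0 : 0 < b₁ := by rw [hb₁]; linarith
  set b : ℝ := 2 * b₁ + 1 with hbdef
  have hb0 : 0 < b := by rw [hbdef]; linarith
  set η₁ : ℝ := η / 4 with hη₁
  have hη₁0 : 0 < η₁ := by rw [hη₁]; linarith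
  set R : ℝ := 1 + M * b / η₁ with hR
  have hR1 : 1 ≤ R := by
    have : 0 ≤ M * b / η₁ := by positivity
    rw [hR]; linarith
  have hMR : M * b < η₁ * R := by
    have e : η₁ * R = η₁ + M * b := by rw [hR]; field_simp
    rw [e]; linarith
  -- eventual conditions
  have c1 : ∀ᶠ t : ℝ in atTop, ∀ j ∈ Finset.range (k + 2), ∀ t' : ℝ, |t' - t| ≤ 1 →
      Lam j t' ≤ (1 + η / 2) * Lam j t := by
    rw [Filter.eventually_all_finset]
    intro j _
    exact eventually_Lam_le j (by linarith)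
  have c2 : ∀ᶠ t : ℝ in atTop, ∀ j ∈ Finset.range (k + 2), C * (1 / Real.log 2) ^ (j - 1) ≤ Lam j t := by
    rw [Filter.eventually_all_finset]
    intro j _
    exact (tendsto_Lam j).eventually_ge_atTop _
  have c3 : ∀ᶠ t : ℝ in atTop, 10 ≤ Real.log (Real.log (t - 1)) :=
    ((Real.tendsto_log_atTop.comp Real.tendsto_log_atTop).comp
      (tendsto_atTop_add_const_right _ (-1) tendsto_id)).eventually_ge_atTop 10
  have c4 : ∀ᶠ t : ℝ in atTop, (2 * R + 1) * (κ₂ * Real.pi) ≤ Real.log (Real.log t) :=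
    eventually_loglog_ge _
  have c5 : ∀ᶠ t : ℝ in atTop, Real.log (t + 3) + 6 ≤ (1 + η / 2) * Real.log t := by
    have h1 : ∀ᶠ t : ℝ in atTop, 2 * (Real.log 2 + 6) / η ≤ Real.log t := eventually_log_ge _
    filter_upwards [h1, eventually_ge_atTop 3] with t h1 h2
    have h3 : Real.log (t + 3) ≤ Real.log (2 * t) := Real.log_le_log (by linarith) (by linarith)
    rw [Real.log_mul (by norm_num) (by linarith)] at h3
    rw [div_le_iff₀ hη0] at h1
    nlinarith
  obtain ⟨T₁, hT₁⟩ := eventually_atTop.mp ((((c1.and c2).and (c3.and c4)).and c5).and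
    ((eventually_ge_atTop (T₀ + 1)).and (eventually_ge_atTop (4:ℝ))))
  refine ⟨T₁, ?_⟩
  intro t ht σ hσ hσ1
  obtain ⟨⟨⟨⟨d1, d2⟩, d3, d4⟩, d5⟩, d6, d7⟩ := hT₁ t ht
  set H := Real.log (Real.log t) with hH
  have hlt : 0 < Real.log t := Real.log_pos (by linarith)
  have hH0 : 0 < H := by
    have : 0 < (2 * R + 1) * (κ₂ * Real.pi) := by positivity
    linarith
  set h : ℝ := κ₂ * Real.pi / H with hh
  have hh0 : 0 < h := by positivity
  set ℓ : ℝ := (1 / (2 * Real.pi)) * (1 + η) * Real.log t with hℓ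
  have hℓ0 : 0 < ℓ := by positivity
  have hRh : (2 * R + 1) * h ≤ 1 := by
    rw [hh, ← mul_div_assoc, div_le_one hH0]; exact d4
  have hnear : ∀ x : ℝ, |x| ≤ 2 * R + 1 → |t + x * h - t| ≤ 1 := by
    intro x hx
    have e : t + x * h - t = x * h := by ring
    rw [e, abs_mul, abs_of_pos hh0]
    have := mul_le_mul_of_nonneg_right hx hh0.le
    linarith
  have hDj : ∀ j : ℕ, ℓ * h ^ (j + 1) = (1 + η) * κ₂ ^ (j + 1) * (Real.pi ^ j / 2) * Lam j t := by
    intro j
    have e : Lam j t = Real.log t / H ^ (j + 1) := rfl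
    rw [e, hℓ, hh, div_pow, mul_pow]
    field_simp
    ring
  have hLpos : ∀ j, 0 < Lam j t := by
    intro j
    have e : Lam j t = Real.log t / H ^ (j + 1) := rfl
    rw [e]; positivity
  have hDge : ∀ j : ℕ, Lam j t / 2 ≤ ℓ * h ^ (j + 1) := by
    intro j
    rw [hDj]
    have h1 : 1 ≤ κ₂ ^ (j + 1) := one_le_pow₀ (by linarith)
    have h2 : 1 ≤ Real.pi ^ j := one_le_pow₀ (by linarith [Real.pi_gt_three])
    have h3 : 1 ≤ (1 + η) * κ₂ ^ (j + 1) := by nlinarith
    have h4 : 1 ≤ (1 + η) * κ₂ ^ (j + 1) * Real.pi ^ j := by nlinarith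
    have h5 := hLpos j
    calc Lam j t / 2 = 1 * (Lam j t / 2) := by ring
      _ ≤ ((1 + η) * κ₂ ^ (j + 1) * Real.pi ^ j) * (Lam j t / 2) := by gcongr
      _ = _ := by ring
  -- bounds on t'
  have htpos : ∀ t' : ℝ, |t' - t| ≤ 1 → 1 < t' ∧ 10 ≤ Real.log (Real.log t') ∧ T₀ ≤ t' ∧ t' ≤ t + 1 := by
    intro t' ht'
    obtain ⟨ha, hb'⟩ := abs_le.mp ht'
    refine ⟨by linarith, ?_, by linarith, by linarith⟩
    refine le_trans d3 ?_
    apply Real.log_le_log (Real.log_pos (by linarith))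
    exact Real.log_le_log (by linarith) (by linarith)
  -- bound for G (j+1)
  have hG1 : ∀ j, j ≤ k → ∀ x, |x| ≤ 2 * R + 1 → |GG σ t h ℓ (j + 1) x| ≤ b₁ := by
    intro j hj x hx
    have hn := hnear x hx
    obtain ⟨p1, p2, -, -⟩ := htpos _ hn
    have h1 := hb j (t + x * h) p1 p2 σ hσ
    have e0 : (1:ℝ) / (1 / 2 + 1 / 2) = 1 := by norm_num
    rw [e0, one_mul] at h1
    have e1 : Lam 1 (t + x * h) * (1 / Real.log (Real.log (t + x * h))) ^ j = Lam (j + 1) (t + x * h) := by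
      unfold Lam
      have : Real.log (Real.log (t + x * h)) ≠ 0 := by linarith
      rw [one_div, inv_pow]
      field_simp
      ring
    rw [mul_assoc K, e1] at h1
    have h2 := d1 (j + 1) (Finset.mem_range.mpr (by omega)) _ hn
    have h3 := d2 (j + 1) (Finset.mem_range.mpr (by omega))
    simp only [Nat.add_sub_cancel] at h3
    have hL := hLpos (j + 1)
    have h4 : |Ss (j + 1) σ (t + x * h)| ≤ (1 / 2) * ((2 * K + 1) * Lam (j + 1) t) := by
      have hpi3 := Real.pi_gt_three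
      have h5 : (1:ℝ) / Real.pi ≤ 1 / 2 := by
        apply one_div_le_one_div_of_le (by norm_num); linarith
      refine le_trans h1 ?_
      have h6 : K * Lam (j + 1) (t + x * h) + C * (1 / Real.log 2) ^ j ≤ (2 * K + 1) * Lam (j + 1) t := by
        have : (1 + η / 2) * Lam (j + 1) t ≤ 2 * Lam (j + 1) t := by nlinarith
        nlinarith
      have h7 : 0 ≤ (2 * K + 1) * Lam (j + 1) t := by positivity
      calc (1 / Real.pi) * (K * Lam (j + 1) (t + x * h) + C * (1 / Real.log 2) ^ j)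
          ≤ (1 / Real.pi) * ((2 * K + 1) * Lam (j + 1) t) := by gcongr
        _ ≤ (1 / 2) * ((2 * K + 1) * Lam (j + 1) t) := by gcongr
    unfold GG
    have hDpos : 0 < ℓ * h ^ (j + 1 + 1) := by positivity
    rw [abs_div, abs_of_pos hDpos, div_le_iff₀ hDpos]
    have h8 := hDge (j + 1)
    calc |Ss (j + 1) σ (t + x * h)| ≤ (1 / 2) * ((2 * K + 1) * Lam (j + 1) t) := h4
      _ = b₁ * (Lam (j + 1) t / 2) := by rw [hb₁]; ring
      _ ≤ b₁ * (ℓ * h ^ (j + 1 + 1)) := by gcongr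
  -- lower bound for G0'
  set G0' : ℝ → ℝ := fun x => (1 / (Real.pi * ℓ)) * (fz (σ + (t + x * h : ℝ) * I)).re with hG0'
  have hG0low : ∀ x, |x| ≤ 2 * R + 1 → -1 + η₁ ≤ G0' x := by
    intro x hx
    have hn := hnear x hx
    obtain ⟨p1, p2, -, p4⟩ := htpos _ hn
    have h1 := re_fz_ge hRH hσ (by linarith) p1.le
    have h2 : Real.log (t + x * h + 2) ≤ Real.log (t + 3) :=
      Real.log_le_log (by linarith) (by linarith)
    have h3 : -(1 / 2) * ((1 + η / 2) * Real.log t) ≤ (fz (σ + (t + x * h : ℝ) * I)).re := by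
      linarith
    have h4 : (1 / (Real.pi * ℓ)) * (-(1 / 2) * ((1 + η / 2) * Real.log t)) ≤ G0' x := by
      rw [hG0']
      apply mul_le_mul_of_nonneg_left h3 (by positivity)
    refine le_trans ?_ h4
    have e : (1 / (Real.pi * ℓ)) * (-(1 / 2) * ((1 + η / 2) * Real.log t)) =
        -((1 + η / 2) / (1 + η)) := by
      rw [hℓ]
      field_simp
    rw [e, hη₁]
    have h5 : (1 + η / 2) / (1 + η) ≤ 1 - η / 4 := by
      rw [div_le_iff₀ (by linarith)]
      nlinarith
    linarith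
  have hpos' : ∀ x, |x| ≤ 2 * R + 1 → 0 < t + x * h := by
    intro x hx
    obtain ⟨p1, -⟩ := htpos _ (hnear x hx)
    linarith
  -- bound for G 0
  have hG0 : ∀ x, |x| ≤ 2 * R → |GG σ t h ℓ 0 x| ≤ b := by
    intro x hx
    obtain ⟨hx1, hx2⟩ := abs_le.mp hx
    have hmem : ∀ y ∈ Icc (-(2 * R + 1)) (2 * R + 1), |y| ≤ 2 * R + 1 := fun y hy => abs_le.mpr hy
    exact landau_trick (g := GG σ t h ℓ 1) (g1 := GG σ t h ℓ 0) (g2 := G0')
      (a := -(2 * R + 1)) (b := 2 * R + 1)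
      (fun y hy => hasDerivAt_GG_succ hRH hσ hh0 hℓ0 0 (hpos' y (hmem y hy)))
      (fun y hy => hasDerivAt_GG_zero hRH hσ hh0 hℓ0 (hpos' y (hmem y hy)))
      (fun y hy => hG1 0 (by omega) y (hmem y hy))
      (fun y hy => by have := hG0low y (hmem y hy); linarith) (by linarith) (by linarith)
  -- comparison for G (k+1)
  have hGk : ∀ x, |x| ≤ 2 * R → bot' (k + 1) < GG σ t h ℓ (k + 1) x ∧
      GG σ t h ℓ (k + 1) x < top' (k + 1) := by
    intro x hx
    have hn := hnear x (by linarith)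
    obtain ⟨p1, p2, p3, p4⟩ := htpos _ hn
    obtain ⟨q1, q2⟩ := hT₀ _ p3 σ hσ hσ1
    have hDpos : 0 < ℓ * h ^ (k + 1 + 1) := by positivity
    have h2 := d1 (k + 1) (Finset.mem_range.mpr (by omega)) _ hn
    have hL := hLpos (k + 1)
    have hLt' : 0 ≤ Lam (k + 1) (t + x * h) := by
      unfold Lam
      have : 0 < Real.log (t + x * h) := Real.log_pos p1
      have : 0 < Real.log (Real.log (t + x * h)) := by linarith
      positivity
    have ht := top_pos (k + 1)
    have hbo := bot_neg (k + 1)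
    have hpw : κ ^ (k + 2) < κ₂ ^ (k + 2) := pow_lt_pow_left₀ hκ₂1 (by linarith) (by omega)
    have hκpos : 0 < κ ^ (k + 2) := by positivity
    -- main inequality
    have hmain : κ ^ (k + 1 + 1) * (Real.pi ^ (k + 1) / 2) * Lam (k + 1) (t + x * h) <
        ℓ * h ^ (k + 1 + 1) := by
      rw [hDj]
      have h3 : κ ^ (k + 2) * Lam (k + 1) (t + x * h) ≤ κ ^ (k + 2) * ((1 + η / 2) * Lam (k + 1) t) := by
        gcongr
      have h4 : κ ^ (k + 2) * ((1 + η / 2) * Lam (k + 1) t) < (1 + η) * κ₂ ^ (k + 2) * Lam (k + 1) t := by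
        have : κ ^ (k + 2) * (1 + η / 2) < (1 + η) * κ₂ ^ (k + 2) := by nlinarith
        calc κ ^ (k + 2) * ((1 + η / 2) * Lam (k + 1) t) = (κ ^ (k + 2) * (1 + η / 2)) * Lam (k + 1) t := by ring
          _ < ((1 + η) * κ₂ ^ (k + 2)) * Lam (k + 1) t := by gcongr
      have h5 : 0 < Real.pi ^ (k + 1) / 2 := by positivity
      calc κ ^ (k + 1 + 1) * (Real.pi ^ (k + 1) / 2) * Lam (k + 1) (t + x * h)
          = (Real.pi ^ (k + 1) / 2) * (κ ^ (k + 2) * Lam (k + 1) (t + x * h)) := by ring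
        _ < (Real.pi ^ (k + 1) / 2) * ((1 + η) * κ₂ ^ (k + 2) * Lam (k + 1) t) := by
          apply mul_lt_mul_of_pos_left (lt_of_le_of_lt h3 h4) h5
        _ = _ := by ring
    unfold GG
    constructor
    · rw [lt_div_iff₀ hDpos]
      have : bot' (k + 1) * (ℓ * h ^ (k + 1 + 1)) <
        bot' (k + 1) * (κ ^ (k + 1 + 1) * (Real.pi ^ (k + 1) / 2) * Lam (k + 1) (t + x * h)) :=
        mul_lt_mul_of_neg_left hmain hbo
      linarith
    · rw [div_lt_iff₀ hDpos]
      have : top' (k + 1) * (κ ^ (k + 1 + 1) * (Real.pi ^ (k + 1) / 2) * Lam (k + 1) (t + x * h)) <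
        top' (k + 1) * (ℓ * h ^ (k + 1 + 1)) :=
        mul_lt_mul_of_pos_left hmain ht
      linarith
  -- apply the local comparison theorem
  set g : ℕ → ℝ → ℝ := fun i x => if i ≤ k + 1 then GG σ t h ℓ (k + 1 - i) x else G0' x with hg
  have hgle : ∀ i, i ≤ k + 1 → g i = GG σ t h ℓ (k + 1 - i) := by
    intro i hi; funext x; simp only [hg]; rw [if_pos hi]
  have hgt : g (k + 2) = G0' := by
    funext x; simp only [hg]; rw [if_neg (by omega)]
  have hfin := hM g R b η₁ hR1 hb0.le hη₁0 (by rw [hη₁]; linarith) hMR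
    (by
      intro j hj x hx
      have hx' : |x| ≤ 2 * R + 1 := by linarith
      rcases Nat.lt_or_ge j (k + 1) with hjk | hjk
      · rw [hgle j hj, hgle (j + 1) (by omega)]
        have e : k + 1 - j = (k + 1 - (j + 1)) + 1 := by omega
        rw [e]
        exact hasDerivAt_GG_succ hRH hσ hh0 hℓ0 _ (hpos' x hx')
      · have hjk' : j = k + 1 := by omega
        subst hjk'
        rw [hgle (k + 1) le_rfl, hgt, Nat.sub_self]
        exact hasDerivAt_GG_zero hRH hσ hh0 hℓ0 (hpos' x hx'))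
    (by
      intro j hj x hx
      rw [hgle j hj]
      rcases Nat.eq_zero_or_pos (k + 1 - j) with h0 | h0
      · rw [h0]; exact hG0 x hx
      · obtain ⟨m, hm⟩ : ∃ m, k + 1 - j = m + 1 := ⟨k + 1 - j - 1, by omega⟩
        rw [hm]
        have := hG1 m (by omega) x (by linarith)
        rw [hbdef]; linarith)
    (by
      intro x hx
      rw [hgt]
      exact hG0low x (by linarith))
    (by
      intro x hx
      rw [hgle 0 (by omega), Nat.sub_zero]
      exact hGk x hx)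
  rw [hgle 1 (by omega)] at hfin
  have e1 : k + 1 - 1 = k := by omega
  rw [e1] at hfin
  have e2 : GG σ t h ℓ k 0 = Ss k σ t / (ℓ * h ^ (k + 1)) := by
    unfold GG; rw [zero_mul, add_zero]
  rw [e2] at hfin
  have hDpos : 0 < ℓ * h ^ (k + 1) := by positivity
  obtain ⟨f1, f2⟩ := hfin
  rw [le_div_iff₀ hDpos] at f1
  rw [div_le_iff₀ hDpos] at f2
  -- final comparison of constants
  have hc : ℓ * h ^ (k + 1) ≤ κ' ^ (k + 1) * (Real.pi ^ k / 2) * Lam k t := by
    rw [hDj]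
    have h1 : (1 + η) * κ₂ ^ (k + 1) ≤ κ' ^ (k + 1) := by
      have h2 : κ' / κ₂ ≤ (κ' / κ₂) ^ (k + 1) := by
        apply le_self_pow₀ _ (by omega)
        rw [le_div_iff₀ hκ₂0]; linarith
      have h3 : (κ' / κ₂) ^ (k + 1) * κ₂ ^ (k + 1) = κ' ^ (k + 1) := by
        rw [← mul_pow, div_mul_cancel₀ _ hκ₂0.ne']
      rw [← h3]
      gcongr
      linarith
    have := hLpos k
    gcongr
  have ht := top_pos k
  have hbo := bot_neg k
  constructor
  · refine le_trans ?_ f1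
    have := mul_le_mul_of_nonpos_left hc hbo.le
    linarith
  · refine le_trans f2 ?_
    have := mul_le_mul_of_nonneg_left hc ht.le
    linarith

/-- For every `k` and every `κ > 1` the bound `PBound k κ` holds. -/
theorem PBound_all (hRH : RiemannHypothesis) (k : ℕ) {κ : ℝ} (hκ : 1 < κ) : PBound k κ := by
  set κ₁ : ℝ := (1 + κ) / 2 with hκ₁
  have h1 : 1 < κ₁ := by rw [hκ₁]; linarith
  have h2 : κ₁ < κ := by rw [hκ₁]; linarith
  obtain ⟨m, hkm, hm⟩ := exists_base hRH h1 k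
  have hstep : ∀ d : ℕ, ∀ k' : ℕ, k' + d = m → ∀ κ' > κ₁, PBound k' κ' := by
    intro d
    induction d with
    | zero =>
      intro k' hk' κ' hκ'
      have : k' = m := by omega
      rw [this]
      exact PBound_mono (by linarith) hκ'.le hm
    | succ d ih =>
      intro k' hk' κ' hκ'
      have h3 := ih (k' + 1) (by omega) ((κ₁ + κ') / 2) (by linarith)
      exact descent hRH (by linarith) (by linarith) h3
  exact hstep (m - k) k (by omega) κ h2

end Pool.Agent.Lib.MP_155064_nt
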