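import Pool.Agent.Lib.MP_155064_nt.GammaRatio

set_option autoImplicit false

open Complex MeasureTheory Set Filter Asymptotics Topology ComplexConjugate

namespace Pool.Agent.Lib.MP_155064_nt

lemma term_ineq {z : ℂ} {c X : ℝ} (hc : 0 < c) (hy : |z.im| ≤ z.re) (hX : X = z.re + |z.im|) :
    ‖z‖ * (X + c) ≤ ‖z + c‖ * X := by
  have hx : 0 ≤ z.re := le_trans (abs_nonneg _) hy
  have hX0 : 0 ≤ X := by rw [hX]; positivity
  have h1 : (‖z‖ * (X + c)) ^ 2 ≤ (‖z + c‖ * X) ^ 2 := by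
    rw [mul_pow, mul_pow, ← Complex.normSq_eq_norm_sq, ← Complex.normSq_eq_norm_sq]
    rw [Complex.normSq_apply, Complex.normSq_apply]
    simp only [Complex.add_re, Complex.ofReal_re, Complex.add_im, Complex.ofReal_im, add_zero]
    have hb : z.im * z.im = |z.im| * |z.im| := by rw [abs_mul_abs_self]
    rw [hb, hX]
    set b := |z.im| with hbdef
    set u := z.re
    have hb0 : 0 ≤ b := abs_nonneg _
    have key : ((u + c) * (u + c) + b * b) * (u + b) ^ 2 - (u * u + b * b) * (u + b + c) ^ 2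
        = c * (2 * b * (u * u + c * u - b * b)) := by ring
    have h2 : 0 ≤ u * u + c * u - b * b := by nlinarith
    have h3 : 0 ≤ c * (2 * b * (u * u + c * u - b * b)) := by positivity
    linarith
  exact le_of_sq_le_sq h1 (by positivity)

lemma norm_Gamma_add_le_aux {z : ℂ} {c : ℝ} (hc : 0 < c) (hc1 : c < 1) (hz : 0 < z.re)
    (hy : |z.im| ≤ z.re) :
    ‖Gamma (z + c)‖ ≤ (z.re + |z.im|) ^ c * ‖Gamma z‖ := by
  set X := z.re + |z.im| with hX
  have hX0 : 0 < X := by positivity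
  -- sequences
  have hseq : ∀ n : ℕ, n ≠ 0 → ‖GammaSeq (z + c) n‖ * Real.GammaSeq X n ≤
      ‖GammaSeq z n‖ * Real.GammaSeq (X + c) n := by
    intro n hn
    have hn0 : (0:ℝ) < n := by exact_mod_cast Nat.pos_of_ne_zero hn
    have hterm : ∀ j : ℕ, ‖z + j‖ * (X + c + j) ≤ ‖z + c + j‖ * (X + j) := by
      intro j
      have hj : (0:ℝ) ≤ j := Nat.cast_nonneg j
      have := term_ineq (z := z + (j:ℂ)) (c := c) (X := X + j) hc
        (by simp; linarith) (by simp [hX]; ring)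
      have e1 : X + j + c = X + c + j := by ring
      have e2 : z + (j:ℂ) + c = z + c + j := by ring
      rwa [e1, e2] at this
    have hprod : (∏ j ∈ Finset.range (n + 1), ‖z + j‖) * (∏ j ∈ Finset.range (n + 1), (X + c + j)) ≤
        (∏ j ∈ Finset.range (n + 1), ‖z + c + j‖) * (∏ j ∈ Finset.range (n + 1), (X + j)) := by
      rw [← Finset.prod_mul_distrib, ← Finset.prod_mul_distrib]
      apply Finset.prod_le_prod
      · intro j _; positivity
      · intro j _; exact hterm j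
    have hp1 : 0 < ∏ j ∈ Finset.range (n + 1), ‖z + j‖ := by
      apply Finset.prod_pos; intro j _
      rw [norm_pos_iff]; intro h0
      have := congrArg Complex.re h0
      simp at this
      have hj : (0:ℝ) ≤ j := Nat.cast_nonneg j
      linarith
    have hp2 : 0 < ∏ j ∈ Finset.range (n + 1), ‖z + c + j‖ := by
      apply Finset.prod_pos; intro j _
      rw [norm_pos_iff]; intro h0
      have := congrArg Complex.re h0
      simp at this
      have hj : (0:ℝ) ≤ j := Nat.cast_nonneg j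
      linarith
    have hp3 : 0 < ∏ j ∈ Finset.range (n + 1), (X + j) := by
      apply Finset.prod_pos; intro j _; positivity
    have hp4 : 0 < ∏ j ∈ Finset.range (n + 1), (X + c + j) := by
      apply Finset.prod_pos; intro j _; positivity
    unfold GammaSeq Real.GammaSeq
    rw [norm_div, norm_div, norm_mul, norm_mul, norm_prod, norm_prod]
    have e1 : ‖(n:ℂ) ^ (z + c)‖ = (n:ℝ) ^ (z.re + c) := by
      rw [← Complex.ofReal_natCast, Complex.norm_cpow_eq_rpow_re_of_pos hn0]; simp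
    have e2 : ‖(n:ℂ) ^ z‖ = (n:ℝ) ^ z.re := by
      rw [← Complex.ofReal_natCast, Complex.norm_cpow_eq_rpow_re_of_pos hn0]
    rw [e1, e2, div_mul_div_comm, div_mul_div_comm, div_le_div_iff₀ (by positivity) (by positivity)]
    rw [Real.rpow_add hn0 z.re c, Real.rpow_add hn0 X c]
    have hN : (0:ℝ) ≤ (n:ℝ) ^ z.re * (n:ℝ) ^ c * ‖(n.factorial:ℂ)‖ * ((n:ℝ) ^ X * n.factorial) := by positivity
    calc _ = ((n:ℝ) ^ z.re * (n:ℝ) ^ c * ‖(n.factorial:ℂ)‖ * ((n:ℝ) ^ X * n.factorial)) *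
          ((∏ j ∈ Finset.range (n + 1), ‖z + j‖) * (∏ j ∈ Finset.range (n + 1), (X + c + j))) := by
            ring
      _ ≤ _ := mul_le_mul_of_nonneg_left hprod hN
      _ = _ := by ring
  have hlim1 : Tendsto (fun n => ‖GammaSeq (z + c) n‖ * Real.GammaSeq X n) atTop
      (𝓝 (‖Gamma (z + c)‖ * Real.Gamma X)) :=
    ((GammaSeq_tendsto_Gamma _).norm).mul (Real.GammaSeq_tendsto_Gamma _)
  have hlim2 : Tendsto (fun n => ‖GammaSeq z n‖ * Real.GammaSeq (X + c) n) atTop
      (𝓝 (‖Gamma z‖ * Real.Gamma (X + c))) :=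
    ((GammaSeq_tendsto_Gamma _).norm).mul (Real.GammaSeq_tendsto_Gamma _)
  have hle : ‖Gamma (z + c)‖ * Real.Gamma X ≤ ‖Gamma z‖ * Real.Gamma (X + c) := by
    apply le_of_tendsto_of_tendsto hlim1 hlim2
    filter_upwards [eventually_ne_atTop 0] with n hn
    exact hseq n hn
  have hG : 0 < Real.Gamma X := Real.Gamma_pos_of_pos hX0
  have hlc : Real.Gamma (X + c) ≤ X ^ c * Real.Gamma X := by
    have h := Real.Gamma_mul_add_mul_le_rpow_Gamma_mul_rpow_Gamma (s := X) (t := X + 1)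
      (a := 1 - c) (b := c) hX0 (by linarith) (by linarith) hc (by ring)
    have e1 : (1 - c) * X + c * (X + 1) = X + c := by ring
    rw [e1, Real.Gamma_add_one hX0.ne', Real.mul_rpow hX0.le hG.le] at h
    calc Real.Gamma (X + c) ≤ Real.Gamma X ^ (1 - c) * (X ^ c * Real.Gamma X ^ c) := h
      _ = X ^ c * (Real.Gamma X ^ (1 - c) * Real.Gamma X ^ c) := by ring
      _ = X ^ c * Real.Gamma X := by
        rw [← Real.rpow_add hG]; simp
  have hfin : ‖Gamma (z + c)‖ * Real.Gamma X ≤ (X ^ c * ‖Gamma z‖) * Real.Gamma X := by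
    calc ‖Gamma (z + c)‖ * Real.Gamma X ≤ ‖Gamma z‖ * Real.Gamma (X + c) := hle
      _ ≤ ‖Gamma z‖ * (X ^ c * Real.Gamma X) := by gcongr
      _ = (X ^ c * ‖Gamma z‖) * Real.Gamma X := by ring
  exact le_of_mul_le_mul_right hfin hG

lemma Gamma_shift_ineq {z : ℂ} {c : ℝ} (hc : 0 < c) (hz : 0 < z.re) (K : ℕ) :
    ‖Gamma (z + c)‖ * ‖Gamma (z + K)‖ ≤ ‖Gamma (z + K + c)‖ * ‖Gamma z‖ := by
  induction K with
  | zero => simp
  | succ K ih =>
    have hK : (0:ℝ) ≤ K := Nat.cast_nonneg K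
    have hne1 : z + K ≠ 0 := by
      intro h0
      have := congrArg Complex.re h0
      simp at this; linarith
    have hne2 : z + K + c ≠ 0 := by
      intro h0
      have := congrArg Complex.re h0
      simp at this; linarith
    have e1 : Gamma (z + (K + 1 : ℕ)) = (z + K) * Gamma (z + K) := by
      rw [← Gamma_add_one _ hne1]; congr 1; push_cast; ring
    have e2 : Gamma (z + (K + 1 : ℕ) + c) = (z + K + c) * Gamma (z + K + c) := by
      rw [← Gamma_add_one _ hne2]; congr 1; push_cast; ring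
    have hn : ‖z + K‖ ≤ ‖z + K + c‖ := by
      apply le_of_sq_le_sq _ (norm_nonneg _)
      rw [← Complex.normSq_eq_norm_sq, ← Complex.normSq_eq_norm_sq,
        Complex.normSq_apply, Complex.normSq_apply]
      simp
      nlinarith
    rw [e1, e2, norm_mul, norm_mul]
    calc ‖Gamma (z + c)‖ * (‖z + K‖ * ‖Gamma (z + K)‖)
        = ‖z + K‖ * (‖Gamma (z + c)‖ * ‖Gamma (z + K)‖) := by ring
      _ ≤ ‖z + K‖ * (‖Gamma (z + K + c)‖ * ‖Gamma z‖) := by gcongr
      _ ≤ ‖z + K + c‖ * (‖Gamma (z + K + c)‖ * ‖Gamma z‖) := by gcongr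
      _ = _ := by ring

/-- For `0 < c < 1` and `Re z > 0`: `|Γ(z+c)| ≤ (x + 2|y| + 1)^c |Γ(z)|`. -/
lemma norm_Gamma_add_le {z : ℂ} {c : ℝ} (hc : 0 < c) (hc1 : c < 1) (hz : 0 < z.re) :
    ‖Gamma (z + c)‖ ≤ (z.re + 2 * |z.im| + 1) ^ c * ‖Gamma z‖ := by
  set K := ⌈|z.im|⌉₊ with hK
  have hK1 : |z.im| ≤ K := Nat.le_ceil _
  have hK2 : (K:ℝ) < |z.im| + 1 := Nat.ceil_lt_add_one (abs_nonneg _)
  have h1 := Gamma_shift_ineq hc hz K
  have h2 := norm_Gamma_add_le_aux (z := z + K) hc hc1 (by simp; positivity)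
    (by simp; linarith)
  have hG : 0 < ‖Gamma (z + K)‖ := by
    rw [norm_pos_iff]
    apply Gamma_ne_zero_of_re_pos
    simp; positivity
  have h3 : ((z + K).re + |(z + K).im|) ^ c ≤ (z.re + 2 * |z.im| + 1) ^ c := by
    apply Real.rpow_le_rpow
    · simp; positivity
    · simp; linarith
    · exact hc.le
  have h4 : ‖Gamma (z + c)‖ * ‖Gamma (z + K)‖ ≤
      ((z.re + 2 * |z.im| + 1) ^ c * ‖Gamma z‖) * ‖Gamma (z + K)‖ := by
    calc ‖Gamma (z + c)‖ * ‖Gamma (z + K)‖ ≤ ‖Gamma (z + K + c)‖ * ‖Gamma z‖ := h1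
      _ ≤ (((z + K).re + |(z + K).im|) ^ c * ‖Gamma (z + K)‖) * ‖Gamma z‖ := by gcongr
      _ ≤ ((z.re + 2 * |z.im| + 1) ^ c * ‖Gamma (z + K)‖) * ‖Gamma z‖ := by gcongr
      _ = _ := by ring
  exact le_of_mul_le_mul_right h4 hG

/-- Upper bound for the real part of the digamma function. -/
theorem re_logDeriv_Gamma_le {z : ℂ} (hz : 0 < z.re) :
    (logDeriv Gamma z).re ≤ Real.log (z.re + 2 * |z.im| + 1) := by
  have hpos : 0 < z.re + 2 * |z.im| + 1 := by positivity
  apply re_logDeriv_le_of_norm_le (c₀ := 1) _ (Gamma_ne_zero_of_re_pos hz) one_pos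
  · intro c hc hc1
    have := norm_Gamma_add_le hc hc1 hz
    rwa [Real.rpow_def_of_pos hpos, mul_comm (Real.log _) c] at this
  · apply differentiableAt_Gamma
    intro m hm
    rw [hm] at hz
    simp at hz
    have : (0:ℝ) ≤ m := Nat.cast_nonneg m
    linarith

end Pool.Agent.Lib.MP_155064_nt
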