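import Pool.Agent.Lib.MP_155064_nt.Limit
import Pool.Agent.Lib.MP_155064_nt.Descent

set_option autoImplicit false

open Complex MeasureTheory Set Filter Asymptotics Topology ComplexConjugate
open scoped Nat

namespace Pool.Agent.Lib.MP_155064_nt

lemma Aplus_eq (n : ℕ) : Aplus n = Real.pi ^ n / 2 * top' n := by
  unfold Aplus top' Bmin
  have : ((n + 1)! : ℝ) ≠ 0 := by exact_mod_cast Nat.factorial_ne_zero _
  field_simp

lemma Aminus_eq (n : ℕ) : -(Aminus n) = Real.pi ^ n / 2 * bot' n := by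
  unfold Aminus bot' Bmax
  have : ((n + 1)! : ℝ) ≠ 0 := by exact_mod_cast Nat.factorial_ne_zero _
  field_simp

/-- Upper and lower bounds for every `n ≥ 1` (for odd `n` they are due to
Carneiro–Chandee–Milinovich and Carneiro–Chirre). -/
theorem sharp_bounds (hRH : RiemannHypothesis) (n : ℕ) (hn : n ≠ 0) {ε : ℝ} (hε : 0 < ε) :
    ∀ᶠ t : ℝ in atTop, -(Aminus n + ε) * Lambda n t ≤ zetaSn n t ∧
      zetaSn n t ≤ (Aplus n + ε) * Lambda n t := by
  have htop := top_pos n
  have hbot := bot_neg n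
  have hpi := Real.pi_pos
  set X : ℝ := Real.pi ^ n / 2 * top' n with hX
  set Y : ℝ := -(Real.pi ^ n / 2 * bot' n) with hY
  have hX0 : 0 < X := by positivity
  have hY0 : 0 < Y := by
    rw [hY, ← mul_neg]
    have : 0 < -bot' n := by linarith
    positivity
  -- choose κ
  have hlim : Tendsto (fun κ : ℝ => κ ^ (n + 1)) (𝓝[>] 1) (𝓝 1) := by
    have hc : Continuous (fun κ : ℝ => κ ^ (n + 1)) := by fun_prop
    have := hc.tendsto 1
    rw [one_pow] at this
    exact this.mono_left nhdsWithin_le_nhds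
  have hev : ∀ᶠ κ : ℝ in 𝓝[>] 1, κ ^ (n + 1) < 1 + ε / (X + Y) :=
    hlim.eventually_lt_const (by
      have : 0 < ε / (X + Y) := by positivity
      linarith)
  have hev0 : ∀ᶠ κ : ℝ in 𝓝[>] 1, κ ∈ Ioi (1:ℝ) := self_mem_nhdsWithin
  obtain ⟨κ, hκ1, hκ2⟩ := (hev0.and hev).exists
  have hκ : 1 < κ := hκ1
  obtain ⟨T₀, hT₀⟩ := PBound_all hRH n hκ
  have hprop : ∀ A : ℝ, 0 < A → A ≤ X + Y → κ ^ (n + 1) * A ≤ A + ε := by
    intro A hA hA2
    have h1 : κ ^ (n + 1) * A ≤ (1 + ε / (X + Y)) * A := by gcongr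
    have h2 : ε / (X + Y) * A ≤ ε := by
      rw [div_mul_eq_mul_div, div_le_iff₀ (by positivity)]
      exact mul_le_mul_of_nonneg_left hA2 hε.le
    linarith
  filter_upwards [eventually_ge_atTop T₀, eventually_loglog_ge 1, eventually_gt_atTop 1]
    with t ht hll ht1
  have hlt : 0 < Real.log t := Real.log_pos ht1
  have hL : 0 < Lam n t := by unfold Lam; positivity
  have hlimt := tendsto_zetaSn hRH n t (by linarith) (fun h => absurd h hn)
  have hev1 : ∀ᶠ σ : ℝ in 𝓝[>] (1 / 2), σ ≤ 1 :=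
    (eventually_le_nhds (by norm_num)).filter_mono nhdsWithin_le_nhds
  have hLL : Lambda n t = Lam n t := rfl
  have e1 : Aplus n = X := Aplus_eq n
  have e2 : Aminus n = Y := by rw [hY, ← Aminus_eq, neg_neg]
  rw [hLL, e1, e2]
  constructor
  · have h1 : κ ^ (n + 1) * (Real.pi ^ n / 2 * bot' n) * Lam n t ≤ zetaSn n t := by
      apply ge_of_tendsto hlimt
      filter_upwards [self_mem_nhdsWithin, hev1] with σ hσ hσ1
      exact (hT₀ t ht σ hσ hσ1).1
    refine le_trans ?_ h1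
    have h2 := hprop Y hY0 (by linarith)
    have h3 : κ ^ (n + 1) * (Real.pi ^ n / 2 * bot' n) = -(κ ^ (n + 1) * Y) := by
      rw [hY]; ring
    rw [h3]
    apply mul_le_mul_of_nonneg_right _ hL.le
    linarith
  · have h1 : zetaSn n t ≤ κ ^ (n + 1) * X * Lam n t := by
      apply le_of_tendsto hlimt
      filter_upwards [self_mem_nhdsWithin, hev1] with σ hσ hσ1
      exact (hT₀ t ht σ hσ hσ1).2
    refine le_trans h1 ?_
    have h2 := hprop X hX0 (by linarith)
    exact mul_le_mul_of_nonneg_right h2 hL.le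

end Pool.Agent.Lib.MP_155064_nt
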