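import Pool.Agent.Lib.MP_155064_nt.Xi

set_option autoImplicit false

open Complex MeasureTheory Set Filter Asymptotics Topology ComplexConjugate

namespace Pool.Agent.Lib.MP_155064_nt

/-- A one-sided first-order inequality: if `f 0 = 0`, `f c ≤ 0` for small `c > 0`, then the
derivative at `0` is nonpositive. -/
lemma deriv_nonpos_of_right {f : ℝ → ℝ} {f' c₀ : ℝ} (hc : 0 < c₀) (hf : HasDerivAt f f' 0)
    (h0 : f 0 = 0) (h : ∀ c : ℝ, 0 < c → c < c₀ → f c ≤ 0) : f' ≤ 0 := by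
  have h1 : Tendsto (slope f 0) (𝓝[>] 0) (𝓝 f') := by
    have := (hf.hasDerivWithinAt (s := Ioi 0))
    rwa [hasDerivWithinAt_iff_tendsto_slope' (by simp)] at this
  apply le_of_tendsto h1
  have : Ioo (0:ℝ) c₀ ∈ 𝓝[>] (0:ℝ) := Ioo_mem_nhdsGT hc
  filter_upwards [this] with x hx
  rw [slope_def_field, h0]
  apply div_nonpos_of_nonpos_of_nonneg
  · simpa using h x hx.1 hx.2
  · linarith [hx.1]

lemma hasDerivAt_normSq_line {g : ℂ → ℂ} {z : ℂ} (hg : DifferentiableAt ℂ g z) (e : ℝ) :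
    HasDerivAt (fun c : ℝ => ‖g (z + (e * c : ℝ))‖ ^ 2) (2 * e * (conj (g z) * deriv g z).re) 0 := by
  have h1' : HasDerivAt (fun w : ℂ => g (z + (e : ℂ) * w)) ((e:ℂ) * deriv g z) ((0:ℝ) : ℂ) := by
    have h2 : HasDerivAt g (deriv g z) (z + (e:ℂ) * ((0:ℝ) : ℂ)) := by simpa using hg.hasDerivAt
    have h3 : HasDerivAt (fun w : ℂ => z + (e:ℂ) * w) (e:ℂ) ((0:ℝ):ℂ) := by
      simpa using ((hasDerivAt_id ((0:ℝ):ℂ)).const_mul (e:ℂ)).const_add z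
    have := HasDerivAt.comp ((0:ℝ):ℂ) (h₂ := g) (h := fun w : ℂ => z + (e:ℂ) * w) h2 h3
    rw [mul_comm]; exact this
  have h2 : HasDerivAt (fun c : ℝ => g (z + ((e * c : ℝ) : ℂ))) ((e:ℂ) * deriv g z) 0 := by
    have := h1'.comp_ofReal
    simpa using this
  have h3 := h2.norm_sq
  convert h3 using 1
  simp only [Complex.inner, mul_zero, Complex.ofReal_zero, add_zero]
  have : (conj (g z) * ((e:ℂ) * deriv g z)).re = e * (conj (g z) * deriv g z).re := by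
    rw [show conj (g z) * ((e:ℂ) * deriv g z) = (e:ℂ) * (conj (g z) * deriv g z) by ring,
      Complex.re_ofReal_mul]
  rw [mul_comm ((e:ℂ) * deriv g z) (conj (g z)), this]; ring

lemma re_logDeriv_eq (g : ℂ → ℂ) (z : ℂ) :
    (logDeriv g z).re = (conj (g z) * deriv g z).re / ‖g z‖ ^ 2 := by
  rw [logDeriv_apply, Complex.div_re, ← Complex.normSq_eq_norm_sq]
  simp only [Complex.mul_re, Complex.conj_re, Complex.conj_im]
  ring

/-- If `‖g(z+c)‖ ≤ e^{cM} ‖g z‖` for small `c > 0` then `Re (g'/g)(z) ≤ M`. -/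
lemma re_logDeriv_le_of_norm_le {g : ℂ → ℂ} {z : ℂ} {M c₀ : ℝ} (hg : DifferentiableAt ℂ g z)
    (h0 : g z ≠ 0) (hc : 0 < c₀)
    (h : ∀ c : ℝ, 0 < c → c < c₀ → ‖g (z + c)‖ ≤ Real.exp (c * M) * ‖g z‖) :
    (logDeriv g z).re ≤ M := by
  have hpos : 0 < ‖g z‖ ^ 2 := by positivity
  rw [re_logDeriv_eq, div_le_iff₀ hpos]
  have h1 := hasDerivAt_normSq_line hg 1
  have h2 : HasDerivAt (fun c : ℝ => Real.exp (2 * M * c) * ‖g z‖ ^ 2)
      (2 * M * ‖g z‖ ^ 2) 0 := by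
    have h3 : HasDerivAt (fun c : ℝ => 2 * M * c) (2 * M) 0 := by
      simpa using (hasDerivAt_id (0:ℝ)).const_mul (2 * M)
    have := (h3.exp).mul_const (‖g z‖ ^ 2)
    simpa using this
  have h3 := h1.sub h2
  have h4 := deriv_nonpos_of_right hc h3 (by simp) ?_
  · linarith
  · intro c hc0 hc1
    have h5 := h c hc0 hc1
    have h6 : ‖g (z + c)‖ ^ 2 ≤ (Real.exp (c * M) * ‖g z‖) ^ 2 := by
      gcongr
    have h7 : (Real.exp (c * M) * ‖g z‖) ^ 2 = Real.exp (2 * M * c) * ‖g z‖ ^ 2 := by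
      rw [mul_pow, ← Real.exp_nat_mul]
      congr 2; push_cast; ring
    simp only [Pi.sub_apply, one_mul]
    linarith

/-- If `‖g(z-c)‖ ≤ ‖g z‖` for small `c > 0` then `Re (g'/g)(z) ≥ 0`. -/
lemma re_logDeriv_nonneg_of_norm_le {g : ℂ → ℂ} {z : ℂ} {c₀ : ℝ} (hg : DifferentiableAt ℂ g z)
    (h0 : g z ≠ 0) (hc : 0 < c₀)
    (h : ∀ c : ℝ, 0 < c → c < c₀ → ‖g (z - c)‖ ≤ ‖g z‖) :
    0 ≤ (logDeriv g z).re := by
  have hpos : 0 < ‖g z‖ ^ 2 := by positivity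
  rw [re_logDeriv_eq]
  apply div_nonneg _ hpos.le
  have h1 := hasDerivAt_normSq_line hg (-1)
  have h3 := h1.sub (hasDerivAt_const (0:ℝ) (‖g z‖ ^ 2))
  have h4 := deriv_nonpos_of_right hc h3 (by simp) ?_
  · linarith
  · intro c hc0 hc1
    have h5 := h c hc0 hc1
    have h6 : ‖g (z - c)‖ ^ 2 ≤ ‖g z‖ ^ 2 := by gcongr
    simp only [Pi.sub_apply]
    have : z + ((-1 * c : ℝ) : ℂ) = z - c := by push_cast; ring
    rw [this]; linarith

/-! ### Gamma ratio bounds -/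

/-- Beta function bound: `Γ(z)/Γ(z+c)` is bounded for `Re z ≥ a > 0`. -/
lemma exists_Gamma_le {a c : ℝ} (ha : 0 < a) (hc : 0 < c) :
    ∃ K : ℝ, 0 < K ∧ ∀ z : ℂ, a ≤ z.re → ‖Gamma z‖ ≤ K * ‖Gamma (z + c)‖ := by
  have hconv := betaIntegral_convergent (u := a) (v := c) (by simpa using ha) (by simpa using hc)
  have hGc : Gamma (c:ℂ) ≠ 0 := Gamma_ne_zero_of_re_pos (by simpa using hc)
  refine ⟨(∫ x in (0:ℝ)..1, ‖(x:ℂ) ^ ((a:ℂ) - 1) * (1 - (x:ℂ)) ^ ((c:ℂ) - 1)‖) / ‖Gamma (c:ℂ)‖ + 1,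
    ?_, ?_⟩
  · have : 0 ≤ ∫ x in (0:ℝ)..1, ‖(x:ℂ) ^ ((a:ℂ) - 1) * (1 - (x:ℂ)) ^ ((c:ℂ) - 1)‖ :=
      intervalIntegral.integral_nonneg zero_le_one (fun _ _ => norm_nonneg _)
    positivity
  · intro z hz
    have hz0 : 0 < z.re := lt_of_lt_of_le ha hz
    have h1 := Gamma_mul_Gamma_eq_betaIntegral hz0 (t := (c:ℂ)) (by simpa using hc)
    have h2 : ‖betaIntegral z c‖ ≤ ∫ x in (0:ℝ)..1,
        ‖(x:ℂ) ^ ((a:ℂ) - 1) * (1 - (x:ℂ)) ^ ((c:ℂ) - 1)‖ := by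
      unfold betaIntegral
      rw [intervalIntegral.integral_of_le zero_le_one, intervalIntegral.integral_of_le zero_le_one]
      apply norm_integral_le_of_norm_le
      · have := hconv.norm
        rwa [intervalIntegrable_iff_integrableOn_Ioc_of_le zero_le_one] at this
      · filter_upwards [ae_restrict_mem measurableSet_Ioc] with x hx
        rw [norm_mul, norm_mul]
        gcongr
        rw [Complex.norm_cpow_eq_rpow_re_of_pos hx.1, Complex.norm_cpow_eq_rpow_re_of_pos hx.1]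
        apply Real.rpow_le_rpow_of_exponent_ge hx.1 hx.2
        simpa using hz
    have h3 : ‖Gamma z‖ * ‖Gamma (c:ℂ)‖ = ‖Gamma (z + c)‖ * ‖betaIntegral z c‖ := by
      rw [← norm_mul, ← norm_mul, h1]
    have hGpos : 0 < ‖Gamma (c:ℂ)‖ := norm_pos_iff.mpr hGc
    have h4 : ‖Gamma z‖ = ‖Gamma (z + c)‖ * ‖betaIntegral z c‖ / ‖Gamma (c:ℂ)‖ := by
      rw [eq_div_iff hGpos.ne']; exact h3
    rw [h4]
    have h5 : 0 ≤ ‖Gamma (z + c)‖ := norm_nonneg _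
    calc ‖Gamma (z + c)‖ * ‖betaIntegral z c‖ / ‖Gamma (c:ℂ)‖
        ≤ ‖Gamma (z + c)‖ * (∫ x in (0:ℝ)..1,
        ‖(x:ℂ) ^ ((a:ℂ) - 1) * (1 - (x:ℂ)) ^ ((c:ℂ) - 1)‖) / ‖Gamma (c:ℂ)‖ := by gcongr
      _ = ((∫ x in (0:ℝ)..1,
        ‖(x:ℂ) ^ ((a:ℂ) - 1) * (1 - (x:ℂ)) ^ ((c:ℂ) - 1)‖) / ‖Gamma (c:ℂ)‖) * ‖Gamma (z + c)‖ := by
          ring
      _ ≤ _ := by
        gcongr
        linarith

end Pool.Agent.Lib.MP_155064_nt
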