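import Pool.Agent.Lib.MP_155064_nt.Bern

set_option autoImplicit false

open Set Filter Topology MeasureTheory
open scoped Nat

namespace Pool.Agent.Lib.MP_155064_nt

lemma mvt_le {f f' : ℝ → ℝ} {a b η : ℝ} (hab : a ≤ b) (hf : ContinuousOn f (Icc a b))
    (hf' : ∀ x ∈ Ico a b, HasDerivWithinAt f (f' x) (Ici x) x)
    (h : ∀ x ∈ Ico a b, f' x ≤ -η) : f b ≤ f a - η * (b - a) := by
  have := image_le_of_deriv_right_le_deriv_boundary (f := f) (f' := f') (a := a) (b := b) hf hf'
    (B := fun x => f a - η * (x - a)) (B' := fun _ => -η) (by simp) (by fun_prop)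
    (fun x _ => by
      have h1 : HasDerivAt (fun x : ℝ => f a - η * (x - a)) (-η) x := by
        have h2 := ((hasDerivAt_id x).sub_const a).const_mul η
        have h3 := h2.const_sub (f a)
        simpa using h3
      exact h1.hasDerivWithinAt) h
  exact this (right_mem_Icc.mpr hab)

lemma mvt_ge {f f' : ℝ → ℝ} {a b η : ℝ} (hab : a ≤ b) (hf : ContinuousOn f (Icc a b))
    (hf' : ∀ x ∈ Ico a b, HasDerivWithinAt f (f' x) (Ici x) x)
    (h : ∀ x ∈ Ico a b, η ≤ f' x) : f a + η * (b - a) ≤ f b := by
  have := mvt_le (f := fun x => -f x) (f' := fun x => -f' x) (η := η) hab hf.neg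
    (fun x hx => (hf' x hx).neg) (fun x hx => by have := h x hx; linarith)
  linarith

lemma exists_deriv_neg {f f' : ℝ → ℝ} {a b : ℝ} (hab : a < b) (hf : ContinuousOn f (Icc a b))
    (hf' : ∀ x ∈ Ico a b, HasDerivWithinAt f (f' x) (Ici x) x) (h : f b < f a) :
    ∃ ξ ∈ Ico a b, f' ξ < 0 := by
  by_contra hcon
  push Not at hcon
  have := mvt_ge (η := 0) hab.le hf hf' hcon
  linarith

/-- `h` alternates in sign at `M+1` points spanning one period `N`. -/
def Alt (h : ℝ → ℝ) (N M : ℕ) : Prop :=
  ∃ (e : ℝ) (x : ℕ → ℝ), (∀ i < M, x i < x (i + 1)) ∧ x M = x 0 + N ∧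
    ∀ i ≤ M, 0 < e * (-1) ^ i * h (x i)

lemma alt_step {h h' : ℝ → ℝ} {N M : ℕ} (hM : Even M) (hM0 : 0 < M) (hc : Continuous h)
    (hd : ∀ x, HasDerivWithinAt h (h' x) (Ici x) x) (hper : ∀ x, h' (x + N) = h' x)
    (halt : Alt h N M) : Alt h' N M := by
  obtain ⟨e, x, hx, hxM, hs⟩ := halt
  have key : ∀ i, i < M → ∃ ξ, ξ ∈ Ico (x i) (x (i + 1)) ∧ 0 < (-e) * (-1) ^ i * h' ξ := by
    intro i hi
    have h1 := hs i hi.le
    have h2 := hs (i + 1) hi
    have h3 : e * (-1) ^ i * h (x (i + 1)) < 0 := by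
      have : e * (-1) ^ (i + 1) * h (x (i + 1)) = -(e * (-1) ^ i * h (x (i + 1))) := by
        rw [pow_succ]; ring
      linarith
    obtain ⟨ξ, hξ, hneg⟩ := exists_deriv_neg (f := fun y => e * (-1) ^ i * h y)
      (f' := fun y => e * (-1) ^ i * h' y) (hx i hi) (by fun_prop)
      (fun y _ => (hd y).const_mul _) (by linarith)
    exact ⟨ξ, hξ, by linarith⟩
  choose! ξ hξ using key
  refine ⟨-e, fun i => if i < M then ξ i else ξ 0 + N, ?_, ?_, ?_⟩
  · intro i hi
    simp only [hi, if_true]
    have h1 := (hξ i hi).1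
    split_ifs with h2
    · have h3 := (hξ (i + 1) h2).1
      exact lt_of_lt_of_le h1.2 h3.1
    · have h4 : i + 1 = M := by omega
      have h3 := (hξ 0 hM0).1
      have h5 := h1.2
      rw [h4, hxM] at h5
      linarith [h3.1]
  · simp [hM0]
  · intro i hi
    rcases lt_or_eq_of_le hi with h1 | h1
    · simp only [h1, if_true]
      exact (hξ i h1).2
    · subst h1
      simp only [lt_irrefl, if_false]
      rw [hper, hM.neg_one_pow]
      simpa using (hξ 0 hM0).2

lemma alt_bottom {F F' : ℝ → ℝ} {s : ℝ} {N : ℕ} (hF : ∀ x, HasDerivAt F (F' x) x)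
    (hF' : ∀ x, -1 < F' x) : ¬ Alt (fun y => bet 0 (y + s) - F y) N (2 * N + 2) := by
  rintro ⟨e, x, hx, hxM, hs⟩
  set h : ℝ → ℝ := fun y => bet 0 (y + s) - F y with hh
  -- strictly decreasing in a cell
  have hcell : ∀ y z : ℝ, y < z → ⌊y + s⌋ = ⌊z + s⌋ → h z < h y := by
    intro y z hyz hfl
    have h1 := bet_zero_sub hfl
    have h2 : -(z - y) < F z - F y := by
      have hc : ContinuousOn F (Icc y z) := fun w _ => (hF w).continuousAt.continuousWithinAt
      obtain ⟨w, _, hw⟩ := exists_hasDerivAt_eq_slope F F' hyz hc (fun w _ => hF w)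
      have h3 := hF' w
      rw [hw, lt_div_iff₀ (by linarith)] at h3
      linarith
    simp only [hh]
    linarith
  have hprod : ∀ i, i < 2 * N + 2 → h (x i) * h (x (i + 1)) < 0 := by
    intro i hi
    have h1 := hs i hi.le
    have h2 := hs (i + 1) hi
    have h3 := mul_pos h1 h2
    have he : (e * (-1) ^ i * h (x i)) * (e * (-1) ^ (i + 1) * h (x (i + 1))) =
        -(e ^ 2 * ((-1) ^ i * (-1) ^ i) * (h (x i) * h (x (i + 1)))) := by
      rw [pow_succ]; ring
    have hone : ((-1:ℝ) ^ i * (-1) ^ i) = 1 := by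
      rw [← mul_pow]; simp
    rw [he, hone, mul_one] at h3
    by_contra hcon
    push Not at hcon
    have : 0 ≤ e ^ 2 * (h (x i) * h (x (i + 1))) := by positivity
    linarith
  have hmono : ∀ i, i < 2 * N + 2 → ⌊x i + s⌋ ≤ ⌊x (i + 1) + s⌋ := by
    intro i hi
    apply Int.floor_le_floor
    linarith [hx i hi]
  have hjump : ∀ i, i < 2 * N + 2 → h (x i) < 0 → ⌊x i + s⌋ + 1 ≤ ⌊x (i + 1) + s⌋ := by
    intro i hi hneg
    have h1 := hprod i hi
    have h2 : 0 < h (x (i + 1)) := by
      by_contra hcon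
      push Not at hcon
      have := mul_nonneg_of_nonpos_of_nonpos hneg.le hcon
      linarith
    rcases eq_or_lt_of_le (hmono i hi) with h3 | h3
    · have := hcell _ _ (hx i hi) h3
      linarith
    · omega
  have htwo : ∀ i, i + 1 < 2 * N + 2 → ⌊x i + s⌋ + 1 ≤ ⌊x (i + 2) + s⌋ := by
    intro i hi
    have m1 := hmono i (by omega)
    have m2 := hmono (i + 1) hi
    rcases lt_or_ge (h (x i)) 0 with h1 | h1
    · have := hjump i (by omega) h1
      have e : i + 1 + 1 = i + 2 := rfl
      rw [e] at m2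
      omega
    · have h2 := hprod i (by omega)
      have h3 : h (x (i + 1)) < 0 := by
        by_contra hcon
        push Not at hcon
        have := mul_nonneg h1 hcon
        linarith
      have := hjump (i + 1) hi h3
      have e : i + 1 + 1 = i + 2 := rfl
      rw [e] at this
      omega
  have hind : ∀ j : ℕ, j ≤ N + 1 → ⌊x 0 + s⌋ + j ≤ ⌊x (2 * j) + s⌋ := by
    intro j
    induction j with
    | zero => intro _; simp
    | succ j ih =>
      intro hj
      have h1 := ih (by omega)
      have h2 := htwo (2 * j) (by omega)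
      have e : 2 * (j + 1) = 2 * j + 2 := by ring
      rw [e]
      push_cast
      omega
  have h1 := hind (N + 1) le_rfl
  have e : 2 * (N + 1) = 2 * N + 2 := by ring
  rw [e, hxM] at h1
  have h2 : ⌊x 0 + N + s⌋ = ⌊x 0 + s⌋ + N := by
    have : x 0 + N + s = (x 0 + s) + ((N : ℤ) : ℝ) := by push_cast; ring
    rw [this, Int.floor_add_intCast]
  rw [h2] at h1
  push_cast at h1
  omega

lemma alt_insert {h : ℝ → ℝ} {a u v b e : ℝ} {N : ℕ} (hN : 0 < N) (h1 : a < u) (h2 : u < v)
    (h3 : v < b) (h4 : b < a + 1) (ha : ∀ j : ℕ, 0 < e * h (a + j)) (hb : ∀ j : ℕ, e * h (b + j) < 0)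
    (hu : e * h u < 0) (hv : 0 < e * h v) : Alt h N (2 * N + 2) := by
  set x : ℕ → ℝ := fun i => match i with
    | 0 => a
    | 1 => u
    | 2 => v
    | (i + 3) => if Even i then b + ((i / 2 : ℕ) : ℝ) else a + (((i + 1) / 2 : ℕ) : ℝ) with hx
  refine ⟨e, x, ?_, ?_, ?_⟩
  · intro i _
    match i with
    | 0 => exact h1
    | 1 => exact h2
    | 2 => simp [hx]; exact h3
    | (i + 3) =>
      show (if Even i then b + ((i / 2 : ℕ) : ℝ) else a + (((i + 1) / 2 : ℕ) : ℝ)) <
        (if Even (i + 1) then b + (((i + 1) / 2 : ℕ) : ℝ) else a + (((i + 1 + 1) / 2 : ℕ) : ℝ))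
      rcases Nat.even_or_odd i with he | ho
      · have h5 : ¬ Even (i + 1) := by simpa [Nat.even_add_one] using he
        rw [if_pos he, if_neg h5]
        obtain ⟨m, rfl⟩ := he
        have e1 : (m + m) / 2 = m := by omega
        have e2 : (m + m + 1 + 1) / 2 = m + 1 := by omega
        rw [e1, e2]; push_cast; linarith
      · have h5 : ¬ Even i := by simpa using ho
        have h6 : Even (i + 1) := by simpa [Nat.even_add_one] using ho
        rw [if_neg h5, if_pos h6]
        linarith
  · have : 2 * N + 2 = (2 * N - 1) + 3 := by omega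
    rw [this]
    show (if Even (2 * N - 1) then b + (((2 * N - 1) / 2 : ℕ) : ℝ) else
      a + (((2 * N - 1 + 1) / 2 : ℕ) : ℝ)) = a + N
    have h5 : ¬ Even (2 * N - 1) := by
      rw [Nat.not_even_iff_odd]; exact ⟨N - 1, by omega⟩
    rw [if_neg h5]
    have e2 : (2 * N - 1 + 1) / 2 = N := by omega
    rw [e2]
  · intro i _
    match i with
    | 0 => simpa [hx] using ha 0
    | 1 => simp [hx]; linarith
    | 2 => simp [hx]; exact hv
    | (i + 3) =>
      show 0 < e * (-1) ^ (i + 3) *
        h (if Even i then b + ((i / 2 : ℕ) : ℝ) else a + (((i + 1) / 2 : ℕ) : ℝ))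
      rcases Nat.even_or_odd i with he | ho
      · rw [if_pos he, pow_add, he.neg_one_pow]
        have := hb (i / 2)
        norm_num
        linarith
      · have h5 : ¬ Even i := by simpa using ho
        rw [if_neg h5, pow_add, ho.neg_one_pow]
        have := ha ((i + 1) / 2)
        norm_num
        linarith

/-- The comparison theorem (Kolmogorov–Hörmander, one-sided), periodic version. -/
theorem comparison_periodic {k N : ℕ} (hN : 0 < N) (F : ℕ → ℝ → ℝ) (F' : ℝ → ℝ)
    (hper : ∀ j ≤ k + 1, ∀ x, F j (x + N) = F j x)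
    (hder : ∀ j ≤ k, ∀ x, HasDerivAt (F (j + 1)) (F j x) x)
    (h0 : ∀ x, HasDerivAt (F 0) (F' x) x) (hF' : ∀ x, -1 < F' x)
    (hlo : ∀ x, bot' (k + 1) < F (k + 1) x) (hhi : ∀ x, F (k + 1) x < top' (k + 1)) :
    ∀ x, bot' k ≤ F k x ∧ F k x ≤ top' k := by
  -- continuity
  have hcont : ∀ j ≤ k + 1, Continuous (F j) := by
    intro j hj
    rcases Nat.eq_zero_or_pos j with rfl | hpos
    · exact continuous_iff_continuousAt.mpr fun x => (h0 x).continuousAt
    · obtain ⟨i, rfl⟩ : ∃ i, j = i + 1 := ⟨j - 1, by omega⟩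
      exact continuous_iff_continuousAt.mpr fun x => (hder i (by omega) x).continuousAt
  -- right derivatives of differences
  have hderiv : ∀ (s : ℝ) (j : ℕ), j ≤ k → ∀ x, HasDerivWithinAt
      (fun y => bet (j + 1) (y + s) - F (j + 1) y) (bet j (x + s) - F j x) (Ici x) x := by
    intro s j hj x
    have h1 : HasDerivWithinAt (fun y => bet (j + 1) (y + s)) (bet j (x + s)) (Ici x) x := by
      have h2 := hasDerivWithinAt_bet j (x + s)
      have h3 : HasDerivWithinAt (fun y : ℝ => y + s) 1 (Ici x) x :=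
        ((hasDerivAt_id x).add_const s).hasDerivWithinAt
      have h4 := HasDerivWithinAt.comp x (h₂ := bet (j + 1)) (h := fun y : ℝ => y + s)
        (s' := Ici (x + s)) h2 h3 (fun y hy => by
          simp only [mem_Ici] at hy ⊢; linarith)
      rw [mul_one] at h4
      exact h4
    exact h1.sub (hder j hj x).hasDerivWithinAt
  have hcontd : ∀ (s : ℝ) (j : ℕ), j ≤ k → Continuous (fun y => bet (j + 1) (y + s) - F (j + 1) y) := by
    intro s j hj
    have h1 := continuous_bet j
    have h2 := hcont (j + 1) (by omega)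
    fun_prop
  -- no alternation
  have hnoalt : ∀ (s : ℝ) (j : ℕ), j ≤ k + 1 →
      ¬ Alt (fun y => bet j (y + s) - F j y) N (2 * N + 2) := by
    intro s j
    induction j with
    | zero =>
      intro _
      exact alt_bottom h0 hF'
    | succ j ih =>
      intro hj halt
      apply ih (by omega)
      apply alt_step (h := fun y => bet (j + 1) (y + s) - F (j + 1) y) ⟨N + 1, by ring⟩ (by omega)
        (hcontd s j (by omega)) (hderiv s j (by omega)) _ halt
      intro x
      have e : x + (N:ℝ) + s = (x + s) + N := by ring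
      rw [e, bet_add_nat, hper j (by omega)]
  -- extreme points
  obtain ⟨m, hm⟩ := exists_bet_eq_bot k
  obtain ⟨m', hm'⟩ := exists_bet_eq_top k
  have htb : bot' (k + 1) < top' (k + 1) := lt_trans (bot_neg _) (top_pos _)
  have hex : ∃ Mx, m < Mx ∧ Mx < m + 1 ∧ bet (k + 1) Mx = top' (k + 1) := by
    refine ⟨m' - ⌊m' - m⌋, ?_, ?_, ?_⟩
    · rcases lt_or_eq_of_le (Int.floor_le (m' - m)) with h | h
      · linarith
      · exfalso
        have e : m' = m + (⌊m' - m⌋ : ℝ) := by linarith
        rw [e, bet_add_int] at hm'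
        linarith
    · linarith [Int.lt_floor_add_one (m' - m)]
    · rw [bet_sub_int, hm']
  obtain ⟨Mx, hM1, hM2, hM3⟩ := hex
  have hbc := continuous_bet k
  intro x₀
  constructor
  · -- lower bound: decreasing branch (Mx, m+1)
    by_contra hcon
    push Not at hcon
    have hv := hlo x₀
    have hv' := hhi x₀
    have hm1 : bet (k + 1) (m + 1) = bot' (k + 1) := by
      have := bet_add_nat (k + 1) m 1
      rw [← hm, ← this]; norm_num
    obtain ⟨c, hc, hc2⟩ := intermediate_value_Ioo' (a := Mx) (b := m + 1) hM2.le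
      hbc.continuousOn (show F (k + 1) x₀ ∈ Ioo (bet (k + 1) (m + 1)) (bet (k + 1) Mx) by
        rw [hm1, hM3]; exact ⟨hv, hv'⟩)
    set s := c - x₀ with hs
    set η := (bot' k - F k x₀) / 2 with hη
    have hη0 : 0 < η := by rw [hη]; linarith
    have hnear : ∀ᶠ y in 𝓝 x₀, F k y < bot' k - η := by
      apply (hcont k (by omega)).continuousAt.eventually_lt continuousAt_const
      rw [hη]; linarith
    obtain ⟨δ, hδ, hδ'⟩ := Metric.eventually_nhds_iff.mp hnear
    set δ₁ := min (δ / 2) (min ((c - Mx) / 2) ((m + 1 - c) / 2)) with hδ₁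
    have hδ₁0 : 0 < δ₁ := by
      rw [hδ₁]
      apply lt_min (by linarith)
      apply lt_min <;> linarith [hc.1, hc.2]
    have hd1 : δ₁ ≤ δ / 2 := min_le_left _ _
    have hd2 : δ₁ ≤ (c - Mx) / 2 := le_trans (min_le_right _ _) (min_le_left _ _)
    have hd3 : δ₁ ≤ (m + 1 - c) / 2 := le_trans (min_le_right _ _) (min_le_right _ _)
    have hF : ∀ y, |y - x₀| ≤ δ₁ → F k y < bot' k - η := by
      intro y hy
      apply hδ'
      rw [Real.dist_eq]; linarith
    have hx0 : bet (k + 1) (x₀ + s) - F (k + 1) x₀ = 0 := by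
      rw [hs]; have : x₀ + (c - x₀) = c := by ring
      rw [this, hc2]; ring
    -- value to the right
    have hright : η * δ₁ ≤ bet (k + 1) (x₀ + δ₁ + s) - F (k + 1) (x₀ + δ₁) := by
      have := mvt_ge (f := fun y => bet (k + 1) (y + s) - F (k + 1) y)
        (f' := fun y => bet k (y + s) - F k y) (a := x₀) (b := x₀ + δ₁) (η := η) (by linarith)
        (hcontd s k le_rfl).continuousOn (fun y _ => hderiv s k le_rfl y) (fun y hy => by
          have h1 := hF y (by rw [abs_le]; constructor <;> linarith [hy.1, hy.2])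
          have h2 := bot_le_bet k (y + s)
          linarith)
      simp only [hx0] at this
      linarith
    have hleft : bet (k + 1) (x₀ - δ₁ + s) - F (k + 1) (x₀ - δ₁) ≤ -(η * δ₁) := by
      have := mvt_ge (f := fun y => bet (k + 1) (y + s) - F (k + 1) y)
        (f' := fun y => bet k (y + s) - F k y) (a := x₀ - δ₁) (b := x₀) (η := η) (by linarith)
        (hcontd s k le_rfl).continuousOn (fun y _ => hderiv s k le_rfl y) (fun y hy => by
          have h1 := hF y (by rw [abs_le]; constructor <;> linarith [hy.1, hy.2])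
          have h2 := bot_le_bet k (y + s)
          linarith)
      simp only [hx0] at this
      have e : x₀ - (x₀ - δ₁) = δ₁ := by ring
      rw [e] at this
      linarith
    have hpos : 0 < η * δ₁ := by positivity
    apply hnoalt s (k + 1) le_rfl
    apply alt_insert (a := Mx - s) (u := x₀ - δ₁) (v := x₀ + δ₁) (b := m + 1 - s) (e := 1) hN
    · rw [hs]; linarith
    · linarith
    · rw [hs]; linarith
    · linarith
    · intro j
      have e : Mx - s + (j:ℝ) + s = Mx + j := by ring
      rw [e, bet_add_nat, hM3]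
      have := hhi (Mx - s + j)
      linarith
    · intro j
      have e : m + 1 - s + (j:ℝ) + s = m + 1 + j := by ring
      rw [e, bet_add_nat, hm1]
      have := hlo (m + 1 - s + j)
      linarith
    · linarith
    · linarith
  · -- upper bound: increasing branch (m, Mx)
    by_contra hcon
    push Not at hcon
    have hv := hlo x₀
    have hv' := hhi x₀
    obtain ⟨c, hc, hc2⟩ := intermediate_value_Ioo (a := m) (b := Mx) hM1.le
      hbc.continuousOn (show F (k + 1) x₀ ∈ Ioo (bet (k + 1) m) (bet (k + 1) Mx) by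
        rw [hm, hM3]; exact ⟨hv, hv'⟩)
    set s := c - x₀ with hs
    set η := (F k x₀ - top' k) / 2 with hη
    have hη0 : 0 < η := by rw [hη]; linarith
    have hnear : ∀ᶠ y in 𝓝 x₀, top' k + η < F k y := by
      apply continuousAt_const.eventually_lt (hcont k (by omega)).continuousAt
      rw [hη]; linarith
    obtain ⟨δ, hδ, hδ'⟩ := Metric.eventually_nhds_iff.mp hnear
    set δ₁ := min (δ / 2) (min ((c - m) / 2) ((Mx - c) / 2)) with hδ₁
    have hδ₁0 : 0 < δ₁ := by
      rw [hδ₁]
      apply lt_min (by linarith)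
      apply lt_min <;> linarith [hc.1, hc.2]
    have hd1 : δ₁ ≤ δ / 2 := min_le_left _ _
    have hd2 : δ₁ ≤ (c - m) / 2 := le_trans (min_le_right _ _) (min_le_left _ _)
    have hd3 : δ₁ ≤ (Mx - c) / 2 := le_trans (min_le_right _ _) (min_le_right _ _)
    have hF : ∀ y, |y - x₀| ≤ δ₁ → top' k + η < F k y := by
      intro y hy
      apply hδ'
      rw [Real.dist_eq]; linarith
    have hx0 : bet (k + 1) (x₀ + s) - F (k + 1) x₀ = 0 := by
      rw [hs]; have : x₀ + (c - x₀) = c := by ring
      rw [this, hc2]; ring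
    have hright : bet (k + 1) (x₀ + δ₁ + s) - F (k + 1) (x₀ + δ₁) ≤ -(η * δ₁) := by
      have := mvt_le (f := fun y => bet (k + 1) (y + s) - F (k + 1) y)
        (f' := fun y => bet k (y + s) - F k y) (a := x₀) (b := x₀ + δ₁) (η := η) (by linarith)
        (hcontd s k le_rfl).continuousOn (fun y _ => hderiv s k le_rfl y) (fun y hy => by
          have h1 := hF y (by rw [abs_le]; constructor <;> linarith [hy.1, hy.2])
          have h2 := bet_le_top k (y + s)
          linarith)
      simp only [hx0] at this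
      have e : x₀ + δ₁ - x₀ = δ₁ := by ring
      rw [e] at this
      linarith
    have hleft : η * δ₁ ≤ bet (k + 1) (x₀ - δ₁ + s) - F (k + 1) (x₀ - δ₁) := by
      have := mvt_le (f := fun y => bet (k + 1) (y + s) - F (k + 1) y)
        (f' := fun y => bet k (y + s) - F k y) (a := x₀ - δ₁) (b := x₀) (η := η) (by linarith)
        (hcontd s k le_rfl).continuousOn (fun y _ => hderiv s k le_rfl y) (fun y hy => by
          have h1 := hF y (by rw [abs_le]; constructor <;> linarith [hy.1, hy.2])
          have h2 := bet_le_top k (y + s)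
          linarith)
      simp only [hx0] at this
      have e : x₀ - (x₀ - δ₁) = δ₁ := by ring
      rw [e] at this
      linarith
    have hpos : 0 < η * δ₁ := by positivity
    apply hnoalt s (k + 1) le_rfl
    apply alt_insert (a := m - s) (u := x₀ - δ₁) (v := x₀ + δ₁) (b := Mx - s) (e := -1) hN
    · rw [hs]; linarith
    · linarith
    · rw [hs]; linarith
    · linarith
    · intro j
      have e : m - s + (j:ℝ) + s = m + j := by ring
      rw [e, bet_add_nat, hm]
      have := hlo (m - s + j)
      linarith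
    · intro j
      have e : Mx - s + (j:ℝ) + s = Mx + j := by ring
      rw [e, bet_add_nat, hM3]
      have := hhi (Mx - s + j)
      linarith
    · linarith
    · linarith

end Pool.Agent.Lib.MP_155064_nt
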