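import Pool.Agent.Lib.MP_155064_nt.Link

set_option autoImplicit false

open Complex MeasureTheory Set Filter Asymptotics Topology ComplexConjugate
open scoped Nat

namespace Pool.Agent.Lib.MP_155064_nt

/-- Boundary value of `Ss n σ` at `t = 0+`. -/
noncomputable def dS (n : ℕ) (σ : ℝ) : ℝ := (1 / Real.pi) * (I ^ n * E n σ).im

lemma tendsto_Ss_zero_right (hRH : RiemannHypothesis) (n : ℕ) {σ : ℝ} (hσ : 1 / 2 < σ) (hσ1 : σ < 1) :
    Tendsto (Ss n σ) (𝓝[>] 0) (𝓝 (dS n σ)) := by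
  have h := ((tendsto_J hRH n hσ hσ1).const_mul (I ^ n))
  have h2 := ((Complex.continuous_im.tendsto _).comp h).const_mul (1 / Real.pi)
  exact h2

lemma continuousOn_Ss (hRH : RiemannHypothesis) (n : ℕ) {σ : ℝ} (hσ : 1 / 2 < σ) :
    ContinuousOn (Ss n σ) (Ioi 0) := by
  intro t ht
  cases n with
  | zero => exact (hasDerivAt_Ss_zero hRH hσ ht).continuousAt.continuousWithinAt
  | succ n => exact (hasDerivAt_Ss_succ hRH n hσ ht).continuousAt.continuousWithinAt

lemma exists_Ss_succ_bound (hRH : RiemannHypothesis) (n : ℕ) {T : ℝ} (hT : 0 < T) :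
    ∃ B : ℝ, 0 < B ∧ ∀ σ t : ℝ, 1 / 2 < σ → 0 < t → t ≤ T → |Ss (n + 1) σ t| ≤ B := by
  obtain ⟨C, hC, hb⟩ := exists_J_strip hRH hT
  have hlog2 : 0 < Real.log 2 := Real.log_pos (by norm_num)
  have hpi := Real.pi_pos
  refine ⟨(1 / Real.pi) * (C * (1 / Real.log 2) ^ n), by positivity, ?_⟩
  intro σ t hσ ht htT
  have h1 := hb n σ t hσ ht htT
  unfold Ss
  rw [abs_mul, abs_of_pos (by positivity : (0:ℝ) < 1 / Real.pi)]
  apply mul_le_mul_of_nonneg_left _ (by positivity)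
  have h2 : |(I ^ (n + 1) * J (n + 1) (σ + t * I)).im| ≤ ‖J (n + 1) (σ + t * I)‖ := by
    refine le_trans (abs_im_le_norm _) ?_
    rw [norm_mul, norm_pow, norm_I, one_pow, one_mul]
  refine le_trans h2 (le_trans h1 ?_)
  apply mul_le_of_le_one_right (by positivity)
  rw [Real.exp_le_one_iff]
  have : 0 < Real.log 2 * σ := by
    apply mul_pos hlog2; linarith
  linarith

lemma dS_zero (hRH : RiemannHypothesis) {σ : ℝ} (hσ : 1 / 2 < σ) (hσ1 : σ < 1) : dS 0 σ = -1 := by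
  unfold dS
  rw [pow_zero, one_mul, im_E hRH 0 σ hσ.le]
  unfold vv
  rw [if_pos hσ1]
  have := Real.pi_pos
  field_simp
  simp

lemma exists_Ss_zero_bound (hRH : RiemannHypothesis) {T : ℝ} (hT : 0 < T) :
    ∃ B : ℝ, 0 < B ∧ ∀ σ t : ℝ, 1 / 2 < σ → σ < 1 → 0 < t → t ≤ T → |Ss 0 σ t| ≤ B := by
  obtain ⟨B₁, hB₁, hb⟩ := exists_Ss_succ_bound hRH 0 (T := T + 1) (by linarith)
  rw [zero_add] at hb
  have hpi := Real.pi_pos
  set c : ℝ := (1 / Real.pi) * ((1 / 2) * Real.log (T + 3) + 2) with hc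
  have hc0 : 0 < c := by
    have := Real.log_nonneg (show (1:ℝ) ≤ T + 3 by linarith)
    positivity
  refine ⟨2 * B₁ + c + 1 + c * T, by positivity, ?_⟩
  intro σ t hσ hσ1 ht htT
  have hder : ∀ v : ℝ, 0 < v → v ≤ T + 1 → -c ≤ (1 / Real.pi) * (fz (σ + v * I)).re := by
    intro v hv hvT
    have hs : (1:ℝ) / 2 < ((σ:ℂ) + v * I).re := by simpa using hσ
    have h1 := re_fZ_ge hRH hs
    have hU := mem_U_line hσ hv
    have hne := ne_one_of_mem_U hU
    have he := congrArg Complex.re (fZ_eq hne (riemannZeta_ne_zero hRH hs hne))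
    rw [Complex.add_re (fz _)] at he
    rw [he] at h1
    have h2 : (1 / ((σ:ℂ) + v * I - 1)).re ≤ 0 := by
      rw [one_div, Complex.inv_re]
      apply div_nonpos_of_nonpos_of_nonneg _ (Complex.normSq_nonneg _)
      simp; linarith
    have h3 : Real.log (((σ:ℂ) + v * I).re / 2 + |((σ:ℂ) + v * I).im| + 1) ≤ Real.log (T + 3) := by
      apply Real.log_le_log
      · simp; positivity
      · simp
        rw [abs_of_pos hv]; linarith
    have h4 : -((1 / 2) * Real.log (T + 3) + 2) ≤ (fz (σ + v * I)).re := by linarith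
    rw [hc, ← mul_neg]
    apply mul_le_mul_of_nonneg_left h4 (by positivity)
  have hmono : ∀ u v : ℝ, 0 < u → u ≤ v → v ≤ T + 1 → Ss 0 σ u - c * (v - u) ≤ Ss 0 σ v := by
    intro u v hu huv hv
    have := mvt_ge (f := Ss 0 σ) (f' := fun v => (1 / Real.pi) * (fz (σ + v * I)).re)
      (a := u) (b := v) (η := -c) huv
      (fun y hy => (hasDerivAt_Ss_zero hRH hσ (by linarith [hy.1])).continuousAt.continuousWithinAt)
      (fun y hy => (hasDerivAt_Ss_zero hRH hσ (by linarith [hy.1])).hasDerivWithinAt)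
      (fun y hy => hder y (by linarith [hy.1]) (by linarith [hy.2]))
    linarith
  rw [abs_le]
  constructor
  · -- lower bound
    have h1 : Tendsto (fun u : ℝ => Ss 0 σ u - c * (t - u)) (𝓝[>] 0) (𝓝 (-1 - c * (t - 0))) := by
      apply Tendsto.sub
      · have := tendsto_Ss_zero_right hRH 0 hσ hσ1
        rw [dS_zero hRH hσ hσ1] at this
        exact this
      · have hcc : Continuous (fun u : ℝ => c * (t - u)) := by fun_prop
        exact (hcc.tendsto 0).mono_left nhdsWithin_le_nhds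
    have h2 : -1 - c * (t - 0) ≤ Ss 0 σ t := by
      apply le_of_tendsto h1
      have h3 : ∀ᶠ u : ℝ in 𝓝[>] 0, u < t :=
        (eventually_lt_nhds ht).filter_mono nhdsWithin_le_nhds
      filter_upwards [self_mem_nhdsWithin, h3] with u hu hut
      exact hmono u t hu hut.le (by linarith)
    nlinarith
  · obtain ⟨ξ, hξ, hξ2⟩ := exists_hasDerivAt_eq_slope (Ss 1 σ) (Ss 0 σ) (a := t) (b := t + 1)
      (by linarith)
      (fun y hy => (hasDerivAt_Ss_succ hRH 0 hσ (by linarith [hy.1])).continuousAt.continuousWithinAt)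
      (fun y hy => hasDerivAt_Ss_succ hRH 0 hσ (by linarith [hy.1]))
    have e : t + 1 - t = 1 := by ring
    rw [e, div_one] at hξ2
    have h3 := hmono t ξ ht hξ.1.le (by linarith [hξ.2])
    have h4 := abs_le.mp (hb σ t hσ ht (by linarith))
    have h5 := abs_le.mp (hb σ (t + 1) hσ (by linarith) (by linarith))
    have h6 : c * (ξ - t) ≤ c := by nlinarith [hξ.2]
    have h7 : 0 ≤ c * T := by positivity
    linarith [h4.1, h4.2, h5.1, h5.2]

lemma exists_Ss_unif (hRH : RiemannHypothesis) (n : ℕ) {T : ℝ} (hT : 0 < T) :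
    ∃ B : ℝ, 0 < B ∧ ∀ σ t : ℝ, 1 / 2 < σ → σ < 1 → 0 < t → t ≤ T → |Ss n σ t| ≤ B := by
  cases n with
  | zero => exact exists_Ss_zero_bound hRH hT
  | succ n =>
    obtain ⟨B, hB, hb⟩ := exists_Ss_succ_bound hRH n hT
    exact ⟨B, hB, fun σ t h1 _ h3 h4 => hb σ t h1 h3 h4⟩

lemma intervalIntegrable_Ss (hRH : RiemannHypothesis) (n : ℕ) {σ t : ℝ} (hσ : 1 / 2 < σ) (hσ1 : σ < 1)
    (ht : 0 < t) : IntervalIntegrable (Ss n σ) volume 0 t := by
  obtain ⟨B, hB, hb⟩ := exists_Ss_unif hRH n ht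
  rw [intervalIntegrable_iff_integrableOn_Ioc_of_le ht.le]
  have hB' : IntegrableOn (fun _ : ℝ => B) (Ioc 0 t) := integrableOn_const (by simp)
  apply Integrable.mono' hB'
  · exact ((continuousOn_Ss hRH n hσ).mono (fun x hx => hx.1)).aestronglyMeasurable measurableSet_Ioc
  · filter_upwards [ae_restrict_mem measurableSet_Ioc] with x hx
    exact hb σ x hσ hσ1 hx.1 hx.2

lemma Ss_succ_eq (hRH : RiemannHypothesis) (n : ℕ) {σ t : ℝ} (hσ : 1 / 2 < σ) (hσ1 : σ < 1)
    (ht : 0 < t) : Ss (n + 1) σ t = (∫ τ in (0:ℝ)..t, Ss n σ τ) + dS (n + 1) σ := by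
  have h1 := intervalIntegral.integral_eq_sub_of_hasDerivAt_of_tendsto (f := Ss (n + 1) σ)
    (f' := Ss n σ) ht (fun x hx => hasDerivAt_Ss_succ hRH n hσ hx.1)
    (intervalIntegrable_Ss hRH n hσ hσ1 ht) (tendsto_Ss_zero_right hRH (n + 1) hσ hσ1)
    ((hasDerivAt_Ss_succ hRH n hσ ht).continuousAt.tendsto.mono_left nhdsWithin_le_nhds)
  rw [h1]; ring

lemma tailLogZeta_eq (m : ℕ) : tailLogZeta m = TT m := by
  induction m with
  | zero => rfl
  | succ m ih =>
    funext σ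
    show ∫ x in Ioi σ, tailLogZeta m x = ∫ x in Ioi σ, TT m x
    rw [ih]

lemma I_pow_two_mul (k : ℕ) : I ^ (2 * k) = (((-1) ^ k : ℝ) : ℂ) := by
  rw [pow_mul, I_sq]; push_cast; rfl

lemma deltaConst_eq (hRH : RiemannHypothesis) (n : ℕ) : dS (n + 1) (1 / 2) = deltaConst (n + 1) := by
  have hpi := Real.pi_pos
  unfold dS deltaConst
  rcases Nat.even_or_odd' (n + 1) with ⟨k, hk | hk⟩
  · -- even: n + 1 = 2k
    have hk0 : k ≠ 0 := by omega
    obtain ⟨j, rfl⟩ := Nat.exists_eq_succ_of_ne_zero hk0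
    have hev : Even (n + 1) := ⟨j + 1, by omega⟩
    have hj : (n + 1) / 2 - 1 = j := by omega
    rw [if_pos hev, hj]
    have h1 : I ^ (n + 1) = (((-1) ^ (j + 1) : ℝ) : ℂ) := by
      rw [hk]; exact I_pow_two_mul (j + 1)
    rw [h1, Complex.im_ofReal_mul, im_E hRH (n + 1) (1 / 2) le_rfl]
    unfold vv
    rw [if_pos (by norm_num)]
    have h2 : (1 - 1 / 2 : ℝ) ^ (n + 1) = 1 / 2 ^ (n + 1) := by
      rw [show (1 - 1 / 2 : ℝ) = 1 / 2 by norm_num, div_pow, one_pow]
    rw [h2, pow_succ]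
    have : ((n + 1)! : ℝ) ≠ 0 := by exact_mod_cast Nat.factorial_ne_zero _
    field_simp
  · have hodd : ¬ Even (n + 1) := by
      rw [Nat.not_even_iff_odd]; exact ⟨k, hk⟩
    have hj : (n + 1 + 1) / 2 - 1 = k := by omega
    rw [if_neg hodd, hj]
    have h1 : I ^ (n + 1) = (((-1) ^ k : ℝ) : ℂ) * I := by
      rw [hk, pow_succ, I_pow_two_mul]
    rw [h1, mul_assoc, Complex.im_ofReal_mul, Complex.I_mul_im, re_E hRH (n + 1) (1 / 2) le_rfl,
      tailLogZeta_eq]
    field_simp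

lemma tendsto_dS (hRH : RiemannHypothesis) (n : ℕ) :
    Tendsto (dS (n + 1)) (𝓝[>] (1 / 2)) (𝓝 (deltaConst (n + 1))) := by
  rw [← deltaConst_eq hRH n]
  have h := ((tendsto_E_succ hRH n).const_mul (I ^ (n + 1)))
  exact ((Complex.continuous_im.tendsto _).comp h).const_mul (1 / Real.pi)

/-- The functions `S_n` are the limits of the shifted functions. -/
theorem tendsto_zetaSn (hRH : RiemannHypothesis) (n : ℕ) : ∀ t : ℝ, 0 < t →
    (n = 0 → ¬ IsOrdinate t) →
    Tendsto (fun σ : ℝ => Ss n σ t) (𝓝[>] (1 / 2)) (𝓝 (zetaSn n t)) := by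
  induction n with
  | zero =>
    intro t ht h
    exact tendsto_zetaS hRH ht (h rfl)
  | succ n ih =>
    intro t ht _
    obtain ⟨B, hB, hb⟩ := exists_Ss_unif hRH n ht
    have hev : ∀ᶠ σ : ℝ in 𝓝[>] (1 / 2), σ < 1 :=
      (eventually_lt_nhds (by norm_num)).filter_mono nhdsWithin_le_nhds
    have h1 : Tendsto (fun σ : ℝ => ∫ τ in (0:ℝ)..t, Ss n σ τ) (𝓝[>] (1 / 2))
        (𝓝 (∫ τ in (0:ℝ)..t, zetaSn n τ)) := by
      apply intervalIntegral.tendsto_integral_filter_of_dominated_convergence (fun _ => B)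
      · filter_upwards [self_mem_nhdsWithin] with σ hσ
        rw [uIoc_of_le ht.le]
        exact ((continuousOn_Ss hRH n hσ).mono (fun x hx => hx.1)).aestronglyMeasurable
          measurableSet_Ioc
      · filter_upwards [self_mem_nhdsWithin, hev] with σ hσ hσ1
        filter_upwards with x hx
        rw [uIoc_of_le ht.le] at hx
        exact hb σ x hσ hσ1 hx.1 hx.2
      · exact intervalIntegrable_const
      · have hae : ∀ᵐ x : ℝ, ¬ IsOrdinate x := by
          have := countable_ordinates.ae_notMem volume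
          exact this
        filter_upwards [hae] with x hx hxm
        rw [uIoc_of_le ht.le] at hxm
        exact ih x hxm.1 (fun _ => hx)
    have h2 := h1.add (tendsto_dS hRH n)
    have e : zetaSn (n + 1) t = (∫ τ in (0:ℝ)..t, zetaSn n τ) + deltaConst (n + 1) := rfl
    rw [e]
    apply h2.congr'
    filter_upwards [self_mem_nhdsWithin, hev] with σ hσ hσ1
    exact (Ss_succ_eq hRH n hσ hσ1 ht).symm

end Pool.Agent.Lib.MP_155064_nt
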