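import Pool.Agent.Lib.MP_155064_nt.NearReal

set_option autoImplicit false

open Complex MeasureTheory Set Filter Asymptotics Topology ComplexConjugate
open scoped Nat

namespace Pool.Agent.Lib.MP_155064_nt

lemma exists_J_strip (hRH : RiemannHypothesis) {T : ℝ} (hT : 0 < T) :
    ∃ C : ℝ, 0 < C ∧ ∀ n : ℕ, ∀ σ t : ℝ, 1 / 2 < σ → 0 < t → t ≤ T →
      ‖J (n + 1) (σ + t * I)‖ ≤ C * (1 / Real.log 2) ^ n * Real.exp (-(Real.log 2 * σ)) := by
  obtain ⟨C₀, hC₀, h0⟩ := exists_J_zero_bound hRH hT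
  have hlog2 : 0 < Real.log 2 := Real.log_pos (by norm_num)
  set B : ℝ := ∫ x in Ioi (1 / 2 : ℝ), b0 C₀ x with hB
  have hB0 : 0 ≤ B := setIntegral_nonneg measurableSet_Ioi (fun x _ => b0_nonneg hC₀ x)
  set C : ℝ := B * Real.exp (Real.log 2 * (3 / 2)) + C₀ * (1 / Real.log 2) with hC
  have hCpos : 0 < C := by positivity
  refine ⟨C, hCpos, ?_⟩
  intro n
  induction n with
  | zero =>
    intro σ t hσ ht htT
    rw [pow_zero, mul_one, zero_add, J_succ_line]
    have hint : IntegrableOn (b0 C₀) (Ioi σ) := (integrableOn_b0 C₀).mono_set (Ioi_subset_Ioi hσ.le)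
    have h1 : ‖∫ x in Ioi σ, J 0 (x + t * I)‖ ≤ ∫ x in Ioi σ, b0 C₀ x := by
      apply norm_integral_le_of_norm_le hint
      have hne : ∀ᵐ x : ℝ ∂(volume.restrict (Ioi σ)), x ≠ 1 := by
        apply ae_restrict_of_ae
        rw [ae_iff]
        simp
      filter_upwards [ae_restrict_mem measurableSet_Ioi, hne] with x hx hx1
      have hx0 : σ < x := hx
      exact h0 x t (by linarith) hx1 ht htT
    refine le_trans h1 ?_
    rcases lt_or_ge σ (3 / 2) with h | h
    · have h2 : ∫ x in Ioi σ, b0 C₀ x ≤ B := by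
        apply setIntegral_mono_set (integrableOn_b0 C₀)
        · filter_upwards with x
          exact b0_nonneg hC₀ x
        · exact (Ioi_subset_Ioi hσ.le).eventuallyLE
      have h3 : 1 ≤ Real.exp (Real.log 2 * (3 / 2)) * Real.exp (-(Real.log 2 * σ)) := by
        rw [← Real.exp_add]; apply Real.one_le_exp; nlinarith
      have h4 : B ≤ B * (Real.exp (Real.log 2 * (3 / 2)) * Real.exp (-(Real.log 2 * σ))) :=
        le_mul_of_one_le_right hB0 h3
      have h5 : 0 ≤ C₀ * (1 / Real.log 2) * Real.exp (-(Real.log 2 * σ)) := by positivity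
      rw [hC]
      nlinarith
    · have h2 : ∫ x in Ioi σ, b0 C₀ x = ∫ x in Ioi σ, C₀ * Real.exp (-(Real.log 2 * x)) := by
        apply setIntegral_congr_fun measurableSet_Ioi
        intro x hx
        have hx0 : σ < x := hx
        simp only [b0]
        have hx32 : (3 / 2 : ℝ) ≤ x := by linarith
        rw [indicator_of_notMem (show x ∉ Iio (3 / 2 : ℝ) from not_lt.mpr hx32), zero_add]
      have h3 : ∫ x in Ioi σ, C₀ * Real.exp (-(Real.log 2 * x)) =
          C₀ * (1 / Real.log 2) * Real.exp (-(Real.log 2 * σ)) := by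
        rw [integral_const_mul]
        have := integral_exp_mul_Ioi (a := -Real.log 2) (by linarith) σ
        simp only [neg_mul] at this
        rw [this]
        field_simp
      rw [h2, h3]
      have h5 : 0 ≤ B * Real.exp (Real.log 2 * (3 / 2)) * Real.exp (-(Real.log 2 * σ)) := by positivity
      rw [hC]
      nlinarith
  | succ n ih =>
    intro σ t hσ ht htT
    rw [J_succ_line]
    have hint : IntegrableOn (fun x : ℝ => C * (1 / Real.log 2) ^ n * Real.exp (-(Real.log 2 * x))) (Ioi σ) := by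
      have := (exp_neg_integrableOn_Ioi σ hlog2).const_mul (C * (1 / Real.log 2) ^ n)
      simp only [neg_mul] at this
      exact this
    have h1 : ‖∫ x in Ioi σ, J (n + 1) (x + t * I)‖ ≤
        ∫ x in Ioi σ, C * (1 / Real.log 2) ^ n * Real.exp (-(Real.log 2 * x)) := by
      apply norm_integral_le_of_norm_le hint
      filter_upwards [ae_restrict_mem measurableSet_Ioi] with x hx
      have hx0 : σ < x := hx
      exact ih x t (by linarith) ht htT
    refine le_trans h1 (le_of_eq ?_)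
    rw [integral_const_mul]
    have := integral_exp_mul_Ioi (a := -Real.log 2) (by linarith) σ
    simp only [neg_mul] at this
    rw [this, pow_succ]
    field_simp

/-- Boundary values of `J n` on the real axis from above. -/
noncomputable def E : ℕ → ℝ → ℂ
  | 0 => fun σ => (Real.log ‖riemannZeta (σ:ℂ)‖ : ℂ) - (if σ < 1 then Real.pi * I else 0)
  | (n + 1) => fun σ => ∫ x in Ioi σ, E n x

lemma tendsto_J_zero (hRH : RiemannHypothesis) {σ : ℝ} (hσ : 1 / 2 < σ) (hσ1 : σ ≠ 1) :
    Tendsto (fun t : ℝ => J 0 (σ + t * I)) (𝓝[>] 0) (𝓝 (E 0 σ)) := by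
  have h1 : Tendsto (fun t : ℝ => LZ (σ + t * I)) (𝓝[>] 0) (𝓝 (LZ (σ:ℂ))) := by
    have := ((continuous_LZ_line hRH hσ).tendsto 0)
    simp only [Complex.ofReal_zero, zero_mul, add_zero] at this
    exact this.mono_left nhdsWithin_le_nhds
  have hne : (σ:ℂ) ≠ 1 := by
    intro h; apply hσ1; exact_mod_cast h
  have hlim0 : Tendsto (fun t : ℝ => (σ:ℂ) + t * I - 1) (𝓝[>] 0) (𝓝 ((σ:ℂ) - 1)) := by
    have hc : Continuous (fun t : ℝ => (σ:ℂ) + t * I - 1) := by fun_prop
    have := hc.tendsto 0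
    simp only [Complex.ofReal_zero, zero_mul, add_zero] at this
    exact this.mono_left nhdsWithin_le_nhds
  have hnorm : ‖(σ:ℂ) - 1‖ = |σ - 1| := by
    have : (σ:ℂ) - 1 = ((σ - 1 : ℝ) : ℂ) := by push_cast; rfl
    rw [this, Complex.norm_real, Real.norm_eq_abs]
  have hz1 : riemannZeta₁ (σ:ℂ) = ((σ:ℂ) - 1) * riemannZeta (σ:ℂ) := riemannZeta₁_eq_mul hne
  have hζ0 : riemannZeta (σ:ℂ) ≠ 0 := riemannZeta_ne_zero hRH (by simpa using hσ) hne
  have hlogZ : Real.log ‖riemannZeta₁ (σ:ℂ)‖ = Real.log |σ - 1| + Real.log ‖riemannZeta (σ:ℂ)‖ := by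
    rw [hz1, norm_mul, hnorm, Real.log_mul (abs_pos.mpr (sub_ne_zero.mpr hσ1)).ne'
      (norm_pos_iff.mpr hζ0).ne']
  have h2 : Tendsto (fun t : ℝ => Complex.log ((σ:ℂ) + t * I - 1)) (𝓝[>] 0)
      (𝓝 ((Real.log |σ - 1| : ℂ) + if σ < 1 then Real.pi * I else 0)) := by
    rcases lt_or_gt_of_ne hσ1 with h | h
    · rw [if_pos h]
      have h3 := tendsto_log_nhdsWithin_im_nonneg_of_re_neg_of_im_zero (z := (σ:ℂ) - 1)
        (by simp; linarith) (by simp)
      rw [hnorm] at h3
      apply h3.comp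
      rw [tendsto_nhdsWithin_iff]
      refine ⟨hlim0, ?_⟩
      filter_upwards [self_mem_nhdsWithin] with t ht
      have ht0 : (0:ℝ) < t := ht
      show 0 ≤ ((σ:ℂ) + t * I - 1).im
      simp; exact ht0.le
    · rw [if_neg (not_lt.mpr h.le), add_zero]
      have hslit : (σ:ℂ) - 1 ∈ slitPlane := by left; simp; linarith
      have h3 := (continuousAt_clog hslit).tendsto.comp hlim0
      have e : Complex.log ((σ:ℂ) - 1) = (Real.log |σ - 1| : ℂ) := by
        have : (σ:ℂ) - 1 = ((σ - 1 : ℝ) : ℂ) := by push_cast; rfl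
        rw [this, ← Complex.ofReal_log (by linarith), abs_of_pos (by linarith)]
      rw [e] at h3
      exact h3
  have h4 := h1.sub h2
  have e : LZ (σ:ℂ) - ((Real.log |σ - 1| : ℂ) + if σ < 1 then Real.pi * I else 0) = E 0 σ := by
    rw [LZ_ofReal hRH hσ, hlogZ]
    simp only [E]
    push_cast
    ring
  rw [e] at h4
  apply h4.congr'
  filter_upwards [self_mem_nhdsWithin] with t ht
  rw [J_zero_eq hRH (mem_U_line hσ ht)]

/-- Generic dominated-convergence step. -/
lemma boundary_step {g : ℂ → ℂ} (hg : Good g) {e : ℝ → ℂ} {D : ℝ → ℝ}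
    (hD : IntegrableOn D (Ioi (1 / 2)))
    (hb : ∀ σ t : ℝ, 1 / 2 < σ → σ ≠ 1 → 0 < t → t ≤ 1 → ‖g (σ + t * I)‖ ≤ D σ)
    (hlim : ∀ σ : ℝ, 1 / 2 < σ → σ ≠ 1 →
      Tendsto (fun t : ℝ => g (σ + t * I)) (𝓝[>] 0) (𝓝 (e σ))) :
    IntegrableOn e (Ioi (1 / 2)) ∧ ∀ σ : ℝ, 1 / 2 < σ →
      Tendsto (fun t : ℝ => P g (σ + t * I)) (𝓝[>] 0) (𝓝 (∫ x in Ioi σ, e x)) := by
  have hmeas : ∀ t : ℝ, 0 < t → AEStronglyMeasurable (fun x : ℝ => g (x + t * I))
      (volume.restrict (Ioi (1 / 2))) := by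
    intro t ht
    apply ContinuousOn.aestronglyMeasurable _ measurableSet_Ioi
    intro x hx
    have hU := mem_U_line (show (1:ℝ) / 2 < x from hx) ht
    have h1 : ContinuousAt g ((x:ℂ) + t * I) :=
      (hg.diff.differentiableAt (isOpen_U.mem_nhds hU)).continuousAt
    have h2 : ContinuousAt (fun x : ℝ => (x:ℂ) + t * I) x := by fun_prop
    exact (ContinuousAt.comp (f := fun x : ℝ => (x:ℂ) + t * I) (g := g) h1 h2).continuousWithinAt
  have hne : ∀ᵐ x : ℝ ∂(volume.restrict (Ioi (1 / 2))), x ≠ 1 := by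
    apply ae_restrict_of_ae
    rw [ae_iff]
    simp
  have hseq : Tendsto (fun n : ℕ => (1:ℝ) / ((n:ℝ) + 1)) atTop (𝓝[>] 0) := by
    rw [tendsto_nhdsWithin_iff]
    refine ⟨tendsto_one_div_add_atTop_nhds_zero_nat, ?_⟩
    filter_upwards with n
    show (0:ℝ) < 1 / ((n:ℝ) + 1)
    positivity
  have hebound : ∀ σ : ℝ, 1 / 2 < σ → σ ≠ 1 → ‖e σ‖ ≤ D σ := by
    intro σ hσ hσ1
    apply le_of_tendsto (hlim σ hσ hσ1).norm
    have h1 : ∀ᶠ t : ℝ in 𝓝[>] 0, t ≤ 1 :=
      (eventually_le_nhds (by norm_num : (0:ℝ) < 1)).filter_mono nhdsWithin_le_nhds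
    filter_upwards [self_mem_nhdsWithin, h1] with t ht ht1
    exact hb σ t hσ hσ1 ht ht1
  have hmeas_e : AEStronglyMeasurable e (volume.restrict (Ioi (1 / 2))) := by
    apply aestronglyMeasurable_of_tendsto_ae atTop
      (f := fun n : ℕ => fun x : ℝ => g (x + ((1 / ((n:ℝ) + 1) : ℝ)) * I))
    · intro n
      exact hmeas _ (by positivity)
    · filter_upwards [ae_restrict_mem measurableSet_Ioi, hne] with x hx hx1
      exact (hlim x hx hx1).comp hseq
  refine ⟨?_, ?_⟩
  · apply Integrable.mono' hD hmeas_e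
    filter_upwards [ae_restrict_mem measurableSet_Ioi, hne] with x hx hx1
    exact hebound x hx hx1
  · intro σ hσ
    have hsub : Ioi σ ⊆ Ioi (1 / 2 : ℝ) := Ioi_subset_Ioi hσ.le
    have e1 : (fun t : ℝ => P g (σ + t * I)) = fun t : ℝ => ∫ x in Ioi σ, g (x + t * I) := by
      funext t; exact P_line g σ t
    rw [e1]
    apply tendsto_integral_filter_of_dominated_convergence D
    · filter_upwards [self_mem_nhdsWithin] with t ht
      exact (hmeas t ht).mono_measure (Measure.restrict_mono hsub le_rfl)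
    · have h1 : ∀ᶠ t : ℝ in 𝓝[>] 0, t ≤ 1 :=
        (eventually_le_nhds (by norm_num : (0:ℝ) < 1)).filter_mono nhdsWithin_le_nhds
      filter_upwards [self_mem_nhdsWithin, h1] with t ht ht1
      have hne' : ∀ᵐ x : ℝ ∂(volume.restrict (Ioi σ)), x ≠ 1 := by
        apply ae_restrict_of_ae
        rw [ae_iff]
        simp
      filter_upwards [ae_restrict_mem measurableSet_Ioi, hne'] with x hx hx1
      exact hb x t (hsub hx) hx1 ht ht1
    · exact hD.mono_set hsub
    · have hne' : ∀ᵐ x : ℝ ∂(volume.restrict (Ioi σ)), x ≠ 1 := by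
        apply ae_restrict_of_ae
        rw [ae_iff]
        simp
      filter_upwards [ae_restrict_mem measurableSet_Ioi, hne'] with x hx hx1
      exact hlim x (hsub hx) hx1

lemma boundary_all (hRH : RiemannHypothesis) (n : ℕ) :
    IntegrableOn (E n) (Ioi (1 / 2)) ∧ ∀ σ : ℝ, 1 / 2 < σ →
      Tendsto (fun t : ℝ => J (n + 1) (σ + t * I)) (𝓝[>] 0) (𝓝 (E (n + 1) σ)) := by
  induction n with
  | zero =>
    obtain ⟨C, hC, hb⟩ := exists_J_zero_bound hRH (T := 1) one_pos
    exact boundary_step (good_J hRH 0) (integrableOn_b0 C) hb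
      (fun σ hσ hσ1 => tendsto_J_zero hRH hσ hσ1)
  | succ n ih =>
    obtain ⟨C, hC, hb⟩ := exists_J_strip hRH (T := 1) one_pos
    have hlog2 : 0 < Real.log 2 := Real.log_pos (by norm_num)
    have hint : IntegrableOn (fun x : ℝ => C * (1 / Real.log 2) ^ n * Real.exp (-(Real.log 2 * x)))
        (Ioi (1 / 2)) := by
      have := (exp_neg_integrableOn_Ioi (1 / 2) hlog2).const_mul (C * (1 / Real.log 2) ^ n)
      simp only [neg_mul] at this
      exact this
    exact boundary_step (good_J hRH (n + 1)) hint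
      (fun σ t hσ _ ht ht1 => hb n σ t hσ ht ht1) (fun σ hσ _ => ih.2 σ hσ)

lemma integrableOn_E (hRH : RiemannHypothesis) (n : ℕ) : IntegrableOn (E n) (Ioi (1 / 2)) :=
  (boundary_all hRH n).1

lemma tendsto_J (hRH : RiemannHypothesis) (n : ℕ) {σ : ℝ} (hσ : 1 / 2 < σ) (hσ1 : σ < 1) :
    Tendsto (fun t : ℝ => J n (σ + t * I)) (𝓝[>] 0) (𝓝 (E n σ)) := by
  cases n with
  | zero => exact tendsto_J_zero hRH hσ hσ1.ne
  | succ n => exact (boundary_all hRH n).2 σ hσ

/-- Continuity of tail integrals at the left endpoint. -/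
lemma tendsto_tail {e : ℝ → ℂ} {a : ℝ} (he : IntegrableOn e (Ioi a)) :
    Tendsto (fun σ : ℝ => ∫ x in Ioi σ, e x) (𝓝[>] a) (𝓝 (∫ x in Ioi a, e x)) := by
  have h1 : ∀ σ : ℝ, ∫ x in Ioi σ, e x = ∫ x, (Ioi σ).indicator e x := by
    intro σ; rw [integral_indicator measurableSet_Ioi]
  simp_rw [h1]
  have hI : Integrable ((Ioi a).indicator e) := he.integrable_indicator measurableSet_Ioi
  apply tendsto_integral_filter_of_dominated_convergence (fun x => ‖(Ioi a).indicator e x‖)
  · filter_upwards [self_mem_nhdsWithin] with σ hσ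
    have hs : Ioi σ ⊆ Ioi a := Ioi_subset_Ioi (le_of_lt hσ)
    exact ((he.mono_set hs).integrable_indicator measurableSet_Ioi).aestronglyMeasurable
  · filter_upwards [self_mem_nhdsWithin] with σ hσ
    filter_upwards with x
    have hs : Ioi σ ⊆ Ioi a := Ioi_subset_Ioi (le_of_lt hσ)
    by_cases hx : x ∈ Ioi σ
    · rw [indicator_of_mem hx, indicator_of_mem (hs hx)]
    · rw [indicator_of_notMem hx, norm_zero]; exact norm_nonneg _
  · exact hI.norm
  · filter_upwards with x
    by_cases hx : x ∈ Ioi a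
    · rw [indicator_of_mem hx]
      apply tendsto_const_nhds.congr'
      have h2 : ∀ᶠ σ : ℝ in 𝓝[>] a, σ < x :=
        (eventually_lt_nhds (show a < x from hx)).filter_mono nhdsWithin_le_nhds
      filter_upwards [h2] with σ hσ
      rw [indicator_of_mem (show x ∈ Ioi σ from hσ)]
    · rw [indicator_of_notMem hx]
      apply tendsto_const_nhds.congr'
      filter_upwards [self_mem_nhdsWithin] with σ hσ
      rw [indicator_of_notMem]
      intro h
      exact hx (lt_trans (show a < σ from hσ) h)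

lemma tendsto_E_succ (hRH : RiemannHypothesis) (n : ℕ) :
    Tendsto (E (n + 1)) (𝓝[>] (1 / 2)) (𝓝 (E (n + 1) (1 / 2))) :=
  tendsto_tail (integrableOn_E hRH n)

/-- Iterated tail integrals of `log |ζ|` on the real axis. -/
noncomputable def TT : ℕ → ℝ → ℝ
  | 0 => fun σ => Real.log ‖riemannZeta (σ:ℂ)‖
  | (n + 1) => fun σ => ∫ x in Ioi σ, TT n x

lemma re_E (hRH : RiemannHypothesis) (n : ℕ) : ∀ σ : ℝ, 1 / 2 ≤ σ → (E n σ).re = TT n σ := by
  induction n with
  | zero =>
    intro σ _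
    simp only [E, TT]
    rw [Complex.sub_re, Complex.ofReal_re]
    split_ifs <;> simp
  | succ n ih =>
    intro σ hσ
    simp only [E, TT]
    have hint : IntegrableOn (E n) (Ioi σ) := (integrableOn_E hRH n).mono_set (Ioi_subset_Ioi hσ)
    have h1 := Complex.reCLM.integral_comp_comm hint
    simp only [Complex.reCLM_apply] at h1
    rw [← h1]
    apply setIntegral_congr_fun measurableSet_Ioi
    intro x hx
    exact ih x (by have : σ < x := hx; linarith)

/-- The truncated power `(1-σ)₊^m / m!`. -/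
noncomputable def vv (m : ℕ) (σ : ℝ) : ℝ := if σ < 1 then (1 - σ) ^ m / (m ! : ℝ) else 0

lemma integral_vv (m : ℕ) (σ : ℝ) : ∫ x in Ioi σ, vv m x = vv (m + 1) σ := by
  rcases lt_or_ge σ 1 with h | h
  · have h1 : vv m = (Iio (1:ℝ)).indicator (fun x => (1 - x) ^ m / (m ! : ℝ)) := by
      funext x
      unfold vv
      by_cases hx : x < 1
      · rw [if_pos hx, indicator_of_mem (show x ∈ Iio (1:ℝ) from hx)]
      · rw [if_neg hx, indicator_of_notMem (show x ∉ Iio (1:ℝ) from hx)]
    rw [h1, setIntegral_indicator measurableSet_Iio, Ioi_inter_Iio, ← integral_Ioc_eq_integral_Ioo,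
      ← intervalIntegral.integral_of_le h.le]
    have hderiv : ∀ x ∈ uIcc σ 1, HasDerivAt (fun x : ℝ => -((1 - x) ^ (m + 1) / ((m + 1)! : ℝ)))
        ((1 - x) ^ m / (m ! : ℝ)) x := by
      intro x _
      have h2 : HasDerivAt (fun x : ℝ => 1 - x) (-1) x := by
        simpa using (hasDerivAt_id x).const_sub 1
      have h3 := ((h2.pow (m + 1)).div_const ((m + 1)! : ℝ)).neg
      have e : (1 - x) ^ m / (m ! : ℝ) = -(((m + 1 : ℕ) : ℝ) * (1 - x) ^ (m + 1 - 1) * -1 / ((m + 1)! : ℝ)) := by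
        rw [Nat.factorial_succ]
        push_cast
        have : (m ! : ℝ) ≠ 0 := by exact_mod_cast Nat.factorial_ne_zero m
        have : ((m:ℝ) + 1) ≠ 0 := by positivity
        field_simp
      rw [e]
      exact h3
    rw [intervalIntegral.integral_eq_sub_of_hasDerivAt hderiv (by
      apply Continuous.intervalIntegrable; fun_prop)]
    unfold vv
    rw [if_pos h]
    simp
  · have h1 : ∫ x in Ioi σ, vv m x = ∫ x in Ioi σ, (0:ℝ) := by
      apply setIntegral_congr_fun measurableSet_Ioi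
      intro x hx
      have hx0 : σ < x := hx
      simp only [vv]
      rw [if_neg (by linarith)]
    rw [h1]
    unfold vv
    rw [if_neg (by linarith)]
    simp

lemma im_E (hRH : RiemannHypothesis) (n : ℕ) : ∀ σ : ℝ, 1 / 2 ≤ σ → (E n σ).im = -Real.pi * vv n σ := by
  induction n with
  | zero =>
    intro σ _
    simp only [E, vv]
    rw [Complex.sub_im, Complex.ofReal_im]
    split_ifs <;> simp
  | succ n ih =>
    intro σ hσ
    simp only [E]
    have hint : IntegrableOn (E n) (Ioi σ) := (integrableOn_E hRH n).mono_set (Ioi_subset_Ioi hσ)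
    have h1 := Complex.imCLM.integral_comp_comm hint
    simp only [Complex.imCLM_apply] at h1
    rw [← h1, ← integral_vv, ← integral_const_mul]
    apply setIntegral_congr_fun measurableSet_Ioi
    intro x hx
    exact ih x (by have : σ < x := hx; linarith)

end Pool.Agent.Lib.MP_155064_nt
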