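import Pool.Agent.Lib.MP_155064_nt.Defs
import Pool.Agent.Lib.MP_155064_nt.RealAxis
import Pool.Agent.Lib.MP_155064_nt.Kolmogorov

set_option autoImplicit false

open Complex MeasureTheory Set Filter Asymptotics Topology ComplexConjugate
open scoped Nat

namespace Pool.Agent.Lib.MP_155064_nt

lemma argPath_mem_U {t : ℝ} (ht : 0 < t) {u : ℝ} (hu : u < 2) : argPath t u ∈ U := by
  unfold argPath
  split_ifs with h
  · apply mem_U_of_one_lt
    simp
  · apply mem_U_line _ ht
    have : 1 < u := not_le.mp h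
    linarith

lemma continuous_argPath (t : ℝ) : Continuous (argPath t) := by
  unfold argPath
  apply Continuous.if_le
  · fun_prop
  · fun_prop
  · exact continuous_id
  · exact continuous_const
  · intro u hu
    rw [hu]; push_cast; ring

lemma continuousOn_psi (hRH : RiemannHypothesis) {t : ℝ} (ht : 0 < t) :
    ContinuousOn (fun u : ℝ => (J 0 (argPath t u)).im) (Ico 0 2) := by
  intro u hu
  have hU := argPath_mem_U ht hu.2
  have h1 : ContinuousAt (J 0) (argPath t u) :=
    ((good_J hRH 0).diff.differentiableAt (isOpen_U.mem_nhds hU)).continuousAt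
  have h2 : ContinuousAt (fun u : ℝ => J 0 (argPath t u)) u :=
    ContinuousAt.comp (f := argPath t) (g := J 0) h1 (continuous_argPath t).continuousAt
  exact (Complex.continuous_im.continuousAt.comp h2).continuousWithinAt

lemma zeta_polar (hRH : RiemannHypothesis) {s : ℂ} (hs : s ∈ U) :
    riemannZeta s = (‖riemannZeta s‖ : ℂ) * exp (((J 0 s).im : ℂ) * I) := by
  have h := exp_J_zero hRH hs
  rw [← h, Complex.norm_exp, Complex.ofReal_exp, ← Complex.exp_add, Complex.re_add_im]

/-- A continuous argument agrees with `Im log ζ` before the endpoint. -/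
lemma theta_eq (hRH : RiemannHypothesis) {t : ℝ} (ht : 0 < t) {θ : ℝ → ℝ}
    (hc : ContinuousOn θ (Icc 0 2)) (h0 : θ 0 = 0)
    (hθ : ∀ u ∈ Icc (0 : ℝ) 2,
      riemannZeta (argPath t u) = (‖riemannZeta (argPath t u)‖ : ℂ) * exp ((θ u : ℂ) * I)) :
    ∀ u ∈ Ico (0:ℝ) 2, θ u = (J 0 (argPath t u)).im := by
  set f : ℝ → ℝ := fun u => (θ u - (J 0 (argPath t u)).im) / (2 * Real.pi) with hf
  have hpi := Real.pi_pos
  have hfc : ContinuousOn f (Ico 0 2) :=
    ((hc.mono Ico_subset_Icc_self).sub (continuousOn_psi hRH ht)).div_const _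
  have hint : ∀ u ∈ Ico (0:ℝ) 2, ∃ n : ℤ, f u = n := by
    intro u hu
    have hU := argPath_mem_U ht hu.2
    have hne := ne_one_of_mem_U hU
    have hz := riemannZeta_ne_zero hRH hU.1 hne
    have h1 := hθ u ⟨hu.1, hu.2.le⟩
    have h2 := zeta_polar hRH hU
    have h3 : exp ((θ u : ℂ) * I) = exp (((J 0 (argPath t u)).im : ℂ) * I) := by
      have h4 : (‖riemannZeta (argPath t u)‖ : ℂ) ≠ 0 := by
        exact_mod_cast (norm_pos_iff.mpr hz).ne'
      apply mul_left_cancel₀ h4
      rw [← h1, ← h2]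
    rw [Complex.exp_eq_exp_iff_exists_int] at h3
    obtain ⟨n, hn⟩ := h3
    refine ⟨n, ?_⟩
    have h5 := congrArg Complex.im hn
    simp only [Complex.mul_im, Complex.ofReal_re, Complex.I_im, mul_one, Complex.ofReal_im,
      Complex.I_re, mul_zero, add_zero, Complex.add_im, Complex.intCast_re, Complex.intCast_im,
      zero_mul] at h5
    have h6 : θ u = (J 0 (argPath t u)).im + n * (2 * Real.pi) := by
      rw [h5]
      simp
    simp only [hf]
    rw [h6]
    field_simp
    ring
  have hf0 : f 0 = 0 := by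
    simp only [hf]
    have e : argPath t 0 = ((2:ℝ):ℂ) := by unfold argPath; simp
    rw [h0, e, J_ofReal_im hRH 0 2 (by norm_num)]
    simp
  intro u hu
  by_contra hne
  have hfu : f u ≠ 0 := by
    simp only [hf]
    exact div_ne_zero (sub_ne_zero.mpr hne) (by positivity)
  obtain ⟨n, hn⟩ := hint u hu
  have hpre : IsPreconnected (f '' Ico 0 2) := isPreconnected_Ico.image f hfc
  have m0 : (0:ℝ) ∈ f '' Ico 0 2 := ⟨0, by constructor <;> norm_num, hf0⟩
  have mu : f u ∈ f '' Ico 0 2 := ⟨u, hu, rfl⟩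
  have hn0 : n ≠ 0 := by
    rintro rfl
    apply hfu
    rw [hn]; simp
  rcases lt_or_gt_of_ne hn0 with hneg | hpos
  · have h1 : (n:ℝ) ≤ -1 := by exact_mod_cast (by omega : n ≤ -1)
    have h2 : (-1 / 2 : ℝ) ∈ f '' Ico 0 2 := by
      apply hpre.Icc_subset mu m0
      rw [hn]; constructor <;> linarith
    obtain ⟨v, hv, hv2⟩ := h2
    obtain ⟨m, hm⟩ := hint v hv
    rw [hm] at hv2
    have : (2 * m : ℝ) = -1 := by linarith
    have : (2 * m : ℤ) = -1 := by exact_mod_cast this
    omega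
  · have h1 : (1:ℝ) ≤ n := by exact_mod_cast (by omega : 1 ≤ n)
    have h2 : (1 / 2 : ℝ) ∈ f '' Ico 0 2 := by
      apply hpre.Icc_subset m0 mu
      rw [hn]; constructor <;> linarith
    obtain ⟨v, hv, hv2⟩ := h2
    obtain ⟨m, hm⟩ := hint v hv
    rw [hm] at hv2
    have : (2 * m : ℝ) = 1 := by linarith
    have : (2 * m : ℤ) = 1 := by exact_mod_cast this
    omega

lemma argPath_sigma (t : ℝ) {σ : ℝ} (hσ : σ < 2) :
    argPath t (1 + (2 - σ) * (2 / 3)) = (σ:ℂ) + t * I := by
  unfold argPath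
  rw [if_neg (by linarith)]
  congr 2
  ring

lemma tendsto_of_isContinuousArg (hRH : RiemannHypothesis) {t : ℝ} (ht : 0 < t) {a : ℝ}
    (ha : IsContinuousArg t a) :
    Tendsto (fun σ : ℝ => (J 0 (σ + t * I)).im) (𝓝[>] (1 / 2)) (𝓝 a) := by
  obtain ⟨θ, hc, h0, h2, hθ⟩ := ha
  have h1 := theta_eq hRH ht hc h0 hθ
  have hcont : Tendsto θ (𝓝[Icc 0 2] 2) (𝓝 a) := by
    have := hc 2 (right_mem_Icc.mpr (by norm_num))
    rw [← h2]; exact this
  have hmap : Tendsto (fun σ : ℝ => 1 + (2 - σ) * (2 / 3)) (𝓝[>] (1 / 2)) (𝓝[Icc 0 2] 2) := by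
    rw [tendsto_nhdsWithin_iff]
    constructor
    · have hcc : Continuous (fun σ : ℝ => 1 + (2 - σ) * (2 / 3)) := by fun_prop
      have := hcc.tendsto (1 / 2)
      norm_num at this
      rw [show (1:ℝ) / 2 = 1 / 2 from rfl]
      exact this.mono_left nhdsWithin_le_nhds
    · have h3 : ∀ᶠ σ : ℝ in 𝓝[>] (1 / 2), σ < 2 :=
        (eventually_lt_nhds (by norm_num)).filter_mono nhdsWithin_le_nhds
      filter_upwards [self_mem_nhdsWithin, h3] with σ hσ hσ2
      have : (1:ℝ) / 2 < σ := hσ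
      constructor <;> linarith
  have h4 := hcont.comp hmap
  apply h4.congr'
  have h3 : ∀ᶠ σ : ℝ in 𝓝[>] (1 / 2), σ < 2 :=
    (eventually_lt_nhds (by norm_num)).filter_mono nhdsWithin_le_nhds
  filter_upwards [self_mem_nhdsWithin, h3] with σ hσ hσ2
  have h5 : (1:ℝ) / 2 < σ := hσ
  simp only [Function.comp]
  rw [h1 _ ⟨by linarith, by linarith⟩, argPath_sigma t hσ2]

lemma exists_limit_J_zero (hRH : RiemannHypothesis) {t : ℝ} (ht : 0 < t)
    (hz : riemannZeta (((1 / 2 : ℝ) : ℂ) + t * I) ≠ 0) :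
    ∃ L : ℂ, Tendsto (fun σ : ℝ => J 0 (σ + t * I)) (𝓝[>] (1 / 2)) (𝓝 L) := by
  set s₀ : ℂ := ((1 / 2 : ℝ) : ℂ) + t * I with hs₀
  have hs1 : s₀ ≠ 1 := by
    intro h; have := congrArg Complex.im h; simp [hs₀] at this; linarith
  have hcont : ContinuousAt riemannZeta s₀ := (differentiableAt_riemannZeta hs1).continuousAt
  have hev : ∀ᶠ s in 𝓝 s₀, riemannZeta s ≠ 0 ∧ s ≠ 1 := by
    apply (hcont.eventually_ne hz).and
    exact isOpen_ne.mem_nhds hs1
  obtain ⟨r, hr, hball⟩ := Metric.eventually_nhds_iff_ball.mp hev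
  obtain ⟨g, hg0, hgd, hgder, hgexp⟩ := exists_log_on_ball (F := riemannZeta) (c := s₀) hr
    (fun s hs => (differentiableAt_riemannZeta (hball s hs).2).differentiableWithinAt)
    (fun s hs => (hball s hs).1)
  have hmem : ∀ σ : ℝ, 1 / 2 ≤ σ → σ < 1 / 2 + r → (σ:ℂ) + t * I ∈ Metric.ball s₀ r := by
    intro σ h1 h2
    rw [Metric.mem_ball, dist_eq_norm]
    have e : (σ:ℂ) + t * I - s₀ = ((σ - 1 / 2 : ℝ) : ℂ) := by rw [hs₀]; push_cast; ring
    rw [e, Complex.norm_real, Real.norm_eq_abs, abs_of_nonneg (by linarith)]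
    linarith
  set c₀ : ℝ := 1 / 2 + r / 2 with hc₀
  -- J 0 - g is constant on (1/2, 1/2+r)
  have hconst : ∀ σ : ℝ, σ ∈ Ioo (1 / 2) (1 / 2 + r) →
      J 0 (σ + t * I) - g (σ + t * I) = J 0 (c₀ + t * I) - g (c₀ + t * I) := by
    have hder : ∀ σ ∈ Ioo (1 / 2 : ℝ) (1 / 2 + r),
        HasDerivAt (fun σ : ℝ => J 0 (σ + t * I) - g (σ + t * I)) 0 σ := by
      intro σ hσ
      have hU := mem_U_line hσ.1 ht
      have h1 := hasDerivAt_J_zero hRH hU
      have h2 := hgder _ (hmem σ hσ.1.le hσ.2)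
      have h3 := h1.sub h2
      have e : fz ((σ:ℂ) + t * I) - logDeriv riemannZeta ((σ:ℂ) + t * I) = 0 := by
        unfold fz; ring
      rw [e] at h3
      have h4 : HasDerivAt (fun w : ℂ => J 0 (w + t * I) - g (w + t * I)) 0 (σ:ℂ) :=
        h3.comp_add_const _ _
      exact h4.comp_ofReal
    intro σ hσ
    have hc₀mem : c₀ ∈ Ioo (1 / 2 : ℝ) (1 / 2 + r) := by
      rw [hc₀]; constructor <;> linarith
    apply isOpen_Ioo.is_const_of_deriv_eq_zero isPreconnected_Ioo
      (f := fun σ : ℝ => J 0 (σ + t * I) - g (σ + t * I))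
      (fun x hx => (hder x hx).differentiableAt.differentiableWithinAt)
      (fun x hx => (hder x hx).deriv) hσ hc₀mem
  refine ⟨g s₀ + (J 0 (c₀ + t * I) - g (c₀ + t * I)), ?_⟩
  have hgc : ContinuousAt g s₀ :=
    (hgd.differentiableAt (Metric.ball_mem_nhds s₀ hr)).continuousAt
  have hlim : Tendsto (fun σ : ℝ => g (σ + t * I)) (𝓝[>] (1 / 2)) (𝓝 (g s₀)) := by
    have h1 : ContinuousAt (fun σ : ℝ => g (σ + t * I)) (1 / 2) := by
      have h2 : ContinuousAt (fun σ : ℝ => (σ:ℂ) + t * I) (1 / 2) := by fun_prop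
      exact ContinuousAt.comp (f := fun σ : ℝ => (σ:ℂ) + t * I) (g := g) hgc h2
    exact h1.tendsto.mono_left nhdsWithin_le_nhds
  have h5 := hlim.add_const (J 0 (c₀ + t * I) - g (c₀ + t * I))
  apply h5.congr'
  have h3 : ∀ᶠ σ : ℝ in 𝓝[>] (1 / 2), σ < 1 / 2 + r :=
    (eventually_lt_nhds (by linarith)).filter_mono nhdsWithin_le_nhds
  filter_upwards [self_mem_nhdsWithin, h3] with σ hσ hσ2
  rw [← hconst σ ⟨hσ, hσ2⟩]
  ring

/-- Existence and uniqueness of the argument obtained by continuous variation. -/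
theorem existsUnique_continuousArg (hRH : RiemannHypothesis) {t : ℝ} (ht : 0 < t)
    (hord : ¬ IsOrdinate t) : ∃! a : ℝ, IsContinuousArg t a := by
  have hz : riemannZeta (((1 / 2 : ℝ) : ℂ) + t * I) ≠ 0 := by
    intro h
    exact hord ⟨_, h, by simp⟩
  obtain ⟨L, hL⟩ := exists_limit_J_zero hRH ht hz
  refine ⟨L.im, ?_, ?_⟩
  · set θ : ℝ → ℝ := fun u => if u < 2 then (J 0 (argPath t u)).im else L.im with hθ
    have hLim : Tendsto (fun σ : ℝ => (J 0 (σ + t * I)).im) (𝓝[>] (1 / 2)) (𝓝 L.im) :=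
      (Complex.continuous_im.tendsto L).comp hL
    refine ⟨θ, ?_, ?_, ?_, ?_⟩
    · intro u hu
      rcases lt_or_eq_of_le hu.2 with h | h
      · have h1 := continuousOn_psi hRH ht u ⟨hu.1, h⟩
        have h2 : ContinuousWithinAt (fun u : ℝ => (J 0 (argPath t u)).im) (Icc 0 2) u := by
          apply h1.mono_of_mem_nhdsWithin
          have h3 : Iio (2:ℝ) ∈ 𝓝 u := Iio_mem_nhds h
          have h4 := inter_mem_nhdsWithin (Icc (0:ℝ) 2) h3
          apply Filter.mem_of_superset h4
          intro x hx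
          exact ⟨hx.1.1, hx.2⟩
        apply h2.congr_of_eventuallyEq
        · have h3 : ∀ᶠ x : ℝ in 𝓝[Icc 0 2] u, x < 2 :=
            (eventually_lt_nhds h).filter_mono nhdsWithin_le_nhds
          filter_upwards [h3] with x hx
          simp only [hθ]; rw [if_pos hx]
        · simp only [hθ]; rw [if_pos h]
      · rw [h]
        have e2 : θ 2 = L.im := by simp only [hθ]; rw [if_neg (lt_irrefl _)]
        show Tendsto θ (𝓝[Icc 0 2] 2) (𝓝 (θ 2))
        rw [e2]
        -- split at the point 2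
        have h1 : Tendsto θ (𝓝[<] 2) (𝓝 L.im) := by
          have hmap : Tendsto (fun u : ℝ => 2 - 3 / 2 * (u - 1)) (𝓝[<] 2) (𝓝[>] (1 / 2)) := by
            rw [tendsto_nhdsWithin_iff]
            constructor
            · have hcc : Continuous (fun u : ℝ => 2 - 3 / 2 * (u - 1)) := by fun_prop
              have := hcc.tendsto 2
              norm_num at this
              rw [show (1:ℝ) / 2 = 1 / 2 from rfl]
              exact this.mono_left nhdsWithin_le_nhds
            · filter_upwards [self_mem_nhdsWithin] with u hu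
              have : u < 2 := hu
              show (1:ℝ) / 2 < 2 - 3 / 2 * (u - 1)
              linarith
          have h2 := hLim.comp hmap
          apply h2.congr'
          have h3 : ∀ᶠ x : ℝ in 𝓝[<] 2, 1 < x :=
            (eventually_gt_nhds (by norm_num)).filter_mono nhdsWithin_le_nhds
          filter_upwards [self_mem_nhdsWithin, h3] with x hx hx1
          have hx2 : x < 2 := hx
          simp only [Function.comp, hθ]
          rw [if_pos hx2]
          unfold argPath
          rw [if_neg (not_le.mpr hx1)]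
        have h2 : 𝓝[Icc 0 2] (2:ℝ) ≤ 𝓝[Iic 2] 2 := nhdsWithin_mono _ (fun x hx => hx.2)
        have h3 : Tendsto θ (𝓝[Iic 2] 2) (𝓝 L.im) := by
          have h4 : (Iic (2:ℝ)) = insert 2 (Iio 2) := by
            ext x; simp [le_iff_eq_or_lt]
          rw [h4, nhdsWithin_insert]
          apply Tendsto.sup _ h1
          have := (tendsto_pure_nhds θ 2)
          rw [e2] at this
          exact this
        exact h3.mono_left h2
    · simp only [hθ]
      rw [if_pos (by norm_num)]
      have e : argPath t 0 = ((2:ℝ):ℂ) := by unfold argPath; simp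
      rw [e, J_ofReal_im hRH 0 2 (by norm_num)]
    · simp only [hθ]; rw [if_neg (lt_irrefl _)]
    · intro u hu
      rcases lt_or_eq_of_le hu.2 with h | h
      · simp only [hθ]
        rw [if_pos h]
        exact zeta_polar hRH (argPath_mem_U ht h)
      · rw [h]
        simp only [hθ]
        rw [if_neg (lt_irrefl _)]
        have e : argPath t 2 = ((1 / 2 : ℝ) : ℂ) + t * I := by
          unfold argPath
          rw [if_neg (by norm_num)]
          norm_num
        rw [e]
        set s₀ : ℂ := ((1 / 2 : ℝ) : ℂ) + t * I with hs₀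
        have hs1 : s₀ ≠ 1 := by
          intro h; have := congrArg Complex.im h; simp [hs₀] at this; linarith
        have hcont : ContinuousAt riemannZeta s₀ := (differentiableAt_riemannZeta hs1).continuousAt
        have hlimζ : Tendsto (fun σ : ℝ => riemannZeta (σ + t * I)) (𝓝[>] (1 / 2)) (𝓝 (riemannZeta s₀)) := by
          have h1 : ContinuousAt (fun σ : ℝ => riemannZeta (σ + t * I)) (1 / 2) := by
            have h2 : ContinuousAt (fun σ : ℝ => (σ:ℂ) + t * I) (1 / 2) := by fun_prop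
            exact ContinuousAt.comp (f := fun σ : ℝ => (σ:ℂ) + t * I) (g := riemannZeta) hcont h2
          exact h1.tendsto.mono_left nhdsWithin_le_nhds
        have hrhs : Tendsto (fun σ : ℝ => (‖riemannZeta (σ + t * I)‖ : ℂ) *
            exp (((J 0 (σ + t * I)).im : ℂ) * I)) (𝓝[>] (1 / 2))
            (𝓝 ((‖riemannZeta s₀‖ : ℂ) * exp ((L.im : ℂ) * I))) := by
          apply Tendsto.mul
          · exact (Complex.continuous_ofReal.tendsto _).comp hlimζ.norm
          · apply Tendsto.cexp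
            exact ((Complex.continuous_ofReal.tendsto _).comp hLim).mul_const I
        have hev : (fun σ : ℝ => riemannZeta (σ + t * I)) =ᶠ[𝓝[>] (1 / 2)]
            fun σ : ℝ => (‖riemannZeta (σ + t * I)‖ : ℂ) * exp (((J 0 (σ + t * I)).im : ℂ) * I) := by
          filter_upwards [self_mem_nhdsWithin] with σ hσ
          exact zeta_polar hRH (mem_U_line hσ ht)
        exact tendsto_nhds_unique (hlimζ.congr' hev) hrhs
  · intro b hb
    have h1 := tendsto_of_isContinuousArg hRH ht hb
    have h2 : Tendsto (fun σ : ℝ => (J 0 (σ + t * I)).im) (𝓝[>] (1 / 2)) (𝓝 L.im) :=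
      (Complex.continuous_im.tendsto L).comp hL
    exact tendsto_nhds_unique h1 h2

/-- `S(t)` is the limit of the shifted functions. -/
lemma tendsto_zetaS (hRH : RiemannHypothesis) {t : ℝ} (ht : 0 < t) (hord : ¬ IsOrdinate t) :
    Tendsto (fun σ : ℝ => Ss 0 σ t) (𝓝[>] (1 / 2)) (𝓝 (zetaS t)) := by
  obtain ⟨a, ha, -⟩ := existsUnique_continuousArg hRH ht hord
  have h1 : IsContinuousArg t (Classical.epsilon (IsContinuousArg t)) :=
    Classical.epsilon_spec ⟨a, ha⟩
  have h2 := (tendsto_of_isContinuousArg hRH ht h1).const_mul (1 / Real.pi)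
  have e : zetaS t = 1 / Real.pi * Classical.epsilon (IsContinuousArg t) := by
    unfold zetaS
    rw [if_neg hord]
    rfl
  rw [e]
  apply h2.congr
  intro σ
  unfold Ss
  rw [pow_zero, one_mul]

lemma countable_ordinates : {t : ℝ | IsOrdinate t}.Countable := by
  have h1 : riemannZetaZeros.Countable :=
    (HereditarilyLindelofSpace.isLindelof _).countable_of_isDiscrete isDiscrete_riemannZetaZeros
  have h2 : {t : ℝ | IsOrdinate t} = Complex.im '' riemannZetaZeros := by
    ext t
    constructor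
    · rintro ⟨s, hs, hst⟩
      exact ⟨s, hs, hst⟩
    · rintro ⟨s, hs, hst⟩
      exact ⟨s, hs, hst⟩
  rw [h2]
  exact h1.image _

end Pool.Agent.Lib.MP_155064_nt
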