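import Pool.Agent.Lib.MP_155064_nt.Positivity

set_option autoImplicit false

open Complex MeasureTheory Set Filter Asymptotics Topology ComplexConjugate

namespace Pool.Agent.Lib.MP_155064_nt

/-- `ζ'/ζ`. -/
noncomputable def fz : ℂ → ℂ := logDeriv riemannZeta

/-- Logarithmic derivative of `(s-1)ζ(s)`. -/
noncomputable def fZ : ℂ → ℂ := logDeriv riemannZeta₁

lemma isOpen_re_gt (a : ℝ) : IsOpen {z : ℂ | a < z.re} :=
  isOpen_lt continuous_const Complex.continuous_re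

lemma fZ_eq {s : ℂ} (hs1 : s ≠ 1) (h0 : riemannZeta s ≠ 0) : fZ s = fz s + 1 / (s - 1) := by
  unfold fZ fz
  have hev : riemannZeta₁ =ᶠ[𝓝 s] fun z => (z - 1) * riemannZeta z := by
    filter_upwards [isOpen_ne.mem_nhds hs1] with z hz
    exact riemannZeta₁_eq_mul hz
  have h1 : logDeriv riemannZeta₁ s = logDeriv (fun z => (z - 1) * riemannZeta z) s := by
    rw [logDeriv_apply, logDeriv_apply, hev.deriv_eq, hev.eq_of_nhds]
  rw [h1, logDeriv_mul (f := fun z => z - 1) (g := riemannZeta) s (sub_ne_zero.mpr hs1) h0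
    (by fun_prop) (differentiableAt_riemannZeta hs1)]
  have h2 : logDeriv (fun z : ℂ => z - 1) s = 1 / (s - 1) := by
    rw [logDeriv_apply]
    simp
  rw [h2]; ring

lemma differentiableOn_fz (hRH : RiemannHypothesis) :
    DifferentiableOn ℂ fz {s | 1 / 2 < s.re ∧ s ≠ 1} := by
  have hopen : IsOpen {s : ℂ | 1 / 2 < s.re ∧ s ≠ 1} := (isOpen_re_gt _).inter isOpen_ne
  have h1 : DifferentiableOn ℂ riemannZeta {s | 1 / 2 < s.re ∧ s ≠ 1} :=
    fun s hs => (differentiableAt_riemannZeta hs.2).differentiableWithinAt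
  have : DifferentiableOn ℂ (fun s => deriv riemannZeta s / riemannZeta s)
      {s | 1 / 2 < s.re ∧ s ≠ 1} :=
    (h1.deriv hopen).div h1 (fun s hs => riemannZeta_ne_zero hRH hs.1 hs.2)
  exact this.congr (fun s _ => by unfold fz; rw [logDeriv_apply])

lemma differentiableOn_fZ (hRH : RiemannHypothesis) :
    DifferentiableOn ℂ fZ {s | 1 / 2 < s.re} := by
  have h1 : DifferentiableOn ℂ riemannZeta₁ {s | 1 / 2 < s.re} :=
    differentiable_riemannZeta₁.differentiableOn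
  have : DifferentiableOn ℂ (fun s => deriv riemannZeta₁ s / riemannZeta₁ s)
      {s | 1 / 2 < s.re} :=
    (h1.deriv (isOpen_re_gt _)).div h1 (fun s hs => riemannZeta₁_ne_zero hRH hs)
  exact this.congr (fun s _ => by unfold fZ; rw [logDeriv_apply])

lemma differentiableAt_Gammaℝ {s : ℂ} (hs : 0 < s.re) : DifferentiableAt ℂ Gammaℝ s := by
  have h : ∀ m : ℕ, s / 2 ≠ -m := by
    intro m hm
    have : (s / 2).re = (-(m : ℂ)).re := by rw [hm]
    simp at this
    have hm' : (0 : ℝ) ≤ m := Nat.cast_nonneg m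
    linarith
  unfold Gammaℝ
  have h1 : DifferentiableAt ℂ (fun s : ℂ => (Real.pi : ℂ) ^ (-s / 2)) s := by
    have : DifferentiableAt ℂ (fun s : ℂ => -s / 2) s := by fun_prop
    exact this.const_cpow (Or.inl (by exact_mod_cast Real.pi_ne_zero))
  have h2 : DifferentiableAt ℂ (fun s : ℂ => Gamma (s / 2)) s := by
    have hg : DifferentiableAt ℂ Gamma (s / 2) := differentiableAt_Gamma _ h
    exact hg.comp s (by fun_prop)
  exact h1.mul h2

lemma logDeriv_Gammaℝ {s : ℂ} (hs : 0 < s.re) :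
    logDeriv Gammaℝ s = -(Real.log Real.pi : ℂ) / 2 + logDeriv Gamma (s / 2) / 2 := by
  have h : ∀ m : ℕ, s / 2 ≠ -m := by
    intro m hm
    have : (s / 2).re = (-(m : ℂ)).re := by rw [hm]
    simp at this
    have hm' : (0 : ℝ) ≤ m := Nat.cast_nonneg m
    linarith
  have hpi : (Real.pi : ℂ) ≠ 0 := by exact_mod_cast Real.pi_ne_zero
  have h1 : HasDerivAt (fun s : ℂ => (Real.pi : ℂ) ^ (-s / 2))
      ((Real.pi : ℂ) ^ (-s / 2) * Complex.log Real.pi * (-1 / 2)) s := by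
    have h0 : HasDerivAt (fun s : ℂ => -s / 2) (-1 / 2) s := by
      simpa using ((hasDerivAt_id s).neg).div_const 2
    exact h0.const_cpow (Or.inl hpi)
  have hg : DifferentiableAt ℂ Gamma (s / 2) := differentiableAt_Gamma _ h
  have h2 : HasDerivAt (fun s : ℂ => Gamma (s / 2)) (deriv Gamma (s / 2) * (1 / 2)) s := by
    have h0 : HasDerivAt (fun s : ℂ => s / 2) (1 / 2) s := by
      simpa using (hasDerivAt_id s).div_const 2
    exact HasDerivAt.comp s (h₂ := Gamma) (h := fun s : ℂ => s / 2) hg.hasDerivAt h0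
  have hne1 : (fun s : ℂ => (Real.pi : ℂ) ^ (-s / 2)) s ≠ 0 := by
    simp only; rw [Ne, cpow_eq_zero_iff]; tauto
  have hne2 : (fun s : ℂ => Gamma (s / 2)) s ≠ 0 := by
    apply Gamma_ne_zero_of_re_pos; simpa using hs
  have h3 := logDeriv_mul (f := fun s : ℂ => (Real.pi : ℂ) ^ (-s / 2))
    (g := fun s : ℂ => Gamma (s / 2)) s hne1 hne2 h1.differentiableAt h2.differentiableAt
  have e : Gammaℝ = fun s : ℂ => (Real.pi : ℂ) ^ (-s / 2) * Gamma (s / 2) := by
    ext s; rfl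
  rw [e, h3, logDeriv_apply, logDeriv_apply, h1.deriv, h2.deriv, logDeriv_apply]
  have hlog : Complex.log Real.pi = (Real.log Real.pi : ℂ) := by
    rw [Complex.ofReal_log Real.pi_pos.le]
  rw [hlog]
  simp only at hne1 hne2
  field_simp

lemma logDeriv_Xi_eq {s : ℂ} (hs : 0 < s.re) (h1 : riemannZeta₁ s ≠ 0) :
    logDeriv Xi s = 1 / s + fZ s + logDeriv Gammaℝ s := by
  have h0 : s ≠ 0 := by rintro rfl; simp at hs
  have hev : Xi =ᶠ[𝓝 s] fun z => z * riemannZeta₁ z * Gammaℝ z := by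
    filter_upwards [(isOpen_re_gt 0).mem_nhds hs] with z hz
    exact Xi_eq hz
  have e1 : logDeriv Xi s = logDeriv (fun z => z * riemannZeta₁ z * Gammaℝ z) s := by
    rw [logDeriv_apply, logDeriv_apply, hev.deriv_eq, hev.eq_of_nhds]
  have hG := Gammaℝ_ne_zero_of_re_pos hs
  rw [e1, logDeriv_mul (f := fun z => z * riemannZeta₁ z) (g := Gammaℝ) s (mul_ne_zero h0 h1) hG
    (by fun_prop) (differentiableAt_Gammaℝ hs),
    logDeriv_mul (f := fun z : ℂ => z) (g := riemannZeta₁) s h0 h1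
    (by fun_prop) (by fun_prop)]
  rw [logDeriv_id']
  rfl

/-- Lower bound for the real part of the logarithmic derivative of `(s-1)ζ(s)`, under RH. -/
theorem re_fZ_ge (hRH : RiemannHypothesis) {s : ℂ} (hs : 1 / 2 < s.re) :
    -(1 / 2) * Real.log (s.re / 2 + |s.im| + 1) - 2 ≤ (fZ s).re := by
  have h1 := re_logDeriv_Xi_nonneg hRH hs
  rw [logDeriv_Xi_eq (by linarith) (riemannZeta₁_ne_zero hRH hs), logDeriv_Gammaℝ (by linarith)] at h1
  have h2 := re_logDeriv_Gamma_le (z := s / 2) (by simp; linarith)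
  have h3 : (1 / s).re ≤ 2 := by
    have h4 : (1 / s).re ≤ ‖1 / s‖ := Complex.re_le_norm _
    have h5 : ‖1 / s‖ ≤ 2 := by
      rw [norm_div, norm_one, div_le_iff₀]
      · have := Complex.abs_re_le_norm s
        rw [abs_of_pos (by linarith)] at this
        linarith
      · rw [norm_pos_iff]; rintro rfl; simp at hs; linarith
    linarith
  have h6 : 0 ≤ Real.log Real.pi := Real.log_nonneg (by linarith [Real.pi_gt_three])
  have e1 : (-(Real.log Real.pi : ℂ) / 2).re = -(Real.log Real.pi) / 2 := by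
    have : (-(Real.log Real.pi : ℂ) / 2) = ((-(Real.log Real.pi) / 2 : ℝ) : ℂ) := by push_cast; rfl
    rw [this, Complex.ofReal_re]
  have e2 : (logDeriv Gamma (s / 2) / 2).re = (logDeriv Gamma (s / 2)).re / 2 := by
    have : logDeriv Gamma (s / 2) / 2 = logDeriv Gamma (s / 2) / ((2:ℝ):ℂ) := by norm_num
    rw [this, Complex.div_ofReal_re]
  simp only [Complex.add_re, e1, e2] at h1
  have e3 : (s / 2).re + 2 * |(s / 2).im| + 1 = s.re / 2 + |s.im| + 1 := by
    have a1 : (s / 2).re = s.re / 2 := by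
      have : s / 2 = s / ((2:ℝ):ℂ) := by norm_num
      rw [this, Complex.div_ofReal_re]
    have a2 : (s / 2).im = s.im / 2 := by
      have : s / 2 = s / ((2:ℝ):ℂ) := by norm_num
      rw [this, Complex.div_ofReal_im]
    rw [a1, a2, abs_div, abs_of_pos (by norm_num : (0:ℝ) < 2)]; ring
  rw [e3] at h2
  linarith

/-- Uniform decay of `ζ'/ζ` to the right of `Re s = σ₀ > 1`. -/
theorem exists_norm_fz_le {σ₀ : ℝ} (hσ : 1 < σ₀) :
    ∃ C : ℝ, 0 < C ∧ ∀ s : ℂ, σ₀ ≤ s.re → ‖fz s‖ ≤ C * (2:ℝ) ^ (-s.re) := by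
  have hs := ArithmeticFunction.LSeriesSummable_vonMangoldt (s := (σ₀ : ℂ)) (by simpa using hσ)
  have hs' : Summable (fun n => ‖LSeries.term (fun n => (ArithmeticFunction.vonMangoldt n : ℂ)) (σ₀:ℂ) n‖) :=
    hs.norm
  set A := ∑' n, ‖LSeries.term (fun n => (ArithmeticFunction.vonMangoldt n : ℂ)) (σ₀:ℂ) n‖ with hA
  have hA0 : 0 ≤ A := tsum_nonneg (fun _ => norm_nonneg _)
  refine ⟨(A + 1) * 2 ^ σ₀, by positivity, ?_⟩
  intro s hss
  have hs1 : 1 < s.re := lt_of_lt_of_le hσ hss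
  have h1 := ArithmeticFunction.LSeries_vonMangoldt_eq_deriv_riemannZeta_div hs1
  have h2 : ‖fz s‖ = ‖LSeries (fun n => (ArithmeticFunction.vonMangoldt n : ℂ)) s‖ := by
    rw [h1]; unfold fz; rw [logDeriv_apply, neg_div, norm_neg]
  rw [h2]
  have h3 : ∀ n, ‖LSeries.term (fun n => (ArithmeticFunction.vonMangoldt n : ℂ)) s n‖ ≤
      2 ^ (σ₀ - s.re) * ‖LSeries.term (fun n => (ArithmeticFunction.vonMangoldt n : ℂ)) (σ₀:ℂ) n‖ := by
    intro n
    rcases lt_trichotomy n 1 with h | h | h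
    · have : n = 0 := by omega
      subst this; simp
    · subst h
      rw [LSeries.norm_term_eq, LSeries.norm_term_eq]
      simp
    · have hn0 : n ≠ 0 := by omega
      rw [LSeries.norm_term_eq, LSeries.norm_term_eq, if_neg hn0, if_neg hn0]
      have hn2 : (2:ℝ) ≤ n := by exact_mod_cast h
      have hnpos : (0:ℝ) < n := by linarith
      have h4 : ((σ₀:ℂ)).re = σ₀ := by simp
      rw [h4]
      have h5 : (n:ℝ) ^ (σ₀ - s.re) ≤ 2 ^ (σ₀ - s.re) := by
        apply Real.rpow_le_rpow_of_nonpos (by norm_num) hn2 (by linarith)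
      have h6 : (1:ℝ) / (n:ℝ) ^ s.re = (n:ℝ) ^ (σ₀ - s.re) * (1 / (n:ℝ) ^ σ₀) := by
        rw [Real.rpow_sub hnpos]; field_simp
      have e1 : ‖(ArithmeticFunction.vonMangoldt n : ℂ)‖ / (n:ℝ) ^ s.re =
          ‖(ArithmeticFunction.vonMangoldt n : ℂ)‖ * ((n:ℝ) ^ (σ₀ - s.re) * (1 / (n:ℝ) ^ σ₀)) := by
        rw [← h6]; ring
      rw [e1]
      have h7 : 0 ≤ ‖(ArithmeticFunction.vonMangoldt n : ℂ)‖ := norm_nonneg _
      have h8 : 0 ≤ 1 / (n:ℝ) ^ σ₀ := by positivity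
      calc ‖(ArithmeticFunction.vonMangoldt n : ℂ)‖ * ((n:ℝ) ^ (σ₀ - s.re) * (1 / (n:ℝ) ^ σ₀))
          ≤ ‖(ArithmeticFunction.vonMangoldt n : ℂ)‖ * (2 ^ (σ₀ - s.re) * (1 / (n:ℝ) ^ σ₀)) := by
            gcongr
        _ = _ := by ring
  have h4 : ‖LSeries (fun n => (ArithmeticFunction.vonMangoldt n : ℂ)) s‖ ≤ 2 ^ (σ₀ - s.re) * A := by
    rw [hA, ← tsum_mul_left]
    unfold LSeries
    exact tsum_of_norm_bounded (hs'.mul_left _).hasSum h3
  calc ‖LSeries (fun n => (ArithmeticFunction.vonMangoldt n : ℂ)) s‖ ≤ 2 ^ (σ₀ - s.re) * A := h4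
    _ = A * 2 ^ σ₀ * 2 ^ (-s.re) := by
      rw [sub_eq_add_neg, Real.rpow_add (by norm_num : (0:ℝ) < 2)]; ring
    _ ≤ (A + 1) * 2 ^ σ₀ * 2 ^ (-s.re) := by
      have h9 : (0:ℝ) ≤ 2 ^ σ₀ := by positivity
      have h10 : (0:ℝ) ≤ 2 ^ (-s.re) := by positivity
      gcongr
      linarith

/-- Harnack-type bound for analytic functions with nonnegative real part on a ball. -/
lemma norm_le_of_re_nonneg {p : ℂ → ℂ} {c : ℂ} {R : ℝ} (hR : 0 < R)
    (hp : DifferentiableOn ℂ p (Metric.ball c R)) (h0 : ∀ s ∈ Metric.ball c R, 0 ≤ (p s).re)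
    {s : ℂ} (hs : s ∈ Metric.ball c R) :
    ‖p s‖ ≤ ‖p c‖ * (R + ‖s - c‖) / (R - ‖s - c‖) := by
  set G : ℂ → ℂ := fun z => -(p (c + z)) with hG
  have hGd : DifferentiableOn ℂ G (Metric.ball 0 R) := by
    apply DifferentiableOn.neg
    apply hp.comp (differentiableOn_id.const_add c)
    intro z hz
    simpa [Metric.mem_ball, dist_eq_norm] using hz
  have hz : (s - c) ∈ Metric.ball (0:ℂ) R := by
    rw [Metric.mem_ball, dist_zero_right]
    rwa [Metric.mem_ball, dist_eq_norm] at hs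
  have hlt : ‖s - c‖ < R := by rwa [Metric.mem_ball, dist_zero_right] at hz
  have hGs : ‖G (s - c)‖ = ‖p s‖ := by simp [hG]
  have hG0 : ‖G 0‖ = ‖p c‖ := by simp [hG]
  have key : ∀ M : ℝ, 0 < M → ‖p s‖ ≤ M * (2 * ‖s - c‖ / (R - ‖s - c‖)) +
      ‖p c‖ * (R + ‖s - c‖) / (R - ‖s - c‖) := by
    intro M hM
    have hmap : MapsTo G (Metric.ball 0 R) {z | z.re ≤ M} := by
      intro z hz
      have := h0 (c + z) (by simpa [Metric.mem_ball, dist_eq_norm] using hz)
      simp only [hG, mem_ofPred_eq, Complex.neg_re]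
      linarith
    have := borelCaratheodory hM hGd hmap hR hz
    rw [hGs, hG0] at this
    calc ‖p s‖ ≤ _ := this
      _ = _ := by ring
  apply le_of_forall_pos_le_add
  intro ε hε
  have hden : 0 < R - ‖s - c‖ := by linarith
  set k := 2 * ‖s - c‖ / (R - ‖s - c‖) with hk
  have hk0 : 0 ≤ k := by positivity
  have := key (ε / (k + 1)) (by positivity)
  have h2 : ε / (k + 1) * k ≤ ε := by
    rw [div_mul_eq_mul_div, div_le_iff₀ (by positivity)]
    nlinarith
  linarith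

/-- A priori bound for `(s-1)ζ(s)` logarithmic derivative near the critical line, under RH. -/
theorem exists_norm_fZ_le (hRH : RiemannHypothesis) :
    ∃ C : ℝ, 0 < C ∧ ∀ s : ℂ, 1 / 2 < s.re → s.re ≤ 2 →
      ‖fZ s‖ ≤ C * Real.log (|s.im| + 3) / (s.re - 1 / 2) := by
  obtain ⟨C₁, hC₁, hb⟩ := exists_norm_fz_le (σ₀ := 2) (by norm_num)
  refine ⟨6 * C₁ + 50, by positivity, ?_⟩
  intro s hs1 hs2
  set t := s.im with ht
  set c : ℂ := 2 + t * I with hc
  have hcre : c.re = 2 := by simp [hc]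
  have hcim : c.im = t := by simp [hc]
  set M : ℝ := (1 / 2) * Real.log (|t| + 5) + 2 with hM
  have hball : ∀ w ∈ Metric.ball c (3 / 2), 1 / 2 < w.re ∧ w.re < 7 / 2 ∧ |w.im| ≤ |t| + 3 / 2 := by
    intro w hw
    rw [Metric.mem_ball, dist_eq_norm] at hw
    have h1' : |(w - c).re| < 3 / 2 := lt_of_le_of_lt (abs_re_le_norm _) hw
    have h2 : |(w - c).im| < 3 / 2 := lt_of_le_of_lt (abs_im_le_norm _) hw
    rw [abs_lt] at h1'
    simp only [Complex.sub_re, hcre, Complex.sub_im, hcim] at h1' h2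
    refine ⟨by linarith, by linarith, ?_⟩
    have := abs_sub_abs_le_abs_sub w.im t
    linarith
  have habs : 0 ≤ |t| := abs_nonneg t
  have hlog3 : 1 ≤ Real.log (|t| + 3) := by
    rw [Real.le_log_iff_exp_le (by positivity)]
    have := Real.exp_one_lt_d9
    linarith
  have hlog5 : Real.log (|t| + 5) ≤ 2 * Real.log (|t| + 3) := by
    have e : 2 * Real.log (|t| + 3) = Real.log ((|t| + 3) ^ 2) := by
      rw [Real.log_pow]; norm_num
    rw [e]
    apply Real.log_le_log (by positivity)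
    nlinarith
  have hM1 : M ≤ 3 * Real.log (|t| + 3) := by rw [hM]; linarith
  have hM0 : 0 ≤ M := by
    have : 0 ≤ Real.log (|t| + 5) := Real.log_nonneg (by linarith)
    rw [hM]; positivity
  -- the centre
  have hcne : c ≠ 1 := by intro h; rw [h] at hcre; norm_num at hcre
  have hcz : riemannZeta c ≠ 0 := riemannZeta_ne_zero hRH (by rw [hcre]; norm_num) hcne
  have hcen : ‖fZ c‖ ≤ C₁ + 1 := by
    rw [fZ_eq hcne hcz]
    have h1 := hb c (by rw [hcre])
    rw [hcre] at h1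
    have h2 : C₁ * (2:ℝ) ^ (-2:ℝ) ≤ C₁ := by
      have : (2:ℝ) ^ (-2:ℝ) ≤ 1 := Real.rpow_le_one_of_one_le_of_nonpos (by norm_num) (by norm_num)
      nlinarith
    have h3 : ‖1 / (c - 1)‖ ≤ 1 := by
      have h4 : 1 ≤ ‖c - 1‖ := by
        have := abs_re_le_norm (c - 1)
        rw [Complex.sub_re, hcre, Complex.one_re] at this
        norm_num at this
        exact this
      rw [norm_div, norm_one, div_le_iff₀ (by linarith)]; linarith
    calc ‖fz c + 1 / (c - 1)‖ ≤ ‖fz c‖ + ‖1 / (c - 1)‖ := norm_add_le _ _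
      _ ≤ C₁ + 1 := by linarith
  set p : ℂ → ℂ := fun w => fZ w + M with hp
  have hpd : DifferentiableOn ℂ p (Metric.ball c (3 / 2)) := by
    apply DifferentiableOn.add_const
    exact (differentiableOn_fZ hRH).mono (fun w hw => (hball w hw).1)
  have hp0 : ∀ w ∈ Metric.ball c (3 / 2), 0 ≤ (p w).re := by
    intro w hw
    obtain ⟨hw1, hw2, hw3⟩ := hball w hw
    have h1 := re_fZ_ge hRH hw1
    have h2 : Real.log (w.re / 2 + |w.im| + 1) ≤ Real.log (|t| + 5) := by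
      apply Real.log_le_log
      · have := abs_nonneg w.im; linarith
      · linarith
    simp only [hp, Complex.add_re, Complex.ofReal_re]
    rw [hM]; linarith
  have hsc : ‖s - c‖ = 2 - s.re := by
    have : s - c = ((s.re - 2 : ℝ) : ℂ) := by
      apply Complex.ext <;> simp [hc, ht]
    rw [this, Complex.norm_real, Real.norm_eq_abs, abs_of_nonpos (by linarith)]; ring
  have hs_in : s ∈ Metric.ball c (3 / 2) := by
    rw [Metric.mem_ball, dist_eq_norm, hsc]; linarith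
  have hH := norm_le_of_re_nonneg (by norm_num) hpd hp0 hs_in
  rw [hsc] at hH
  have hδ : 0 < s.re - 1 / 2 := by linarith
  have hpc : ‖p c‖ ≤ C₁ + 1 + M := by
    simp only [hp]
    calc ‖fZ c + M‖ ≤ ‖fZ c‖ + ‖(M:ℂ)‖ := norm_add_le _ _
      _ ≤ C₁ + 1 + M := by
        rw [Complex.norm_real, Real.norm_eq_abs, abs_of_nonneg hM0]; linarith
  have e1 : (3:ℝ) / 2 - (2 - s.re) = s.re - 1 / 2 := by ring
  rw [e1] at hH
  have h3 : ‖p s‖ ≤ (C₁ + 1 + M) * 3 / (s.re - 1 / 2) := by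
    refine le_trans hH ?_
    have h4 : (3:ℝ) / 2 + (2 - s.re) ≤ 3 := by linarith
    have h5 : 0 ≤ (3:ℝ) / 2 + (2 - s.re) := by linarith
    gcongr
  have h4 : ‖fZ s‖ ≤ ‖p s‖ + M := by
    have : fZ s = p s - M := by simp [hp]
    rw [this]
    calc ‖p s - M‖ ≤ ‖p s‖ + ‖(M:ℂ)‖ := norm_sub_le _ _
      _ = ‖p s‖ + M := by rw [Complex.norm_real, Real.norm_eq_abs, abs_of_nonneg hM0]
  have h5 : M ≤ M * (3 / 2) / (s.re - 1 / 2) := by
    rw [le_div_iff₀ hδ]
    nlinarith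
  calc ‖fZ s‖ ≤ (C₁ + 1 + M) * 3 / (s.re - 1 / 2) + M * (3 / 2) / (s.re - 1 / 2) := by linarith
    _ = ((C₁ + 1 + M) * 3 + M * (3 / 2)) / (s.re - 1 / 2) := by ring
    _ ≤ ((6 * C₁ + 50) * Real.log (|t| + 3)) / (s.re - 1 / 2) := by
      gcongr
      nlinarith

end Pool.Agent.Lib.MP_155064_nt
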