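import Pool.Agent.Lib.MP_155064_nt.JBounds

set_option autoImplicit false

open Complex MeasureTheory Set Filter Asymptotics Topology ComplexConjugate

namespace Pool.Agent.Lib.MP_155064_nt

lemma norm_zeta_sub_one_le' {s : ℂ} (hs : 2 ≤ s.re) :
    ‖riemannZeta s - 1‖ ≤ 4 * Real.exp (-(Real.log 2 * s.re)) := by
  have hs1 : 1 < s.re := by linarith
  have h1 := zeta_eq_tsum_one_div_nat_add_one_cpow hs1
  have hz2 : HasSum (fun n : ℕ => 1 / ((n:ℝ) + 1) ^ 2) (Real.pi ^ 2 / 6) := by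
    have h := hasSum_zeta_two
    have h' := (hasSum_nat_add_iff' (f := fun n : ℕ => 1 / (n:ℝ) ^ 2) 1).mpr h
    simpa using h'
  have hsumm : Summable (fun n : ℕ => 1 / ((n:ℂ) + 1) ^ s) := by
    apply Summable.of_norm_bounded hz2.summable
    intro n
    have hn : (0:ℝ) < (n:ℝ) + 1 := by positivity
    have e : ((n:ℂ) + 1) = (((n:ℝ) + 1 : ℝ) : ℂ) := by push_cast; rfl
    rw [norm_div, norm_one, e, Complex.norm_cpow_eq_rpow_re_of_pos hn]
    apply one_div_le_one_div_of_le (by positivity)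
    rw [← Real.rpow_natCast]
    apply Real.rpow_le_rpow_of_exponent_le
    · have : (0:ℝ) ≤ n := Nat.cast_nonneg n
      linarith
    · simpa using hs
  have h2 : riemannZeta s - 1 = ∑' n : ℕ, 1 / (((n + 1 : ℕ):ℂ) + 1) ^ s := by
    rw [h1, hsumm.tsum_eq_zero_add]
    simp
  rw [h2]
  have hz3 : HasSum (fun n : ℕ => 1 / (((n + 1 : ℕ):ℝ) + 1) ^ 2) (Real.pi ^ 2 / 6 - 1) := by
    have h' := (hasSum_nat_add_iff' (f := fun n : ℕ => 1 / ((n:ℝ) + 1) ^ 2) 1).mpr hz2
    simpa using h'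
  have hz4 := hz3.mul_left (4 * Real.exp (-(Real.log 2 * s.re)))
  have h3 : ‖∑' n : ℕ, 1 / (((n + 1 : ℕ):ℂ) + 1) ^ s‖ ≤
      4 * Real.exp (-(Real.log 2 * s.re)) * (Real.pi ^ 2 / 6 - 1) := by
    rw [← hz4.tsum_eq]
    apply tsum_of_norm_bounded hz4.summable.hasSum
    intro n
    have hn : (0:ℝ) < ((n + 1 : ℕ):ℝ) + 1 := by positivity
    have e : (((n + 1 : ℕ):ℂ) + 1) = ((((n + 1 : ℕ):ℝ) + 1 : ℝ) : ℂ) := by push_cast; rfl
    rw [norm_div, norm_one, e, Complex.norm_cpow_eq_rpow_re_of_pos hn]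
    set a : ℝ := ((n + 1 : ℕ):ℝ) + 1 with ha
    have ha2 : 2 ≤ a := by
      rw [ha]; push_cast; have : (0:ℝ) ≤ n := Nat.cast_nonneg _; linarith
    have h4 : a ^ s.re = a ^ 2 * a ^ (s.re - 2) := by
      rw [← Real.rpow_natCast, ← Real.rpow_add (by linarith)]; congr 1; push_cast; ring
    have h5 : (2:ℝ) ^ (s.re - 2) ≤ a ^ (s.re - 2) :=
      Real.rpow_le_rpow (by norm_num) ha2 (by linarith)
    have h6 : (2:ℝ) ^ (s.re - 2) = Real.exp (Real.log 2 * s.re) / 4 := by
      rw [Real.rpow_def_of_pos (by norm_num), mul_sub, Real.exp_sub]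
      congr 1
      rw [mul_comm, ← Real.log_rpow (by norm_num), Real.exp_log (by positivity)]
      norm_num
    have h7 : 4 * Real.exp (-(Real.log 2 * s.re)) = 1 / (2:ℝ) ^ (s.re - 2) := by
      rw [h6, Real.exp_neg]; field_simp
    rw [h4, h7, div_mul_div_comm, one_mul]
    apply one_div_le_one_div_of_le (by positivity)
    rw [mul_comm]
    gcongr
  refine le_trans h3 ?_
  have hpi : Real.pi ^ 2 < 10 := by
    have := Real.pi_lt_d2
    have h0 := Real.pi_pos
    nlinarith
  apply mul_le_of_le_one_right (by positivity)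
  linarith

/-- `exp (J 0) = ζ` on `U`. -/
theorem exp_J_zero (hRH : RiemannHypothesis) {s : ℂ} (hs : s ∈ U) : exp (J 0 s) = riemannZeta s := by
  set φ : ℝ → ℂ := fun x => riemannZeta (s + x) * exp (-(J 0 (s + x))) with hφ
  have hder : ∀ x : ℝ, 0 ≤ x → HasDerivAt φ 0 x := by
    intro x hx
    have hU := U_add hs hx
    have hne := ne_one_of_mem_U hU
    have h0 := riemannZeta_ne_zero hRH hU.1 hne
    have h1 : HasDerivAt riemannZeta (deriv riemannZeta (s + x)) (s + x) :=
      (differentiableAt_riemannZeta hne).hasDerivAt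
    have h2 := (hasDerivAt_J_zero hRH hU).neg.cexp
    have h3 : HasDerivAt (fun w => riemannZeta w * exp (-(J 0 w))) 0 (s + x) := by
      have h4 := h1.mul h2
      have e : deriv riemannZeta (s + x) * exp (-(J 0 (s + x))) +
          riemannZeta (s + x) * (exp (-(J 0 (s + x))) * -(fz (s + x))) = 0 := by
        unfold fz
        rw [logDeriv_apply]
        field_simp
        ring
      simp only [Pi.neg_apply] at h4
      rw [e] at h4
      exact h4
    have h5 : HasDerivAt (fun w : ℂ => riemannZeta (s + w) * exp (-(J 0 (s + w)))) 0 (x:ℂ) :=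
      h3.comp_const_add s _
    exact h5.comp_ofReal
  have hconst : ∀ x : ℝ, 0 ≤ x → φ x = φ 0 := by
    intro x hx
    have := constant_of_has_deriv_right_zero (f := φ) (a := 0) (b := x)
      (fun y hy => (hder y hy.1).continuousAt.continuousWithinAt)
      (fun y hy => (hder y hy.1).hasDerivWithinAt)
    exact this x (right_mem_Icc.mpr hx)
  have hlim : Tendsto φ atTop (𝓝 (1 * exp (-0))) := by
    apply Tendsto.mul
    · have h1 : Tendsto (fun x : ℝ => riemannZeta (s + x) - 1) atTop (𝓝 0) := by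
        have h2 : Tendsto (fun x : ℝ => 4 * Real.exp (-(Real.log 2 * (s.re + x)))) atTop (𝓝 0) := by
          have hl := Real.log_pos (by norm_num : (1:ℝ) < 2)
          have h3 : Tendsto (fun x : ℝ => -(Real.log 2 * (s.re + x))) atTop atBot := by
            apply tendsto_neg_atTop_atBot.comp
            apply Tendsto.const_mul_atTop hl
            exact tendsto_atTop_add_const_left _ _ tendsto_id
          have := (Real.tendsto_exp_atBot.comp h3).const_mul 4
          simpa using this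
        apply squeeze_zero_norm' _ h2
        filter_upwards [eventually_ge_atTop (2 - s.re)] with x hx
        have := norm_zeta_sub_one_le' (s := s + x) (by simp; linarith)
        simpa using this
      have := h1.add_const 1
      simpa using this
    · exact ((good_J hRH 0).tendsto_ray s).neg.cexp
  have h1 : Tendsto φ atTop (𝓝 (φ 0)) := by
    apply tendsto_const_nhds.congr'
    filter_upwards [eventually_ge_atTop 0] with x hx
    exact (hconst x hx).symm
  have h2 := tendsto_nhds_unique h1 hlim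
  simp only [hφ, Complex.ofReal_zero, add_zero, neg_zero, exp_zero, mul_one] at h2
  have h3 : riemannZeta s * exp (-(J 0 s)) * exp (J 0 s) = exp (J 0 s) := by rw [h2, one_mul]
  rw [mul_assoc, ← exp_add] at h3
  simp at h3
  exact h3.symm

lemma riemannZeta₁_ofReal_im (x : ℝ) : (riemannZeta₁ (x:ℂ)).im = 0 := by
  have h := riemannZeta₁_conj (x:ℂ)
  rw [Complex.conj_ofReal] at h
  exact Complex.conj_eq_iff_im.mp h.symm

lemma deriv_riemannZeta₁_ofReal_im (x : ℝ) : (deriv riemannZeta₁ (x:ℂ)).im = 0 := by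
  have h1 : HasDerivAt (fun y : ℝ => riemannZeta₁ (y:ℂ)) (deriv riemannZeta₁ (x:ℂ)) x :=
    (differentiable_riemannZeta₁ _).hasDerivAt.comp_ofReal
  have h2 : HasDerivAt (fun y : ℝ => (riemannZeta₁ (y:ℂ)).im) (deriv riemannZeta₁ (x:ℂ)).im x :=
    (Complex.imCLM.hasFDerivAt.comp_hasDerivAt x h1)
  have h3 : HasDerivAt (fun y : ℝ => (riemannZeta₁ (y:ℂ)).im) 0 x := by
    have : (fun y : ℝ => (riemannZeta₁ (y:ℂ)).im) = fun _ => 0 := by
      funext y; exact riemannZeta₁_ofReal_im y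
    rw [this]; exact hasDerivAt_const _ _
  exact h2.unique h3

lemma fZ_ofReal_im (x : ℝ) : (fZ (x:ℂ)).im = 0 := by
  unfold fZ
  rw [logDeriv_apply, Complex.div_im, riemannZeta₁_ofReal_im, deriv_riemannZeta₁_ofReal_im]
  simp

lemma fz_ofReal_im (hRH : RiemannHypothesis) {x : ℝ} (hx : 1 < x) : (fz (x:ℂ)).im = 0 := by
  have hne : (x:ℂ) ≠ 1 := by
    intro h; have := congrArg Complex.re h; simp at this; linarith
  have h := fZ_eq hne (riemannZeta_ne_zero hRH (by simp; linarith) hne)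
  have h1 : fz (x:ℂ) = fZ (x:ℂ) - 1 / ((x:ℂ) - 1) := by rw [h]; ring
  rw [h1, Complex.sub_im, fZ_ofReal_im]
  have : (1:ℂ) / ((x:ℂ) - 1) = ((1 / (x - 1) : ℝ) : ℂ) := by push_cast; rfl
  rw [this, Complex.ofReal_im]; simp

lemma P_ofReal_im {g : ℂ → ℂ} (hg : Good g) {x : ℝ} (hx : 1 < x)
    (h : ∀ y : ℝ, 1 < y → (g (y:ℂ)).im = 0) : (P g (x:ℂ)).im = 0 := by
  have hU : (x:ℂ) ∈ U := mem_U_of_one_lt (by simpa using hx)
  unfold P
  have h1 := Complex.imCLM.integral_comp_comm (hg.integrableOn_ray hU)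
  simp only [Complex.imCLM_apply] at h1
  rw [← h1]
  have h2 : ∫ y in Ioi (0:ℝ), (g ((x:ℂ) + y)).im = ∫ y in Ioi (0:ℝ), (0:ℝ) := by
    apply setIntegral_congr_fun measurableSet_Ioi
    intro y hy
    have hy0 : (0:ℝ) < y := hy
    have := h (x + y) (by linarith)
    push_cast at this
    exact this
  rw [h2]; simp

lemma J_ofReal_im (hRH : RiemannHypothesis) (n : ℕ) : ∀ x : ℝ, 1 < x → (J n (x:ℂ)).im = 0 := by
  induction n with
  | zero =>
    intro x hx
    show (-(P fz (x:ℂ))).im = 0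
    rw [Complex.neg_im, P_ofReal_im (good_fz hRH) hx (fun y hy => fz_ofReal_im hRH hy), neg_zero]
  | succ n ih =>
    intro x hx
    exact P_ofReal_im (good_J hRH n) hx ih

/-- A logarithm of `(s-1)ζ(s)` on `Re s > 1/2`. -/
noncomputable def LZ (s : ℂ) : ℂ :=
  J 0 (s + 2) + Complex.log (s + 1) - ∫ x in (0:ℝ)..2, fZ (s + x)

lemma continuousOn_fZ (hRH : RiemannHypothesis) : ContinuousOn fZ {s : ℂ | 1 / 2 < s.re} :=
  (differentiableOn_fZ hRH).continuousOn

lemma J_zero_eq (hRH : RiemannHypothesis) {s : ℂ} (hs : s ∈ U) :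
    J 0 s = LZ s - Complex.log (s - 1) := by
  have hcont : ∀ x : ℝ, 0 ≤ x → ContinuousAt (fun x : ℝ => fZ (s + x)) x := by
    intro x hx
    have h1 : ContinuousAt fZ (s + x) :=
      (continuousOn_fZ hRH).continuousAt ((isOpen_re_gt _).mem_nhds (U_add hs hx).1)
    have h2 : ContinuousAt (fun x : ℝ => s + (x:ℂ)) x := by fun_prop
    exact ContinuousAt.comp (f := fun x : ℝ => s + (x:ℂ)) (g := fZ) h1 h2
  have hderiv : ∀ x ∈ uIcc (0:ℝ) 2, HasDerivAt
      (fun x : ℝ => J 0 (s + x) + Complex.log (s + x - 1)) (fZ (s + x)) x := by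
    intro x hx
    rw [uIcc_of_le (by norm_num)] at hx
    have hU := U_add hs hx.1
    have hne := ne_one_of_mem_U hU
    have h0 := riemannZeta_ne_zero hRH hU.1 hne
    have hslit : s + x - 1 ∈ slitPlane := by
      rcases hU.2 with h | h
      · right; simp at h ⊢; exact h.ne'
      · left; simp at h ⊢; linarith
    have h1 := hasDerivAt_J_zero hRH hU
    have h2 : HasDerivAt (fun w : ℂ => Complex.log (w - 1)) (1 / (s + x - 1)) (s + x) := by
      exact ((hasDerivAt_id (s + (x:ℂ))).sub_const 1).clog hslit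
    have h3 := h1.add h2
    rw [← fZ_eq hne h0] at h3
    have h5 : HasDerivAt (fun w : ℂ => J 0 (s + w) + Complex.log (s + w - 1)) (fZ (s + x)) (x:ℂ) :=
      h3.comp_const_add s _
    exact h5.comp_ofReal
  have hint := intervalIntegral.integral_eq_sub_of_hasDerivAt hderiv (by
    apply ContinuousOn.intervalIntegrable
    intro x hx
    rw [uIcc_of_le (by norm_num)] at hx
    exact (hcont x hx.1).continuousWithinAt)
  unfold LZ
  rw [hint]
  push_cast
  have e : s + 2 - 1 = s + 1 := by ring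
  rw [e]
  ring_nf

lemma continuous_LZ_line (hRH : RiemannHypothesis) {σ : ℝ} (hσ : 1 / 2 < σ) :
    Continuous (fun t : ℝ => LZ (σ + t * I)) := by
  have h1 : Continuous (fun t : ℝ => J 0 ((σ:ℂ) + t * I + 2)) := by
    rw [continuous_iff_continuousAt]
    intro t
    have hU : (σ:ℂ) + t * I + 2 ∈ U := mem_U_of_one_lt (by simp; linarith)
    have h2 : ContinuousAt (J 0) ((σ:ℂ) + t * I + 2) :=
      ((good_J hRH 0).diff.differentiableAt (isOpen_U.mem_nhds hU)).continuousAt
    have h3 : ContinuousAt (fun t : ℝ => (σ:ℂ) + t * I + 2) t := by fun_prop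
    exact ContinuousAt.comp (f := fun t : ℝ => (σ:ℂ) + t * I + 2) (g := J 0) h2 h3
  have h2 : Continuous (fun t : ℝ => Complex.log ((σ:ℂ) + t * I + 1)) := by
    apply Continuous.clog (by fun_prop)
    intro t; left; simp; linarith
  have h3 : Continuous (fun t : ℝ => ∫ x in (0:ℝ)..2, fZ ((σ:ℂ) + t * I + x)) := by
    have h4 : Continuous (fun t : ℝ => ∫ x in (0:ℝ)..2, fZ ((σ:ℂ) + t * I + (|x| : ℝ))) := by
      apply intervalIntegral.continuous_parametric_intervalIntegral_of_continuous'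
      rw [continuous_iff_continuousAt]
      rintro ⟨t, x⟩
      have h5 : ContinuousAt fZ ((σ:ℂ) + t * I + (|x| : ℝ)) := by
        apply (continuousOn_fZ hRH).continuousAt ((isOpen_re_gt _).mem_nhds _)
        show 1 / 2 < ((σ:ℂ) + t * I + (|x| : ℝ)).re
        simp
        have := abs_nonneg x
        linarith
      have h6 : ContinuousAt (fun p : ℝ × ℝ => (σ:ℂ) + p.1 * I + (|p.2| : ℝ)) (t, x) := by
        apply Continuous.continuousAt
        apply Continuous.add (by fun_prop)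
        exact Complex.continuous_ofReal.comp (continuous_abs.comp continuous_snd)
      exact ContinuousAt.comp (f := fun p : ℝ × ℝ => (σ:ℂ) + p.1 * I + (|p.2| : ℝ)) (g := fZ) h5 h6
    have e : (fun t : ℝ => ∫ x in (0:ℝ)..2, fZ ((σ:ℂ) + t * I + x)) =
        fun t : ℝ => ∫ x in (0:ℝ)..2, fZ ((σ:ℂ) + t * I + (|x| : ℝ)) := by
      funext t
      apply intervalIntegral.integral_congr
      intro x hx
      rw [uIcc_of_le (by norm_num)] at hx
      simp only
      rw [abs_of_nonneg hx.1]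
    rw [e]; exact h4
  exact (h1.add h2).sub h3

lemma LZ_ofReal_im (hRH : RiemannHypothesis) {σ : ℝ} (hσ : 1 / 2 < σ) : (LZ (σ:ℂ)).im = 0 := by
  unfold LZ
  rw [Complex.sub_im, Complex.add_im]
  have h1 : (J 0 ((σ:ℂ) + 2)).im = 0 := by
    have := J_ofReal_im hRH 0 (σ + 2) (by linarith)
    push_cast at this; exact this
  have h2 : (Complex.log ((σ:ℂ) + 1)).im = 0 := by
    have : ((σ:ℂ) + 1) = ((σ + 1 : ℝ) : ℂ) := by push_cast; rfl
    rw [this, ← Complex.ofReal_log (by linarith), Complex.ofReal_im]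
  have hint : IntervalIntegrable (fun x : ℝ => fZ ((σ:ℂ) + x)) volume 0 2 := by
    apply ContinuousOn.intervalIntegrable
    intro x hx
    rw [uIcc_of_le (by norm_num)] at hx
    have h1 : ContinuousAt fZ ((σ:ℂ) + x) := by
      apply (continuousOn_fZ hRH).continuousAt ((isOpen_re_gt _).mem_nhds _)
      show 1 / 2 < ((σ:ℂ) + x).re
      simp; linarith [hx.1]
    have h2 : ContinuousAt (fun x : ℝ => (σ:ℂ) + (x:ℂ)) x := by fun_prop
    exact (ContinuousAt.comp (f := fun x : ℝ => (σ:ℂ) + (x:ℂ)) (g := fZ) h1 h2).continuousWithinAt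
  have h3 : (∫ x in (0:ℝ)..2, fZ ((σ:ℂ) + x)).im = 0 := by
    have h4 := Complex.imCLM.intervalIntegral_comp_comm hint
    simp only [Complex.imCLM_apply] at h4
    rw [← h4]
    have h5 : ∫ x in (0:ℝ)..2, (fZ ((σ:ℂ) + x)).im = ∫ x in (0:ℝ)..2, (0:ℝ) := by
      apply intervalIntegral.integral_congr
      intro x _
      have := fZ_ofReal_im (σ + x)
      push_cast at this
      exact this
    rw [h5]; simp
  rw [h1, h2, h3]; simp

/-- `exp (LZ) = (s-1)ζ(s)` on the real axis. -/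
lemma exp_LZ_ofReal (hRH : RiemannHypothesis) {σ : ℝ} (hσ : 1 / 2 < σ) :
    exp (LZ (σ:ℂ)) = riemannZeta₁ (σ:ℂ) := by
  have h1 : Tendsto (fun t : ℝ => exp (LZ (σ + t * I))) (𝓝[>] 0) (𝓝 (exp (LZ (σ:ℂ)))) := by
    have := ((continuous_LZ_line hRH hσ).tendsto 0).cexp
    simp only [Complex.ofReal_zero, zero_mul, add_zero] at this
    exact this.mono_left nhdsWithin_le_nhds
  have h2 : Tendsto (fun t : ℝ => riemannZeta₁ (σ + t * I)) (𝓝[>] 0) (𝓝 (riemannZeta₁ (σ:ℂ))) := by
    have hc : Continuous (fun t : ℝ => riemannZeta₁ ((σ:ℂ) + t * I)) :=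
      differentiable_riemannZeta₁.continuous.comp (by fun_prop)
    have := hc.tendsto 0
    simp only [Complex.ofReal_zero, zero_mul, add_zero] at this
    exact this.mono_left nhdsWithin_le_nhds
  have h3 : ∀ᶠ t : ℝ in 𝓝[>] 0, riemannZeta₁ ((σ:ℂ) + t * I) = exp (LZ (σ + t * I)) := by
    filter_upwards [self_mem_nhdsWithin] with t ht
    have hU := mem_U_line hσ (show (0:ℝ) < t from ht)
    have hne := ne_one_of_mem_U hU
    have h4 := exp_J_zero hRH hU
    rw [J_zero_eq hRH hU, exp_sub, Complex.exp_log (sub_ne_zero.mpr hne)] at h4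
    rw [riemannZeta₁_eq_mul hne, ← h4, mul_div_cancel₀ _ (sub_ne_zero.mpr hne)]
  have h5 := h2.congr' h3
  exact tendsto_nhds_unique h1 h5

lemma LZ_ofReal (hRH : RiemannHypothesis) {σ : ℝ} (hσ : 1 / 2 < σ) :
    LZ (σ:ℂ) = (Real.log ‖riemannZeta₁ (σ:ℂ)‖ : ℂ) := by
  have h1 := exp_LZ_ofReal hRH hσ
  have h2 : LZ (σ:ℂ) = (((LZ (σ:ℂ)).re : ℝ) : ℂ) := by
    apply Complex.ext
    · simp
    · rw [Complex.ofReal_im, LZ_ofReal_im hRH hσ]
  rw [h2] at h1 ⊢
  rw [← h1, Complex.norm_exp, Complex.ofReal_re, Real.log_exp]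

end Pool.Agent.Lib.MP_155064_nt
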