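import Pool.Agent.Lib.MP_155064_nt.ThreeLines

set_option autoImplicit false

open Complex MeasureTheory Set Filter Asymptotics Topology ComplexConjugate

namespace Pool.Agent.Lib.MP_155064_nt

/-- Local Harnack inequality for the logarithmic derivative of `(s-1)ζ(s)`. -/
lemma harnack_local (hRH : RiemannHypothesis) {R δ u : ℝ} (hR : R ≤ 3 / 2) (hδ : 0 < δ)
    (hδR : δ ≤ R) :
    ‖fZ ((1 / 2 + δ : ℝ) + u * I)‖ ≤ 2 * R / δ * (‖fZ ((1 / 2 + R : ℝ) + u * I)‖ +
      ((1 / 2) * Real.log (|u| + 5) + 2)) + ((1 / 2) * Real.log (|u| + 5) + 2) := by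
  have hR0 : 0 < R := lt_of_lt_of_le hδ hδR
  set c : ℂ := (1 / 2 + R : ℝ) + u * I with hc
  set s : ℂ := (1 / 2 + δ : ℝ) + u * I with hs
  have hcre : c.re = 1 / 2 + R := by simp [hc]
  have hcim : c.im = u := by simp [hc]
  set M : ℝ := (1 / 2) * Real.log (|u| + 5) + 2 with hM
  have habs : 0 ≤ |u| := abs_nonneg u
  have hM0 : 0 ≤ M := by
    have : 0 ≤ Real.log (|u| + 5) := Real.log_nonneg (by linarith)
    rw [hM]; positivity
  have hball : ∀ w ∈ Metric.ball c R, 1 / 2 < w.re ∧ w.re < 7 / 2 ∧ |w.im| ≤ |u| + 3 / 2 := by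
    intro w hw
    rw [Metric.mem_ball, dist_eq_norm] at hw
    have h1' : |(w - c).re| < R := lt_of_le_of_lt (abs_re_le_norm _) hw
    have h2 : |(w - c).im| < R := lt_of_le_of_lt (abs_im_le_norm _) hw
    rw [abs_lt] at h1'
    simp only [Complex.sub_re, hcre, Complex.sub_im, hcim] at h1' h2
    refine ⟨by linarith, by linarith, ?_⟩
    have := abs_sub_abs_le_abs_sub w.im u
    linarith
  set p : ℂ → ℂ := fun w => fZ w + M with hp
  have hpd : DifferentiableOn ℂ p (Metric.ball c R) := by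
    apply DifferentiableOn.add_const
    exact (differentiableOn_fZ hRH).mono (fun w hw => (hball w hw).1)
  have hp0 : ∀ w ∈ Metric.ball c R, 0 ≤ (p w).re := by
    intro w hw
    obtain ⟨hw1, hw2, hw3⟩ := hball w hw
    have h1 := re_fZ_ge hRH hw1
    have h2 : Real.log (w.re / 2 + |w.im| + 1) ≤ Real.log (|u| + 5) := by
      apply Real.log_le_log
      · have := abs_nonneg w.im; linarith
      · linarith
    simp only [hp, Complex.add_re, Complex.ofReal_re]
    rw [hM]; linarith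
  have hsc : ‖s - c‖ = R - δ := by
    have : s - c = ((δ - R : ℝ) : ℂ) := by
      apply Complex.ext <;> simp [hs, hc]
    rw [this, Complex.norm_real, Real.norm_eq_abs, abs_of_nonpos (by linarith)]; ring
  have hs_in : s ∈ Metric.ball c R := by
    rw [Metric.mem_ball, dist_eq_norm, hsc]; linarith
  have hH := norm_le_of_re_nonneg hR0 hpd hp0 hs_in
  rw [hsc] at hH
  have e1 : R - (R - δ) = δ := by ring
  rw [e1] at hH
  have hpc : ‖p c‖ ≤ ‖fZ c‖ + M := by
    simp only [hp]
    calc ‖fZ c + M‖ ≤ ‖fZ c‖ + ‖(M:ℂ)‖ := norm_add_le _ _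
      _ = ‖fZ c‖ + M := by
        rw [Complex.norm_real, Real.norm_eq_abs, abs_of_nonneg hM0]
  have h3 : ‖p s‖ ≤ 2 * R / δ * (‖fZ c‖ + M) := by
    refine le_trans hH ?_
    have h5 : R + (R - δ) ≤ 2 * R := by linarith
    have h6 : 0 ≤ R + (R - δ) := by linarith
    calc ‖p c‖ * (R + (R - δ)) / δ ≤ (‖fZ c‖ + M) * (2 * R) / δ := by gcongr
      _ = _ := by ring
  have h4 : ‖fZ s‖ ≤ ‖p s‖ + M := by
    have : fZ s = p s - M := by simp [hp]
    rw [this]
    calc ‖p s - M‖ ≤ ‖p s‖ + ‖(M:ℂ)‖ := norm_sub_le _ _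
      _ = ‖p s‖ + M := by rw [Complex.norm_real, Real.norm_eq_abs, abs_of_nonneg hM0]
  linarith

/-- Bound for `fZ` on a line `Re s = 1 + ε`. -/
lemma exists_norm_fZ_line_le {ε : ℝ} (hε : 0 < ε) :
    ∃ C : ℝ, 0 < C ∧ ∀ s : ℂ, 1 + ε ≤ s.re → ‖fZ s‖ ≤ C := by
  obtain ⟨C₁, hC₁, hb⟩ := exists_norm_fz_le (σ₀ := 1 + ε) (by linarith)
  refine ⟨C₁ + 1 / ε, by positivity, ?_⟩
  intro s hs
  have hs1 : s ≠ 1 := by rintro rfl; simp at hs; linarith
  have hz : riemannZeta s ≠ 0 := riemannZeta_ne_zero_of_one_le_re (by linarith)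
  rw [fZ_eq hs1 hz]
  have h1 := hb s hs
  have h2 : (2:ℝ) ^ (-s.re) ≤ 1 := Real.rpow_le_one_of_one_le_of_nonpos (by norm_num) (by linarith)
  have h3 : ‖1 / (s - 1)‖ ≤ 1 / ε := by
    rw [norm_div, norm_one]
    apply one_div_le_one_div_of_le hε
    have := abs_re_le_norm (s - 1)
    rw [Complex.sub_re, Complex.one_re, abs_of_pos (by linarith)] at this
    linarith
  calc ‖fz s + 1 / (s - 1)‖ ≤ ‖fz s‖ + ‖1 / (s - 1)‖ := norm_add_le _ _
    _ ≤ C₁ + 1 / ε := by nlinarith

lemma exists_fZ_growth (hRH : RiemannHypothesis) {y : ℝ} (hy : 0 < y) :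
    ∃ A : ℝ, 0 < A ∧ ∀ s : ℂ, 1 / 2 + y ≤ s.re → s.re ≤ 2 → ‖fZ s‖ ≤ A * Real.exp |s.im| := by
  obtain ⟨C, hC, hb⟩ := exists_norm_fZ_le hRH
  refine ⟨3 * C / y, by positivity, ?_⟩
  intro s h1 h2
  have h3 := hb s (by linarith) h2
  have habs : 0 ≤ |s.im| := abs_nonneg _
  have h4 : Real.log (|s.im| + 3) ≤ 3 * Real.exp |s.im| := by
    have a1 : Real.log (|s.im| + 3) ≤ |s.im| + 3 := by
      have := Real.log_le_sub_one_of_pos (x := |s.im| + 3) (by positivity); linarith
    have a2 := Real.add_one_le_exp |s.im|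
    linarith
  calc ‖fZ s‖ ≤ C * Real.log (|s.im| + 3) / (s.re - 1 / 2) := h3
    _ ≤ C * (3 * Real.exp |s.im|) / y := by
      have : 0 ≤ Real.log (|s.im| + 3) := Real.log_nonneg (by linarith)
      gcongr
      linarith
    _ = _ := by ring

/-- Claim 1: at distance `5/loglog T` from the critical line, `ζ'/ζ` is `O(log T)`. -/
theorem exists_near_line_bound (hRH : RiemannHypothesis) :
    ∃ C : ℝ, 0 < C ∧ ∀ H : ℝ, 10 ≤ H → ∀ v : ℝ,
      ‖fZ ((1 / 2 + 5 / H : ℝ) + v * I)‖ ≤
        C * Real.exp H * Real.exp |v - Real.exp (Real.exp H)| := by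
  obtain ⟨C₁, hC₁, hb1⟩ := exists_norm_fZ_line_le (ε := 1 / 2) (by norm_num)
  refine ⟨2 * (4 * (Real.exp 1 * C₁) + 20), by positivity, ?_⟩
  intro H hH
  set y : ℝ := 5 / H with hy
  have hH0 : 0 < H := by linarith
  have hy0 : 0 < y := by positivity
  have hy1 : y ≤ 1 / 2 := by
    rw [hy, div_le_iff₀ hH0]; linarith
  have hHy : H * y = 5 := by rw [hy]; field_simp
  set T : ℝ := Real.exp (Real.exp H) with hT
  set l : ℝ := Real.exp H with hl
  have hl10 : 10 < l := by
    have := Real.add_one_le_exp H; rw [hl]; linarith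
  have hT0 : 0 < T := Real.exp_pos _
  have hT1 : 1 ≤ T := by rw [hT]; apply Real.one_le_exp; linarith
  have hlogT : Real.log T = l := by rw [hT, Real.log_exp]
  set W : ℝ → ℝ := fun v => ‖fZ ((1 / 2 + y : ℝ) + v * I)‖ * Real.exp (-|v - T|) with hW
  have hbdd : BddAbove (range W) := by
    obtain ⟨C, hC, hb⟩ := exists_norm_fZ_le hRH
    refine ⟨C / y * (T + 4), ?_⟩
    rintro _ ⟨v, rfl⟩
    simp only [hW]
    have h1 := hb ((1 / 2 + y : ℝ) + v * I) (by simp; exact hy0) (by simp; linarith)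
    have e1 : (((1 / 2 + y : ℝ) : ℂ) + v * I).re - 1 / 2 = y := by simp
    have e2 : (((1 / 2 + y : ℝ) : ℂ) + v * I).im = v := by simp
    rw [e1, e2] at h1
    have h2 : Real.log (|v| + 3) ≤ |v - T| + (T + 3) := by
      have a1 : Real.log (|v| + 3) ≤ |v| + 3 := by
        have := Real.log_le_sub_one_of_pos (x := |v| + 3) (by positivity); linarith
      have a2 : |v| ≤ |v - T| + T := by
        have := abs_add_le (v - T) T
        rw [abs_of_pos hT0] at this
        simpa using this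
      linarith
    have h3 : (|v - T| + (T + 3)) * Real.exp (-|v - T|) ≤ T + 4 := by
      set x := |v - T| with hx
      have hx0 : 0 ≤ x := abs_nonneg _
      have a1 : x * Real.exp (-x) ≤ 1 := by
        rw [Real.exp_neg, ← div_eq_mul_inv, div_le_one (Real.exp_pos _)]
        have := Real.add_one_le_exp x; linarith
      have a2 : Real.exp (-x) ≤ 1 := by
        rw [Real.exp_le_one_iff]; linarith
      nlinarith
    calc ‖fZ ((1 / 2 + y : ℝ) + v * I)‖ * Real.exp (-|v - T|)
        ≤ (C * Real.log (|v| + 3) / y) * Real.exp (-|v - T|) := by gcongr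
      _ ≤ (C * (|v - T| + (T + 3)) / y) * Real.exp (-|v - T|) := by gcongr
      _ = C / y * ((|v - T| + (T + 3)) * Real.exp (-|v - T|)) := by ring
      _ ≤ C / y * (T + 4) := by gcongr
  set Φ := ⨆ v, W v with hΦ
  have hWΦ : ∀ v, W v ≤ Φ := fun v => le_ciSup hbdd v
  have hΦ0 : 0 ≤ Φ := le_trans (by simp only [hW]; positivity) (hWΦ 0)
  obtain ⟨A, hA, hgrow⟩ := exists_fZ_growth hRH hy0
  -- three lines
  have h3L : ∀ u : ℝ, ‖fZ ((1 / 2 + 2 * y : ℝ) + u * I)‖ ≤
      Real.exp (-(15 / 4)) * Φ * Real.exp |u - T| + Real.exp 1 * C₁ * l := by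
    intro u
    have hTL := three_lines (F := fZ) (a := 1 / 2 + y) (b := 3 / 2) (σ := 1 / 2 + 2 * y) (u := u)
      (N := l) (A := A) (Ma := Real.exp (1 / 4) * Φ * Real.exp |u - T|) (Mb := C₁)
      (by linarith) (by linarith)
      (fun s h1 h2 => ((differentiableOn_fZ hRH).differentiableAt
        ((isOpen_re_gt _).mem_nhds (show 1 / 2 < s.re by linarith))))
      (fun s h1 h2 => hgrow s h1 (by linarith)) (by linarith) (by linarith) (by linarith)
      ?_ ?_
    · refine le_trans hTL ?_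
      have e1 : l ^ (1 / 2 + y - (1 / 2 + 2 * y)) = Real.exp (-5) := by
        rw [hl, ← Real.exp_mul]
        congr 1
        have : H * (1 / 2 + y - (1 / 2 + 2 * y)) = -(H * y) := by ring
        rw [this, hHy]
      have e2 : l ^ (3 / 2 - (1 / 2 + 2 * y)) ≤ l := by
        calc l ^ (3 / 2 - (1 / 2 + 2 * y)) ≤ l ^ (1:ℝ) :=
              Real.rpow_le_rpow_of_exponent_le (by linarith) (by linarith)
          _ = l := Real.rpow_one l
      have e3 : Real.exp 1 * (Real.exp (-5) * (Real.exp (1 / 4) * Φ * Real.exp |u - T|)) =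
          Real.exp (-(15 / 4)) * Φ * Real.exp |u - T| := by
        have : Real.exp (-(15 / 4)) = Real.exp 1 * Real.exp (-5) * Real.exp (1 / 4) := by
          rw [← Real.exp_add, ← Real.exp_add]; norm_num
        rw [this]; ring
      have h0 : 0 ≤ Real.exp (-5) * (Real.exp (1 / 4) * Φ * Real.exp |u - T|) := by positivity
      have h0' : 0 ≤ l ^ (3 / 2 - (1 / 2 + 2 * y)) * C₁ := by positivity
      rw [e1]
      calc Real.exp 1 * max (Real.exp (-5) * (Real.exp (1 / 4) * Φ * Real.exp |u - T|))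
            (l ^ (3 / 2 - (1 / 2 + 2 * y)) * C₁)
          ≤ Real.exp 1 * (Real.exp (-5) * (Real.exp (1 / 4) * Φ * Real.exp |u - T|) +
            l ^ (3 / 2 - (1 / 2 + 2 * y)) * C₁) := by
            gcongr
            exact max_le_add_of_nonneg h0 h0'
        _ = Real.exp (-(15 / 4)) * Φ * Real.exp |u - T| +
            Real.exp 1 * (l ^ (3 / 2 - (1 / 2 + 2 * y)) * C₁) := by rw [mul_add, e3]
        _ ≤ Real.exp (-(15 / 4)) * Φ * Real.exp |u - T| + Real.exp 1 * (l * C₁) := by gcongr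
        _ = _ := by ring
    · intro v
      have h1 := hWΦ v
      simp only [hW] at h1
      have h2 : ‖fZ ((1 / 2 + y : ℝ) + v * I)‖ ≤ Φ * Real.exp |v - T| := by
        have e : Real.exp (-|v - T|) * Real.exp |v - T| = 1 := by rw [← Real.exp_add]; simp
        calc ‖fZ ((1 / 2 + y : ℝ) + v * I)‖
            = (‖fZ ((1 / 2 + y : ℝ) + v * I)‖ * Real.exp (-|v - T|)) * Real.exp |v - T| := by
              rw [mul_assoc, e, mul_one]
          _ ≤ Φ * Real.exp |v - T| := by gcongr
      have h3 : Real.exp |v - T| * Real.exp (-(v - u) ^ 2) ≤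
          Real.exp (1 / 4) * Real.exp |u - T| := by
        rw [← Real.exp_add, ← Real.exp_add]
        apply Real.exp_le_exp.mpr
        have a1 := abs_sub_sq_le (v - u)
        have a2 : |v - T| ≤ |v - u| + |u - T| := abs_sub_le v u T
        linarith
      calc ‖fZ ((1 / 2 + y : ℝ) + v * I)‖ * Real.exp (-(v - u) ^ 2)
          ≤ (Φ * Real.exp |v - T|) * Real.exp (-(v - u) ^ 2) := by gcongr
        _ = Φ * (Real.exp |v - T| * Real.exp (-(v - u) ^ 2)) := by ring
        _ ≤ Φ * (Real.exp (1 / 4) * Real.exp |u - T|) := by gcongr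
        _ = _ := by ring
    · intro v
      have h1 := hb1 ((3 / 2 : ℝ) + v * I) (by simp; norm_num)
      have h2 : Real.exp (-(v - u) ^ 2) ≤ 1 := by
        rw [Real.exp_le_one_iff]; nlinarith [sq_nonneg (v - u)]
      calc ‖fZ ((3 / 2 : ℝ) + v * I)‖ * Real.exp (-(v - u) ^ 2) ≤ C₁ * 1 := by gcongr
        _ = C₁ := mul_one _
  -- contraction
  have hcontr : ∀ u : ℝ, W u ≤ Φ / 2 + (4 * (Real.exp 1 * C₁) + 20) * l := by
    intro u
    have h1 := harnack_local hRH (R := 2 * y) (δ := y) (u := u) (by linarith) hy0 (by linarith)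
    have e1 : 2 * (2 * y) / y = 4 := by field_simp; norm_num
    rw [e1] at h1
    have h2 := h3L u
    set M := (1 / 2) * Real.log (|u| + 5) + 2 with hM
    set x := |u - T| with hx
    have hx0 : 0 ≤ x := abs_nonneg _
    have hex : Real.exp (-x) ≤ 1 := by rw [Real.exp_le_one_iff]; linarith
    have hxe : x * Real.exp (-x) ≤ 1 := by
      rw [Real.exp_neg, ← div_eq_mul_inv, div_le_one (Real.exp_pos _)]
      have := Real.add_one_le_exp x; linarith
    have hlogu : Real.log (|u| + 5) ≤ l + 2 + x := by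
      have a1 : |u| + 5 ≤ 6 * T * (1 + x) := by
        have a2 : |u| ≤ x + T := by
          have := abs_add_le (u - T) T
          rw [abs_of_pos hT0] at this
          simpa using this
        nlinarith
      have a3 : Real.log (|u| + 5) ≤ Real.log (6 * T * (1 + x)) :=
        Real.log_le_log (by positivity) a1
      rw [Real.log_mul (by positivity) (by positivity), Real.log_mul (by norm_num) hT0.ne',
        hlogT] at a3
      have a4 : Real.log 6 ≤ 2 := by
        rw [Real.log_le_iff_le_exp (by norm_num)]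
        have h9 := Real.exp_one_gt_d9
        have : Real.exp 2 = Real.exp 1 * Real.exp 1 := by rw [← Real.exp_add]; norm_num
        rw [this]; nlinarith
      have a5 : Real.log (1 + x) ≤ x := by
        have := Real.log_le_sub_one_of_pos (x := 1 + x) (by positivity); linarith
      linarith
    have hMx : M * Real.exp (-x) ≤ 2 * l := by
      have a1 : M ≤ (1 / 2) * (l + 2 + x) + 2 := by rw [hM]; linarith
      calc M * Real.exp (-x) ≤ ((1 / 2) * (l + 2 + x) + 2) * Real.exp (-x) := by gcongr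
        _ = (l / 2 + 3) * Real.exp (-x) + (1 / 2) * (x * Real.exp (-x)) := by ring
        _ ≤ (l / 2 + 3) * 1 + (1 / 2) * 1 := by gcongr
        _ ≤ 2 * l := by linarith
    have h154 : 4 * Real.exp (-(15 / 4)) ≤ 1 / 2 := by
      have a1 : Real.exp (-(15 / 4)) ≤ Real.exp (-3) := Real.exp_le_exp.mpr (by norm_num)
      have a2 : Real.exp (-3) ≤ 1 / 8 := by
        rw [Real.exp_neg, ← one_div]
        apply one_div_le_one_div_of_le (by norm_num)
        have h9 := Real.exp_one_gt_d9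
        have : Real.exp 3 = Real.exp 1 * Real.exp 1 * Real.exp 1 := by
          rw [← Real.exp_add, ← Real.exp_add]; norm_num
        rw [this]
        have h8 : (2:ℝ) ≤ Real.exp 1 := by linarith
        have h7 : (4:ℝ) ≤ Real.exp 1 * Real.exp 1 := by nlinarith
        nlinarith
      linarith
    simp only [hW]
    have hxx : Real.exp x * Real.exp (-x) = 1 := by rw [← Real.exp_add]; simp
    calc ‖fZ ((1 / 2 + y : ℝ) + u * I)‖ * Real.exp (-x)
        ≤ (4 * (‖fZ ((1 / 2 + 2 * y : ℝ) + u * I)‖ + M) + M) * Real.exp (-x) := by gcongr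
      _ ≤ (4 * ((Real.exp (-(15 / 4)) * Φ * Real.exp x + Real.exp 1 * C₁ * l) + M) + M) *
          Real.exp (-x) := by gcongr
      _ = (4 * Real.exp (-(15 / 4))) * Φ * (Real.exp x * Real.exp (-x)) +
          4 * (Real.exp 1 * C₁) * l * Real.exp (-x) + 5 * (M * Real.exp (-x)) := by ring
      _ ≤ (1 / 2) * Φ * 1 + 4 * (Real.exp 1 * C₁) * l * 1 + 5 * (2 * l) := by
          rw [hxx]
          gcongr
      _ ≤ Φ / 2 + (4 * (Real.exp 1 * C₁) + 20) * l := by
          have : 0 < l := by linarith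
          nlinarith
  have hΦle : Φ ≤ Φ / 2 + (4 * (Real.exp 1 * C₁) + 20) * l := ciSup_le hcontr
  have hΦ2 : Φ ≤ 2 * (4 * (Real.exp 1 * C₁) + 20) * l := by linarith
  intro v
  have h1 := hWΦ v
  simp only [hW] at h1
  have e : Real.exp (-|v - T|) * Real.exp |v - T| = 1 := by rw [← Real.exp_add]; simp
  calc ‖fZ ((1 / 2 + y : ℝ) + v * I)‖
      = (‖fZ ((1 / 2 + y : ℝ) + v * I)‖ * Real.exp (-|v - T|)) * Real.exp |v - T| := by
        rw [mul_assoc, e, mul_one]
    _ ≤ Φ * Real.exp |v - T| := by gcongr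
    _ ≤ 2 * (4 * (Real.exp 1 * C₁) + 20) * l * Real.exp |v - T| := by gcongr

end Pool.Agent.Lib.MP_155064_nt
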