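import Pool.Agent.Lib.MP_155064_nt.LogZeta

set_option autoImplicit false

open Complex MeasureTheory Set Filter Asymptotics Topology ComplexConjugate
open scoped Nat

namespace Pool.Agent.Lib.MP_155064_nt

lemma integral_Ioi_shift {E : Type*} [NormedAddCommGroup E] [NormedSpace ℝ E] (f : ℝ → E) (σ : ℝ) :
    ∫ x in Ioi (0:ℝ), f (σ + x) = ∫ x in Ioi σ, f x := by
  have h := (measurePreserving_add_left volume σ).setIntegral_preimage_emb
    (measurableEmbedding_addLeft σ) f (Ioi σ)
  have e : (fun x => σ + x) ⁻¹' Ioi σ = Ioi (0:ℝ) := by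
    ext x; simp
  rw [e] at h
  exact h

lemma P_line (g : ℂ → ℂ) (σ t : ℝ) : P g (σ + t * I) = ∫ x in Ioi σ, g (x + t * I) := by
  rw [← integral_Ioi_shift (fun x : ℝ => g (x + t * I)) σ]
  unfold P
  congr 1
  funext x
  congr 1
  push_cast; ring

lemma J_succ_line (n : ℕ) (σ t : ℝ) : J (n + 1) (σ + t * I) = ∫ x in Ioi σ, J n (x + t * I) :=
  P_line (J n) σ t

lemma J_zero_sub (hRH : RiemannHypothesis) {s : ℂ} (hs : s ∈ U) {a : ℝ} (ha : 0 ≤ a) :
    J 0 s = J 0 (s + a) + Complex.log (s + a - 1) - Complex.log (s - 1) -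
      ∫ x in (0:ℝ)..a, fZ (s + x) := by
  have hcont : ∀ x : ℝ, 0 ≤ x → ContinuousAt (fun x : ℝ => fZ (s + x)) x := by
    intro x hx
    have h1 : ContinuousAt fZ (s + x) :=
      (continuousOn_fZ hRH).continuousAt ((isOpen_re_gt _).mem_nhds (U_add hs hx).1)
    have h2 : ContinuousAt (fun x : ℝ => s + (x:ℂ)) x := by fun_prop
    exact ContinuousAt.comp (f := fun x : ℝ => s + (x:ℂ)) (g := fZ) h1 h2
  have hderiv : ∀ x ∈ uIcc (0:ℝ) a, HasDerivAt
      (fun x : ℝ => J 0 (s + x) + Complex.log (s + x - 1)) (fZ (s + x)) x := by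
    intro x hx
    rw [uIcc_of_le ha] at hx
    have hU := U_add hs hx.1
    have hne := ne_one_of_mem_U hU
    have h0 := riemannZeta_ne_zero hRH hU.1 hne
    have hslit : s + x - 1 ∈ slitPlane := by
      rcases hU.2 with h | h
      · right; simp at h ⊢; exact h.ne'
      · left; simp at h ⊢; linarith
    have h1 := hasDerivAt_J_zero hRH hU
    have h2 : HasDerivAt (fun w : ℂ => Complex.log (w - 1)) (1 / (s + x - 1)) (s + x) := by
      exact ((hasDerivAt_id (s + (x:ℂ))).sub_const 1).clog hslit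
    have h3 := h1.add h2
    rw [← fZ_eq hne h0] at h3
    have h5 : HasDerivAt (fun w : ℂ => J 0 (s + w) + Complex.log (s + w - 1)) (fZ (s + x)) (x:ℂ) :=
      h3.comp_const_add s _
    exact h5.comp_ofReal
  have hint := intervalIntegral.integral_eq_sub_of_hasDerivAt hderiv (by
    apply ContinuousOn.intervalIntegrable
    intro x hx
    rw [uIcc_of_le ha] at hx
    exact (hcont x hx.1).continuousWithinAt)
  rw [hint]
  simp only [Complex.ofReal_zero, add_zero]
  ring

/-- Bound for `J 0` to the right. -/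
lemma exists_J_zero_right (hRH : RiemannHypothesis) :
    ∃ C : ℝ, 0 < C ∧ ∀ s : ℂ, 3 / 2 ≤ s.re → ‖J 0 s‖ ≤ C * Real.exp (-(Real.log 2 * s.re)) := by
  obtain ⟨C, hC, hb⟩ := exists_norm_fz_le (σ₀ := 3 / 2) (by norm_num)
  have hlog2 : 0 < Real.log 2 := Real.log_pos (by norm_num)
  refine ⟨C * (1 / Real.log 2), by positivity, ?_⟩
  intro s hs
  show ‖-(P fz s)‖ ≤ _
  rw [norm_neg]
  have h1 : ‖P fz s‖ ≤ ∫ x in Ioi (0:ℝ), C * Real.exp (-(Real.log 2 * s.re)) * Real.exp (-(Real.log 2 * x)) := by
    unfold P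
    apply norm_integral_le_of_norm_le
    · exact (integrableOn_exp' hlog2).const_mul _
    · filter_upwards [ae_restrict_mem measurableSet_Ioi] with x hx
      have hx0 : (0:ℝ) < x := hx
      refine le_trans (hb (s + x) (by simp; linarith)) (le_of_eq ?_)
      rw [Real.rpow_def_of_pos (by norm_num), mul_assoc, ← Real.exp_add]
      congr 2
      simp; ring
  refine le_trans h1 (le_of_eq ?_)
  rw [integral_const_mul, integral_exp' hlog2]
  ring

/-- Dominating function for `J 0` near the real axis. -/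
noncomputable def b0 (C σ : ℝ) : ℝ :=
  (Iio (3 / 2 : ℝ)).indicator (fun σ => C * (1 + |Real.log (σ - 1 / 2)| + |Real.log (σ - 1)|)) σ +
    C * Real.exp (-(Real.log 2 * σ))

lemma abs_log_le_of {x : ℝ} {a b : ℝ} (ha : 0 < a) (hax : a ≤ x) (hxb : x ≤ b) (hb : 1 ≤ b) :
    |Real.log x| ≤ |Real.log a| + Real.log b := by
  have hx : 0 < x := by linarith
  have hlb : 0 ≤ Real.log b := Real.log_nonneg hb
  rw [abs_le]
  constructor
  · have h1 := Real.log_le_log ha hax
    have h2 := neg_abs_le (Real.log a)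
    linarith
  · have h1 := Real.log_le_log hx hxb
    have h2 := abs_nonneg (Real.log a)
    linarith

lemma norm_clog_le (z : ℂ) : ‖Complex.log z‖ ≤ |Real.log ‖z‖| + Real.pi := by
  have h1 := Complex.norm_le_abs_re_add_abs_im (Complex.log z)
  rw [Complex.log_re, Complex.log_im] at h1
  have h2 := Complex.abs_arg_le_pi z
  linarith

lemma integral_inv_shift {a b : ℝ} (ha : 0 < a) (hb : 0 ≤ b) :
    ∫ x in (0:ℝ)..b, 1 / (a + x) = Real.log (a + b) - Real.log a := by
  have hderiv : ∀ x ∈ uIcc (0:ℝ) b, HasDerivAt (fun x : ℝ => Real.log (a + x)) (1 / (a + x)) x := by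
    intro x hx
    rw [uIcc_of_le hb] at hx
    have h1 : HasDerivAt (fun x : ℝ => a + x) 1 x := by simpa using (hasDerivAt_id x).const_add a
    exact h1.log (by linarith [hx.1])
  have := intervalIntegral.integral_eq_sub_of_hasDerivAt hderiv (by
    apply ContinuousOn.intervalIntegrable
    intro x hx
    rw [uIcc_of_le hb] at hx
    apply ContinuousAt.continuousWithinAt
    apply ContinuousAt.div continuousAt_const (by fun_prop) (by linarith [hx.1]))
  rw [this]; simp

lemma exists_J_zero_bound (hRH : RiemannHypothesis) {T : ℝ} (hT : 0 < T) :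
    ∃ C : ℝ, 0 < C ∧ ∀ σ t : ℝ, 1 / 2 < σ → σ ≠ 1 → 0 < t → t ≤ T → ‖J 0 (σ + t * I)‖ ≤ b0 C σ := by
  obtain ⟨C₁, hC₁, h1⟩ := exists_J_zero_right hRH
  obtain ⟨C₂, hC₂, h2⟩ := exists_norm_fZ_le hRH
  have hpi := Real.pi_pos
  have hlog2 : 0 < Real.log 2 := Real.log_pos (by norm_num)
  set C₃ : ℝ := C₂ * Real.log (T + 3) with hC₃
  have hC₃0 : 0 ≤ C₃ := by
    have := Real.log_nonneg (show (1:ℝ) ≤ T + 3 by linarith)
    positivity
  set L : ℝ := Real.log (1 + T) with hL
  have hL0 : 0 ≤ L := Real.log_nonneg (by linarith)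
  refine ⟨C₁ + C₃ + Real.log 2 + 2 * L + 2 * Real.pi + 1, by positivity, ?_⟩
  intro σ t hσ hσ1 ht htT
  set C := C₁ + C₃ + Real.log 2 + 2 * L + 2 * Real.pi + 1 with hC
  have hC0 : 0 < C := by positivity
  unfold b0
  rcases lt_or_ge σ (3 / 2) with h | h
  · rw [indicator_of_mem (show σ ∈ Iio (3 / 2 : ℝ) from h)]
    have hU := mem_U_line hσ ht
    have ha : 0 ≤ 3 / 2 - σ := by linarith
    have hJ := J_zero_sub hRH hU ha
    have e1 : (σ:ℂ) + t * I + ((3 / 2 - σ : ℝ) : ℂ) = ((3 / 2 : ℝ) : ℂ) + t * I := by push_cast; ring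
    have e2 : (σ:ℂ) + t * I + ((3 / 2 - σ : ℝ) : ℂ) - 1 = ((1 / 2 : ℝ) : ℂ) + t * I := by push_cast; ring
    rw [e2, e1] at hJ
    have n1 : ‖J 0 (((3 / 2 : ℝ) : ℂ) + t * I)‖ ≤ C₁ := by
      refine le_trans (h1 _ (by simp)) ?_
      apply mul_le_of_le_one_right hC₁.le
      rw [Real.exp_le_one_iff]
      have : 0 ≤ Real.log 2 * (((3 / 2 : ℝ) : ℂ) + t * I).re := by
        simp; positivity
      linarith
    have n2 : ‖Complex.log (((1 / 2 : ℝ) : ℂ) + t * I)‖ ≤ Real.log 2 + L + Real.pi := by
      refine le_trans (norm_clog_le _) ?_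
      have h3 : (1:ℝ) / 2 ≤ ‖((1 / 2 : ℝ) : ℂ) + t * I‖ := by
        have := abs_re_le_norm (((1 / 2 : ℝ) : ℂ) + t * I)
        simp only [Complex.add_re, Complex.ofReal_re, Complex.mul_re, Complex.I_re, mul_zero,
          Complex.ofReal_im, Complex.I_im, mul_one, sub_self, add_zero] at this
        rw [abs_of_pos (by norm_num)] at this
        exact this
      have h4 : ‖((1 / 2 : ℝ) : ℂ) + t * I‖ ≤ 1 + T := by
        refine le_trans (norm_add_le _ _) ?_
        rw [norm_mul, Complex.norm_I, mul_one, Complex.norm_real, Complex.norm_real,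
          Real.norm_of_nonneg ht.le, Real.norm_of_nonneg (by norm_num)]
        linarith
      have h5 := abs_log_le_of (by norm_num) h3 h4 (by linarith)
      have h6 : |Real.log (1 / 2)| = Real.log 2 := by
        rw [one_div, Real.log_inv, abs_neg, abs_of_pos hlog2]
      rw [h6] at h5
      linarith
    have n3 : ‖Complex.log ((σ:ℂ) + t * I - 1)‖ ≤ |Real.log (σ - 1)| + L + Real.pi := by
      refine le_trans (norm_clog_le _) ?_
      have h3 : |σ - 1| ≤ ‖(σ:ℂ) + t * I - 1‖ := by
        have := abs_re_le_norm ((σ:ℂ) + t * I - 1)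
        simpa using this
      have h4 : ‖(σ:ℂ) + t * I - 1‖ ≤ 1 + T := by
        have e : (σ:ℂ) + t * I - 1 = ((σ - 1 : ℝ) : ℂ) + t * I := by push_cast; ring
        rw [e]
        refine le_trans (norm_add_le _ _) ?_
        rw [norm_mul, Complex.norm_I, mul_one, Complex.norm_real, Complex.norm_real,
          Real.norm_of_nonneg ht.le, Real.norm_eq_abs]
        have : |σ - 1| ≤ 1 := by rw [abs_le]; constructor <;> linarith
        linarith
      have h5 := abs_log_le_of (abs_pos.mpr (sub_ne_zero.mpr hσ1)) h3 h4 (by linarith)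
      rw [Real.log_abs] at h5
      linarith
    have n4 : ‖∫ x in (0:ℝ)..(3 / 2 - σ), fZ ((σ:ℂ) + t * I + x)‖ ≤ C₃ * |Real.log (σ - 1 / 2)| := by
      have h3 : ‖∫ x in (0:ℝ)..(3 / 2 - σ), fZ ((σ:ℂ) + t * I + x)‖ ≤
          ∫ x in (0:ℝ)..(3 / 2 - σ), C₃ * (1 / (σ - 1 / 2 + x)) := by
        apply intervalIntegral.norm_integral_le_of_norm_le ha
        · filter_upwards with x hx
          have hx0 : 0 < x := hx.1
          have h4 := h2 ((σ:ℂ) + t * I + x) (by simp; linarith) (by simp; linarith [hx.2])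
          refine le_trans h4 ?_
          have e3 : ((σ:ℂ) + t * I + x).im = t := by simp
          have e4 : ((σ:ℂ) + t * I + x).re = σ + x := by simp
          rw [e3, e4, abs_of_pos ht, hC₃]
          have h5 : Real.log (t + 3) ≤ Real.log (T + 3) := Real.log_le_log (by linarith) (by linarith)
          rw [mul_one_div]
          have e5 : σ + x - 1 / 2 = σ - 1 / 2 + x := by ring
          rw [e5]
          have h6 : 0 < σ - 1 / 2 + x := by linarith
          gcongr
        · apply ContinuousOn.intervalIntegrable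
          intro x hx
          rw [uIcc_of_le ha] at hx
          apply ContinuousAt.continuousWithinAt
          apply ContinuousAt.mul continuousAt_const
          apply ContinuousAt.div continuousAt_const (by fun_prop)
          linarith [hx.1]
      refine le_trans h3 ?_
      rw [intervalIntegral.integral_const_mul, integral_inv_shift (by linarith) ha]
      have e6 : σ - 1 / 2 + (3 / 2 - σ) = 1 := by ring
      rw [e6, Real.log_one, zero_sub]
      apply mul_le_mul_of_nonneg_left (neg_le_abs _) hC₃0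
    have hn : ‖J 0 ((σ:ℂ) + t * I)‖ ≤ C₁ + (Real.log 2 + L + Real.pi) + (|Real.log (σ - 1)| + L + Real.pi) +
        C₃ * |Real.log (σ - 1 / 2)| := by
      rw [hJ]
      refine le_trans (norm_sub_le _ _) ?_
      refine add_le_add ?_ n4
      refine le_trans (norm_sub_le _ _) ?_
      refine add_le_add ?_ n3
      refine le_trans (norm_add_le _ _) ?_
      exact add_le_add n1 n2
    have hx1 := abs_nonneg (Real.log (σ - 1))
    have hx2 := abs_nonneg (Real.log (σ - 1 / 2))
    have hexp : 0 ≤ C * Real.exp (-(Real.log 2 * σ)) := by positivity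
    have h7 : C₃ * |Real.log (σ - 1 / 2)| ≤ C * |Real.log (σ - 1 / 2)| := by
      apply mul_le_mul_of_nonneg_right _ hx2
      rw [hC]; linarith
    have h8 : |Real.log (σ - 1)| ≤ C * |Real.log (σ - 1)| := by
      apply le_mul_of_one_le_left hx1
      rw [hC]; linarith
    have h9 : C * (1 + |Real.log (σ - 1 / 2)| + |Real.log (σ - 1)|) =
        C + C * |Real.log (σ - 1 / 2)| + C * |Real.log (σ - 1)| := by ring
    rw [h9]
    linarith
  · rw [indicator_of_notMem (show σ ∉ Iio (3 / 2 : ℝ) from not_lt.mpr h), zero_add]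
    refine le_trans (h1 _ (by simpa using h)) ?_
    have e4 : ((σ:ℂ) + t * I).re = σ := by simp
    rw [e4]
    gcongr
    rw [hC]; linarith

lemma integrableOn_b0 (C : ℝ) : IntegrableOn (b0 C) (Ioi (1 / 2)) := by
  have hlog2 : 0 < Real.log 2 := Real.log_pos (by norm_num)
  apply Integrable.add
  · rw [integrable_indicator_iff measurableSet_Iio]
    unfold IntegrableOn
    rw [Measure.restrict_restrict measurableSet_Iio]
    have e : Iio (3 / 2 : ℝ) ∩ Ioi (1 / 2) = Ioo (1 / 2) (3 / 2) := by
      ext x; simp [and_comm]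
    rw [e]
    have h1 : IntervalIntegrable (fun σ : ℝ => Real.log (σ - 1 / 2)) volume (1 / 2) (3 / 2) := by
      have := (intervalIntegral.intervalIntegrable_log' (a := 0) (b := 1)).comp_sub_right (1 / 2)
      norm_num at this ⊢
      exact this
    have h2 : IntervalIntegrable (fun σ : ℝ => Real.log (σ - 1)) volume (1 / 2) (3 / 2) := by
      have := (intervalIntegral.intervalIntegrable_log' (a := -1 / 2) (b := 1 / 2)).comp_sub_right 1
      norm_num at this ⊢
      exact this
    have h3 : IntervalIntegrable (fun σ : ℝ => C * (1 + |Real.log (σ - 1 / 2)| + |Real.log (σ - 1)|))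
        volume (1 / 2) (3 / 2) := by
      exact ((intervalIntegrable_const.add h1.abs).add h2.abs).const_mul C
    rw [intervalIntegrable_iff_integrableOn_Ioo_of_le (by norm_num)] at h3
    exact h3
  · have := (exp_neg_integrableOn_Ioi (1 / 2) hlog2).const_mul C
    simpa [neg_mul] using this

lemma b0_nonneg {C : ℝ} (hC : 0 < C) (σ : ℝ) : 0 ≤ b0 C σ := by
  unfold b0
  apply add_nonneg _ (by positivity)
  apply indicator_nonneg
  intro x _
  positivity

end Pool.Agent.Lib.MP_155064_nt
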