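import Pool.Agent.Lib.MP_155064_nt.ZetaLower

set_option autoImplicit false

open Complex MeasureTheory Set Filter Asymptotics Topology ComplexConjugate

namespace Pool.Agent.Lib.MP_155064_nt

lemma exists_Gammaℝ_le {a c : ℝ} (ha : 0 < a) (hc : 0 < c) :
    ∃ K : ℝ, 0 < K ∧ ∀ w : ℂ, a ≤ w.re → ‖Gammaℝ w‖ ≤ K * ‖Gammaℝ (w + c)‖ := by
  obtain ⟨K, hK, h⟩ := exists_Gamma_le (a := a / 2) (c := c / 2) (by positivity) (by positivity)
  refine ⟨Real.pi ^ (c / 2) * K, by positivity, ?_⟩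
  intro w hw
  have h1 := h (w / 2) (by simp; linarith)
  have e1 : w / 2 + ((c / 2 : ℝ) : ℂ) = (w + c) / 2 := by push_cast; ring
  rw [e1] at h1
  unfold Gammaℝ
  rw [norm_mul, norm_mul, Complex.norm_cpow_eq_rpow_re_of_pos Real.pi_pos,
    Complex.norm_cpow_eq_rpow_re_of_pos Real.pi_pos]
  have e2 : (-w / 2).re = c / 2 + (-(w + c) / 2).re := by
    simp; ring
  rw [e2, Real.rpow_add Real.pi_pos]
  have h2 : 0 < Real.pi ^ (c / 2) := Real.rpow_pos_of_pos Real.pi_pos _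
  have h3 : 0 < Real.pi ^ (-(w + c) / 2).re := Real.rpow_pos_of_pos Real.pi_pos _
  calc Real.pi ^ (c / 2) * Real.pi ^ (-(w + c) / 2).re * ‖Gamma (w / 2)‖
      ≤ Real.pi ^ (c / 2) * Real.pi ^ (-(w + c) / 2).re * (K * ‖Gamma ((w + c) / 2)‖) := by gcongr
    _ = _ := by ring

lemma norm_le_norm_of_re {w v : ℂ} (him : w.im = v.im) (h0 : 0 ≤ w.re) (h : w.re ≤ v.re) :
    ‖w‖ ≤ ‖v‖ := by
  apply le_of_sq_le_sq _ (norm_nonneg _)
  rw [← Complex.normSq_eq_norm_sq, ← Complex.normSq_eq_norm_sq, Complex.normSq_apply,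
    Complex.normSq_apply, him]
  nlinarith

/-- The basic inequality: `|ξ(s - c)| ≤ |ξ(s)|` for `Re s ≥ 1/2 + c/2`, under RH. -/
theorem norm_Xi_sub_le (hRH : RiemannHypothesis) {c : ℝ} (hc : 0 < c) (hc1 : c < 1 / 2)
    {s : ℂ} (hs : 1 / 2 + c / 2 ≤ s.re) : ‖Xi (s - c)‖ ≤ ‖Xi s‖ := by
  set a : ℝ := 1 / 2 - c / 2 with ha
  set b : ℝ := 1 / 2 + c / 2 with hb
  have ha0 : 0 < a := by rw [ha]; linarith
  have hab : 1 - a = b := by rw [ha, hb]; ring
  set Q : ℂ → ℂ := fun z => Xi ((a : ℂ) + z) / Xi ((b : ℂ) + z) with hQ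
  have hden : ∀ z : ℂ, 0 ≤ z.re → Xi ((b : ℂ) + z) ≠ 0 := by
    intro z hz
    apply Xi_ne_zero hRH
    simp [hb]; linarith
  have hdiff : ∀ z : ℂ, 0 ≤ z.re → DifferentiableAt ℂ Q z := by
    intro z hz
    have h1 : DifferentiableAt ℂ (fun z => Xi ((a : ℂ) + z)) z :=
      (differentiable_Xi _).comp z (by fun_prop)
    have h2 : DifferentiableAt ℂ (fun z => Xi ((b : ℂ) + z)) z :=
      (differentiable_Xi _).comp z (by fun_prop)
    exact h1.div h2 (hden z hz)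
  have hdc : DiffContOnCl ℂ Q {z | 0 < z.re} := by
    apply DifferentiableOn.diffContOnCl
    intro z hz
    apply (hdiff z _).differentiableWithinAt
    rw [Complex.closure_setOfPred_lt_re] at hz
    exact hz
  have him : ∀ y : ℝ, ‖Q (y * I)‖ ≤ 1 := by
    intro y
    simp only [hQ]
    rw [norm_div]
    have h1 := norm_Xi_reflect (a := a) (y := y) (by rw [hab]; linarith)
    rw [hab] at h1
    rw [h1, div_self]
    exact (norm_pos_iff.mpr (hden _ (by simp))).ne'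
  -- bounds
  obtain ⟨K, hK, hKb⟩ := exists_Gammaℝ_le ha0 hc
  obtain ⟨B, hB, hBb⟩ := exists_riemannZeta₁_lower hRH hc (by linarith)
  have hQform : ∀ z : ℂ, 0 ≤ z.re → ‖Q z‖ ≤ K * (‖riemannZeta₁ (a + z)‖ / ‖riemannZeta₁ (b + z)‖) := by
    intro z hz
    have hza : 0 < ((a:ℂ) + z).re := by simp; linarith
    have hzb : 0 < ((b:ℂ) + z).re := by simp [hb]; linarith
    simp only [hQ]
    rw [Xi_eq hza, Xi_eq hzb, norm_div, norm_mul, norm_mul, norm_mul, norm_mul]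
    have h1 := hKb (a + z) (by simp; linarith)
    have e1 : (a:ℂ) + z + c = b + z := by
      have : b = a + c := by rw [ha, hb]; ring
      rw [this]; push_cast; ring
    rw [e1] at h1
    have h2 : ‖(a:ℂ) + z‖ ≤ ‖(b:ℂ) + z‖ := by
      apply norm_le_norm_of_re (by simp) hza.le
      simp [ha, hb]; linarith
    have hn1 : 0 < ‖(b:ℂ) + z‖ := by
      rw [norm_pos_iff]; intro h; rw [h] at hzb; simp at hzb
    have hn2 : 0 < ‖riemannZeta₁ (b + z)‖ := by
      rw [norm_pos_iff]; apply riemannZeta₁_ne_zero hRH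
      simp [hb]; linarith
    have hn3 : 0 < ‖Gammaℝ (b + z)‖ := norm_pos_iff.mpr (Gammaℝ_ne_zero_of_re_pos hzb)
    rw [div_le_iff₀ (by positivity)]
    calc ‖(a:ℂ) + z‖ * ‖riemannZeta₁ (a + z)‖ * ‖Gammaℝ (a + z)‖
        ≤ ‖(b:ℂ) + z‖ * ‖riemannZeta₁ (a + z)‖ * (K * ‖Gammaℝ (b + z)‖) := by gcongr
      _ = K * (‖riemannZeta₁ (a + z)‖ / ‖riemannZeta₁ (b + z)‖) *
          (‖(b:ℂ) + z‖ * ‖riemannZeta₁ (b + z)‖ * ‖Gammaℝ (b + z)‖) := by
          field_simp
  -- far region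
  have hfar : ∀ z : ℂ, 2 ≤ z.re → ‖Q z‖ ≤ 8 * K := by
    intro z hz
    refine le_trans (hQform z (by linarith)) ?_
    have hza : 2 ≤ ((a:ℂ) + z).re := by simp; linarith
    have hzb : 2 ≤ ((b:ℂ) + z).re := by simp [hb]; linarith
    have hne1 : (a:ℂ) + z ≠ 1 := by intro h; rw [h] at hza; norm_num at hza
    have hne2 : (b:ℂ) + z ≠ 1 := by intro h; rw [h] at hzb; norm_num at hzb
    rw [riemannZeta₁_eq_mul hne1, riemannZeta₁_eq_mul hne2, norm_mul, norm_mul]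
    have h1 := norm_zeta_le hza
    have h2 := norm_zeta_ge hzb
    have h3 : ‖(a:ℂ) + z - 1‖ ≤ ‖(b:ℂ) + z - 1‖ := by
      apply norm_le_norm_of_re (by simp)
      · simp at hza ⊢; linarith
      · simp [ha, hb]; linarith
    have h4 : 0 < ‖(b:ℂ) + z - 1‖ := by
      rw [norm_pos_iff]; exact sub_ne_zero.mpr hne2
    have h5 : ‖(a:ℂ) + z - 1‖ * ‖riemannZeta (a + z)‖ / (‖(b:ℂ) + z - 1‖ * ‖riemannZeta (b + z)‖)
        ≤ 8 := by
      rw [div_le_iff₀ (by positivity)]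
      calc ‖(a:ℂ) + z - 1‖ * ‖riemannZeta (a + z)‖ ≤ ‖(b:ℂ) + z - 1‖ * 2 := by gcongr
        _ = 8 * (‖(b:ℂ) + z - 1‖ * (1 / 4)) := by ring
        _ ≤ 8 * (‖(b:ℂ) + z - 1‖ * ‖riemannZeta (b + z)‖) := by gcongr
    calc K * _ ≤ K * 8 := by gcongr
      _ = 8 * K := by ring
  have hre : IsBoundedUnder (· ≤ ·) atTop fun x : ℝ => ‖Q x‖ := by
    refine ⟨8 * K, ?_⟩
    rw [eventually_map]
    filter_upwards [eventually_ge_atTop 2] with x hx
    exact hfar x (by simpa using hx)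
  have hexp : ∃ c < (2 : ℝ), ∃ B, Q =O[Bornology.cobounded ℂ ⊓ 𝓟 {z | 0 < z.re}]
      fun z => Real.exp (B * ‖z‖ ^ c) := by
    refine ⟨1, by norm_num, B + 2, ?_⟩
    apply IsBigO.of_bound (8 * K + K * ((1 + 1 / a) * Real.exp (B + 4)))
    rw [eventually_inf_principal]
    filter_upwards with z hz
    have hz0 : 0 < z.re := hz
    have hnorm : ‖Real.exp ((B + 2) * ‖z‖ ^ (1:ℝ))‖ = Real.exp ((B + 2) * ‖z‖) := by
      rw [Real.rpow_one, Real.norm_eq_abs, Real.abs_exp]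
    rw [hnorm]
    have hE1 : 1 ≤ Real.exp ((B + 2) * ‖z‖) := Real.one_le_exp (by positivity)
    rcases le_or_gt 2 z.re with h | h
    · calc ‖Q z‖ ≤ 8 * K := hfar z h
        _ = 8 * K * 1 := by ring
        _ ≤ (8 * K + K * ((1 + 1 / a) * Real.exp (B + 4))) * Real.exp ((B + 2) * ‖z‖) := by
          apply mul_le_mul _ hE1 zero_le_one (by positivity)
          have : 0 ≤ K * ((1 + 1 / a) * Real.exp (B + 4)) := by positivity
          linarith
    · have h1 := hQform z hz0.le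
      have h2 := hBb (b + z) (by simp [hb]; linarith) (by simp [hb]; linarith)
      have him1 : ((b:ℂ) + z).im = z.im := by simp
      rw [him1] at h2
      have h3 := norm_riemannZeta₁_le (s := a + z) (by simp; linarith)
      have hre1 : a ≤ ((a:ℂ) + z).re := by simp; linarith
      have hn1 : ‖(a:ℂ) + z‖ ≤ 1 + ‖z‖ := by
        calc ‖(a:ℂ) + z‖ ≤ ‖(a:ℂ)‖ + ‖z‖ := norm_add_le _ _
          _ ≤ 1 + ‖z‖ := by
            rw [Complex.norm_real, Real.norm_eq_abs, abs_of_pos ha0]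
            have : a ≤ 1 := by rw [ha]; linarith
            linarith
      have hn2 : ‖(a:ℂ) + z - 1‖ ≤ 2 + ‖z‖ := by
        calc ‖(a:ℂ) + z - 1‖ ≤ ‖(a:ℂ) + z‖ + ‖(1:ℂ)‖ := norm_sub_le _ _
          _ ≤ 2 + ‖z‖ := by rw [norm_one]; linarith
      have hn3 : ‖riemannZeta₁ (a + z)‖ ≤ (1 + 1 / a) * Real.exp (2 * (1 + ‖z‖)) := by
        have hx : 0 ≤ ‖z‖ := norm_nonneg z
        have hE : 2 + ‖z‖ ≤ Real.exp (1 + ‖z‖) := by
          have := Real.add_one_le_exp (1 + ‖z‖); linarith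
        calc ‖riemannZeta₁ (a + z)‖ ≤ ‖(a:ℂ) + z‖ * (1 + ‖(a:ℂ) + z - 1‖ / ((a:ℂ) + z).re) := h3
          _ ≤ (1 + ‖z‖) * (1 + (2 + ‖z‖) / a) := by
            have hpa : 0 < ((a:ℂ) + z).re := lt_of_lt_of_le ha0 hre1
            gcongr
          _ ≤ (2 + ‖z‖) * ((1 + 1 / a) * (2 + ‖z‖)) := by
            have e : (1 + 1 / a) * (2 + ‖z‖) = (2 + ‖z‖) + (2 + ‖z‖) / a := by field_simp
            rw [e]
            have : 0 ≤ (2 + ‖z‖) / a := by positivity
            nlinarith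
          _ = (1 + 1 / a) * ((2 + ‖z‖) * (2 + ‖z‖)) := by ring
          _ ≤ (1 + 1 / a) * (Real.exp (1 + ‖z‖) * Real.exp (1 + ‖z‖)) := by gcongr
          _ = (1 + 1 / a) * Real.exp (2 * (1 + ‖z‖)) := by
            rw [← Real.exp_add]; congr 2; ring
      have hpos : 0 < ‖riemannZeta₁ (b + z)‖ := lt_of_lt_of_le (Real.exp_pos _) h2
      have hn4 : 1 / ‖riemannZeta₁ (b + z)‖ ≤ Real.exp (B * (1 + ‖z‖)) := by
        rw [div_le_iff₀ hpos]
        have h5 : Real.exp (-(B * (1 + ‖z‖))) ≤ Real.exp (-(B * (1 + |z.im|))) := by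
          apply Real.exp_le_exp.mpr
          have := Complex.abs_im_le_norm z
          nlinarith
        calc (1:ℝ) = Real.exp (B * (1 + ‖z‖)) * Real.exp (-(B * (1 + ‖z‖))) := by
              rw [← Real.exp_add]; simp
          _ ≤ Real.exp (B * (1 + ‖z‖)) * ‖riemannZeta₁ (b + z)‖ := by
              gcongr
              exact le_trans h5 h2
      calc ‖Q z‖ ≤ K * (‖riemannZeta₁ (a + z)‖ / ‖riemannZeta₁ (b + z)‖) := h1
        _ = K * (‖riemannZeta₁ (a + z)‖ * (1 / ‖riemannZeta₁ (b + z)‖)) := by ring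
        _ ≤ K * (((1 + 1 / a) * Real.exp (2 * (1 + ‖z‖))) * Real.exp (B * (1 + ‖z‖))) := by
          gcongr
        _ = K * ((1 + 1 / a) * Real.exp (B + 2)) * Real.exp ((B + 2) * ‖z‖) := by
          have : Real.exp (2 * (1 + ‖z‖)) * Real.exp (B * (1 + ‖z‖)) =
              Real.exp (B + 2) * Real.exp ((B + 2) * ‖z‖) := by
            rw [← Real.exp_add, ← Real.exp_add]; congr 1; ring
          rw [mul_assoc (1 + 1 / a), this]; ring
        _ ≤ (8 * K + K * ((1 + 1 / a) * Real.exp (B + 4))) * Real.exp ((B + 2) * ‖z‖) := by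
          gcongr
          have h6 : Real.exp (B + 2) ≤ Real.exp (B + 4) := Real.exp_le_exp.mpr (by linarith)
          have h7 : K * ((1 + 1 / a) * Real.exp (B + 2)) ≤ K * ((1 + 1 / a) * Real.exp (B + 4)) := by
            gcongr
          have : 0 ≤ 8 * K := by positivity
          linarith
  have hmain := PhragmenLindelof.right_half_plane_of_bounded_on_real hdc hexp hre him
    (z := s - b) (by simp; linarith)
  simp only [hQ] at hmain
  have e1 : (a:ℂ) + (s - b) = s - c := by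
    have : b = a + c := by rw [ha, hb]; ring
    rw [this]; push_cast; ring
  have e2 : (b:ℂ) + (s - b) = s := by ring
  rw [e1, e2, norm_div] at hmain
  have hXi : 0 < ‖Xi s‖ := norm_pos_iff.mpr (Xi_ne_zero hRH (by linarith))
  rwa [div_le_one hXi] at hmain

/-- Positivity of `Re ξ'/ξ` to the right of the critical line, under RH. -/
theorem re_logDeriv_Xi_nonneg (hRH : RiemannHypothesis) {s : ℂ} (hs : 1 / 2 < s.re) :
    0 ≤ (logDeriv Xi s).re := by
  apply re_logDeriv_nonneg_of_norm_le (c₀ := min (1 / 2) (2 * (s.re - 1 / 2)))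
    (differentiable_Xi s) (Xi_ne_zero hRH hs)
  · apply lt_min (by norm_num); linarith
  · intro c hc hc1
    have h1 := lt_of_lt_of_le hc1 (min_le_left _ _)
    have h2 := lt_of_lt_of_le hc1 (min_le_right _ _)
    exact norm_Xi_sub_le hRH hc h1 (by linarith)

end Pool.Agent.Lib.MP_155064_nt
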