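import Pool.Agent.Lib.MP_155064_nt.Decay

set_option autoImplicit false

open Complex MeasureTheory Set Filter Asymptotics Topology ComplexConjugate

namespace Pool.Agent.Lib.MP_155064_nt

/-- The domain on which `log ζ` is defined: to the right of the critical line, off the real
segment `(1/2, 1]`, upper part (together with the half-plane `Re s > 1`). -/
def U : Set ℂ := {s | 1 / 2 < s.re ∧ (0 < s.im ∨ 1 < s.re)}

lemma isOpen_U : IsOpen U := by
  unfold U
  apply IsOpen.inter (isOpen_re_gt _)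
  exact (isOpen_lt continuous_const Complex.continuous_im).union (isOpen_re_gt 1)

lemma U_add {s : ℂ} (hs : s ∈ U) {x : ℝ} (hx : 0 ≤ x) : s + x ∈ U := by
  obtain ⟨h1, h2⟩ := hs
  refine ⟨by simp; linarith, ?_⟩
  rcases h2 with h | h
  · left; simpa using h
  · right; simp; linarith

lemma mem_U_of_one_lt {s : ℂ} (hs : 1 < s.re) : s ∈ U := ⟨by linarith, Or.inr hs⟩

lemma ne_one_of_mem_U {s : ℂ} (hs : s ∈ U) : s ≠ 1 := by
  rintro rfl
  obtain ⟨_, h⟩ := hs
  simp at h

/-- Analytic on `U` with exponential decay to the right. -/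
structure Good (g : ℂ → ℂ) : Prop where
  diff : DifferentiableOn ℂ g U
  decay : ∃ C κ a : ℝ, 0 < C ∧ 0 < κ ∧ 1 < a ∧ ∀ s : ℂ, a ≤ s.re → ‖g s‖ ≤ C * Real.exp (-(κ * s.re))

/-- Tail integral operator. -/
noncomputable def P (g : ℂ → ℂ) (s : ℂ) : ℂ := ∫ x in Ioi (0:ℝ), g (s + x)

lemma Good.continuousOn_ray {g : ℂ → ℂ} (hg : Good g) {s : ℂ} (hs : s ∈ U) :
    ContinuousOn (fun x : ℝ => g (s + x)) (Ici 0) := by
  intro x hx
  have h1 : ContinuousAt g (s + x) :=
    (hg.diff.differentiableAt (isOpen_U.mem_nhds (U_add hs hx))).continuousAt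
  have h2 : ContinuousAt (fun x : ℝ => s + (x:ℂ)) x := by fun_prop
  exact (ContinuousAt.comp (f := fun x : ℝ => s + (x:ℂ)) (g := g) h1 h2).continuousWithinAt

lemma Good.isBigO_ray {g : ℂ → ℂ} (hg : Good g) (s : ℂ) :
    ∃ κ : ℝ, 0 < κ ∧ (fun x : ℝ => g (s + x)) =O[atTop] fun x => Real.exp (-κ * x) := by
  obtain ⟨C, κ, a, hC, hκ, ha, hb⟩ := hg.decay
  refine ⟨κ, hκ, ?_⟩
  apply IsBigO.of_bound (C * Real.exp (-(κ * s.re)))
  filter_upwards [eventually_ge_atTop (a - s.re)] with x hx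
  have h1 := hb (s + x) (by simp; linarith)
  refine le_trans h1 (le_of_eq ?_)
  rw [Real.norm_eq_abs, Real.abs_exp, mul_assoc, ← Real.exp_add]
  congr 2
  simp; ring

lemma Good.integrableOn_ray {g : ℂ → ℂ} (hg : Good g) {s : ℂ} (hs : s ∈ U) :
    IntegrableOn (fun x : ℝ => g (s + x)) (Ioi 0) := by
  obtain ⟨κ, hκ, hO⟩ := hg.isBigO_ray s
  have h1 : IntegrableOn (fun x : ℝ => ‖g (s + x)‖) (Ioi 0) :=
    integrable_of_isBigO_exp_neg hκ (hg.continuousOn_ray hs).norm hO.norm_left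
  have hm : AEStronglyMeasurable (fun x : ℝ => g (s + x)) (volume.restrict (Ioi 0)) :=
    ((hg.continuousOn_ray hs).mono Ioi_subset_Ici_self).aestronglyMeasurable measurableSet_Ioi
  exact (integrable_norm_iff hm).mp h1

lemma Good.tendsto_ray {g : ℂ → ℂ} (hg : Good g) (s : ℂ) :
    Tendsto (fun x : ℝ => g (s + x)) atTop (𝓝 0) := by
  obtain ⟨κ, hκ, hO⟩ := hg.isBigO_ray s
  apply hO.trans_tendsto
  have : Tendsto (fun x : ℝ => -κ * x) atTop atBot :=
    tendsto_id.const_mul_atTop_of_neg (by linarith)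
  exact Real.tendsto_exp_atBot.comp this

lemma Good.deriv {g : ℂ → ℂ} (hg : Good g) : Good (deriv g) := by
  refine ⟨hg.diff.deriv isOpen_U, ?_⟩
  obtain ⟨C, κ, a, hC, hκ, ha, hb⟩ := hg.decay
  refine ⟨C * Real.exp κ, κ, a + 1, by positivity, hκ, by linarith, ?_⟩
  intro s hs
  have hball : ∀ w ∈ Metric.closedBall s 1, a ≤ w.re ∧ s.re - 1 ≤ w.re := by
    intro w hw
    rw [Metric.mem_closedBall, dist_eq_norm] at hw
    have h1 := abs_le.mp (le_trans (abs_re_le_norm (w - s)) hw)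
    simp only [Complex.sub_re] at h1
    constructor <;> linarith
  have hd : DiffContOnCl ℂ g (Metric.ball s 1) := by
    apply DifferentiableOn.diffContOnCl
    rw [closure_ball s one_ne_zero]
    apply hg.diff.mono
    intro w hw
    exact mem_U_of_one_lt (lt_of_lt_of_le ha (hball w hw).1)
  have := norm_deriv_le_of_forall_mem_sphere_norm_le (c := s) (R := 1)
    (C := C * Real.exp κ * Real.exp (-(κ * s.re))) one_pos hd ?_
  · simpa using this
  · intro w hw
    have hw' := hball w (Metric.sphere_subset_closedBall hw)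
    refine le_trans (hb w hw'.1) ?_
    rw [mul_assoc, ← Real.exp_add]
    gcongr
    nlinarith [hw'.2]

/-- Uniform exponential bound near a point of `U`. -/
lemma Good.unif {g : ℂ → ℂ} (hg : Good g) {s₀ : ℂ} (hs₀ : s₀ ∈ U) :
    ∃ r D κ : ℝ, 0 < r ∧ 0 < κ ∧ Metric.closedBall s₀ r ⊆ U ∧
      ∀ s ∈ Metric.closedBall s₀ r, ∀ x : ℝ, 0 ≤ x → ‖g (s + x)‖ ≤ D * Real.exp (-(κ * x)) := by
  obtain ⟨C, κ, a, hC, hκ, ha, hb⟩ := hg.decay
  obtain ⟨r, hr, hsub⟩ := Metric.nhds_basis_closedBall.mem_iff.mp (isOpen_U.mem_nhds hs₀)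
  set R : ℝ := |a - s₀.re + r| with hR
  have hR0 : 0 ≤ R := abs_nonneg _
  set K : Set ℂ := (fun p : ℂ × ℝ => p.1 + (p.2 : ℂ)) '' (Metric.closedBall s₀ r ×ˢ Icc (0:ℝ) R) with hK
  have hKc : IsCompact K := by
    apply IsCompact.image
    · exact (isCompact_closedBall s₀ r).prod isCompact_Icc
    · fun_prop
  have hKU : K ⊆ U := by
    rintro _ ⟨⟨s, x⟩, ⟨h1, h2⟩, rfl⟩
    exact U_add (hsub h1) h2.1
  obtain ⟨M, hM⟩ := hKc.exists_bound_of_continuousOn (hg.diff.continuousOn.mono hKU)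
  have hM0 : 0 ≤ max M 0 := le_max_right _ _
  refine ⟨r, max M 0 * Real.exp (κ * R) + C * Real.exp (-(κ * (s₀.re - r))), κ, hr, hκ, hsub, ?_⟩
  intro s hs x hx
  have hsre : s₀.re - r ≤ s.re := by
    rw [Metric.mem_closedBall, dist_eq_norm] at hs
    have h1 := abs_le.mp (le_trans (abs_re_le_norm (s - s₀)) hs)
    simp only [Complex.sub_re] at h1
    linarith
  rcases le_or_gt x R with h | h
  · have h1 : ‖g (s + x)‖ ≤ M := hM _ ⟨(s, x), ⟨hs, ⟨hx, h⟩⟩, rfl⟩
    have h2 : 1 ≤ Real.exp (κ * R) * Real.exp (-(κ * x)) := by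
      rw [← Real.exp_add]; apply Real.one_le_exp; nlinarith
    calc ‖g (s + x)‖ ≤ max M 0 := le_trans h1 (le_max_left _ _)
      _ = max M 0 * 1 := (mul_one _).symm
      _ ≤ max M 0 * (Real.exp (κ * R) * Real.exp (-(κ * x))) := by gcongr
      _ = (max M 0 * Real.exp (κ * R)) * Real.exp (-(κ * x)) := by ring
      _ ≤ _ := by
        gcongr
        have : 0 ≤ C * Real.exp (-(κ * (s₀.re - r))) := by positivity
        linarith
  · have hre : a ≤ (s + x).re := by
      have : a - s₀.re + r ≤ R := le_abs_self _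
      simp; linarith
    have h1 := hb (s + x) hre
    calc ‖g (s + x)‖ ≤ C * Real.exp (-(κ * (s + x).re)) := h1
      _ ≤ C * (Real.exp (-(κ * (s₀.re - r))) * Real.exp (-(κ * x))) := by
        gcongr
        rw [← Real.exp_add]
        apply Real.exp_le_exp.mpr
        simp only [Complex.add_re, Complex.ofReal_re]
        nlinarith
      _ = (C * Real.exp (-(κ * (s₀.re - r)))) * Real.exp (-(κ * x)) := by ring
      _ ≤ _ := by
        gcongr
        have : 0 ≤ max M 0 * Real.exp (κ * R) := by positivity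
        linarith

/-- The tail integral is a primitive of `-g`. -/
theorem Good.hasDerivAt_P {g : ℂ → ℂ} (hg : Good g) {s₀ : ℂ} (hs₀ : s₀ ∈ U) :
    HasDerivAt (P g) (-(g s₀)) s₀ := by
  obtain ⟨r, D, κ, hr, hκ, hsub, hbound⟩ := hg.deriv.unif hs₀
  have hmem : Metric.closedBall s₀ r ∈ 𝓝 s₀ := Metric.closedBall_mem_nhds s₀ hr
  have key := hasDerivAt_integral_of_dominated_loc_of_deriv_le (μ := volume.restrict (Ioi (0:ℝ)))
    (F := fun s (x : ℝ) => g (s + x)) (F' := fun s (x : ℝ) => _root_.deriv g (s + x))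
    (bound := fun x => D * Real.exp (-(κ * x))) (x₀ := s₀) hmem ?_ (hg.integrableOn_ray hs₀)
    ?_ ?_ ?_ ?_
  · have h1 := key.2
    have h2 : ∫ x in Ioi (0:ℝ), _root_.deriv g (s₀ + x) = -(g s₀) := by
      have h3 := integral_Ioi_of_hasDerivAt_of_tendsto' (f := fun x : ℝ => g (s₀ + x))
        (f' := fun x : ℝ => _root_.deriv g (s₀ + x)) (a := 0) (m := 0) ?_ key.1 (hg.tendsto_ray s₀)
      · rw [h3]; simp
      · intro x hx
        have h4 : HasDerivAt g (_root_.deriv g (s₀ + x)) (s₀ + x) :=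
          (hg.diff.differentiableAt (isOpen_U.mem_nhds (U_add hs₀ hx))).hasDerivAt
        have h5 : HasDerivAt (fun w : ℂ => g (s₀ + w)) (_root_.deriv g (s₀ + x)) (x:ℂ) :=
          h4.comp_const_add s₀ _
        exact h5.comp_ofReal
    rw [h2] at h1
    exact h1
  · filter_upwards [isOpen_U.mem_nhds hs₀] with s hs
    exact (hg.integrableOn_ray hs).aestronglyMeasurable
  · exact (hg.deriv.integrableOn_ray hs₀).aestronglyMeasurable
  · filter_upwards [ae_restrict_mem measurableSet_Ioi] with x hx s hs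
    exact hbound s hs x (le_of_lt hx)
  · have := (exp_neg_integrableOn_Ioi 0 hκ).const_mul D
    simpa [neg_mul] using this
  · filter_upwards [ae_restrict_mem measurableSet_Ioi] with x hx s hs
    have h4 : HasDerivAt g (_root_.deriv g (s + x)) (s + x) :=
      (hg.diff.differentiableAt (isOpen_U.mem_nhds (U_add (hsub hs) (le_of_lt hx)))).hasDerivAt
    exact h4.comp_add_const s _

lemma Good.P {g : ℂ → ℂ} (hg : Good g) : Good (P g) := by
  refine ⟨fun s hs => (hg.hasDerivAt_P hs).differentiableAt.differentiableWithinAt, ?_⟩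
  obtain ⟨C, κ, a, hC, hκ, ha, hb⟩ := hg.decay
  refine ⟨C / κ, κ, a, by positivity, hκ, ha, ?_⟩
  intro s hs
  have h1 : ‖Pool.Agent.Lib.MP_155064_nt.P g s‖ ≤
      ∫ x in Ioi (0:ℝ), C * Real.exp (-(κ * s.re)) * Real.exp (-κ * x) := by
    unfold Pool.Agent.Lib.MP_155064_nt.P
    apply norm_integral_le_of_norm_le
    · exact (exp_neg_integrableOn_Ioi 0 hκ).const_mul _
    · filter_upwards [ae_restrict_mem measurableSet_Ioi] with x hx
      have hx0 : (0:ℝ) < x := hx
      refine le_trans (hb (s + x) (by simp; linarith)) (le_of_eq ?_)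
      rw [mul_assoc, ← Real.exp_add]
      congr 2
      simp; ring
  refine le_trans h1 (le_of_eq ?_)
  rw [integral_const_mul, integral_exp_mul_Ioi (by linarith) 0]
  simp
  field_simp

/-- `P (P g) = ∫ x g(s+x) dx`. -/
theorem Good.P_P {g : ℂ → ℂ} (hg : Good g) {s : ℂ} (hs : s ∈ U) :
    Pool.Agent.Lib.MP_155064_nt.P (Pool.Agent.Lib.MP_155064_nt.P g) s =
      ∫ x in Ioi (0:ℝ), (x:ℂ) * g (s + x) := by
  obtain ⟨C, κ, a, hC, hκ, ha, hb⟩ := hg.decay
  have hint1 : IntegrableOn (fun x : ℝ => Pool.Agent.Lib.MP_155064_nt.P g (s + x)) (Ioi 0) :=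
    hg.P.integrableOn_ray hs
  obtain ⟨r, D, κ', hr, hκ', hsub, hbound⟩ := hg.unif hs
  have hD : ∀ x : ℝ, 0 ≤ x → ‖g (s + x)‖ ≤ D * Real.exp (-(κ' * x)) :=
    fun x hx => hbound s (Metric.mem_closedBall_self hr.le) x hx
  have hint2 : IntegrableOn (fun x : ℝ => (x:ℂ) * g (s + x)) (Ioi 0) := by
    have hI : IntegrableOn (fun x : ℝ => x ^ (1:ℝ) * Real.exp (-κ' * x)) (Ioi 0) := by
      have := integrableOn_rpow_mul_exp_neg_mul_rpow (s := 1) (p := 1) (b := κ') (by norm_num)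
        one_pos hκ'
      simpa using this
    have hI2 := hI.const_mul D
    apply Integrable.mono' hI2
    · apply AEStronglyMeasurable.mul
      · exact Complex.measurable_ofReal.aestronglyMeasurable
      · exact (hg.integrableOn_ray hs).aestronglyMeasurable
    · filter_upwards [ae_restrict_mem measurableSet_Ioi] with x hx
      have hx0 : (0:ℝ) < x := hx
      rw [norm_mul, Complex.norm_real, Real.norm_eq_abs, abs_of_pos hx0, Real.rpow_one]
      have := hD x hx0.le
      calc x * ‖g (s + x)‖ ≤ x * (D * Real.exp (-(κ' * x))) := by gcongr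
        _ = D * (x * Real.exp (-κ' * x)) := by rw [neg_mul]; ring
  have hderiv : ∀ x ∈ Ici (0:ℝ), HasDerivAt (fun x : ℝ => (x:ℂ) * Pool.Agent.Lib.MP_155064_nt.P g (s + x))
      (Pool.Agent.Lib.MP_155064_nt.P g (s + x) - (x:ℂ) * g (s + x)) x := by
    intro x hx
    have h4 := hg.hasDerivAt_P (U_add hs hx)
    have h5 : HasDerivAt (fun w : ℂ => Pool.Agent.Lib.MP_155064_nt.P g (s + w)) (-(g (s + x))) (x:ℂ) :=
      h4.comp_const_add s _
    have h6 : HasDerivAt (fun w : ℂ => w * Pool.Agent.Lib.MP_155064_nt.P g (s + w))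
        (1 * Pool.Agent.Lib.MP_155064_nt.P g (s + x) + (x:ℂ) * (-(g (s + x)))) (x:ℂ) :=
      (hasDerivAt_id (x:ℂ)).mul h5
    have h7 := h6.comp_ofReal
    convert h7 using 1
    ring
  have htend : Tendsto (fun x : ℝ => (x:ℂ) * Pool.Agent.Lib.MP_155064_nt.P g (s + x)) atTop (𝓝 0) := by
    obtain ⟨κ₂, hκ₂, hO⟩ := hg.P.isBigO_ray s
    have h1 : (fun x : ℝ => (x:ℂ) * Pool.Agent.Lib.MP_155064_nt.P g (s + x)) =O[atTop]
        fun x : ℝ => x * Real.exp (-κ₂ * x) := by
      apply IsBigO.mul _ hO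
      apply IsBigO.of_bound 1
      filter_upwards with x
      simp
    apply h1.trans_tendsto
    have := tendsto_rpow_mul_exp_neg_mul_atTop_nhds_zero 1 κ₂ hκ₂
    simpa using this
  have hfin := integral_Ioi_of_hasDerivAt_of_tendsto' hderiv (hint1.sub hint2) htend
  rw [integral_sub hint1 hint2] at hfin
  simp only [Complex.ofReal_zero, zero_mul, sub_zero] at hfin
  have e : Pool.Agent.Lib.MP_155064_nt.P (Pool.Agent.Lib.MP_155064_nt.P g) s =
      ∫ x in Ioi (0:ℝ), Pool.Agent.Lib.MP_155064_nt.P g (s + x) := rfl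
  rw [e]
  exact sub_eq_zero.mp hfin

end Pool.Agent.Lib.MP_155064_nt
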