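import Pool.Agent.Lib.MP_155064_nt.LogDerivZeta

set_option autoImplicit false

open Complex MeasureTheory Set Filter Asymptotics Topology ComplexConjugate

namespace Pool.Agent.Lib.MP_155064_nt

lemma abs_sub_sq_le (x : ℝ) : |x| - x ^ 2 ≤ 1 / 4 := by
  have : x ^ 2 = |x| ^ 2 := (sq_abs x).symm
  rw [this]
  nlinarith [sq_nonneg (|x| - 1 / 2)]

/-- A weighted three-lines inequality. -/
lemma three_lines {F : ℂ → ℂ} {a b σ u N A Ma Mb : ℝ} (hab : a < b) (hba : b ≤ a + 1)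
    (hF : ∀ s : ℂ, a ≤ s.re → s.re ≤ b → DifferentiableAt ℂ F s)
    (hgrow : ∀ s : ℂ, a ≤ s.re → s.re ≤ b → ‖F s‖ ≤ A * Real.exp |s.im|)
    (hN : 0 < N) (hσa : a ≤ σ) (hσb : σ ≤ b)
    (hMa : ∀ v : ℝ, ‖F (a + v * I)‖ * Real.exp (-(v - u) ^ 2) ≤ Ma)
    (hMb : ∀ v : ℝ, ‖F (b + v * I)‖ * Real.exp (-(v - u) ^ 2) ≤ Mb) :
    ‖F (σ + u * I)‖ ≤ Real.exp 1 * max (N ^ (a - σ) * Ma) (N ^ (b - σ) * Mb) := by
  set s₀ : ℂ := σ + u * I with hs₀
  have hs₀re : s₀.re = σ := by simp [hs₀]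
  have hs₀im : s₀.im = u := by simp [hs₀]
  set G : ℂ → ℂ := fun s => F s * (exp ((s - s₀) ^ 2) * exp ((s - s₀) * (Real.log N : ℂ))) with hG
  have hMa0 : 0 ≤ Ma := le_trans (by positivity) (hMa 0)
  have hMb0 : 0 ≤ Mb := le_trans (by positivity) (hMb 0)
  -- norm of the weight
  have hw : ∀ s : ℂ, a ≤ s.re → s.re ≤ b →
      ‖exp ((s - s₀) ^ 2) * exp ((s - s₀) * (Real.log N : ℂ))‖ ≤
        Real.exp 1 * Real.exp (-(s.im - u) ^ 2) * N ^ (s.re - σ) := by
    intro s h1 h2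
    rw [norm_mul, Complex.norm_exp, Complex.norm_exp]
    have e1 : ((s - s₀) ^ 2).re = (s.re - σ) ^ 2 - (s.im - u) ^ 2 := by
      rw [sq, Complex.mul_re, Complex.sub_re, Complex.sub_im, hs₀re, hs₀im]; ring
    have e2 : ((s - s₀) * (Real.log N : ℂ)).re = (s.re - σ) * Real.log N := by
      rw [Complex.re_mul_ofReal, Complex.sub_re, hs₀re]
    rw [e1, e2]
    have e3 : Real.exp ((s.re - σ) * Real.log N) = N ^ (s.re - σ) := by
      rw [Real.rpow_def_of_pos hN, mul_comm]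
    rw [e3]
    have e4 : (s.re - σ) ^ 2 ≤ 1 := by
      have : |s.re - σ| ≤ 1 := by rw [abs_le]; constructor <;> linarith
      rw [← sq_abs]; nlinarith [abs_nonneg (s.re - σ)]
    have e5 : Real.exp ((s.re - σ) ^ 2 - (s.im - u) ^ 2) ≤
        Real.exp 1 * Real.exp (-(s.im - u) ^ 2) := by
      rw [← Real.exp_add]; apply Real.exp_le_exp.mpr; linarith
    have : 0 ≤ N ^ (s.re - σ) := by positivity
    gcongr
  have hGd : ∀ s : ℂ, a ≤ s.re → s.re ≤ b → DifferentiableAt ℂ G s := by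
    intro s h1 h2
    have := hF s h1 h2
    simp only [hG]
    fun_prop
  have hcl : closure (re ⁻¹' Ioo a b) = re ⁻¹' Icc a b := by
    rw [closure_preimage_re]
    rw [closure_Ioo hab.ne]
  have hdc : DiffContOnCl ℂ G (re ⁻¹' Ioo a b) := by
    apply DifferentiableOn.diffContOnCl
    intro s hs
    rw [hcl] at hs
    exact (hGd s hs.1 hs.2).differentiableWithinAt
  have hA0 : 0 ≤ A := by
    have := hgrow (a : ℂ) (by simp) (by simpa using hab.le)
    simp at this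
    exact le_trans (norm_nonneg _) this
  have hbig : ∃ c < Real.pi / (b - a), ∃ B,
      G =O[comap (_root_.abs ∘ im) atTop ⊓ 𝓟 (re ⁻¹' Ioo a b)]
        fun z ↦ Real.exp (B * Real.exp (c * |z.im|)) := by
    refine ⟨0, by have := sub_pos.mpr hab; positivity, 0, ?_⟩
    apply IsBigO.of_bound (A * Real.exp 1 * Real.exp (|u| + 1 / 4) * (max (N ^ (1:ℝ)) (N ^ (-1:ℝ))))
    rw [eventually_inf_principal]
    filter_upwards with s hs
    have h1 : a ≤ s.re := hs.1.le
    have h2 : s.re ≤ b := hs.2.le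
    simp only [zero_mul, Real.exp_zero, norm_one, mul_one]
    simp only [hG]
    rw [norm_mul]
    have h3 := hw s h1 h2
    have h4 := hgrow s h1 h2
    have h5 : N ^ (s.re - σ) ≤ max (N ^ (1:ℝ)) (N ^ (-1:ℝ)) := by
      rcases le_or_gt 1 N with h | h
      · exact le_max_of_le_left (Real.rpow_le_rpow_of_exponent_le h (by linarith))
      · exact le_max_of_le_right (Real.rpow_le_rpow_of_exponent_ge hN h.le (by linarith))
    have h6 : Real.exp |s.im| * Real.exp (-(s.im - u) ^ 2) ≤ Real.exp (|u| + 1 / 4) := by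
      rw [← Real.exp_add]
      apply Real.exp_le_exp.mpr
      have := abs_sub_sq_le (s.im - u)
      have h7 : |s.im| ≤ |u| + |s.im - u| := by
        have := abs_add_le u (s.im - u)
        simpa using this
      linarith
    calc ‖F s‖ * ‖exp ((s - s₀) ^ 2) * exp ((s - s₀) * (Real.log N : ℂ))‖
        ≤ (A * Real.exp |s.im|) * (Real.exp 1 * Real.exp (-(s.im - u) ^ 2) * N ^ (s.re - σ)) := by
          gcongr
      _ = A * Real.exp 1 * (Real.exp |s.im| * Real.exp (-(s.im - u) ^ 2)) * N ^ (s.re - σ) := by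
          ring
      _ ≤ A * Real.exp 1 * Real.exp (|u| + 1 / 4) * (max (N ^ (1:ℝ)) (N ^ (-1:ℝ))) := by
          gcongr
  set C := Real.exp 1 * max (N ^ (a - σ) * Ma) (N ^ (b - σ) * Mb) with hC
  have hle_a : ∀ z : ℂ, re z = a → ‖G z‖ ≤ C := by
    intro z hz
    have h3 := hw z (by rw [hz]) (by rw [hz]; exact hab.le)
    simp only [hG]
    rw [norm_mul]
    have e : (a:ℂ) + (z.im) * I = z := by rw [← hz]; exact re_add_im z
    have h4 := hMa z.im
    rw [e] at h4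
    rw [hz] at h3
    calc ‖F z‖ * ‖exp ((z - s₀) ^ 2) * exp ((z - s₀) * (Real.log N : ℂ))‖
        ≤ ‖F z‖ * (Real.exp 1 * Real.exp (-(z.im - u) ^ 2) * N ^ (a - σ)) := by gcongr
      _ = Real.exp 1 * (N ^ (a - σ) * (‖F z‖ * Real.exp (-(z.im - u) ^ 2))) := by ring
      _ ≤ Real.exp 1 * (N ^ (a - σ) * Ma) := by gcongr
      _ ≤ C := by rw [hC]; gcongr; exact le_max_left _ _
  have hle_b : ∀ z : ℂ, re z = b → ‖G z‖ ≤ C := by
    intro z hz
    have h3 := hw z (by rw [hz]; exact hab.le) (by rw [hz])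
    simp only [hG]
    rw [norm_mul]
    have e : (b:ℂ) + (z.im) * I = z := by rw [← hz]; exact re_add_im z
    have h4 := hMb z.im
    rw [e] at h4
    rw [hz] at h3
    calc ‖F z‖ * ‖exp ((z - s₀) ^ 2) * exp ((z - s₀) * (Real.log N : ℂ))‖
        ≤ ‖F z‖ * (Real.exp 1 * Real.exp (-(z.im - u) ^ 2) * N ^ (b - σ)) := by gcongr
      _ = Real.exp 1 * (N ^ (b - σ) * (‖F z‖ * Real.exp (-(z.im - u) ^ 2))) := by ring
      _ ≤ Real.exp 1 * (N ^ (b - σ) * Mb) := by gcongr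
      _ ≤ C := by rw [hC]; gcongr; exact le_max_right _ _
  have hfin := PhragmenLindelof.vertical_strip hdc hbig hle_a hle_b (z := s₀)
    (by rw [hs₀re]; exact hσa) (by rw [hs₀re]; exact hσb)
  simpa [hG] using hfin

end Pool.Agent.Lib.MP_155064_nt
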