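import Pool.Agent.Lib.MP_155064_nt.ZetaGrowth

set_option autoImplicit false

open Complex MeasureTheory Set Filter Asymptotics Topology ComplexConjugate

namespace Pool.Agent.Lib.MP_155064_nt

/-- Twice the Riemann xi function: `s (s-1) Λ(s)`, entire. -/
noncomputable def Xi (s : ℂ) : ℂ := s * (s - 1) * completedRiemannZeta₀ s + 1

lemma differentiable_Xi : Differentiable ℂ Xi := by
  unfold Xi
  have := differentiable_completedZeta₀
  fun_prop

lemma Xi_one_sub (s : ℂ) : Xi (1 - s) = Xi s := by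
  unfold Xi
  rw [completedRiemannZeta₀_one_sub]
  ring

lemma Xi_eq_completed {s : ℂ} (h0 : s ≠ 0) (h1 : s ≠ 1) :
    Xi s = s * (s - 1) * completedRiemannZeta s := by
  unfold Xi
  rw [completedRiemannZeta_eq]
  have h1' : (1:ℂ) - s ≠ 0 := sub_ne_zero.mpr h1.symm
  field_simp
  ring

lemma riemannZeta₁_eq_mul {s : ℂ} (h : s ≠ 1) : riemannZeta₁ s = (s - 1) * riemannZeta s := by
  have hne' : s - 1 ≠ 0 := sub_ne_zero.mpr h
  rw [riemannZeta_eq_inv_sub_mul h]; field_simp

lemma Xi_eq {s : ℂ} (hs : 0 < s.re) : Xi s = s * riemannZeta₁ s * Gammaℝ s := by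
  have h0 : s ≠ 0 := by rintro rfl; simp at hs
  rcases eq_or_ne s 1 with rfl | h1
  · simp [Xi, Gammaℝ_one]
  · rw [Xi_eq_completed h0 h1, riemannZeta₁_eq_mul h1, riemannZeta_def_of_ne_zero h0]
    have := Gammaℝ_ne_zero_of_re_pos hs
    field_simp

lemma riemannZeta₁_conj (s : ℂ) : riemannZeta₁ (conj s) = conj (riemannZeta₁ s) := by
  rcases eq_or_ne s 1 with rfl | h1
  · simp
  · have h2 : conj s ≠ 1 := by
      intro h; apply h1
      have := congrArg conj h
      simpa using this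
    rw [riemannZeta₁_eq_mul h1, riemannZeta₁_eq_mul h2, riemannZeta_conj, map_mul, map_sub, map_one]

lemma Gammaℝ_conj (s : ℂ) : Gammaℝ (conj s) = conj (Gammaℝ s) := by
  unfold Gammaℝ
  rw [map_mul]
  congr 1
  · have harg : ((Real.pi : ℝ) : ℂ).arg ≠ Real.pi := by
      rw [Complex.arg_ofReal_of_nonneg Real.pi_pos.le]
      exact Real.pi_pos.ne
    have h1 : -conj s / 2 = conj (-s / 2) := by
      rw [map_div₀, map_neg, conj_ofNat]
    rw [h1]
    have := Complex.conj_cpow ((Real.pi : ℝ) : ℂ) (-s/2) harg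
    rw [Complex.conj_ofReal] at this
    rw [this, Complex.conj_conj]
  · rw [← Complex.Gamma_conj]; congr 1; rw [map_div₀, conj_ofNat]

lemma Xi_conj {s : ℂ} (hs : 0 < s.re) : Xi (conj s) = conj (Xi s) := by
  rw [Xi_eq hs, Xi_eq (by simpa using hs), riemannZeta₁_conj, Gammaℝ_conj, map_mul, map_mul]

/-- On `Re s = 1/2 - c/2`, the modulus of `Xi` equals that at the reflected point. -/
lemma norm_Xi_reflect {a y : ℝ} (ha : 0 < 1 - a) :
    ‖Xi (a + y * I)‖ = ‖Xi ((1 - a : ℝ) + y * I)‖ := by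
  have h1 : ((1 - a : ℝ) : ℂ) + y * I = conj (1 - (a + y * I)) := by
    apply Complex.ext <;> simp
  rw [h1, Xi_conj (by simpa using ha), Xi_one_sub, Complex.norm_conj]

lemma riemannZeta₁_ne_zero (hRH : RiemannHypothesis) {s : ℂ} (hs : 1 / 2 < s.re) :
    riemannZeta₁ s ≠ 0 := by
  rcases eq_or_ne s 1 with rfl | h1
  · simp
  · rw [riemannZeta₁_eq_mul h1]
    apply mul_ne_zero (sub_ne_zero.mpr h1)
    intro h0
    have := hRH s h0 ?_ h1
    · rw [this] at hs; exact lt_irrefl _ hs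
    · rintro ⟨n, hn⟩
      rw [hn] at hs
      simp at hs
      have : (0:ℝ) ≤ n := Nat.cast_nonneg n
      linarith

lemma riemannZeta_ne_zero (hRH : RiemannHypothesis) {s : ℂ} (hs : 1 / 2 < s.re) (h1 : s ≠ 1) :
    riemannZeta s ≠ 0 := by
  have := riemannZeta₁_ne_zero hRH hs
  rw [riemannZeta₁_eq_mul h1] at this
  exact right_ne_zero_of_mul this

lemma Xi_ne_zero (hRH : RiemannHypothesis) {s : ℂ} (hs : 1 / 2 < s.re) : Xi s ≠ 0 := by
  rw [Xi_eq (by linarith)]
  have h0 : s ≠ 0 := by rintro rfl; simp at hs; linarith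
  exact mul_ne_zero (mul_ne_zero h0 (riemannZeta₁_ne_zero hRH hs))
    (Gammaℝ_ne_zero_of_re_pos (by linarith))

end Pool.Agent.Lib.MP_155064_nt
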