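import Pool.Agent.Lib.MP_155064_nt.Digamma

set_option autoImplicit false

open Complex MeasureTheory Set Filter Asymptotics Topology ComplexConjugate

namespace Pool.Agent.Lib.MP_155064_nt

lemma norm_zeta_sub_one_le {s : ℂ} (hs : 2 ≤ s.re) : ‖riemannZeta s - 1‖ ≤ Real.pi ^ 2 / 6 - 1 := by
  have hs1 : 1 < s.re := by linarith
  have h1 := zeta_eq_tsum_one_div_nat_add_one_cpow hs1
  have hz2 : HasSum (fun n : ℕ => 1 / ((n:ℝ) + 1) ^ 2) (Real.pi ^ 2 / 6) := by
    have h := hasSum_zeta_two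
    have h' := (hasSum_nat_add_iff' (f := fun n : ℕ => 1 / (n:ℝ) ^ 2) 1).mpr h
    simpa using h'
  have hsumm : Summable (fun n : ℕ => 1 / ((n:ℂ) + 1) ^ s) := by
    apply Summable.of_norm_bounded hz2.summable
    intro n
    have hn : (0:ℝ) < (n:ℝ) + 1 := by positivity
    have e : ((n:ℂ) + 1) = (((n:ℝ) + 1 : ℝ) : ℂ) := by push_cast; rfl
    rw [norm_div, norm_one, e, Complex.norm_cpow_eq_rpow_re_of_pos hn]
    apply one_div_le_one_div_of_le (by positivity)
    rw [← Real.rpow_natCast]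
    apply Real.rpow_le_rpow_of_exponent_le
    · have : (0:ℝ) ≤ n := Nat.cast_nonneg n
      linarith
    · simpa using hs
  have h2 : riemannZeta s - 1 = ∑' n : ℕ, 1 / (((n + 1 : ℕ):ℂ) + 1) ^ s := by
    rw [h1, hsumm.tsum_eq_zero_add]
    simp
  rw [h2]
  have hz3 : HasSum (fun n : ℕ => 1 / (((n + 1 : ℕ):ℝ) + 1) ^ 2) (Real.pi ^ 2 / 6 - 1) := by
    have h' := (hasSum_nat_add_iff' (f := fun n : ℕ => 1 / ((n:ℝ) + 1) ^ 2) 1).mpr hz2
    simpa using h'
  rw [← hz3.tsum_eq]
  apply tsum_of_norm_bounded hz3.summable.hasSum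
  intro n
  have hn : (0:ℝ) < ((n + 1 : ℕ):ℝ) + 1 := by positivity
  have e : (((n + 1 : ℕ):ℂ) + 1) = ((((n + 1 : ℕ):ℝ) + 1 : ℝ) : ℂ) := by push_cast; rfl
  rw [norm_div, norm_one, e, Complex.norm_cpow_eq_rpow_re_of_pos hn]
  apply one_div_le_one_div_of_le (by positivity)
  rw [← Real.rpow_natCast]
  apply Real.rpow_le_rpow_of_exponent_le
  · have : (0:ℝ) ≤ ((n + 1 : ℕ):ℝ) := Nat.cast_nonneg _
    linarith
  · simpa using hs

lemma norm_zeta_ge {s : ℂ} (hs : 2 ≤ s.re) : 1 / 4 ≤ ‖riemannZeta s‖ := by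
  have h := norm_zeta_sub_one_le hs
  have h1 : ‖(1:ℂ)‖ - ‖riemannZeta s‖ ≤ ‖riemannZeta s - 1‖ := by
    rw [← norm_neg (riemannZeta s - 1), neg_sub]
    exact norm_sub_norm_le _ _
  have hpi : Real.pi ^ 2 < 10 := by
    have := Real.pi_lt_d2
    have h0 := Real.pi_pos
    nlinarith
  rw [norm_one] at h1
  linarith

lemma norm_zeta_le {s : ℂ} (hs : 2 ≤ s.re) : ‖riemannZeta s‖ ≤ 2 := by
  have h := norm_zeta_sub_one_le hs
  have h1 : ‖riemannZeta s‖ ≤ ‖riemannZeta s - 1‖ + ‖(1:ℂ)‖ := norm_le_norm_sub_add _ _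
  have hpi : Real.pi ^ 2 < 10 := by
    have := Real.pi_lt_d2
    have h0 := Real.pi_pos
    nlinarith
  rw [norm_one] at h1
  linarith

/-- A branch of the logarithm of a nonvanishing analytic function on a ball, normalized at the
centre: `F(s) = F(c) exp(g(s))`, `g(c) = 0`. -/
lemma exists_log_on_ball {F : ℂ → ℂ} {c : ℂ} {R : ℝ} (hR : 0 < R)
    (hF : DifferentiableOn ℂ F (Metric.ball c R)) (h0 : ∀ s ∈ Metric.ball c R, F s ≠ 0) :
    ∃ g : ℂ → ℂ, g c = 0 ∧ DifferentiableOn ℂ g (Metric.ball c R) ∧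
      (∀ s ∈ Metric.ball c R, HasDerivAt g (logDeriv F s) s) ∧
      ∀ s ∈ Metric.ball c R, F s = F c * exp (g s) := by
  have hopen : IsOpen (Metric.ball c R) := Metric.isOpen_ball
  have hd : DifferentiableOn ℂ (logDeriv F) (Metric.ball c R) := by
    have : DifferentiableOn ℂ (fun s => deriv F s / F s) (Metric.ball c R) :=
      (hF.deriv hopen).div hF h0
    exact this.congr (fun s _ => by rw [logDeriv_apply])
  obtain ⟨g, hg0, hg⟩ := (hd.isExactOn_ball).with_val_at c 0
  refine ⟨g, hg0, fun s hs => (hg s hs).differentiableAt.differentiableWithinAt, hg, ?_⟩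
  have hconst : ∀ s ∈ Metric.ball c R, F s * exp (-(g s)) = F c * exp (-(g c)) := by
    have hcc : c ∈ Metric.ball c R := Metric.mem_ball_self hR
    have hder : ∀ s ∈ Metric.ball c R, HasDerivAt (fun s => F s * exp (-(g s))) 0 s := by
      intro s hs
      have h1 : HasDerivAt F (deriv F s) s := (hF.differentiableAt (hopen.mem_nhds hs)).hasDerivAt
      have h2 := (hg s hs).neg.cexp
      have h3 := h1.mul h2
      have e : deriv F s * exp (-(g s)) + F s * (exp (-(g s)) * -(logDeriv F s)) = 0 := by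
        rw [logDeriv_apply]
        have := h0 s hs
        field_simp
        ring
      simp only [Pi.neg_apply] at h3
      rw [e] at h3
      exact h3
    intro s hs
    have hconv : Convex ℝ (Metric.ball c R) := convex_ball c R
    have hdiff : DifferentiableOn ℂ (fun s => F s * exp (-(g s))) (Metric.ball c R) :=
      fun s hs => (hder s hs).differentiableAt.differentiableWithinAt
    apply hopen.eqOn_of_deriv_eq hconv.isPreconnected hdiff
      (differentiableOn_const (F c * exp (-(g c)))) _ hcc rfl hs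
    intro s hs
    rw [(hder s hs).deriv]; simp
  intro s hs
  have := hconst s hs
  rw [hg0] at this
  simp only [neg_zero, exp_zero, mul_one] at this
  rw [← this, mul_assoc, ← exp_add]; simp

/-- Lower bound for `(s-1)ζ(s)` to the right of the critical line, under RH. -/
lemma exists_riemannZeta₁_lower (hRH : RiemannHypothesis) {c : ℝ} (hc : 0 < c) (hc1 : c < 1) :
    ∃ B : ℝ, 0 < B ∧ ∀ s : ℂ, 1 / 2 + c / 2 ≤ s.re → s.re ≤ 3 →
      Real.exp (-(B * (1 + |s.im|))) ≤ ‖riemannZeta₁ s‖ := by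
  refine ⟨2 + 6 / c * 42, by positivity, ?_⟩
  intro s hs1 hs2
  set t := s.im with ht
  set s₀ : ℂ := 2 + t * I with hs₀
  have hs₀re : s₀.re = 2 := by simp [hs₀]
  have hs₀im : s₀.im = t := by simp [hs₀]
  have hball : ∀ w ∈ Metric.ball s₀ (3 / 2), 1 / 2 < w.re ∧ w.re < 7 / 2 ∧ |w.im| ≤ |t| + 3 / 2 := by
    intro w hw
    rw [Metric.mem_ball, dist_eq_norm] at hw
    have h1 := abs_le.mp (le_trans (abs_re_le_norm (w - s₀)) hw.le)
    have h1' : |(w - s₀).re| < 3 / 2 := lt_of_le_of_lt (abs_re_le_norm _) hw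
    have h2 : |(w - s₀).im| < 3 / 2 := lt_of_le_of_lt (abs_im_le_norm _) hw
    rw [abs_lt] at h1'
    simp only [Complex.sub_re, hs₀re, Complex.sub_im, hs₀im] at h1' h2
    refine ⟨by linarith, by linarith, ?_⟩
    have := abs_sub_abs_le_abs_sub w.im t
    linarith
  obtain ⟨g, hg0, hgd, _, hgexp⟩ := exists_log_on_ball (F := riemannZeta₁) (c := s₀) (R := 3 / 2)
    (by norm_num) (differentiable_riemannZeta₁.differentiableOn)
    (fun w hw => riemannZeta₁_ne_zero hRH (hball w hw).1)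
  -- bounds at the centre
  have hs₀ne : s₀ ≠ 1 := by
    intro h; have := congrArg Complex.re h; rw [hs₀re] at this; norm_num at this
  have hcen : 1 / 4 ≤ ‖riemannZeta₁ s₀‖ := by
    rw [riemannZeta₁_eq_mul hs₀ne, norm_mul]
    have h1 : 1 ≤ ‖s₀ - 1‖ := by
      have := abs_re_le_norm (s₀ - 1)
      rw [Complex.sub_re, hs₀re, Complex.one_re] at this
      norm_num at this
      exact this
    have h2 := norm_zeta_ge (s := s₀) (by rw [hs₀re])
    nlinarith [norm_nonneg (riemannZeta s₀)]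
  have hcenpos : 0 < ‖riemannZeta₁ s₀‖ := by linarith
  -- upper bound on the ball
  have hup : ∀ w ∈ Metric.ball s₀ (3 / 2), (g w).re ≤ 42 * (1 + |t|) := by
    intro w hw
    obtain ⟨hw1, hw2, hw3⟩ := hball w hw
    have h1 := norm_riemannZeta₁_le (s := w) (by linarith)
    have hnw : ‖w‖ ≤ 5 + |t| := by
      have := Complex.norm_le_abs_re_add_abs_im w
      have h2 : |w.re| = w.re := abs_of_pos (by linarith)
      linarith
    have hnw1 : ‖w - 1‖ ≤ 6 + |t| := by
      calc ‖w - 1‖ ≤ ‖w‖ + ‖(1:ℂ)‖ := norm_sub_le _ _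
        _ ≤ 6 + |t| := by rw [norm_one]; linarith
    have h3 : ‖w - 1‖ / w.re ≤ 2 * (6 + |t|) := by
      rw [div_le_iff₀ (by linarith)]
      nlinarith [abs_nonneg t]
    have h4 : ‖riemannZeta₁ w‖ ≤ (5 + |t|) * (1 + 2 * (6 + |t|)) := by
      calc ‖riemannZeta₁ w‖ ≤ ‖w‖ * (1 + ‖w - 1‖ / w.re) := h1
        _ ≤ (5 + |t|) * (1 + 2 * (6 + |t|)) := by
          apply mul_le_mul hnw (by linarith) (by positivity) (by positivity)
    have h5 : ‖riemannZeta₁ w‖ = ‖riemannZeta₁ s₀‖ * Real.exp ((g w).re) := by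
      rw [hgexp w hw, norm_mul, Complex.norm_exp]
    have h6 : Real.exp ((g w).re) ≤ 4 * ((5 + |t|) * (1 + 2 * (6 + |t|))) := by
      have : (1 / 4) * Real.exp ((g w).re) ≤ ‖riemannZeta₁ s₀‖ * Real.exp ((g w).re) := by
        gcongr
      linarith
    have h7 : 4 * ((5 + |t|) * (1 + 2 * (6 + |t|))) ≤ Real.exp (42 * (1 + |t|)) := by
      have ha : (5 + |t|) ≤ Real.exp (5 + |t|) := by
        have := Real.add_one_le_exp (5 + |t|); linarith
      have hb : 1 + 2 * (6 + |t|) ≤ Real.exp (1 + 2 * (6 + |t|)) := by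
        have := Real.add_one_le_exp (1 + 2 * (6 + |t|)); linarith
      have hc' : (4:ℝ) ≤ Real.exp 4 := by
        have := Real.add_one_le_exp (4:ℝ); linarith
      calc 4 * ((5 + |t|) * (1 + 2 * (6 + |t|)))
          ≤ Real.exp 4 * (Real.exp (5 + |t|) * Real.exp (1 + 2 * (6 + |t|))) := by
            gcongr
        _ = Real.exp (22 + 3 * |t|) := by
            rw [← Real.exp_add, ← Real.exp_add]; congr 1; ring
        _ ≤ Real.exp (42 * (1 + |t|)) := by
            apply Real.exp_le_exp.mpr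
            nlinarith [abs_nonneg t]
    exact Real.exp_le_exp.mp (le_trans h6 h7)
  -- Borel–Carathéodory
  have hsball : ‖s - s₀‖ ≤ 3 / 2 - c / 2 := by
    have : s - s₀ = ((s.re - 2 : ℝ) : ℂ) := by
      apply Complex.ext <;> simp [hs₀, ht]
    rw [this, Complex.norm_real, Real.norm_eq_abs, abs_le]
    constructor <;> linarith
  set G : ℂ → ℂ := fun z => g (s₀ + z) with hG
  have hGd : DifferentiableOn ℂ G (Metric.ball 0 (3 / 2)) := by
    apply hgd.comp (differentiableOn_id.const_add s₀)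
    intro z hz
    simpa [Metric.mem_ball, dist_eq_norm] using hz
  have hGmap : MapsTo G (Metric.ball 0 (3 / 2)) {z | z.re ≤ 42 * (1 + |t|)} := by
    intro z hz
    apply hup
    simpa [Metric.mem_ball, dist_eq_norm] using hz
  have hz : (s - s₀) ∈ Metric.ball (0:ℂ) (3 / 2) := by
    rw [Metric.mem_ball, dist_zero_right]; linarith
  have hBC := borelCaratheodory_zero (f := G) (M := 42 * (1 + |t|)) (R := 3 / 2) (z := s - s₀)
    (by positivity) hGd hGmap (by norm_num) hz (by simp [hG, hg0])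
  have hGs : G (s - s₀) = g s := by simp [hG]
  rw [hGs] at hBC
  have hbound : ‖g s‖ ≤ 6 / c * 42 * (1 + |t|) := by
    refine le_trans hBC ?_
    rw [div_le_iff₀ (by linarith)]
    have h1 : c / 2 ≤ 3 / 2 - ‖s - s₀‖ := by linarith
    have h2 : ‖s - s₀‖ ≤ 3 / 2 := by linarith
    have h3 : 0 ≤ 6 / c * 42 * (1 + |t|) := by positivity
    calc 2 * (42 * (1 + |t|)) * ‖s - s₀‖ ≤ 2 * (42 * (1 + |t|)) * (3 / 2) := by gcongr
      _ = (6 / c * 42 * (1 + |t|)) * (c / 2) := by field_simp; ring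
      _ ≤ (6 / c * 42 * (1 + |t|)) * (3 / 2 - ‖s - s₀‖) := by gcongr
  have hs_in : s ∈ Metric.ball s₀ (3 / 2) := by
    rw [Metric.mem_ball, dist_eq_norm]; linarith
  rw [hgexp s hs_in, norm_mul, Complex.norm_exp]
  have hre : -(6 / c * 42 * (1 + |t|)) ≤ (g s).re := by
    have := abs_re_le_norm (g s)
    have h2 := (abs_le.mp (le_trans this hbound)).1
    exact h2
  calc Real.exp (-((2 + 6 / c * 42) * (1 + |t|)))
      ≤ Real.exp (-2 + -(6 / c * 42 * (1 + |t|))) := by
        apply Real.exp_le_exp.mpr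
        nlinarith [abs_nonneg t]
    _ = Real.exp (-2) * Real.exp (-(6 / c * 42 * (1 + |t|))) := by rw [Real.exp_add]
    _ ≤ ‖riemannZeta₁ s₀‖ * Real.exp ((g s).re) := by
        have h1 : Real.exp (-2) ≤ 1 / 4 := by
          rw [Real.exp_neg, ← one_div]
          apply one_div_le_one_div_of_le (by norm_num)
          have := Real.add_one_le_exp (2:ℝ)
          have h2 : Real.exp 2 = Real.exp 1 * Real.exp 1 := by rw [← Real.exp_add]; norm_num
          have h3 := Real.exp_one_gt_d9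
          nlinarith
        apply mul_le_mul (le_trans h1 hcen) (Real.exp_le_exp.mpr hre) (by positivity) (by positivity)

end Pool.Agent.Lib.MP_155064_nt
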